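import Pool.Agent.PowCyc.Structure

/-!
# From finitely many ratios to finitely many parameters
-/

namespace PowCyc

variable {K : Type*} [Field K]

lemma Book_finite_pow_eq {n : ℕ} (hn : 0 < n) (u : K) : {z : K | z ^ n = u}.Finite := by
  classical
  refine ((Polynomial.nthRoots n u).toFinset.finite_toSet).subset ?_
  intro z hz
  simp only [Finset.mem_coe, Multiset.mem_toFinset]
  exact (Polynomial.mem_nthRoots hn).2 hz

/-- the finite set of parameters in the book-keeping -/
def Book_set (d : ℕ) (R : Set K) : Set K :=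
  (⋃ t ∈ R, ⋃ t' ∈ R, (fun z : K => t * z - z ^ d) ''
      {z : K | z ^ (d - 1) = t * (t' - 1) / (t ^ d - 1)}) ∪
  (⋃ t ∈ R, (fun z : K => z - z ^ d) '' {z : K | z ^ (d - 1) = (G d t 1)⁻¹}) ∪
  ({0} ∪ {z : K | z ^ (d - 1) = -1})

lemma Book_set_finite {d : ℕ} (hd : 2 ≤ d) {R : Set K} (hR : R.Finite) :
    (Book_set d R).Finite := by
  have hn : 0 < d - 1 := by omega
  unfold Book_set
  refine ((hR.biUnion fun t _ => hR.biUnion fun t' _ =>
    (Book_finite_pow_eq hn _).image _).union ?_).union
    ((Set.finite_singleton _).union (Book_finite_pow_eq hn _))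
  exact hR.biUnion fun t _ => (Book_finite_pow_eq hn _).image _

lemma Book_main {d : ℕ} (hd : 2 ≤ d) {R : Set K}
    (h : ∀ c x y : K, Per d c x → Per d c y → x ≠ y → y ≠ 0 → x / y ∈ R)
    {c x : K} (hx : Per d c x) (hne : f d c x ≠ x) (hx0 : x ≠ 0) (hx1 : f d c x ≠ 0) :
    c ∈ Book_set d R := by
  have h1 : Per d c (f d c x) := hx.map
  have h2 : Per d c (f d c (f d c x)) := h1.map
  have hne' : f d c (f d c x) ≠ f d c x := fun hh => hne (Per.inj h1 hx hh)
  have ht : f d c x / x ∈ R := h c _ _ h1 hx hne hx0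
  have ht' : f d c (f d c x) / f d c x ∈ R := h c _ _ h2 h1 hne' hx1
  refine Or.inl (Or.inl ?_)
  simp only [Set.mem_iUnion]
  refine ⟨_, ht, _, ht', x, ?_, ?_⟩
  · obtain ⟨n, rfl⟩ : ∃ n, d = n + 1 := ⟨d - 1, by omega⟩
    have e2 : f (n + 1) c (f (n + 1) c x) - f (n + 1) c x
        = (f (n + 1) c x) ^ (n + 1) - x ^ (n + 1) := by
      simp only [f]; ring
    generalize f (n + 1) c (f (n + 1) c x) = b at *
    generalize f (n + 1) c x = a at *
    have hab : a ^ (n + 1) - x ^ (n + 1) ≠ 0 := by
      rw [← e2]; exact sub_ne_zero.2 hne'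
    have hden : (a / x) ^ (n + 1) - 1 ≠ 0 := by
      intro h0
      apply hab
      rw [div_pow, sub_eq_zero, div_eq_one_iff_eq (pow_ne_zero _ hx0)] at h0
      rw [h0, sub_self]
    show x ^ (n + 1 - 1) = a / x * (b / a - 1) / ((a / x) ^ (n + 1) - 1)
    rw [eq_div_iff hden, Nat.add_sub_cancel]
    have e3 : a / x * (b / a - 1) = (b - a) / x := by
      field_simp
    rw [e3, e2, eq_div_iff hx0, div_pow]
    have hxp : x ^ (n + 1) ≠ 0 := pow_ne_zero _ hx0
    field_simp
    ring
  · show f d c x / x * x - x ^ d = c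
    rw [div_mul_cancel₀ _ hx0, f]; ring

/-- If the ratios `x / y` of pairs of distinct periodic points (`y ≠ 0`) all lie in a finite set `R`,
then only finitely many `c` have two distinct periodic points.
(Proof: proof/MP_13bc7b_nt_curves, point 6.  `(t ^ d - 1) * x ^ (d-1) = t * (t' - 1)` etc.) -/
theorem finite_two_periodic [CharZero K] {d : ℕ} (hd : 2 ≤ d) (R : Set K) (hR : R.Finite)
    (h : ∀ c x y : K, Per d c x → Per d c y → x ≠ y → y ≠ 0 → x / y ∈ R) :
    {c : K | ∃ x y, Per d c x ∧ Per d c y ∧ x ≠ y}.Finite := by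
  refine (Book_set_finite hd hR).subset ?_
  rintro c ⟨x, y, hx, hy, hxy⟩
  by_cases hfix : ∀ z, Per d c z → f d c z = z
  · -- all periodic points are fixed
    have key : ∀ x y : K, Per d c x → Per d c y → x ≠ y → y ≠ 0 → c ∈ Book_set d R := by
      intro x y hx hy hxy hy0
      refine Or.inl (Or.inr ?_)
      simp only [Set.mem_iUnion]
      refine ⟨x / y, h c x y hx hy hxy hy0, y, ?_, ?_⟩
      · have e1 : G d x y * (x - y) = x - y := by
          rw [← f_sub d c x y, hfix x hx, hfix y hy]
        have e2 : G d x y = 1 := by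
          have := sub_ne_zero.2 hxy
          exact mul_right_cancel₀ this (by rw [e1, one_mul])
        have e3 : G d x y = y ^ (d - 1) * G d (x / y) 1 := by
          rw [← G_smul, mul_div_cancel₀ _ hy0, mul_one]
        show y ^ (d - 1) = (G d (x / y) 1)⁻¹
        rw [e2] at e3
        exact eq_inv_of_mul_eq_one_left e3.symm
      · show y - y ^ d = c
        have := hfix y hy
        rw [f] at this
        rw [sub_eq_iff_eq_add, add_comm]
        exact this.symm
    by_cases hy0 : y = 0
    · exact key y x hy hx hxy.symm (fun hx0 => hxy (hx0.trans hy0.symm))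
    · exact key x y hx hy hxy hy0
  · push Not at hfix
    obtain ⟨z, hz, hne⟩ := hfix
    -- the case where zero is periodic
    have hzero : Per d c (0 : K) → f d c (0 : K) ≠ 0 → c ∈ Book_set d R := by
      intro h0 hne0
      have hc : f d c (0 : K) = c := by
        rw [f, zero_pow (by omega), zero_add]
      have h1 : Per d c c := by
        have := h0.map
        rwa [hc] at this
      rw [hc] at hne0
      have hne1 : f d c c ≠ c := by
        intro hh
        apply hne0
        exact Per.inj h1 h0 (by rw [hh, hc])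
      by_cases h2 : f d c c = 0
      · refine Or.inr (Or.inr ?_)
        show c ^ (d - 1) = -1
        obtain ⟨n, rfl⟩ : ∃ n, d = n + 1 := ⟨d - 1, by omega⟩
        rw [f] at h2
        rw [Nat.add_sub_cancel]
        have : (c ^ n + 1) * c = 0 := by rw [← h2]; ring
        rcases mul_eq_zero.1 this with h3 | h3
        · exact eq_neg_of_add_eq_zero_left h3
        · exact absurd h3 hne0
      · exact Book_main hd h h1 hne1 hne0 h2
    by_cases hz0 : z = 0
    · subst hz0
      exact hzero hz hne
    · by_cases hz1 : f d c z = 0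
      · apply hzero
        · have := hz.map
          rwa [hz1] at this
        · intro hh
          apply hne
          have h1 : Per d c (f d c z) := hz.map
          apply Per.inj h1 hz
          rw [hz1, hh]
      · exact Book_main hd h hz hne hz0 hz1

/-- second level preimages of a fixed point -/
theorem finite_second_level {d : ℕ} (R : Set K) (hR : R.Finite)
    (h : ∀ x ζ w : K, x ≠ 0 → ζ ^ d = 1 → ζ ≠ 1 → w ^ d = x ^ d + (ζ - 1) * x → x ∈ R) :
    {c : K | ∃ x ζ w, x ≠ 0 ∧ f d c x = x ∧ ζ ^ d = 1 ∧ ζ ≠ 1 ∧ w ^ d + c = ζ * x}.Finite := by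
  refine (hR.image fun x => x - x ^ d).subset ?_
  rintro c ⟨x, ζ, w, hx, hfx, hz, hz1, hw⟩
  rw [f] at hfx
  refine ⟨x, h x ζ w hx hz hz1 ?_, ?_⟩
  · linear_combination hw - hfx
  · show x - x ^ d = c
    linear_combination -hfx

end PowCyc
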