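import Pool.Agent.PowCyc.Descent

/-!
# The Diophantine lemmas
-/

namespace PowCyc

/-- `z ^ 3 = y ^ 6 + B ^ 2`, `y` odd, `B` even, coprime -/
theorem cube_eq_sixth_add_sq {z y B : ℕ} (hc : Nat.Coprime y B) (hy : y % 2 = 1) (hB : B % 2 = 0)
    (h : z ^ 3 = y ^ 6 + B ^ 2) : B = 0 := by
  have hz : y ^ 2 ≤ z := by
    have : (y ^ 2) ^ 3 ≤ z ^ 3 := by rw [h]; ring_nf; omega
    exact (Nat.pow_le_pow_iff_left (by norm_num)).mp this
  obtain ⟨D, rfl⟩ : ∃ D, z = y ^ 2 + D := ⟨z - y ^ 2, by omega⟩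
  have hDM : D * (D ^ 2 + 3 * y ^ 2 * D + 3 * y ^ 4) = B ^ 2 := by
    have h1 : (y ^ 2 + D) ^ 3 = y ^ 6 + D * (D ^ 2 + 3 * y ^ 2 * D + 3 * y ^ 4) := by ring
    omega
  have hcDy : ∀ p : ℕ, p.Prime → p ∣ D → p ∣ y → False := by
    intro p hp h1 h2
    have h3 : p ∣ B ^ 2 := by rw [← hDM]; exact Dvd.dvd.mul_right h1 _
    exact Nat.not_coprime_of_dvd_of_dvd hp.one_lt h2 (hp.dvd_of_dvd_pow h3) hc
  by_cases h3 : 3 ∣ D
  · obtain ⟨D', rfl⟩ := h3
    have h4 : 9 * (D' * (3 * D' ^ 2 + 3 * y ^ 2 * D' + y ^ 4)) = B ^ 2 := by rw [← hDM]; ring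
    have h3B : 3 ∣ B := by
      apply Nat.prime_three.dvd_of_dvd_pow (n := 2)
      rw [← h4]
      exact Dvd.dvd.mul_right (by norm_num) _
    obtain ⟨B', rfl⟩ := h3B
    have h5 : D' * (3 * D' ^ 2 + 3 * y ^ 2 * D' + y ^ 4) = B' ^ 2 := by nlinarith
    have hcop : Nat.Coprime D' (3 * D' ^ 2 + 3 * y ^ 2 * D' + y ^ 4) := by
      apply coprime_of_prime
      intro p hp h1 h2
      have h6 : p ∣ y := by
        apply hp.dvd_of_dvd_pow (n := 4)
        have h7 : p ∣ 3 * D' ^ 2 + 3 * y ^ 2 * D' := by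
          have : 3 * D' ^ 2 + 3 * y ^ 2 * D' = D' * (3 * D' + 3 * y ^ 2) := by ring
          rw [this]; exact Dvd.dvd.mul_right h1 _
        exact (Nat.dvd_add_right h7).mp h2
      exact hcDy p hp (Dvd.dvd.mul_left h1 _) h6
    obtain ⟨⟨r, hr⟩, ⟨s, hs⟩⟩ := pow_split hcop h5
    have hcyr : Nat.Coprime y r := by
      apply coprime_of_prime
      intro p hp h1 h2
      refine hcDy p hp ?_ h1
      rw [hr]
      exact Dvd.dvd.mul_left (dvd_pow h2 (by norm_num)) _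
    have hrs : s ^ 2 = y ^ 4 + 3 * 1 * y ^ 2 * r ^ 2 + 3 * 1 ^ 2 * r ^ 4 := by
      rw [← hs, hr]; ring
    have hr0 := descent 1 1 (Or.inl ⟨rfl, rfl⟩) r s y hcyr hrs
    rw [hr0] at hr
    rw [hr] at h5
    have hB0 : B' ^ 2 = 0 := by rw [← h5]; ring
    rw [pow_eq_zero_iff (by norm_num)] at hB0
    rw [hB0, mul_zero]
  · exfalso
    have hcop : Nat.Coprime D (D ^ 2 + 3 * y ^ 2 * D + 3 * y ^ 4) := by
      apply coprime_of_prime
      intro p hp h1 h2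
      have h6 : p ∣ 3 * y ^ 4 := by
        have h7 : p ∣ D ^ 2 + 3 * y ^ 2 * D := by
          have : D ^ 2 + 3 * y ^ 2 * D = D * (D + 3 * y ^ 2) := by ring
          rw [this]; exact Dvd.dvd.mul_right h1 _
        exact (Nat.dvd_add_right h7).mp h2
      rcases (Nat.Prime.dvd_mul hp).mp h6 with h7 | h7
      · have : p = 3 := (Nat.prime_dvd_prime_iff_eq hp Nat.prime_three).mp h7
        subst this
        exact h3 h1
      · exact hcDy p hp h1 (hp.dvd_of_dvd_pow h7)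
    obtain ⟨⟨r, hr⟩, ⟨s, hs⟩⟩ := pow_split hcop hDM
    have hz : ∀ s y r B : ZMod 4, r ^ 2 * (r ^ 4 + 3 * y ^ 2 * r ^ 2 + 3 * y ^ 4) = B ^ 2 →
        r ^ 4 + 3 * y ^ 2 * r ^ 2 + 3 * y ^ 4 = s ^ 2 → y.val % 2 = 1 → B.val % 2 = 0 → False := by
      decide
    apply hz (s : ZMod 4) y r B
    · have := hDM
      rw [hr] at this
      have h8 : r ^ 2 * (r ^ 4 + 3 * y ^ 2 * r ^ 2 + 3 * y ^ 4) = B ^ 2 := by rw [← this]; ring
      exact_mod_cast congrArg (Nat.cast : ℕ → ZMod 4) h8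
    · rw [hr] at hs
      have h8 : r ^ 4 + 3 * y ^ 2 * r ^ 2 + 3 * y ^ 4 = s ^ 2 := by rw [← hs]; ring
      exact_mod_cast congrArg (Nat.cast : ℕ → ZMod 4) h8
    · rw [ZMod.val_natCast]; omega
    · rw [ZMod.val_natCast]; omega

/-- `q ^ 3 = p ^ 6 + 3 N ^ 2`, coprime -/
theorem cube_eq_sixth_add_three_sq {q m N : ℕ} (hc : Nat.Coprime m N)
    (h : q ^ 3 = m ^ 6 + 3 * N ^ 2) : N = 0 := by
  have hz : m ^ 2 ≤ q := by
    have : (m ^ 2) ^ 3 ≤ q ^ 3 := by rw [h]; ring_nf; omega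
    exact (Nat.pow_le_pow_iff_left (by norm_num)).mp this
  obtain ⟨D, rfl⟩ : ∃ D, q = m ^ 2 + D := ⟨q - m ^ 2, by omega⟩
  have hDM : D * (D ^ 2 + 3 * m ^ 2 * D + 3 * m ^ 4) = 3 * N ^ 2 := by
    have h1 : (m ^ 2 + D) ^ 3 = m ^ 6 + D * (D ^ 2 + 3 * m ^ 2 * D + 3 * m ^ 4) := by ring
    omega
  have h3 : 3 ∣ D := by
    have h4 : 3 ∣ D ^ 3 := by
      have h5 : D ^ 3 + 3 * (m ^ 2 * D ^ 2 + m ^ 4 * D) = 3 * N ^ 2 := by rw [← hDM]; ring
      exact (Nat.dvd_add_left ⟨_, rfl⟩).mp ⟨_, h5⟩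
    exact Nat.prime_three.dvd_of_dvd_pow h4
  obtain ⟨D', rfl⟩ := h3
  have h4 : 3 * (D' * (3 * D' ^ 2 + 3 * m ^ 2 * D' + m ^ 4)) = N ^ 2 := by nlinarith
  have h3N : 3 ∣ N := Nat.prime_three.dvd_of_dvd_pow (n := 2) ⟨_, h4.symm⟩
  obtain ⟨N', rfl⟩ := h3N
  have h5 : D' * (3 * D' ^ 2 + 3 * m ^ 2 * D' + m ^ 4) = 3 * N' ^ 2 := by nlinarith
  have hm3 : ¬ 3 ∣ m := by
    intro h6
    exact Nat.not_coprime_of_dvd_of_dvd (by norm_num) h6 (Dvd.intro N' rfl) hc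
  have hM3 : ¬ 3 ∣ 3 * D' ^ 2 + 3 * m ^ 2 * D' + m ^ 4 := by
    intro h6
    apply hm3
    apply Nat.prime_three.dvd_of_dvd_pow (n := 4)
    exact (Nat.dvd_add_right (⟨D' ^ 2 + m ^ 2 * D', by ring⟩ :
      3 ∣ 3 * D' ^ 2 + 3 * m ^ 2 * D')).mp h6
  have h3D' : 3 ∣ D' := by
    have : 3 ∣ D' * (3 * D' ^ 2 + 3 * m ^ 2 * D' + m ^ 4) := ⟨_, h5⟩
    exact (Nat.prime_three.dvd_mul.mp this).resolve_right hM3
  obtain ⟨D, rfl⟩ := h3D'
  have h6 : D * (3 * (3 * D) ^ 2 + 3 * m ^ 2 * (3 * D) + m ^ 4) = N' ^ 2 := by nlinarith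
  have hcop : Nat.Coprime D (3 * (3 * D) ^ 2 + 3 * m ^ 2 * (3 * D) + m ^ 4) := by
    apply coprime_of_prime
    intro p hp h1 h2
    have h7 : p ∣ m := by
      apply hp.dvd_of_dvd_pow (n := 4)
      have h9 : p ∣ 3 * (3 * D) ^ 2 + 3 * m ^ 2 * (3 * D) := by
        have : 3 * (3 * D) ^ 2 + 3 * m ^ 2 * (3 * D) = D * (27 * D + 9 * m ^ 2) := by ring
        rw [this]; exact Dvd.dvd.mul_right h1 _
      exact (Nat.dvd_add_right h9).mp h2
    have h8 : p ∣ N' ^ 2 := by rw [← h6]; exact Dvd.dvd.mul_right h1 _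
    exact Nat.not_coprime_of_dvd_of_dvd hp.one_lt h7
      (Dvd.dvd.mul_left (hp.dvd_of_dvd_pow h8) _) hc
  obtain ⟨⟨r, hr⟩, ⟨s, hs⟩⟩ := pow_split hcop h6
  have hcyr : Nat.Coprime m r := by
    apply coprime_of_prime
    intro p hp h1 h2
    have h8 : p ∣ N' ^ 2 := by
      rw [← h6, hr]
      exact Dvd.dvd.mul_right (dvd_pow h2 (by norm_num)) _
    exact Nat.not_coprime_of_dvd_of_dvd hp.one_lt h1
      (Dvd.dvd.mul_left (hp.dvd_of_dvd_pow h8) _) hc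
  have hrs : s ^ 2 = m ^ 4 + 3 * 3 * m ^ 2 * r ^ 2 + 3 * 3 ^ 2 * r ^ 4 := by
    rw [← hs, hr]; ring
  have hr0 := descent 3 3 (Or.inr ⟨rfl, rfl⟩) r s m hcyr hrs
  rw [hr0] at hr
  rw [hr] at h6
  have hB0 : N' ^ 2 = 0 := by rw [← h6]; ring
  rw [pow_eq_zero_iff (by norm_num)] at hB0
  rw [hB0, mul_zero]

/-- `3` does not divide a sum of two coprime squares -/
lemma not_three_dvd_sq_add_sq {m l : ℕ} (hc : Nat.Coprime m l) : ¬ 3 ∣ m ^ 2 + l ^ 2 := by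
  intro h
  have h1 : ((m ^ 2 + l ^ 2 : ℕ) : ZMod 3) = 0 := (ZMod.natCast_eq_zero_iff _ _).mpr h
  push_cast at h1
  have hz : ∀ a b : ZMod 3, a ^ 2 + b ^ 2 = 0 → a = 0 ∧ b = 0 := by decide
  obtain ⟨ha, hb⟩ := hz _ _ h1
  exact Nat.not_coprime_of_dvd_of_dvd (by norm_num) ((ZMod.natCast_eq_zero_iff _ _).mp ha)
    ((ZMod.natCast_eq_zero_iff _ _).mp hb) hc

/-- `m ^ 6 + l ^ 6 = 2 s ^ 3` with `m, l` odd and coprime -/
theorem sixth_add_sixth {m l s : ℕ} (hc : Nat.Coprime m l) (hm : m % 2 = 1) (hl : l % 2 = 1)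
    (hlm : l ≤ m) (h : m ^ 6 + l ^ 6 = 2 * s ^ 3) : m = l := by
  -- m^2 = S + N, l^2 = S - N
  have hl2m2 : l ^ 2 ≤ m ^ 2 := Nat.pow_le_pow_left hlm 2
  have hm2 : m ^ 2 % 4 = 1 := by
    obtain ⟨t, ht⟩ : ∃ t, m = 2 * t + 1 := ⟨m / 2, by omega⟩
    rw [ht]; ring_nf; omega
  have hl2 : l ^ 2 % 4 = 1 := by
    obtain ⟨t, ht⟩ : ∃ t, l = 2 * t + 1 := ⟨l / 2, by omega⟩
    rw [ht]; ring_nf; omega
  obtain ⟨N, hN⟩ : ∃ N, m ^ 2 = l ^ 2 + 2 * N := ⟨(m ^ 2 - l ^ 2) / 2, by omega⟩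
  set S := l ^ 2 + N with hS
  have h2S : 2 * S = m ^ 2 + l ^ 2 := by omega
  have hSW : S * (S ^ 2 + 3 * N ^ 2) = s ^ 3 := by
    have h1 : m ^ 6 + l ^ 6 = 2 * (S * (S ^ 2 + 3 * N ^ 2)) := by
      have h2 : m ^ 6 = (l ^ 2 + 2 * N) ^ 3 := by rw [← hN]; ring
      rw [h2, hS]; ring
    omega
  have hSN : Nat.Coprime S N := by
    apply coprime_of_prime
    intro p hp h1 h2
    have h3 : p ∣ l := by
      apply hp.dvd_of_dvd_pow (n := 2)
      exact (Nat.dvd_add_left h2).mp h1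
    have h4 : p ∣ m := by
      apply hp.dvd_of_dvd_pow (n := 2)
      rw [hN]
      exact Nat.dvd_add (dvd_pow h3 (by norm_num)) (Dvd.dvd.mul_left h2 _)
    exact Nat.not_coprime_of_dvd_of_dvd hp.one_lt h4 h3 hc
  have hS3 : ¬ 3 ∣ S := by
    intro h1
    apply not_three_dvd_sq_add_sq hc
    rw [← h2S]
    exact Dvd.dvd.mul_left h1 _
  have hcop : Nat.Coprime S (S ^ 2 + 3 * N ^ 2) := by
    apply coprime_of_prime
    intro p hp h1 h2
    have h3 : p ∣ 3 * N ^ 2 := (Nat.dvd_add_right (dvd_pow h1 (by norm_num))).mp h2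
    rcases (Nat.Prime.dvd_mul hp).mp h3 with h4 | h4
    · have : p = 3 := (Nat.prime_dvd_prime_iff_eq hp Nat.prime_three).mp h4
      subst this
      exact hS3 h1
    · exact Nat.not_coprime_of_dvd_of_dvd hp.one_lt h1 (hp.dvd_of_dvd_pow h4) hSN
  obtain ⟨⟨a, ha⟩, ⟨q, hq⟩⟩ := pow_split hcop hSW
  have haN : Nat.Coprime a N := by
    apply coprime_of_prime
    intro p hp h1 h2
    refine Nat.not_coprime_of_dvd_of_dvd hp.one_lt ?_ h2 hSN
    rw [ha]; exact dvd_pow h1 (by norm_num)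
  have hfin : q ^ 3 = a ^ 6 + 3 * N ^ 2 := by
    rw [← hq, ha]; ring
  have hN0 := cube_eq_sixth_add_three_sq haN hfin
  rw [hN0] at hN
  exact Nat.pow_left_injective (by norm_num : (2 : ℕ) ≠ 0) (by simpa using hN)

/-- a nonzero integer all of whose valuations are divisible by `k` (`k` odd) is a `k`-th power -/
theorem nat_eq_pow {N k : ℕ} (hN : N ≠ 0) (hk : 0 < k)
    (h : ∀ p : ℕ, p.Prime → k ∣ padicValNat p N) : ∃ m : ℕ, N = m ^ k := by
  refine ⟨N.factorization.prod fun p e => p ^ (e / k), ?_⟩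
  conv_lhs => rw [← Nat.prod_factorization_pow_eq_self hN]
  rw [Finsupp.prod, Finsupp.prod, ← Finset.prod_pow]
  apply Finset.prod_congr rfl
  intro p hp
  have hpp : p.Prime := Nat.prime_of_mem_primeFactors (by simpa using hp)
  rw [← pow_mul, Nat.div_mul_cancel]
  rw [Nat.factorization_def _ hpp]
  exact h p hpp

/-- `P` odd, `Q` even, coprime, `P` and `P ^ 2 + Q ^ 2` have all valuations at odd primes divisible
by `3` -/
theorem pair_key {P Q : ℤ} (hc : IsCoprime P Q) (hP : Odd P) (hQ : Even Q)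
    (h1 : ∀ p : ℕ, p.Prime → p ≠ 2 → 3 ∣ padicValInt p P)
    (h2 : ∀ p : ℕ, p.Prime → p ≠ 2 → 3 ∣ padicValInt p (P ^ 2 + Q ^ 2)) : Q = 0 := by
  have hP0 : P ≠ 0 := by rintro rfl; simp at hP
  have hodd1 : ¬ (2 : ℤ) ∣ P := by
    rw [← even_iff_two_dvd, Int.not_even_iff_odd]; exact hP
  have hodd2 : ¬ (2 : ℤ) ∣ P ^ 2 + Q ^ 2 := by
    rw [← even_iff_two_dvd, Int.not_even_iff_odd]
    exact (hP.pow).add_even (hQ.pow_of_ne_zero (by norm_num))
  obtain ⟨m, hm⟩ : ∃ m : ℕ, P.natAbs = m ^ 3 := by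
    apply nat_eq_pow (by simpa using hP0) (by norm_num)
    intro p hp
    by_cases h : p = 2
    · subst h
      have : padicValInt 2 P = 0 := padicValInt.eq_zero_of_not_dvd (by exact_mod_cast hodd1)
      rw [padicValInt] at this
      rw [this]; exact dvd_zero _
    · exact h1 p hp h
  have hne : P ^ 2 + Q ^ 2 ≠ 0 := by
    intro h
    rw [h] at hodd2
    exact hodd2 (dvd_zero _)
  obtain ⟨z, hz⟩ : ∃ z : ℕ, (P ^ 2 + Q ^ 2).natAbs = z ^ 3 := by
    apply nat_eq_pow (by simpa using hne) (by norm_num)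
    intro p hp
    by_cases h : p = 2
    · subst h
      have : padicValInt 2 (P ^ 2 + Q ^ 2) = 0 :=
        padicValInt.eq_zero_of_not_dvd (by exact_mod_cast hodd2)
      rw [padicValInt] at this
      rw [this]; exact dvd_zero _
    · exact h2 p hp h
  have hsum : (P ^ 2 + Q ^ 2).natAbs = P.natAbs ^ 2 + Q.natAbs ^ 2 := by
    zify
    rw [abs_of_nonneg (by positivity), sq_abs, sq_abs]
  have hfin : z ^ 3 = m ^ 6 + Q.natAbs ^ 2 := by
    rw [← hz, hsum, hm]; ring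
  have hcm : Nat.Coprime m Q.natAbs := by
    have h3 : Nat.Coprime P.natAbs Q.natAbs := Int.isCoprime_iff_gcd_eq_one.mp hc
    rw [hm] at h3
    exact Nat.Coprime.coprime_dvd_left (dvd_pow_self m (by norm_num)) h3
  have hmodd : m % 2 = 1 := by
    by_contra hne
    have : 2 ∣ P.natAbs := by
      rw [hm]
      exact dvd_pow (Nat.dvd_of_mod_eq_zero (by omega)) (by norm_num)
    exact hodd1 (by exact_mod_cast Int.natCast_dvd.mpr this)
  have hQe : Q.natAbs % 2 = 0 := by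
    have := Int.natAbs_even.mpr hQ
    exact Nat.even_iff.mp this
  have := cube_eq_sixth_add_sq hcm hmodd hQe hfin
  exact Int.natAbs_eq_zero.mp this

lemma padicValInt_mul {p : ℕ} (hp : p.Prime) {a b : ℤ} (ha : a ≠ 0) (hb : b ≠ 0) :
    padicValInt p (a * b) = padicValInt p a + padicValInt p b := by
  haveI := Fact.mk hp
  exact padicValInt.mul ha hb

/-- if a prime divides at most one of two factors and `3` divides the valuation of the product,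
then it divides the valuations of both factors -/
lemma three_dvd_of_mul {p : ℕ} (hp : p.Prime) {a b : ℤ} (ha : a ≠ 0) (hb : b ≠ 0)
    (hab : ¬ ((p : ℤ) ∣ a ∧ (p : ℤ) ∣ b)) {k : ℕ} (h : k ∣ padicValInt p (a * b)) :
    k ∣ padicValInt p a ∧ k ∣ padicValInt p b := by
  rw [padicValInt_mul hp ha hb] at h
  by_cases h1 : (p : ℤ) ∣ a
  · have h2 : padicValInt p b = 0 :=
      padicValInt.eq_zero_of_not_dvd (fun h2 => hab ⟨h1, h2⟩)
    rw [h2] at h ⊢
    exact ⟨by simpa using h, dvd_zero _⟩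
  · have h2 : padicValInt p a = 0 := padicValInt.eq_zero_of_not_dvd h1
    rw [h2] at h ⊢
    exact ⟨dvd_zero _, by simpa using h⟩

/-- **L3.2** -/
theorem fourth_sub_fourth_odd {X Y : ℤ} (hc : IsCoprime X Y) (hX : Odd X) (hY : Odd Y)
    (h : ∀ p : ℕ, p.Prime → p ≠ 2 → 3 ∣ padicValInt p (X ^ 4 - Y ^ 4)) : X ^ 4 = Y ^ 4 := by
  by_contra hne
  obtain ⟨P, hP⟩ : ∃ P, X + Y = 2 * P := (hX.add_odd hY).two_dvd
  obtain ⟨Q, hQ⟩ : ∃ Q, X - Y = 2 * Q := (hX.sub_odd hY).two_dvd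
  have hXe : X = P + Q := by linarith
  have hYe : Y = P - Q := by linarith
  have hfac : X ^ 4 - Y ^ 4 = 8 * (P * Q * (P ^ 2 + Q ^ 2)) := by rw [hXe, hYe]; ring
  have hne' : P * Q * (P ^ 2 + Q ^ 2) ≠ 0 := by
    intro h0
    rw [h0] at hfac
    apply hne
    linarith
  have hP0 : P ≠ 0 := by rintro rfl; simp at hne'
  have hQ0 : Q ≠ 0 := by rintro rfl; simp at hne'
  have hS0 : P ^ 2 + Q ^ 2 ≠ 0 := by intro h0; rw [h0] at hne'; simp at hne'
  have hPQ : IsCoprime P Q := by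
    rw [Int.isCoprime_iff_gcd_eq_one]
    by_contra hg
    obtain ⟨p, hp, h1⟩ := Nat.exists_prime_and_dvd hg
    have h2 : (p : ℤ) ∣ P := dvd_trans (by exact_mod_cast h1) (Int.gcd_dvd_left _ _)
    have h3 : (p : ℤ) ∣ Q := dvd_trans (by exact_mod_cast h1) (Int.gcd_dvd_right _ _)
    have h4 : (p : ℤ) ∣ X := by rw [hXe]; exact dvd_add h2 h3
    have h5 : (p : ℤ) ∣ Y := by rw [hYe]; exact dvd_sub h2 h3
    have := hc.isUnit_of_dvd' h4 h5
    exact (Nat.prime_iff_prime_int.mp hp).not_unit this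
  have hval : ∀ p : ℕ, p.Prime → p ≠ 2 → 3 ∣ padicValInt p P ∧ 3 ∣ padicValInt p Q ∧
      3 ∣ padicValInt p (P ^ 2 + Q ^ 2) := by
    intro p hp hp2
    have hpp := Nat.prime_iff_prime_int.mp hp
    have h8 : 3 ∣ padicValInt p (P * Q * (P ^ 2 + Q ^ 2)) := by
      have := h p hp hp2
      rw [hfac, padicValInt_mul hp (by norm_num) hne'] at this
      have h9 : padicValInt p 8 = 0 := by
        apply padicValInt.eq_zero_of_not_dvd
        intro h10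
        have h11 : p ∣ 2 ^ 3 := by exact_mod_cast h10
        exact hp2 ((Nat.prime_dvd_prime_iff_eq hp Nat.prime_two).mp (hp.dvd_of_dvd_pow h11))
      rw [h9] at this
      simpa using this
    have hnot : ¬ ((p : ℤ) ∣ P ∧ (p : ℤ) ∣ Q) := by
      rintro ⟨h1, h2⟩
      exact hpp.not_unit (hPQ.isUnit_of_dvd' h1 h2)
    have hnot2 : ¬ ((p : ℤ) ∣ P * Q ∧ (p : ℤ) ∣ P ^ 2 + Q ^ 2) := by
      rintro ⟨h1, h2⟩
      rcases hpp.dvd_or_dvd h1 with h3 | h3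
      · have h4 : (p : ℤ) ∣ Q ^ 2 := (dvd_add_right (dvd_pow h3 (by norm_num))).mp h2
        exact hnot ⟨h3, hpp.dvd_of_dvd_pow h4⟩
      · have h4 : (p : ℤ) ∣ P ^ 2 := (dvd_add_left (dvd_pow h3 (by norm_num))).mp h2
        exact hnot ⟨hpp.dvd_of_dvd_pow h4, h3⟩
    obtain ⟨h12, h13⟩ := three_dvd_of_mul hp (mul_ne_zero hP0 hQ0) hS0 hnot2 h8
    obtain ⟨h14, h15⟩ := three_dvd_of_mul hp hP0 hQ0 hnot h12
    exact ⟨h14, h15, h13⟩
  rcases Int.even_or_odd P with hPe | hPo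
  · have hQo : Odd Q := by
      by_contra hQe
      rw [Int.not_odd_iff_even] at hQe
      have : Even X := by rw [hXe]; exact hPe.add hQe
      exact (Int.not_even_iff_odd.mpr hX) this
    apply hP0
    exact pair_key hPQ.symm hQo hPe (fun p hp h2 => (hval p hp h2).2.1)
      (fun p hp h2 => by rw [add_comm]; exact (hval p hp h2).2.2)
  · have hQe : Even Q := by
      by_contra hQo
      rw [Int.not_even_iff_odd] at hQo
      have : Even X := by rw [hXe]; exact hPo.add_odd hQo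
      exact (Int.not_even_iff_odd.mpr hX) this
    apply hQ0
    exact pair_key hPQ hPo hQe (fun p hp h2 => (hval p hp h2).1)
      (fun p hp h2 => (hval p hp h2).2.2)

/-- **L3.5**, natural number version -/
lemma fourth_sub_fourth_nat {X Y C : ℕ} (hc : Nat.Coprime X Y) (hC : C % 2 = 1)
    (h : X ^ 4 = Y ^ 4 + C ^ 3) : Y = 0 := by
  have hCpos : 0 < C := by omega
  have hYX : Y < X := by
    have : Y ^ 4 < X ^ 4 := by
      rw [h]
      have : 0 < C ^ 3 := by positivity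
      omega
    exact lt_of_pow_lt_pow_left₀ 4 (Nat.zero_le _) this
  obtain ⟨D, rfl⟩ : ∃ D, X = Y + D := ⟨X - Y, by omega⟩
  have hDpos : 0 < D := by omega
  -- (2Y + D) * D * (X^2 + Y^2) = C^3
  have hfac : (2 * Y + D) * D * ((Y + D) ^ 2 + Y ^ 2) = C ^ 3 := by
    have : (Y + D) ^ 4 = Y ^ 4 + (2 * Y + D) * D * ((Y + D) ^ 2 + Y ^ 2) := by ring
    omega
  have hodd : (2 * Y + D) * D * ((Y + D) ^ 2 + Y ^ 2) % 2 = 1 := by
    rw [hfac, Nat.pow_mod, hC]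
  have hD2 : D % 2 = 1 := by
    by_contra hne
    have h0 : D % 2 = 0 := by omega
    have : (2 * Y + D) * D * ((Y + D) ^ 2 + Y ^ 2) % 2 = 0 := by
      rw [Nat.mul_mod, Nat.mul_mod (2 * Y + D) D, h0]; simp
    omega
  have hcop0 : ∀ p : ℕ, p.Prime → p ∣ D → p ∣ Y → False := by
    intro p hp h1 h2
    exact Nat.not_coprime_of_dvd_of_dvd hp.one_lt (Nat.dvd_add h2 h1) h2 hc
  have hne2 : ∀ p : ℕ, p ∣ C ^ 3 → p.Prime → p ≠ 2 := by
    rintro p h1 hp rfl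
    have := hp.dvd_of_dvd_pow h1
    omega
  have hcop1 : Nat.Coprime ((2 * Y + D) * D) ((Y + D) ^ 2 + Y ^ 2) := by
    apply coprime_of_prime
    intro p hp h1 h2
    have hp2 : p ≠ 2 := hne2 p (by rw [← hfac]; exact Dvd.dvd.mul_right h1 _) hp
    have hp2' : ∀ z, p ∣ 2 * z → p ∣ z := fun z hz =>
      ((Nat.Prime.dvd_mul hp).mp hz).resolve_left
        (fun h => hp2 ((Nat.prime_dvd_prime_iff_eq hp Nat.prime_two).mp h))
    rcases (Nat.Prime.dvd_mul hp).mp h1 with h3 | h3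
    · -- p | 2Y + D, p | 2Y^2 + 2YD + D^2 ; 2*(..) = (2Y+D)^2 + D^2
      have h4 : p ∣ (2 * Y + D) * (2 * Y + D) + D ^ 2 := by
        have : (2 * Y + D) * (2 * Y + D) + D ^ 2 = 2 * ((Y + D) ^ 2 + Y ^ 2) := by ring
        rw [this]; exact Dvd.dvd.mul_left h2 _
      have h5 : p ∣ D := hp.dvd_of_dvd_pow ((Nat.dvd_add_right (Dvd.dvd.mul_right h3 _)).mp h4)
      exact hcop0 p hp h5 (hp2' Y ((Nat.dvd_add_left h5).mp h3))
    · have h4 : p ∣ D * (2 * Y + D) + 2 * Y ^ 2 := by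
        have : D * (2 * Y + D) + 2 * Y ^ 2 = (Y + D) ^ 2 + Y ^ 2 := by ring
        rw [this]; exact h2
      have h5 : p ∣ 2 * Y ^ 2 := (Nat.dvd_add_right (Dvd.dvd.mul_right h3 _)).mp h4
      exact hcop0 p hp h3 (hp.dvd_of_dvd_pow (hp2' _ h5))
  have hcop2 : Nat.Coprime (2 * Y + D) D := by
    apply coprime_of_prime
    intro p hp h1 h2
    have hp2 : p ≠ 2 := hne2 p (by
      rw [← hfac]; exact Dvd.dvd.mul_right (Dvd.dvd.mul_right h1 _) _) hp
    have h3 : p ∣ 2 * Y := (Nat.dvd_add_left h2).mp h1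
    exact hcop0 p hp h2 (((Nat.Prime.dvd_mul hp).mp h3).resolve_left
        (fun h => hp2 ((Nat.prime_dvd_prime_iff_eq hp Nat.prime_two).mp h)))
  obtain ⟨⟨e, he⟩, ⟨s, hs⟩⟩ := pow_split hcop1 hfac
  obtain ⟨⟨m, hm⟩, ⟨l, hl⟩⟩ := pow_split hcop2 he
  have hml : Nat.Coprime m l := by
    rw [hm, hl] at hcop2
    exact Nat.Coprime.coprime_dvd_left (dvd_pow_self m (by norm_num))
      (Nat.Coprime.coprime_dvd_right (dvd_pow_self l (by norm_num)) hcop2)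
  have hl2 : l % 2 = 1 := by
    by_contra hne
    have h0 : l % 2 = 0 := by omega
    have : D % 2 = 0 := by rw [hl, Nat.pow_mod, h0]
    omega
  have hm2 : m % 2 = 1 := by
    by_contra hne
    have h0 : m % 2 = 0 := by omega
    have : (2 * Y + D) % 2 = 0 := by rw [hm, Nat.pow_mod, h0]
    omega
  have hlm : l ≤ m := by
    have : l ^ 3 ≤ m ^ 3 := by rw [← hm, ← hl]; omega
    exact (Nat.pow_le_pow_iff_left (by norm_num)).mp this
  have hfin : m ^ 6 + l ^ 6 = 2 * s ^ 3 := by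
    have h1 : m ^ 6 = (2 * Y + D) ^ 2 := by rw [hm]; ring
    have h2 : l ^ 6 = D ^ 2 := by conv_rhs => rw [hl]
                                  ring
    rw [h1, h2, ← hs]; ring
  have := sixth_add_sixth hml hm2 hl2 hlm hfin
  rw [this, ← hl] at hm
  omega

/-- **L3.5** -/
theorem fourth_sub_fourth_cube {X Y C : ℤ} (hc : IsCoprime X Y) (hC : Odd C)
    (h : X ^ 4 - Y ^ 4 = C ^ 3) : X = 0 ∨ Y = 0 := by
  have hX4 : ((X.natAbs ^ 4 : ℕ) : ℤ) = X ^ 4 := by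
    push_cast; rw [← abs_pow, abs_of_nonneg (by positivity)]
  have hY4 : ((Y.natAbs ^ 4 : ℕ) : ℤ) = Y ^ 4 := by
    push_cast; rw [← abs_pow, abs_of_nonneg (by positivity)]
  have hcn : Nat.Coprime X.natAbs Y.natAbs := Int.isCoprime_iff_gcd_eq_one.mp hc
  have hCn : C.natAbs % 2 = 1 := Nat.odd_iff.mp (Int.natAbs_odd.mpr hC)
  rcases le_total 0 C with hC0 | hC0
  · right
    have h1 : X.natAbs ^ 4 = Y.natAbs ^ 4 + C.natAbs ^ 3 := by
      zify
      rw [abs_of_nonneg hC0]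
      have := hX4; have := hY4
      push_cast at *
      linarith
    have := fourth_sub_fourth_nat hcn hCn h1
    exact Int.natAbs_eq_zero.mp this
  · left
    have h1 : Y.natAbs ^ 4 = X.natAbs ^ 4 + C.natAbs ^ 3 := by
      zify
      rw [abs_of_nonpos hC0]
      have := hX4; have := hY4
      push_cast at *
      have h3 : (-C) ^ 3 = - C ^ 3 := by ring
      rw [h3]
      linarith
    have := fourth_sub_fourth_nat hcn.symm hCn h1
    exact Int.natAbs_eq_zero.mp this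

end PowCyc
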