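import Pool.Agent.PowCyc.Defs

/-!
# The plane curves
-/

namespace PowCyc

open MvPolynomial

variable {K : Type*} [Field K]

lemma eval_Fk (d : ℕ) (κ : K) (v : Fin 3 → K) :
    eval v (Fk d κ) = G d (v 0) (v 1) - κ * v 2 ^ (d - 1) := by
  unfold Fk G
  simp only [map_sub, map_sum, map_mul, map_pow, eval_X, eval_C]

lemma eval_Fz (d : ℕ) (ζ : K) (v : Fin 3 → K) :
    eval v (Fz d ζ) = v 1 ^ d - v 0 ^ d - (ζ - 1) * v 0 * v 2 ^ (d - 1) := by
  unfold Fz
  simp only [map_sub, map_mul, map_pow, eval_X, eval_C]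

lemma homogeneous_Fk (d : ℕ) (κ : K) : (Fk d κ).IsHomogeneous (d - 1) := by
  unfold Fk
  refine IsHomogeneous.sub ?_ ?_
  · refine IsHomogeneous.sum _ _ _ ?_
    intro i hi
    rw [Finset.mem_range] at hi
    have h := ((isHomogeneous_X K (0 : Fin 3)).pow i).mul
      ((isHomogeneous_X K (1 : Fin 3)).pow (d - 1 - i))
    have e : 1 * i + 1 * (d - 1 - i) = d - 1 := by omega
    rwa [e] at h
  · have h := (isHomogeneous_C (Fin 3) κ).mul ((isHomogeneous_X K (2 : Fin 3)).pow (d - 1))
    have e : 0 + 1 * (d - 1) = d - 1 := by omega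
    rwa [e] at h

lemma homogeneous_Fz (d : ℕ) (hd : 1 ≤ d) (ζ : K) : (Fz d ζ).IsHomogeneous d := by
  unfold Fz
  refine IsHomogeneous.sub (IsHomogeneous.sub ?_ ?_) ?_
  · have h := (isHomogeneous_X K (1 : Fin 3)).pow d
    rwa [one_mul] at h
  · have h := (isHomogeneous_X K (0 : Fin 3)).pow d
    rwa [one_mul] at h
  · have h := ((isHomogeneous_C (Fin 3) (ζ - 1)).mul (isHomogeneous_X K (0 : Fin 3))).mul
      ((isHomogeneous_X K (2 : Fin 3)).pow (d - 1))
    have e : 0 + 1 + 1 * (d - 1) = d := by omega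
    rwa [e] at h

/-- the form `G` as a polynomial -/
noncomputable def Gp (K : Type*) [Field K] (d : ℕ) : MvPolynomial (Fin 3) K :=
  ∑ i ∈ Finset.range d, MvPolynomial.X 0 ^ i * MvPolynomial.X 1 ^ (d - 1 - i)

lemma Gp_mul (d : ℕ) : Gp K d * (X 0 - X 1) = (X 0 : MvPolynomial (Fin 3) K) ^ d - X 1 ^ d := by
  unfold Gp
  exact (Commute.all _ _).geom_sum₂_mul d

lemma Fk_eq (d : ℕ) (κ : K) : Fk d κ = Gp K d - C κ * X 2 ^ (d - 1) := rfl

lemma pderiv0_Fk (d : ℕ) (κ : K) : pderiv 0 (Fk d κ) = pderiv 0 (Gp K d) := by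
  rw [Fk_eq, map_sub, Derivation.leibniz, Derivation.leibniz_pow]
  have h : pderiv (0 : Fin 3) (X 2 : MvPolynomial (Fin 3) K) = 0 :=
    pderiv_X_of_ne (by decide)
  rw [h, pderiv_C]
  simp

lemma pderiv1_Fk (d : ℕ) (κ : K) : pderiv 1 (Fk d κ) = pderiv 1 (Gp K d) := by
  rw [Fk_eq, map_sub, Derivation.leibniz, Derivation.leibniz_pow]
  have h : pderiv (1 : Fin 3) (X 2 : MvPolynomial (Fin 3) K) = 0 :=
    pderiv_X_of_ne (by decide)
  rw [h, pderiv_C]
  simp

lemma pderiv2_Gp (d : ℕ) : pderiv 2 (Gp K d) = 0 := by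
  unfold Gp
  rw [map_sum]
  refine Finset.sum_eq_zero fun i _ => ?_
  have h0 : pderiv (2 : Fin 3) (X 0 : MvPolynomial (Fin 3) K) = 0 :=
    pderiv_X_of_ne (by decide)
  have h1 : pderiv (2 : Fin 3) (X 1 : MvPolynomial (Fin 3) K) = 0 :=
    pderiv_X_of_ne (by decide)
  rw [Derivation.leibniz, Derivation.leibniz_pow, Derivation.leibniz_pow, h0, h1]
  simp

lemma pderiv2_Fk (d : ℕ) (κ : K) :
    pderiv 2 (Fk d κ) = - (C κ * (((d - 1 : ℕ) : MvPolynomial (Fin 3) K) * X 2 ^ (d - 1 - 1))) := by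
  rw [Fk_eq, map_sub, pderiv2_Gp, Derivation.leibniz, Derivation.leibniz_pow, pderiv_X_self,
    pderiv_C]
  simp

theorem smooth_Fk [CharZero K] (d : ℕ) (hd : 3 ≤ d) (κ : K) (hκ : κ ≠ 0) : Smooth (Fk d κ) := by
  intro v hv
  have h0 := hv 0
  have h1 := hv 1
  have h2 := hv 2
  rw [pderiv2_Fk] at h2
  rw [pderiv0_Fk] at h0
  rw [pderiv1_Fk] at h1
  have : CharZero (AlgebraicClosure K) := charZero_of_injective_algebraMap
    (algebraMap K (AlgebraicClosure K)).injective
  have hd0 : ((d - 1 : ℕ) : AlgebraicClosure K) ≠ 0 := by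
    have : d - 1 ≠ 0 := by omega
    exact_mod_cast this
  have hdd : ((d : ℕ) : AlgebraicClosure K) ≠ 0 := by
    have : d ≠ 0 := by omega
    exact_mod_cast this
  have hκ' : algebraMap K (AlgebraicClosure K) κ ≠ 0 := by
    intro h
    exact hκ ((algebraMap K (AlgebraicClosure K)).injective (by rw [h, map_zero]))
  have v2 : v 2 = 0 := by
    simp only [map_neg, map_mul, map_pow, map_natCast, aeval_X, aeval_C, neg_eq_zero,
      mul_eq_zero] at h2
    rcases h2 with h | h | h
    · exact absurd h hκ'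
    · exact absurd h hd0
    · exact pow_eq_zero_iff (by omega) |>.1 h
  -- Euler
  have hE := congrArg (aeval v) (homogeneous_Fk d κ).sum_X_mul_pderiv
  have hF : aeval v (Fk d κ) = 0 := by
    rw [map_sum, Finset.sum_eq_zero] at hE
    · rw [nsmul_eq_mul, map_mul, map_natCast] at hE
      rcases mul_eq_zero.1 hE.symm with h | h
      · exact absurd h hd0
      · exact h
    · intro i _
      rw [map_mul, hv i, mul_zero]
  have hG : aeval v (Gp K d) = 0 := by
    rw [Fk_eq, map_sub, map_mul, map_pow, aeval_X, v2, zero_pow (by omega), mul_zero,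
      sub_zero] at hF
    exact hF
  have k0 := congrArg (fun q => aeval v (pderiv 0 q)) (Gp_mul (K := K) d)
  have k1 := congrArg (fun q => aeval v (pderiv 1 q)) (Gp_mul (K := K) d)
  have a01 : pderiv (0 : Fin 3) (X 1 : MvPolynomial (Fin 3) K) = 0 :=
    pderiv_X_of_ne (by decide)
  have a10 : pderiv (1 : Fin 3) (X 0 : MvPolynomial (Fin 3) K) = 0 :=
    pderiv_X_of_ne (by decide)
  simp only [Derivation.leibniz, Derivation.leibniz_pow, map_sub, map_add, map_mul, map_pow,
    pderiv_X_self, a01, a10, smul_eq_mul, aeval_X, hG, h0, h1, map_zero, map_one, nsmul_eq_mul,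
    map_natCast] at k0 k1
  have v0 : v 0 = 0 := by
    have : (d : AlgebraicClosure K) * v 0 ^ (d - 1) = 0 := by
      linear_combination -k0
    rcases mul_eq_zero.1 this with h | h
    · exact absurd h hdd
    · exact pow_eq_zero_iff (by omega) |>.1 h
  have v1 : v 1 = 0 := by
    have : (d : AlgebraicClosure K) * v 1 ^ (d - 1) = 0 := by
      linear_combination k1
    rcases mul_eq_zero.1 this with h | h
    · exact absurd h hdd
    · exact pow_eq_zero_iff (by omega) |>.1 h
  funext i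
  fin_cases i
  · exact v0
  · exact v1
  · exact v2

theorem smooth_Fz [CharZero K] (d : ℕ) (hd : 3 ≤ d) (ζ : K) (hζ : ζ ≠ 1) : Smooth (Fz d ζ) := by
  intro v hv
  have h0 := hv 0
  have h1 := hv 1
  have h2 := hv 2
  have : CharZero (AlgebraicClosure K) := charZero_of_injective_algebraMap
    (algebraMap K (AlgebraicClosure K)).injective
  have hd0 : ((d - 1 : ℕ) : AlgebraicClosure K) ≠ 0 := by
    have : d - 1 ≠ 0 := by omega
    exact_mod_cast this
  have hdd : ((d : ℕ) : AlgebraicClosure K) ≠ 0 := by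
    have : d ≠ 0 := by omega
    exact_mod_cast this
  have hζ' : algebraMap K (AlgebraicClosure K) (ζ - 1) ≠ 0 := by
    intro h
    exact hζ (sub_eq_zero.1 ((algebraMap K (AlgebraicClosure K)).injective (by rw [h, map_zero])))
  have a01 : pderiv (0 : Fin 3) (X 1 : MvPolynomial (Fin 3) K) = 0 :=
    pderiv_X_of_ne (by decide)
  have a02 : pderiv (0 : Fin 3) (X 2 : MvPolynomial (Fin 3) K) = 0 :=
    pderiv_X_of_ne (by decide)
  have a10 : pderiv (1 : Fin 3) (X 0 : MvPolynomial (Fin 3) K) = 0 :=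
    pderiv_X_of_ne (by decide)
  have a12 : pderiv (1 : Fin 3) (X 2 : MvPolynomial (Fin 3) K) = 0 :=
    pderiv_X_of_ne (by decide)
  have a20 : pderiv (2 : Fin 3) (X 0 : MvPolynomial (Fin 3) K) = 0 :=
    pderiv_X_of_ne (by decide)
  have a21 : pderiv (2 : Fin 3) (X 1 : MvPolynomial (Fin 3) K) = 0 :=
    pderiv_X_of_ne (by decide)
  unfold Fz at h0 h1 h2
  generalize hw : ζ - 1 = w at h0 h1 h2 hζ'
  simp only [Derivation.leibniz, Derivation.leibniz_pow, map_sub, map_mul, map_pow, map_neg,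
    pderiv_X_self, a01, a02, a10, a12, a20, a21, smul_eq_mul, aeval_X, aeval_C, pderiv_C,
    nsmul_eq_mul, map_natCast, mul_zero, mul_one, zero_sub, sub_zero,
    add_zero, zero_add] at h0 h1 h2
  have v1 : v 1 = 0 := by
    rcases mul_eq_zero.1 h1 with h | h
    · exact absurd h hdd
    · exact pow_eq_zero_iff (by omega) |>.1 h
  have h2' : v 0 = 0 ∨ v 2 = 0 := by
    rcases mul_eq_zero.1 (neg_eq_zero.1 h2) with h | h
    · rcases mul_eq_zero.1 h with h | h
      · exact absurd h hζ'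
      · exact Or.inl h
    · rcases mul_eq_zero.1 h with h | h
      · exact absurd h hd0
      · exact Or.inr (pow_eq_zero_iff (by omega) |>.1 h)
  have h02 : v 0 = 0 ∧ v 2 = 0 := by
    rcases h2' with h | h
    · refine ⟨h, ?_⟩
      rw [h, zero_pow (by omega), mul_zero, neg_zero, zero_sub, neg_eq_zero] at h0
      rcases mul_eq_zero.1 h0 with h' | h'
      · exact pow_eq_zero_iff (by omega) |>.1 h'
      · exact absurd h' hζ'
    · refine ⟨?_, h⟩
      rw [h, zero_pow (by omega), zero_mul, sub_zero, neg_eq_zero] at h0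
      rcases mul_eq_zero.1 h0 with h' | h'
      · exact absurd h' hdd
      · exact pow_eq_zero_iff (by omega) |>.1 h'
  funext i
  fin_cases i
  · exact h02.1
  · exact v1
  · exact h02.2

lemma eval_smul_homog {F : MvPolynomial (Fin 3) K} {e : ℕ} (hF : F.IsHomogeneous e) (a : K)
    (v : Fin 3 → K) : eval (a • v) F = a ^ e * eval v F := by
  rw [eval_eq', eval_eq', Finset.mul_sum]
  refine Finset.sum_congr rfl fun m hm => ?_
  have hm' := hF (mem_support_iff.1 hm)
  rw [Finsupp.weight_apply, Finsupp.sum_fintype] at hm'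
  · simp only [Pi.one_apply, smul_eq_mul, mul_one] at hm'
    have : ∏ i, (a • v) i ^ m i = a ^ e * ∏ i, v i ^ m i := by
      simp only [Pi.smul_apply, smul_eq_mul, mul_pow]
      rw [Finset.prod_mul_distrib, Finset.prod_pow_eq_pow_sum, hm']
    rw [this]
    ring
  · intro i
    simp

/-- from finitely many points to finitely many coordinate ratios -/
theorem FinPts.ratio {F : MvPolynomial (Fin 3) K} {e : ℕ} (hF : F.IsHomogeneous e)
    (h : FinPts F) (i j : Fin 3) :
    {t : K | ∃ v : Fin 3 → K, eval v F = 0 ∧ v j ≠ 0 ∧ t = v i / v j}.Finite := by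
  refine (h.image fun P => P.rep i / P.rep j).subset ?_
  rintro t ⟨v, hv, hj, rfl⟩
  have hv0 : v ≠ 0 := by
    intro h0
    exact hj (by rw [h0]; rfl)
  obtain ⟨a, ha⟩ := Projectivization.exists_smul_eq_mk_rep K v hv0
  refine ⟨Projectivization.mk K v hv0, ?_, ?_⟩
  · change eval (Projectivization.mk K v hv0).rep F = 0
    rw [← ha]
    have := eval_smul_homog hF (a : K) v
    rw [hv, mul_zero] at this
    exact this
  · change (Projectivization.mk K v hv0).rep i / (Projectivization.mk K v hv0).rep j = v i / v j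
    rw [← ha]
    change ((a : K) * v i) / ((a : K) * v j) = v i / v j
    rw [mul_div_mul_left _ _ a.ne_zero]

end PowCyc
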