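import Mathlib

/-!
# Unicritical polynomials: definitions
-/

namespace PowCyc

open Polynomial

variable {K : Type*} [Field K]

/-- the map `z ↦ z ^ d + c` -/
def f (d : ℕ) (c : K) : K → K := fun z => z ^ d + c

/-- `x` is preperiodic: its forward orbit is finite -/
def Pre (d : ℕ) (c x : K) : Prop := (Set.range fun k : ℕ => (f d c)^[k] x).Finite

/-- `x` is periodic -/
def Per (d : ℕ) (c x : K) : Prop := ∃ k : ℕ, 0 < k ∧ (f d c)^[k] x = x

/-- `G d x y = (x ^ d - y ^ d) / (x - y)` as a form -/
def G (d : ℕ) (x y : K) : K := ∑ i ∈ Finset.range d, x ^ i * y ^ (d - 1 - i)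

lemma G_mul (d : ℕ) (x y : K) : G d x y * (x - y) = x ^ d - y ^ d := by
  rw [G]; exact (Commute.all x y).geom_sum₂_mul d

lemma G_comm (d : ℕ) (x y : K) : G d x y = G d y x := by
  unfold G
  rw [← Finset.sum_range_reflect]
  apply Finset.sum_congr rfl
  intro i hi
  rw [Finset.mem_range] at hi
  have h1 : d - 1 - (d - 1 - i) = i := by omega
  rw [h1, mul_comm]

lemma G_smul (d : ℕ) (t x y : K) : G d (t * x) (t * y) = t ^ (d - 1) * G d x y := by
  unfold G
  rw [Finset.mul_sum]
  apply Finset.sum_congr rfl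
  intro i hi
  rw [Finset.mem_range] at hi
  rw [mul_pow, mul_pow]
  have : t ^ (d - 1) = t ^ i * t ^ (d - 1 - i) := by rw [← pow_add]; congr 1; omega
  rw [this]; ring

lemma f_sub (d : ℕ) (c x y : K) : f d c x - f d c y = G d x y * (x - y) := by
  rw [G_mul, f, f]; ring

lemma Per.pre {d : ℕ} {c x : K} (h : Per d c x) : Pre d c x := by
  classical
  obtain ⟨k, hk, hx⟩ := h
  have : (Set.range fun i : ℕ => (f d c)^[i] x) ⊆
      (Finset.range k).image (fun i => (f d c)^[i] x) := by
    rintro _ ⟨i, rfl⟩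
    rw [Finset.coe_image]
    refine ⟨i % k, by simpa using Nat.mod_lt _ hk, ?_⟩
    exact (Function.IsPeriodicPt.iterate_mod_apply (f := f d c) (x := x) hx i)
  exact (Finset.finite_toSet _).subset this

/-- the plane curve of degree `d - 1` -/
noncomputable def Fk (d : ℕ) (κ : K) : MvPolynomial (Fin 3) K :=
  (∑ i ∈ Finset.range d, MvPolynomial.X 0 ^ i * MvPolynomial.X 1 ^ (d - 1 - i)) -
    MvPolynomial.C κ * MvPolynomial.X 2 ^ (d - 1)

/-- the plane curve of degree `d` -/
noncomputable def Fz (d : ℕ) (ζ : K) : MvPolynomial (Fin 3) K :=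
  MvPolynomial.X 1 ^ d - MvPolynomial.X 0 ^ d -
    MvPolynomial.C (ζ - 1) * MvPolynomial.X 0 * MvPolynomial.X 2 ^ (d - 1)

/-- a ternary form over `K` defines a smooth plane curve: the partial derivatives have no common
zero over an algebraic closure other than the origin -/
def Smooth (F : MvPolynomial (Fin 3) K) : Prop :=
  ∀ v : Fin 3 → AlgebraicClosure K,
    (∀ i, MvPolynomial.aeval v (MvPolynomial.pderiv i F) = 0) → v = 0

/-- the plane curve `F = 0` has only finitely many `K`-rational points -/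
def FinPts (F : MvPolynomial (Fin 3) K) : Prop :=
  {P : Projectivization K (Fin 3 → K) | MvPolynomial.eval P.rep F = 0}.Finite

end PowCyc
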