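import Mathlib

/-!
# Preperiodic points of `x ^ d + c` over `ℚ` have one common denominator
-/

set_option autoImplicit false

namespace PowCyc

namespace DenomAux

variable {p : ℕ} [hp : Fact p.Prime]

lemma norm_pow (x : ℚ) (d : ℕ) : padicNorm p (x ^ d) = padicNorm p x ^ d := by
  induction d with
  | zero => rw [pow_zero, pow_zero, padicNorm.one]
  | succ n ih => rw [pow_succ, pow_succ, padicNorm.mul, ih]

/-- the local denominator -/
lemma max_norm (q : ℚ) : max 1 (padicNorm p q) = (p : ℚ) ^ (padicValNat p q.den) := by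
  have hp1 : (1 : ℚ) < p := by exact_mod_cast hp.out.one_lt
  have hq : padicNorm p q = padicNorm p (q.num : ℚ) / padicNorm p (q.den : ℚ) := by
    rw [← padicNorm.div, Rat.num_div_den]
  have hden : padicNorm p (q.den : ℚ) = ((p : ℚ) ^ (padicValNat p q.den))⁻¹ := by
    rw [padicNorm.eq_zpow_of_nonzero (by exact_mod_cast q.den_ne_zero), padicValRat.of_nat,
      zpow_neg, zpow_natCast]
  by_cases h : p ∣ q.den
  · have hnum : padicNorm p (q.num : ℚ) = 1 := by
      rw [padicNorm.int_eq_one_iff]
      intro h2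
      have h3 : p ∣ q.num.natAbs := Int.natCast_dvd.1 h2
      have h4 := Nat.dvd_gcd h3 h
      rw [q.reduced] at h4
      exact hp.out.one_lt.ne' (Nat.dvd_one.1 h4)
    rw [hq, hnum, hden, one_div, inv_inv]
    exact max_eq_right (one_le_pow₀ hp1.le)
  · rw [hq, (padicNorm.nat_eq_one_iff _).2 h, div_one, padicValNat.eq_zero_of_not_dvd h, pow_zero]
    exact max_eq_left (padicNorm.of_int _)

variable (c : ℚ) (d : ℕ)

/-- the escape region -/
lemma escape (hd : 2 ≤ d) (x : ℚ) (h1 : 1 < padicNorm p x)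
    (h2 : padicNorm p c < padicNorm p x ^ d) :
    ¬ (Set.range (fun k : ℕ => (fun z : ℚ => z ^ d + c)^[k] x)).Finite := by
  have step : ∀ y : ℚ, 1 < padicNorm p y → padicNorm p c < padicNorm p y ^ d →
      padicNorm p (y ^ d + c) = padicNorm p y ^ d := by
    intro y _ hy2
    have h3 : padicNorm p (y ^ d) = padicNorm p y ^ d := norm_pow y d
    rw [padicNorm.add_eq_max_of_ne (by rw [h3]; exact hy2.ne'), h3, max_eq_left hy2.le]
  have inv : ∀ k : ℕ, 1 < padicNorm p ((fun z : ℚ => z ^ d + c)^[k] x) ∧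
      padicNorm p c < padicNorm p ((fun z : ℚ => z ^ d + c)^[k] x) ^ d := by
    intro k
    induction k with
    | zero => exact ⟨h1, h2⟩
    | succ k ih =>
      rw [Function.iterate_succ_apply']
      set y := (fun z : ℚ => z ^ d + c)^[k] x
      have h4 := step y ih.1 ih.2
      rw [h4]
      have h5 : 1 < padicNorm p y ^ d := one_lt_pow₀ ih.1 (by omega)
      refine ⟨h5, ih.2.trans_le ?_⟩
      exact le_self_pow₀ h5.le (by omega)
  have mono : StrictMono (fun k : ℕ => padicNorm p ((fun z : ℚ => z ^ d + c)^[k] x)) := by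
    refine strictMono_nat_of_lt_succ fun k => ?_
    show _ < padicNorm p ((fun z : ℚ => z ^ d + c)^[k + 1] x)
    rw [Function.iterate_succ_apply']
    show padicNorm p _ < padicNorm p (_ ^ d + c)
    rw [step _ (inv k).1 (inv k).2]
    exact lt_self_pow₀ (inv k).1 (by omega)
  have hinj : Function.Injective (fun k : ℕ => (fun z : ℚ => z ^ d + c)^[k] x) := by
    intro i j hij
    apply mono.injective
    exact congrArg (padicNorm p) hij
  exact Set.infinite_range_of_injective hinj

lemma pre_image (x : ℚ) (h : (Set.range (fun k : ℕ => (fun z : ℚ => z ^ d + c)^[k] x)).Finite) :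
    (Set.range (fun k : ℕ => (fun z : ℚ => z ^ d + c)^[k] (x ^ d + c))).Finite := by
  refine h.subset ?_
  rintro _ ⟨k, rfl⟩
  exact ⟨k + 1, Function.iterate_succ_apply _ _ _⟩

/-- the local statement -/
lemma norm_eq (hd : 2 ≤ d) (x : ℚ)
    (h : (Set.range (fun k : ℕ => (fun z : ℚ => z ^ d + c)^[k] x)).Finite) :
    max 1 (padicNorm p (x ^ d)) = max 1 (padicNorm p c) := by
  have h3 : padicNorm p (x ^ d) = padicNorm p x ^ d := norm_pow x d
  have h0 : 0 ≤ padicNorm p x := padicNorm.nonneg x
  by_cases hc : padicNorm p c ≤ 1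
  · rw [max_eq_left hc, max_eq_left]
    rw [h3]
    by_contra hcon
    push Not at hcon
    have h4 : 1 < padicNorm p x := by
      by_contra h5
      push Not at h5
      exact absurd (pow_le_one₀ (n := d) h0 h5) (not_le.2 hcon)
    exact escape c d hd x h4 (hc.trans_lt hcon) h
  · push Not at hc
    have h5 : padicNorm p x ^ d = padicNorm p c := by
      rcases lt_trichotomy (padicNorm p x ^ d) (padicNorm p c) with h6 | h6 | h6
      · exfalso
        have h7 : padicNorm p (x ^ d + c) = padicNorm p c := by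
          rw [padicNorm.add_eq_max_of_ne (by rw [h3]; exact h6.ne), h3, max_eq_right h6.le]
        refine escape c d hd (x ^ d + c) (by rw [h7]; exact hc) ?_ (pre_image c d x h)
        rw [h7]
        exact lt_self_pow₀ hc (by omega)
      · exact h6
      · exfalso
        have h4 : 1 < padicNorm p x := by
          by_contra h5
          push Not at h5
          exact absurd (pow_le_one₀ (n := d) h0 h5) (not_le.2 (hc.trans h6))
        exact escape c d hd x h4 h6 h
    rw [h3, h5]

lemma den_eq (hd : 2 ≤ d) (x : ℚ)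
    (h : (Set.range (fun k : ℕ => (fun z : ℚ => z ^ d + c)^[k] x)).Finite) :
    x.den ^ d = c.den := by
  have h1 : ∀ p : ℕ, p.Prime → padicValNat p (x ^ d).den = padicValNat p c.den := by
    intro p hp
    have : Fact p.Prime := ⟨hp⟩
    have h2 := norm_eq (p := p) c d hd x h
    rw [max_norm, max_norm] at h2
    have hp1 : (1 : ℚ) < p := by exact_mod_cast hp.one_lt
    exact pow_right_injective₀ (by positivity) hp1.ne' h2
  rw [← Rat.den_pow]
  refine Nat.eq_of_factorization_eq (Rat.den_ne_zero _) (Rat.den_ne_zero _) fun p => ?_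
  by_cases hp : p.Prime
  · rw [Nat.factorization_def _ hp, Nat.factorization_def _ hp, h1 p hp]
  · rw [Nat.factorization_eq_zero_of_not_prime _ hp, Nat.factorization_eq_zero_of_not_prime _ hp]

end DenomAux

/-- All rational preperiodic points of `x ^ d + c` have the same denominator `b`, and `c` has
denominator `b ^ d`. -/
theorem exists_denom (d : ℕ) (hd : 2 ≤ d) (c : ℚ)
    (hne : ∃ x : ℚ, (Set.range (fun k : ℕ => (fun z : ℚ => z ^ d + c)^[k] x)).Finite) :
    ∃ b : ℕ, 0 < b ∧ ∃ a : ℤ, IsCoprime a (b : ℤ) ∧ c = a / (b : ℚ) ^ d ∧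
      ∀ x : ℚ, (Set.range (fun k : ℕ => (fun z : ℚ => z ^ d + c)^[k] x)).Finite →
        ∃ u : ℤ, IsCoprime u (b : ℤ) ∧ x = u / (b : ℚ) := by
  obtain ⟨x₀, hx₀⟩ := hne
  have h0 := DenomAux.den_eq c d hd x₀ hx₀
  refine ⟨x₀.den, x₀.den_pos, c.num, ?_, ?_, ?_⟩
  · have h1 : IsCoprime c.num (c.den : ℤ) := Rat.isCoprime_num_den c
    rw [← h0] at h1
    push_cast at h1
    exact (IsCoprime.pow_right_iff (by omega)).1 h1
  · have h2 : ((x₀.den : ℚ)) ^ d = (c.den : ℚ) := by exact_mod_cast h0
    rw [h2, Rat.num_div_den]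
  · intro x hx
    have h3 := DenomAux.den_eq c d hd x hx
    have h4 : x.den = x₀.den := Nat.pow_left_injective (n := d) (by omega) (h3.trans h0.symm)
    refine ⟨x.num, ?_, ?_⟩
    · rw [← h4]; exact Rat.isCoprime_num_den x
    · rw [← h4, Rat.num_div_den]

end PowCyc
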