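import Mathlib

/-!
# Two infinite descents

`s ^ 2 = y ^ 4 + 3 k y ^ 2 r ^ 2 + 3 k ^ 2 r ^ 4` with `k = 1` or `k = 3` and `gcd (y, r) = 1`
forces `r = 0`.
-/

namespace PowCyc

lemma coprime_of_prime {a b : ℕ} (h : ∀ p : ℕ, p.Prime → p ∣ a → p ∣ b → False) :
    Nat.Coprime a b := by
  by_contra hc
  obtain ⟨p, hp, ha, hb⟩ := Nat.Prime.not_coprime_iff_dvd.mp hc
  exact h p hp ha hb

lemma pow_split {a b c k : ℕ} (h : Nat.Coprime a b) (e : a * b = c ^ k) :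
    (∃ d, a = d ^ k) ∧ (∃ d, b = d ^ k) := by
  refine ⟨exists_eq_pow_of_mul_eq_pow ?_ e, exists_eq_pow_of_mul_eq_pow (b := a) ?_
    (by rw [mul_comm]; exact e)⟩
  · rw [Nat.isUnit_iff]; exact h
  · rw [Nat.isUnit_iff]; exact h.symm

/-- coprime factorisation of `3 ^ e * t ^ 4` -/
lemma split4 (e : ℕ) {A B t : ℕ} (hc : Nat.Coprime A B) (h : A * B = 3 ^ e * t ^ 4) :
    ∃ a b : ℕ, t = a * b ∧
      ((A = a ^ 4 ∧ B = 3 ^ e * b ^ 4) ∨ (A = 3 ^ e * b ^ 4 ∧ B = a ^ 4)) := by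
  have key : ∀ A B : ℕ, Nat.Coprime A B → A * B = 3 ^ e * t ^ 4 → ¬ 3 ∣ A →
      ∃ a b : ℕ, t = a * b ∧ A = a ^ 4 ∧ B = 3 ^ e * b ^ 4 := by
    intro A B hc h h3
    have hA3 : Nat.Coprime (3 ^ e) A :=
      Nat.Coprime.pow_left _ ((Nat.Prime.coprime_iff_not_dvd Nat.prime_three).mpr h3)
    have h3B : 3 ^ e ∣ B := by
      apply hA3.dvd_of_dvd_mul_left
      exact ⟨t ^ 4, h⟩
    obtain ⟨B', rfl⟩ := h3B
    have h' : A * B' = t ^ 4 := by
      have hpos : 0 < 3 ^ e := by positivity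
      have : 3 ^ e * (A * B') = 3 ^ e * t ^ 4 := by rw [← h]; ring
      exact Nat.eq_of_mul_eq_mul_left hpos this
    have hc' : Nat.Coprime A B' := Nat.Coprime.coprime_mul_left_right hc
    obtain ⟨⟨a, ha⟩, ⟨b, hb⟩⟩ := pow_split hc' h'
    refine ⟨a, b, ?_, ha, by rw [hb]⟩
    have : (a * b) ^ 4 = t ^ 4 := by rw [mul_pow, ← ha, ← hb]; exact h'
    exact (Nat.pow_left_injective (by norm_num : (4 : ℕ) ≠ 0) this).symm
  by_cases h3 : 3 ∣ A
  · have h3' : ¬ 3 ∣ B := by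
      intro hB
      have := Nat.dvd_gcd h3 hB
      rw [hc] at this
      omega
    obtain ⟨a, b, ht, ha, hb⟩ := key B A hc.symm (by rw [mul_comm]; exact h) h3'
    exact ⟨a, b, ht, Or.inr ⟨hb, ha⟩⟩
  · obtain ⟨a, b, ht, ha, hb⟩ := key A B hc h h3
    exact ⟨a, b, ht, Or.inl ⟨ha, hb⟩⟩

lemma z3 : ∀ a b : ZMod 3, a ^ 4 + b ^ 2 = 0 → a = 0 ∧ b = 0 := by decide

lemma three_dvd_of_add {a b : ℕ} (h : 3 ∣ a ^ 4 + b ^ 2) : 3 ∣ a ∧ 3 ∣ b := by
  have h1 : ((a ^ 4 + b ^ 2 : ℕ) : ZMod 3) = 0 := (ZMod.natCast_eq_zero_iff _ _).mpr h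
  push_cast at h1
  obtain ⟨ha, hb⟩ := z3 _ _ h1
  exact ⟨(ZMod.natCast_eq_zero_iff _ _).mp ha, (ZMod.natCast_eq_zero_iff _ _).mp hb⟩

/-- the two quartics -/
theorem descent (k e : ℕ) (hk : (k = 1 ∧ e = 1) ∨ (k = 3 ∧ e = 3)) :
    ∀ r s y : ℕ, Nat.Coprime y r →
      s ^ 2 = y ^ 4 + 3 * k * y ^ 2 * r ^ 2 + 3 * k ^ 2 * r ^ 4 → r = 0 := by
  have hke : 3 * k ^ 2 = 3 ^ e := by rcases hk with ⟨rfl, rfl⟩ | ⟨rfl, rfl⟩ <;> norm_num
  have h3e : ∀ p : ℕ, p.Prime → p ∣ 3 ^ e → p = 3 := by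
    intro p hp h
    exact (Nat.prime_dvd_prime_iff_eq hp Nat.prime_three).mp (hp.dvd_of_dvd_pow h)
  intro r
  induction r using Nat.strong_induction_on with
  | _ r ih =>
  intro s y hc h
  by_contra hr
  have hrpos : 0 < r := Nat.pos_of_ne_zero hr
  -- parity
  have hpar : y % 2 = 1 ∧ r % 2 = 0 := by
    have hcc : ¬ (2 ∣ y ∧ 2 ∣ r) := by
      rintro ⟨h1, h2⟩
      have := Nat.dvd_gcd h1 h2
      rw [hc] at this
      omega
    have hz : ∀ s y r : ZMod 16, s ^ 2 = y ^ 4 + 3 * k * y ^ 2 * r ^ 2 + 3 * k ^ 2 * r ^ 4 →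
        (y.val % 2 = 1 ∧ r.val % 2 = 0) ∨ (y.val % 2 = 0 ∧ r.val % 2 = 0) := by
      rcases hk with ⟨rfl, rfl⟩ | ⟨rfl, rfl⟩ <;> decide
    have h16 := hz s y r (by exact_mod_cast congrArg (Nat.cast : ℕ → ZMod 16) h)
    rw [ZMod.val_natCast, ZMod.val_natCast] at h16
    omega
  obtain ⟨hy2, hr2⟩ := hpar
  -- 3 does not divide y
  have hy3 : ¬ 3 ∣ y := by
    rintro ⟨y', rfl⟩
    have hr3 : ¬ 3 ∣ r := by
      intro hr3
      have := Nat.dvd_gcd (Dvd.intro y' rfl) hr3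
      rw [hc] at this
      omega
    rcases hk with ⟨rfl, rfl⟩ | ⟨rfl, rfl⟩
    · have h3s : 3 ∣ s := by
        apply Nat.prime_three.dvd_of_dvd_pow (n := 2)
        rw [h]
        exact ⟨27 * y' ^ 4 + 9 * y' ^ 2 * r ^ 2 + r ^ 4, by ring⟩
      obtain ⟨s', rfl⟩ := h3s
      have h4 : 3 * s' ^ 2 = 27 * y' ^ 4 + 9 * y' ^ 2 * r ^ 2 + r ^ 4 := by nlinarith
      apply hr3
      apply Nat.prime_three.dvd_of_dvd_pow (n := 4)
      exact (Nat.dvd_add_right (⟨9 * y' ^ 4 + 3 * y' ^ 2 * r ^ 2, by ring⟩ :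
        3 ∣ 27 * y' ^ 4 + 9 * y' ^ 2 * r ^ 2)).mp ⟨s' ^ 2, h4.symm⟩
    · have h3s : 3 ∣ s := by
        apply Nat.prime_three.dvd_of_dvd_pow (n := 2)
        rw [h]
        exact ⟨27 * y' ^ 4 + 27 * y' ^ 2 * r ^ 2 + 9 * r ^ 4, by ring⟩
      obtain ⟨s', rfl⟩ := h3s
      have h4 : s' ^ 2 = 9 * y' ^ 4 + 9 * y' ^ 2 * r ^ 2 + 3 * r ^ 4 := by nlinarith
      have h3s' : 3 ∣ s' := by
        apply Nat.prime_three.dvd_of_dvd_pow (n := 2)
        rw [h4]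
        exact ⟨3 * y' ^ 4 + 3 * y' ^ 2 * r ^ 2 + r ^ 4, by ring⟩
      obtain ⟨s'', rfl⟩ := h3s'
      have h5 : 3 * s'' ^ 2 = 3 * y' ^ 4 + 3 * y' ^ 2 * r ^ 2 + r ^ 4 := by nlinarith
      apply hr3
      apply Nat.prime_three.dvd_of_dvd_pow (n := 4)
      exact (Nat.dvd_add_right (⟨y' ^ 4 + y' ^ 2 * r ^ 2, by ring⟩ :
        3 ∣ 3 * y' ^ 4 + 3 * y' ^ 2 * r ^ 2)).mp ⟨s'' ^ 2, h5.symm⟩
  -- r = 2 t
  obtain ⟨t, rfl⟩ : 2 ∣ r := Nat.dvd_of_mod_eq_zero hr2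
  have htpos : 0 < t := by omega
  have hyt : Nat.Coprime y t := Nat.Coprime.coprime_mul_left_right hc
  set P := y ^ 2 + 6 * k * t ^ 2 with hP
  have hs : s ^ 2 = P ^ 2 + 4 * (3 ^ e * t ^ 4) := by
    rw [h, hP, ← hke]; ring
  have hPs : P < s := by
    have : P ^ 2 < s ^ 2 := by rw [hs]; have : 0 < 4 * (3 ^ e * t ^ 4) := by positivity
                               omega
    exact lt_of_pow_lt_pow_left₀ 2 (Nat.zero_le _) this
  have hPodd : P % 2 = 1 := by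
    have : P = y ^ 2 + 2 * (3 * k * t ^ 2) := by rw [hP]; ring
    rw [this, Nat.add_mul_mod_self_left, Nat.pow_mod, hy2]
  have hsodd : s % 2 = 1 := by
    by_contra hne
    have h0 : s % 2 = 0 := by omega
    have h1 : s ^ 2 % 2 = 0 := by rw [Nat.pow_mod, h0]
    have h2 : (P ^ 2 + 4 * (3 ^ e * t ^ 4)) % 2 = 1 := by
      have h3 : P ^ 2 % 2 = 1 := by rw [Nat.pow_mod, hPodd]
      omega
    omega
  obtain ⟨A, hA⟩ : ∃ A, s = P + 2 * A := ⟨(s - P) / 2, by omega⟩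
  have hApos : 0 < A := by omega
  -- A * (A + P) = 3^e t^4
  have hAA : A * (A + P) = 3 ^ e * t ^ 4 := by
    rw [hA] at hs; nlinarith
  have hcAA : Nat.Coprime A (A + P) := by
    apply coprime_of_prime
    intro p hp h1 h2
    have hpP : p ∣ P := (Nat.dvd_add_right h1).mp h2
    have hpt : p ∣ 3 ^ e * t ^ 4 := by rw [← hAA]; exact Dvd.dvd.mul_right h1 _
    rcases (Nat.Prime.dvd_mul hp).mp hpt with h3 | h3
    · have := h3e p hp h3
      subst this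
      apply hy3
      apply Nat.prime_three.dvd_of_dvd_pow (n := 2)
      exact (Nat.dvd_add_left (⟨2 * k * t ^ 2, by ring⟩ : 3 ∣ 6 * k * t ^ 2)).mp hpP
    · have hpt' : p ∣ t := hp.dvd_of_dvd_pow h3
      have hpy : p ∣ y := by
        apply hp.dvd_of_dvd_pow (n := 2)
        refine (Nat.dvd_add_left ?_).mp hpP
        exact Dvd.dvd.mul_left (dvd_pow hpt' (by norm_num)) _
      exact Nat.not_coprime_of_dvd_of_dvd hp.one_lt hpy hpt' hyt
  obtain ⟨α, β, htab, hcase⟩ := split4 e hcAA hAA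
  have hαpos : 0 < α := Nat.pos_of_ne_zero (by rintro rfl; simp at htab; omega)
  have hβpos : 0 < β := Nat.pos_of_ne_zero (by rintro rfl; simp at htab; omega)
  rcases hcase with ⟨hA1, hA2⟩ | ⟨hA1, hA2⟩
  · -- A = α^4, A + P = 3^e β^4
    have h3d : 3 ∣ α ^ 4 + y ^ 2 := by
      have h6 : α ^ 4 + y ^ 2 + 3 * (2 * k * t ^ 2) = 3 * (k ^ 2 * β ^ 4) := by
        have : 3 * (k ^ 2 * β ^ 4) = 3 ^ e * β ^ 4 := by rw [← hke]; ring
        rw [this, ← hA2, hA1, hP]; ring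
      exact (Nat.dvd_add_left ⟨2 * k * t ^ 2, rfl⟩).mp ⟨_, h6⟩
    exact hy3 (three_dvd_of_add h3d).2
  · -- A = 3^e β^4, A + P = α^4
    have hαeq : α ^ 4 = 3 * k ^ 2 * β ^ 4 + y ^ 2 + 6 * k * α ^ 2 * β ^ 2 := by
      rw [← hA2, hA1, hP, hke, htab]; ring
    have hα3 : ¬ 3 ∣ α := by
      intro h7
      apply hy3
      apply Nat.prime_three.dvd_of_dvd_pow (n := 2)
      have h8 : 3 ∣ y ^ 2 + 3 * (k ^ 2 * β ^ 4 + 2 * k * α ^ 2 * β ^ 2) := by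
        have : y ^ 2 + 3 * (k ^ 2 * β ^ 4 + 2 * k * α ^ 2 * β ^ 2) = α ^ 4 := by rw [hαeq]; ring
        rw [this]
        exact dvd_pow h7 (by norm_num)
      exact (Nat.dvd_add_left ⟨_, rfl⟩).mp h8
    have hcab : Nat.Coprime α β := by
      apply coprime_of_prime
      intro p hp h1 h2
      have hpy : p ∣ y := by
        apply hp.dvd_of_dvd_pow (n := 2)
        have h8 : p ∣ y ^ 2 + β * (3 * k ^ 2 * β ^ 3 + 6 * k * α ^ 2 * β) := by
          have : y ^ 2 + β * (3 * k ^ 2 * β ^ 3 + 6 * k * α ^ 2 * β) = α ^ 4 := by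
            rw [hαeq]; ring
          rw [this]
          exact dvd_pow h1 (by norm_num)
        exact (Nat.dvd_add_left (Dvd.dvd.mul_right h2 _)).mp h8
      exact Nat.not_coprime_of_dvd_of_dvd hp.one_lt hpy (by rw [htab]; exact Dvd.dvd.mul_left h2 _)
        hyt
    -- parity of α, β
    have hpab : (α + k * β) % 2 = 1 ∧ (α + β) % 2 = 1 := by
      have h9 : (α ^ 4) % 2 = (3 * k ^ 2 * β ^ 4 + y ^ 2 + 6 * k * α ^ 2 * β ^ 2) % 2 := by
        rw [hαeq]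
      have hk2 : k % 2 = 1 := by rcases hk with ⟨rfl, rfl⟩ | ⟨rfl, rfl⟩ <;> norm_num
      rcases Nat.mod_two_eq_zero_or_one α with ha | ha <;>
      rcases Nat.mod_two_eq_zero_or_one β with hb | hb <;>
      simp [Nat.pow_mod, Nat.mul_mod, Nat.add_mod, ha, hb, hk2, hy2] at h9 ⊢
    -- the quantity Q = |α^2 - 3 k β^2|
    have hQ2 : ((α : ℤ) ^ 2 - 3 * k * β ^ 2) ^ 2 = (y : ℤ) ^ 2 + 4 * (3 ^ e * β ^ 4) := by
      have h10 : (α : ℤ) ^ 4 = 3 * k ^ 2 * β ^ 4 + y ^ 2 + 6 * k * α ^ 2 * β ^ 2 := by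
        exact_mod_cast hαeq
      have h11 : (3 : ℤ) * k ^ 2 = 3 ^ e := by exact_mod_cast hke
      rw [← h11]
      linear_combination h10
    obtain ⟨Q, hQ⟩ : ∃ Q : ℕ, (Q : ℤ) = |(α : ℤ) ^ 2 - 3 * k * β ^ 2| :=
      ⟨_, Int.natCast_natAbs _⟩
    have hQQ : Q ^ 2 = y ^ 2 + 4 * (3 ^ e * β ^ 4) := by
      have : ((Q : ℤ)) ^ 2 = (y : ℤ) ^ 2 + 4 * (3 ^ e * β ^ 4) := by rw [hQ, sq_abs, hQ2]
      exact_mod_cast this
    have hyQ : y < Q := by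
      have : y ^ 2 < Q ^ 2 := by
        rw [hQQ]
        have : 0 < 4 * (3 ^ e * β ^ 4) := by positivity
        omega
      exact lt_of_pow_lt_pow_left₀ 2 (Nat.zero_le _) this
    have hQodd : Q % 2 = 1 := by
      by_contra hne
      have h0 : Q % 2 = 0 := by omega
      have h1 : Q ^ 2 % 2 = 0 := by rw [Nat.pow_mod, h0]
      have h2 : y ^ 2 % 2 = 1 := by rw [Nat.pow_mod, hy2]
      omega
    obtain ⟨C, hC⟩ : ∃ C, Q = y + 2 * C := ⟨(Q - y) / 2, by omega⟩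
    have hCC : C * (C + y) = 3 ^ e * β ^ 4 := by
      rw [hC] at hQQ; nlinarith
    have hcC : Nat.Coprime C (C + y) := by
      apply coprime_of_prime
      intro p hp h1 h2
      have hpy : p ∣ y := (Nat.dvd_add_right h1).mp h2
      have hpt : p ∣ 3 ^ e * β ^ 4 := by rw [← hCC]; exact Dvd.dvd.mul_right h1 _
      rcases (Nat.Prime.dvd_mul hp).mp hpt with h3 | h3
      · have := h3e p hp h3
        subst this
        exact hy3 hpy
      · have hpb : p ∣ β := hp.dvd_of_dvd_pow h3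
        exact Nat.not_coprime_of_dvd_of_dvd hp.one_lt hpy
          (by rw [htab]; exact Dvd.dvd.mul_left hpb _) hyt
    obtain ⟨γ, δ, hβgd, hcase2⟩ := split4 e hcC hCC
    -- in both cases Q = γ^4 + 3^e δ^4
    have hQgd : Q = γ ^ 4 + 3 ^ e * δ ^ 4 := by
      rcases hcase2 with ⟨h1, h2⟩ | ⟨h1, h2⟩
      · have : Q = C + (C + y) := by omega
        rw [this, h2]; omega
      · have : Q = C + (C + y) := by omega
        rw [this, h2, h1]; ring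
    have hcgd : Nat.Coprime γ δ := by
      rcases hcase2 with ⟨h1, h2⟩ | ⟨h1, h2⟩
      · rw [h2, h1] at hcC
        exact Nat.Coprime.coprime_dvd_left (dvd_pow_self γ (by norm_num))
          (Nat.Coprime.coprime_dvd_right (Dvd.dvd.mul_left (dvd_pow_self δ (by norm_num)) _) hcC)
      · rw [h2, h1] at hcC
        exact (Nat.Coprime.coprime_dvd_left (Dvd.dvd.mul_left (dvd_pow_self δ (by norm_num)) _)
          (Nat.Coprime.coprime_dvd_right (dvd_pow_self γ (by norm_num)) hcC)).symm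
    have hγpos : 0 < γ := Nat.pos_of_ne_zero (by rintro rfl; simp at hβgd; omega)
    have hδpos : 0 < δ := Nat.pos_of_ne_zero (by rintro rfl; simp at hβgd; omega)
    rcases abs_cases ((α : ℤ) ^ 2 - 3 * k * β ^ 2) with ⟨h12, _⟩ | ⟨h12, _⟩
    · -- positive case
      have h13 : (α : ℤ) ^ 2 = γ ^ 4 + 3 ^ e * δ ^ 4 + 3 * k * β ^ 2 := by
        have : (Q : ℤ) = γ ^ 4 + 3 ^ e * δ ^ 4 := by exact_mod_cast hQgd
        rw [hQ, h12] at this
        linarith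
      have h14 : α ^ 2 = γ ^ 4 + 3 * k * γ ^ 2 * δ ^ 2 + 3 * k ^ 2 * δ ^ 4 := by
        have h15 : α ^ 2 = γ ^ 4 + 3 ^ e * δ ^ 4 + 3 * k * β ^ 2 := by exact_mod_cast h13
        rw [h15, hβgd, ← hke]; ring
      have hlt : δ < 2 * t := by
        have h16 : δ ≤ t := by
          rw [htab, hβgd]
          calc δ = 1 * (1 * δ) := by ring
            _ ≤ α * (γ * δ) := Nat.mul_le_mul hαpos (Nat.mul_le_mul hγpos le_rfl)
        omega
      have := ih δ hlt α γ hcgd h14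
      omega
    · -- negative case
      have h13 : (α : ℤ) ^ 2 + γ ^ 4 + 3 ^ e * δ ^ 4 = 3 * k * β ^ 2 := by
        have : (Q : ℤ) = γ ^ 4 + 3 ^ e * δ ^ 4 := by exact_mod_cast hQgd
        rw [hQ, h12] at this
        linarith
      have h15 : α ^ 2 + γ ^ 4 + 3 ^ e * δ ^ 4 = 3 * k * β ^ 2 := by exact_mod_cast h13
      apply hα3
      have h16 : 3 ∣ γ ^ 4 + α ^ 2 := by
        have h17 : γ ^ 4 + α ^ 2 + 3 * (k ^ 2 * δ ^ 4) = 3 * (k * β ^ 2) := by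
          have : 3 * (k ^ 2 * δ ^ 4) = 3 ^ e * δ ^ 4 := by rw [← hke]; ring
          rw [this]
          have : 3 * (k * β ^ 2) = 3 * k * β ^ 2 := by ring
          rw [this, ← h15]; ring
        exact (Nat.dvd_add_left ⟨k ^ 2 * δ ^ 4, rfl⟩).mp ⟨_, h17⟩
      exact (three_dvd_of_add h16).2

end PowCyc
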