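import Mathlib

/-!
# The equations `Z ^ 5 = Y ^ 10 + B ^ 2` and `Z ^ 5 = Y ^ 10 + 3 B ^ 2`
-/

set_option autoImplicit false

namespace PowCyc

/-- an odd square is `1 + 8 c` -/
theorem d5_odd_sq_form {a : ℤ} (ha : Odd a) : ∃ c : ℤ, a ^ 2 = 1 + 8 * c := by
  obtain ⟨c, hc⟩ := Int.eight_dvd_sq_sub_one_of_odd ha
  exact ⟨c, by linarith⟩

/-- splitting `A B = 125 w ^ 4` -/
theorem d5_split125 {A B w : ℤ} (hc : IsCoprime A B) (hw : w ≠ 0) (h : A * B = 125 * w ^ 4) :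
    ∃ a b e : ℤ, (e = 1 ∨ e = -1) ∧ a * b = w ∧ IsCoprime a (5 * b) ∧
      A + B = e * (a ^ 4 + 125 * b ^ 4) := by
  have hp5 : Prime (5 : ℤ) := by norm_num
  -- the case `125 ∣ B`
  have key : ∀ A B : ℤ, IsCoprime A B → A * B = 125 * w ^ 4 → (125 : ℤ) ∣ B →
      ∃ a b e : ℤ, (e = 1 ∨ e = -1) ∧ a * b = w ∧ IsCoprime a (5 * b) ∧
      A + B = e * (a ^ 4 + 125 * b ^ 4) := by
    rintro A _ hc h ⟨B, rfl⟩
    have h1 : A * B = w ^ 4 := by linarith
    have hAB : IsCoprime A B := hc.of_mul_right_right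
    obtain ⟨a, ha⟩ := exists_associated_pow_of_mul_eq_pow' hAB h1
    obtain ⟨b, hb⟩ := exists_associated_pow_of_mul_eq_pow' hAB.symm (by rw [mul_comm]; exact h1)
    rw [Int.associated_iff] at ha hb
    have hw4 : 0 < w ^ 4 := by positivity
    have hab : (a * b) ^ 4 = w ^ 4 := by
      have h2 : 0 ≤ (a * b) ^ 4 := by positivity
      rcases ha with ha | ha <;> rcases hb with hb | hb
      · rw [mul_pow, ha, hb, h1]
      · rw [mul_pow, ha, hb] at h2 ⊢
        nlinarith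
      · rw [mul_pow, ha, hb] at h2 ⊢
        nlinarith
      · rw [mul_pow, ha, hb, neg_mul_neg, h1]
    have hab' : a * b = w ∨ a * b = -w := by
      have h3 : ((a * b) ^ 2) ^ 2 = (w ^ 2) ^ 2 := by
        rw [← pow_mul, ← pow_mul]; exact hab
      have h4 : (a * b) ^ 2 = w ^ 2 := by
        have h5 : 0 ≤ (a * b) ^ 2 := sq_nonneg _
        have h6 : 0 ≤ w ^ 2 := sq_nonneg _
        exact (pow_left_inj₀ h5 h6 two_ne_zero).mp h3
      exact sq_eq_sq_iff_eq_or_eq_neg.mp h4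
    have ha0 : 0 < a ^ 4 := by
      have : a ≠ 0 := by
        rintro rfl
        rw [zero_mul] at hab
        rw [← hab] at hw4
        norm_num at hw4
      positivity
    have hb0 : 0 < b ^ 4 := by
      have : b ≠ 0 := by
        rintro rfl
        rw [mul_zero] at hab
        rw [← hab] at hw4
        norm_num at hw4
      positivity
    obtain ⟨e, he, hA, hB⟩ : ∃ e : ℤ, (e = 1 ∨ e = -1) ∧ A = e * a ^ 4 ∧ B = e * b ^ 4 := by
      rcases ha with ha | ha <;> rcases hb with hb | hb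
      · exact ⟨1, Or.inl rfl, by linarith, by linarith⟩
      · exfalso
        rw [ha] at ha0
        have : B < 0 := by linarith
        nlinarith
      · exfalso
        rw [hb] at hb0
        have : A < 0 := by linarith
        nlinarith
      · exact ⟨-1, Or.inr rfl, by linarith, by linarith⟩
    have hcop : IsCoprime a (5 * b) := by
      have hee : e * e = 1 := by rcases he with rfl | rfl <;> norm_num
      have h5 : IsCoprime (e * a ^ 4) (125 * (e * b ^ 4)) := by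
        rw [← hA, ← hB]; exact hc
      have h6 : IsCoprime (a ^ 4) ((5 : ℤ) ^ 3 * b ^ 4) := by
        obtain ⟨s, t, hst⟩ := h5
        exact ⟨s * e, t * e, by rw [← hst]; ring⟩
      have h7 : IsCoprime a ((5 : ℤ) ^ 3 * b ^ 4) := (IsCoprime.pow_left_iff (by norm_num)).mp h6
      have h8 : IsCoprime a ((5 : ℤ) ^ 3) := h7.of_mul_right_left
      have h9 : IsCoprime a (b ^ 4) := h7.of_mul_right_right
      exact IsCoprime.mul_right ((IsCoprime.pow_right_iff (by norm_num)).mp h8)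
        ((IsCoprime.pow_right_iff (by norm_num)).mp h9)
    rcases hab' with h3 | h3
    · exact ⟨a, b, e, he, h3, hcop, by rw [hA, hB]; ring⟩
    · refine ⟨a, -b, e, he, by linarith [mul_neg a b], ?_, by rw [hA, hB]; ring⟩
      have : (5 : ℤ) * -b = -(5 * b) := by ring
      rw [this]
      exact hcop.neg_right
  by_cases h5 : (5 : ℤ) ∣ A
  · have h6 : ¬ (5 : ℤ) ∣ B := fun h7 => by
      have := hc.isUnit_of_dvd' h5 h7
      rw [Int.isUnit_iff] at this
      omega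
    have h7 : IsCoprime ((5 : ℤ) ^ 3) B :=
      IsCoprime.pow_left ((Prime.coprime_iff_not_dvd hp5).mpr h6)
    have h8 : (5 : ℤ) ^ 3 ∣ A := by
      apply h7.dvd_of_dvd_mul_right
      rw [h]
      exact ⟨w ^ 4, by norm_num⟩
    obtain ⟨a, b, e, he, h9, h10, h11⟩ := key B A hc.symm (by rw [mul_comm]; exact h)
      (by norm_num at h8; exact h8)
    exact ⟨a, b, e, he, h9, h10, by rw [add_comm]; exact h11⟩
  · have h7 : IsCoprime ((5 : ℤ) ^ 3) A :=
      IsCoprime.pow_left ((Prime.coprime_iff_not_dvd hp5).mpr h5)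
    have h8 : (5 : ℤ) ^ 3 ∣ B := by
      apply h7.dvd_of_dvd_mul_left
      rw [h]
      exact ⟨w ^ 4, by norm_num⟩
    exact key A B hc h (by norm_num at h8; exact h8)

/-- coprimality of the two factors -/
theorem d5_coprime_aux {A B w X k : ℤ} (hw : w ≠ 0) (h : A * B = 125 * w ^ 4)
    (hs : A + B = X ^ 2 + 5 * w * k) (hc : IsCoprime X (5 * w)) : IsCoprime A B := by
  apply isCoprime_of_prime_dvd
  · rintro ⟨rfl, rfl⟩
    apply hw
    have : w ^ 4 = 0 := by linarith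
    exact (pow_eq_zero_iff (by norm_num)).mp this
  · intro p hp h1 h2
    have h3 : p ∣ 5 * w := by
      have h4 : p ∣ (5 * w) ^ 4 := by
        have : (5 * w) ^ 4 = 5 * (A * B) := by rw [h]; ring
        rw [this]
        exact Dvd.dvd.mul_left (Dvd.dvd.mul_right h1 _) _
      exact hp.dvd_of_dvd_pow h4
    have h5 : p ∣ X ^ 2 := by
      have h6 : p ∣ X ^ 2 + 5 * w * k := by
        rw [← hs]
        exact dvd_add h1 h2
      exact (dvd_add_left (Dvd.dvd.mul_right h3 k)).mp h6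
    exact hp.not_isUnit (hc.isUnit_of_dvd' (hp.dvd_of_dvd_pow h5) h3)

/-- second step: from `s ^ 2 = α ^ 4 + 50 α ^ 2 β ^ 2 + 125 β ^ 4` -/
theorem d5_step2 {α β s : ℤ} (hβ : β ≠ 0) (hc : IsCoprime α (5 * β))
    (hs : s ^ 2 = α ^ 4 + 50 * α ^ 2 * β ^ 2 + 125 * β ^ 4) (he : Even (α ^ 2 + 25 * β ^ 2 - s)) :
    ∃ γ δ : ℤ, γ * δ = β ∧ IsCoprime γ (5 * δ) ∧
      α ^ 2 = γ ^ 4 - 25 * γ ^ 2 * δ ^ 2 + 125 * δ ^ 4 := by
  obtain ⟨A, hA⟩ := he
  have h1 : A * (A + s) = 125 * β ^ 4 := by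
    have h2 : α ^ 2 + 25 * β ^ 2 = 2 * A + s := by linarith
    have h3 : (α ^ 2 + 25 * β ^ 2) ^ 2 - s ^ 2 = 500 * β ^ 4 := by rw [hs]; ring
    rw [h2] at h3
    nlinarith
  have h2 : A + (A + s) = α ^ 2 + 5 * β * (5 * β) := by linarith
  obtain ⟨γ, δ, e, he, h3, h4, h5⟩ := d5_split125 (d5_coprime_aux hβ h1 h2 hc) hβ h1
  refine ⟨γ, δ, h3, h4, ?_⟩
  have h6 : α ^ 2 + 25 * β ^ 2 = e * (γ ^ 4 + 125 * δ ^ 4) := by rw [← h5]; linarith
  rcases he with rfl | rfl
  · rw [← h3] at h6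
    linear_combination h6
  · exfalso
    have h7 : 0 < β ^ 2 := by positivity
    have h8 : 0 ≤ α ^ 2 := sq_nonneg _
    have h9 : 0 ≤ γ ^ 4 := by positivity
    have h10 : 0 ≤ δ ^ 4 := by positivity
    linarith

/-- `g ^ 2 = u ^ 4 - 25 u ^ 2 v ^ 2 + 125 v ^ 4` with `u`, `v` odd is impossible -/
theorem d5_no_odd_odd {g u v : ℤ} (hu : Odd u) (hv : Odd v)
    (h : g ^ 2 = u ^ 4 - 25 * u ^ 2 * v ^ 2 + 125 * v ^ 4) : False := by
  obtain ⟨c, hc⟩ := d5_odd_sq_form hu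
  obtain ⟨d, hd⟩ := d5_odd_sq_form hv
  have h1 : g ^ 2 = (u ^ 2) ^ 2 - 25 * u ^ 2 * v ^ 2 + 125 * (v ^ 2) ^ 2 := by rw [h]; ring
  rw [hc, hd] at h1
  have h2 : g ^ 2 = 101 + 8 * (2 * c + 8 * c ^ 2 - 25 * (c + d + 8 * c * d) +
      125 * (2 * d + 8 * d ^ 2)) := by
    rw [h1]; ring
  rcases Int.even_or_odd g with ⟨k, hk⟩ | hg
  · rw [hk] at h2
    have h3 : (k + k) ^ 2 = 4 * k ^ 2 := by ring
    rw [h3] at h2
    omega
  · obtain ⟨k, hk⟩ := d5_odd_sq_form hg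
    rw [hk] at h2
    omega

/-- the descent -/
theorem d5_quartic_descent (n : ℕ) : ∀ g u v : ℤ, v.natAbs ≤ n → v ≠ 0 → IsCoprime u (5 * v) →
    g ^ 2 = u ^ 4 - 25 * u ^ 2 * v ^ 2 + 125 * v ^ 4 → False := by
  induction n with
  | zero =>
    intro g u v hn hv _ _
    omega
  | succ n ih =>
    intro g u v hn hv hc h
    rcases Int.even_or_odd v with hv2 | hv2
    · -- `v` even
      obtain ⟨w, hw⟩ := hv2
      have hw' : v = 2 * w := by linarith
      clear hw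
      subst hw'
      have hw0 : w ≠ 0 := by
        rintro rfl; exact hv (by norm_num)
      have hu : Odd u := by
        rw [← Int.not_even_iff_odd]
        intro hu
        have h1 : (2 : ℤ) ∣ u := hu.two_dvd
        have h2 : (2 : ℤ) ∣ 5 * (2 * w) := ⟨5 * w, by ring⟩
        have := hc.isUnit_of_dvd' h1 h2
        rw [Int.isUnit_iff] at this
        omega
      have hg : Odd g := by
        rw [← Int.not_even_iff_odd]
        rintro ⟨k, hk⟩
        obtain ⟨c, hc⟩ := d5_odd_sq_form hu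
        have h1 : g ^ 2 = (u ^ 2) ^ 2 - 100 * u ^ 2 * w ^ 2 + 2000 * w ^ 4 := by rw [h]; ring
        rw [hc, hk] at h1
        have h2 : 4 * k ^ 2 = 1 + 2 * (8 * c + 32 * c ^ 2 - 50 * (1 + 8 * c) * w ^ 2 +
            1000 * w ^ 4) := by
          have : 4 * k ^ 2 = (k + k) ^ 2 := by ring
          rw [this, h1]; ring
        omega
      obtain ⟨A, hA⟩ : Even (u ^ 2 - 50 * w ^ 2 - g) := by
        have h1 : Odd (u ^ 2) := hu.pow
        have h2 : Even (50 * w ^ 2) := ⟨25 * w ^ 2, by ring⟩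
        exact (h1.sub_even h2).sub_odd hg
      have h1 : A * (A + g) = 125 * w ^ 4 := by
        have h2 : u ^ 2 - 50 * w ^ 2 = 2 * A + g := by linarith
        have h3 : (u ^ 2 - 50 * w ^ 2) ^ 2 - g ^ 2 = 500 * w ^ 4 := by rw [h]; ring
        rw [h2] at h3
        nlinarith
      have h2 : A + (A + g) = u ^ 2 + 5 * w * (-10 * w) := by linarith
      have hc' : IsCoprime u (5 * w) := by
        have h3 : (5 : ℤ) * (2 * w) = 2 * (5 * w) := by ring
        rw [h3] at hc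
        exact hc.of_mul_right_right
      obtain ⟨α, β, e, he, h3, h4, h5⟩ := d5_split125 (d5_coprime_aux hw0 h1 h2 hc') hw0 h1
      have h6 : u ^ 2 = e * (α ^ 4 + 125 * β ^ 4) + 50 * α ^ 2 * β ^ 2 := by
        linear_combination hA + h5 - 50 * (α * β + w) * h3
      obtain ⟨c, hc0⟩ := d5_odd_sq_form hu
      rcases he with rfl | rfl
      · have hβ0 : β ≠ 0 := by
          rintro rfl
          exact hw0 (by rw [← h3, mul_zero])
        have hα0 : α ≠ 0 := by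
          rintro rfl
          exact hw0 (by rw [← h3, zero_mul])
        have h7 : u ^ 2 = α ^ 4 + 50 * α ^ 2 * β ^ 2 + 125 * β ^ 4 := by rw [h6]; ring
        have h8 : Even (α ^ 2 + 25 * β ^ 2 - u) := by
          have h9 : Odd ((α ^ 2 + 25 * β ^ 2) ^ 2) := by
            have h10 : (α ^ 2 + 25 * β ^ 2) ^ 2 = u ^ 2 + 2 * (250 * β ^ 4) := by rw [h7]; ring
            rw [h10]
            exact hu.pow.add_even (even_two_mul _)
          have h11 : Odd (α ^ 2 + 25 * β ^ 2) := by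
            rw [Int.odd_pow' (by norm_num)] at h9
            exact h9
          exact h11.sub_odd hu
        obtain ⟨γ, δ, h9, h10, h11⟩ := d5_step2 hβ0 h4 h7 h8
        have hδ0 : δ ≠ 0 := by
          rintro rfl
          exact hβ0 (by rw [← h9, mul_zero])
        have hγ0 : γ ≠ 0 := by
          rintro rfl
          exact hβ0 (by rw [← h9, zero_mul])
        refine ih α γ δ ?_ hδ0 h10 h11
        have h12 : (2 * w).natAbs = 2 * (α.natAbs * γ.natAbs) * δ.natAbs := by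
          rw [← h3, ← h9]
          simp only [Int.natAbs_mul]
          norm_num
          ring
        have h13 : 1 ≤ α.natAbs * γ.natAbs :=
          Nat.mul_pos (Int.natAbs_pos.mpr hα0) (Int.natAbs_pos.mpr hγ0)
        have h14 : 1 ≤ δ.natAbs := Int.natAbs_pos.mpr hδ0
        have h15 : 2 * δ.natAbs ≤ (2 * w).natAbs := by
          rw [h12]
          exact Nat.mul_le_mul_right _ (by omega)
        omega
      · -- sign minus
        have h7 : u ^ 2 = -(α ^ 2 - β ^ 2) ^ 2 + 4 * (12 * α ^ 2 * β ^ 2 - 31 * β ^ 4) := by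
          rw [h6]; ring
        rcases Int.even_or_odd (α ^ 2 - β ^ 2) with ⟨k, hk⟩ | h8
        · rw [hk, hc0] at h7
          have h8 : 1 + 8 * c = 4 * (-k ^ 2 + (12 * α ^ 2 * β ^ 2 - 31 * β ^ 4)) := by
            rw [h7]; ring
          omega
        · obtain ⟨k, hk⟩ := d5_odd_sq_form h8
          rw [hk, hc0] at h7
          omega
    · -- `v` odd
      have hu : Even u := by
        rw [← Int.not_odd_iff_even]
        intro hu
        exact d5_no_odd_odd hu hv2 h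
      obtain ⟨t, ht⟩ := hu
      have ht' : u = 2 * t := by linarith
      clear ht
      subst ht'
      obtain ⟨d, hd⟩ := d5_odd_sq_form hv2
      have h2v : IsCoprime (2 : ℤ) v := by
        rw [Prime.coprime_iff_not_dvd Int.prime_two]
        intro h1
        exact (Int.not_even_iff_odd.mpr hv2) (even_iff_two_dvd.mpr h1)
      have h1 : (2 * (2 * t) ^ 2 - 25 * v ^ 2 - 2 * g) * (2 * (2 * t) ^ 2 - 25 * v ^ 2 + 2 * g) =
          125 * v ^ 4 := by
        have : (2 * (2 * t) ^ 2 - 25 * v ^ 2 - 2 * g) * (2 * (2 * t) ^ 2 - 25 * v ^ 2 + 2 * g) =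
          (2 * (2 * t) ^ 2 - 25 * v ^ 2) ^ 2 - 4 * g ^ 2 := by ring
        rw [this, h]; ring
      have h2 : (2 * (2 * t) ^ 2 - 25 * v ^ 2 - 2 * g) + (2 * (2 * t) ^ 2 - 25 * v ^ 2 + 2 * g) =
          (2 * (2 * t)) ^ 2 + 5 * v * (-10 * v) := by ring
      have hc' : IsCoprime (2 * (2 * t)) (5 * v) := by
        refine IsCoprime.mul_left ?_ hc
        refine IsCoprime.mul_right ?_ h2v
        exact ⟨-2, 1, by norm_num⟩
      obtain ⟨α, β, e, he, h3, h4, h5⟩ := d5_split125 (d5_coprime_aux hv h1 h2 hc') hv h1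
      have hαβ : Odd (α * β) := by rw [h3]; exact hv2
      rw [Int.odd_mul] at hαβ
      obtain ⟨ca, hca⟩ := d5_odd_sq_form hαβ.1
      obtain ⟨cb, hcb⟩ := d5_odd_sq_form hαβ.2
      have h6 : 16 * t ^ 2 = e * (α ^ 4 + 125 * β ^ 4) + 50 * α ^ 2 * β ^ 2 := by
        linear_combination h5 - 50 * (α * β + v) * h3
      rcases he with rfl | rfl
      · have hβ0 : β ≠ 0 := by
          rintro rfl
          exact hv (by rw [← h3, mul_zero])
        have h7 : (4 * t) ^ 2 = α ^ 4 + 50 * α ^ 2 * β ^ 2 + 125 * β ^ 4 := by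
          linear_combination h6
        have h8 : Even (α ^ 2 + 25 * β ^ 2 - 4 * t) := by
          rw [hca, hcb]
          exact ⟨13 + 4 * ca + 100 * cb - 2 * t, by ring⟩
        obtain ⟨γ, δ, h9, h10, h11⟩ := d5_step2 hβ0 h4 h7 h8
        have hγδ : Odd (γ * δ) := by rw [h9]; exact hαβ.2
        rw [Int.odd_mul] at hγδ
        exact d5_no_odd_odd hγδ.1 hγδ.2 h11
      · have h7 : 16 * t ^ 2 = -((α ^ 2) ^ 2 + 125 * (β ^ 2) ^ 2) + 50 * α ^ 2 * β ^ 2 := by
          rw [h6]; ring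
        rw [hca, hcb] at h7
        have h8 : 16 * t ^ 2 = -76 + 16 * (-(ca + 4 * ca ^ 2) - 125 * (cb + 4 * cb ^ 2) +
            25 * (ca + cb + 8 * ca * cb)) := by
          rw [h7]; ring
        omega

/-- the quintic cyclotomic form -/
theorem d5_phi5_sq {x y t : ℤ} (hx : Odd x) (hy : Odd y) (hc : IsCoprime x y)
    (h : x ^ 4 + x ^ 3 * y + x ^ 2 * y ^ 2 + x * y ^ 3 + y ^ 4 = 5 * t ^ 2) : x = y := by
  have hp5 : Prime (5 : ℤ) := by norm_num
  have h5 : (5 : ℤ) ∣ x - y := by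
    apply hp5.dvd_of_dvd_pow (n := 4)
    refine ⟨t ^ 2 - x ^ 3 * y + x ^ 2 * y ^ 2 - x * y ^ 3, ?_⟩
    linear_combination h
  have h2 : (2 : ℤ) ∣ x - y := (hx.sub_odd hy).two_dvd
  have h10 : (10 : ℤ) ∣ x - y := by omega
  obtain ⟨l, hl⟩ := h10
  have hx' : x = y + 10 * l := by linarith
  clear hl h5 h2
  subst hx'
  by_contra hne
  have hl0 : l ≠ 0 := by
    rintro rfl
    exact hne (by ring)
  have ht : t ^ 2 = y ^ 4 + 20 * y ^ 3 * l + 200 * y ^ 2 * l ^ 2 + 1000 * y * l ^ 3 +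
      2000 * l ^ 4 := by
    nlinarith
  obtain ⟨c, hc0⟩ := d5_odd_sq_form hy
  have htodd : Odd t := by
    rw [← Int.not_even_iff_odd]
    rintro ⟨k, hk⟩
    have h1 : (k + k) ^ 2 = (y ^ 2) ^ 2 + 2 * (10 * y ^ 3 * l + 100 * y ^ 2 * l ^ 2 +
        500 * y * l ^ 3 + 1000 * l ^ 4) := by
      rw [← hk, ht]; ring
    rw [hc0] at h1
    have h3 : 4 * k ^ 2 = 1 + 2 * (8 * c + 32 * c ^ 2 + (10 * y ^ 3 * l +
        100 * (1 + 8 * c) * l ^ 2 + 500 * y * l ^ 3 + 1000 * l ^ 4)) := by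
      have h4 : 4 * k ^ 2 = (k + k) ^ 2 := by ring
      rw [h4, h1]; ring
    omega
  obtain ⟨A, hA⟩ : Even (y ^ 2 + 10 * y * l + 50 * l ^ 2 - t) := by
    have h1 : Odd (y ^ 2 + 10 * y * l + 50 * l ^ 2) := by
      have h2 : y ^ 2 + 10 * y * l + 50 * l ^ 2 = y ^ 2 + 2 * (5 * y * l + 25 * l ^ 2) := by ring
      rw [h2]
      exact hy.pow.add_even (even_two_mul _)
    exact h1.sub_odd htodd
  have h1 : A * (A + t) = 125 * l ^ 4 := by
    have h2 : y ^ 2 + 10 * y * l + 50 * l ^ 2 = 2 * A + t := by linarith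
    have h3 : (y ^ 2 + 10 * y * l + 50 * l ^ 2) ^ 2 - t ^ 2 = 500 * l ^ 4 := by rw [ht]; ring
    rw [h2] at h3
    nlinarith
  have h2 : A + (A + t) = y ^ 2 + 5 * l * (2 * y + 10 * l) := by linarith
  have hcl : IsCoprime y (5 * l) := by
    have h3 : IsCoprime y (10 * l) := by
      have h4 := hc.symm
      have h5 : y + 10 * l = 10 * l + y * 1 := by ring
      rw [h5] at h4
      exact IsCoprime.of_add_mul_left_right h4
    have h6 : (10 : ℤ) * l = 2 * (5 * l) := by ring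
    rw [h6] at h3
    exact h3.of_mul_right_right
  obtain ⟨u, v, e, he, h3, h4, h5⟩ := d5_split125 (d5_coprime_aux hl0 h1 h2 hcl) hl0 h1
  have h6 : (y + 5 * l) ^ 2 + 25 * l ^ 2 = e * (u ^ 4 + 125 * v ^ 4) := by
    linear_combination hA + h5
  have hv0 : v ≠ 0 := by
    rintro rfl
    exact hl0 (by rw [← h3, mul_zero])
  rcases he with rfl | rfl
  · refine d5_quartic_descent v.natAbs (y + 5 * l) u v le_rfl hv0 h4 ?_
    linear_combination h6 + 25 * (u * v + l) * h3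
  · have h7 : 0 < l ^ 2 := by positivity
    have h8 : 0 ≤ (y + 5 * l) ^ 2 := sq_nonneg _
    have h9 : 0 ≤ u ^ 4 := by positivity
    have h10 : 0 ≤ v ^ 4 := by positivity
    linarith

/-- a positive number times a coprime number being a square -/
theorem d5_sq_of_pos {a b c : ℤ} (hc : IsCoprime a b) (h : a * b = c ^ 2) (ha : 0 < a) :
    ∃ s, a = s ^ 2 := by
  obtain ⟨s, hs | hs⟩ := Int.sq_of_isCoprime hc h
  · exact ⟨s, hs⟩
  · exfalso
    have := sq_nonneg s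
    linarith

/-- the common part of the two equations -/
theorem d5_fifth_core {k Y B D : ℤ} (hk : k = 1 ∨ k = 3) (hY : Odd Y) (hx : Odd (Y ^ 2 + k * D))
    (hc : IsCoprime Y B)
    (h : D * ((Y ^ 2 + k * D) ^ 4 + (Y ^ 2 + k * D) ^ 3 * Y ^ 2 +
      (Y ^ 2 + k * D) ^ 2 * (Y ^ 2) ^ 2 + (Y ^ 2 + k * D) * (Y ^ 2) ^ 3 + (Y ^ 2) ^ 4) = B ^ 2) :
    B = 0 := by
  by_contra hB
  have hB2 : 0 < B ^ 2 := by positivity
  have hp5 : Prime (5 : ℤ) := by norm_num
  set x : ℤ := Y ^ 2 + k * D with hxdef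
  set P : ℤ := x ^ 4 + x ^ 3 * Y ^ 2 + x ^ 2 * (Y ^ 2) ^ 2 + x * (Y ^ 2) ^ 3 + (Y ^ 2) ^ 4
    with hPdef
  have hY0 : Y ≠ 0 := by
    rintro rfl
    exact absurd hY (by decide)
  have hP0 : 0 < P := by
    have h1 : 0 < Y ^ 2 := by positivity
    have h2 : 4 * P = (2 * x ^ 2 + x * Y ^ 2) ^ 2 + 2 * (x * Y ^ 2 + (Y ^ 2) ^ 2) ^ 2 +
        x ^ 2 * (Y ^ 2) ^ 2 + 2 * (Y ^ 2) ^ 4 := by
      rw [hPdef]; ring
    have h3 : 0 < (Y ^ 2) ^ 4 := by positivity
    have h4 := sq_nonneg (2 * x ^ 2 + x * Y ^ 2)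
    have h5 := sq_nonneg (x * Y ^ 2 + (Y ^ 2) ^ 2)
    have h6 : 0 ≤ x ^ 2 * (Y ^ 2) ^ 2 := by positivity
    linarith
  have hD0 : 0 < D := by
    by_contra hD
    have : D * P ≤ 0 := mul_nonpos_of_nonpos_of_nonneg (not_lt.mp hD) hP0.le
    linarith
  have hYD : ∀ p : ℤ, Prime p → p ∣ D → ¬ p ∣ Y := by
    intro p hp h1 h2
    have h3 : p ∣ B := by
      apply hp.dvd_of_dvd_pow (n := 2)
      rw [← h]
      exact Dvd.dvd.mul_right h1 _
    exact hp.not_isUnit (hc.isUnit_of_dvd' h2 h3)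
  have hDeven : Even D := by
    have h1 : Even (k * D) := by
      have h2 : k * D = x - Y ^ 2 := by rw [hxdef]; ring
      rw [h2]
      exact hx.sub_odd hY.pow
    rcases hk with rfl | rfl
    · simpa using h1
    · rw [Int.even_mul] at h1
      rcases h1 with h1 | h1
      · exact absurd h1 (by decide)
      · exact h1
  have hPD : P = D * (k * (5 * (Y ^ 2) ^ 3 * 2 + 10 * (Y ^ 2) ^ 2 * (k * D) +
      5 * Y ^ 2 * (k * D) ^ 2 + (k * D) ^ 3)) + 5 * (Y ^ 2) ^ 4 := by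
    rw [hPdef, hxdef]; ring
  by_cases h5 : (5 : ℤ) ∣ D
  · obtain ⟨E, hE⟩ := h5
    have hE0 : 0 < E := by linarith
    obtain ⟨Q, hQ⟩ : ∃ Q, P = 5 * Q := by
      refine ⟨E * (k * (5 * (Y ^ 2) ^ 3 * 2 + 10 * (Y ^ 2) ^ 2 * (k * D) +
        5 * Y ^ 2 * (k * D) ^ 2 + (k * D) ^ 3)) + (Y ^ 2) ^ 4, ?_⟩
      rw [hPD]
      nth_rw 1 [hE]
      ring
    have h1 : (25 : ℤ) * (E * Q) = B ^ 2 := by rw [← h, hE, hQ]; ring
    obtain ⟨b, hb⟩ : (5 : ℤ) ∣ B := by
      apply hp5.dvd_of_dvd_pow (n := 2)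
      exact ⟨5 * (E * Q), by rw [← h1]; ring⟩
    have h2 : E * Q = b ^ 2 := by
      rw [hb] at h1
      nlinarith
    have hQ0 : 0 < Q := by linarith
    have h3 : IsCoprime Q E := by
      apply isCoprime_of_prime_dvd
      · rintro ⟨h4, _⟩
        linarith
      · intro p hp h4 h6
        have h7 : p ∣ D := by rw [hE]; exact Dvd.dvd.mul_left h6 _
        apply hYD p hp h7
        have h8 : Q = E * (k * (10 * (Y ^ 2) ^ 3 + 10 * (Y ^ 2) ^ 2 * (k * D) +
            5 * Y ^ 2 * (k * D) ^ 2 + (k * D) ^ 3)) + (Y ^ 2) ^ 4 := by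
          have h9 : 5 * Q = 5 * (E * (k * (10 * (Y ^ 2) ^ 3 + 10 * (Y ^ 2) ^ 2 * (k * D) +
            5 * Y ^ 2 * (k * D) ^ 2 + (k * D) ^ 3)) + (Y ^ 2) ^ 4) := by
            rw [← hQ, hPD]
            nth_rw 1 [hE]
            ring
          linarith
        have h9 : p ∣ (Y ^ 2) ^ 4 := by
          rw [h8] at h4
          exact (dvd_add_right (Dvd.dvd.mul_right h6 _)).mp h4
        exact hp.dvd_of_dvd_pow (hp.dvd_of_dvd_pow h9)
    obtain ⟨t, ht⟩ := d5_sq_of_pos h3 (by rw [mul_comm]; exact h2) hQ0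
    have hcxy : IsCoprime x (Y ^ 2) := by
      apply IsCoprime.pow_right
      apply isCoprime_of_prime_dvd
      · rintro ⟨_, h4⟩
        exact hY0 h4
      · intro p hp h4 h6
        have h7 : p ∣ B := by
          apply hp.dvd_of_dvd_pow (n := 2)
          rw [← h]
          apply Dvd.dvd.mul_left
          have h8 : p ∣ Y ^ 2 := dvd_pow h6 (by norm_num)
          rw [hPdef]
          refine dvd_add (dvd_add (dvd_add (dvd_add ?_ ?_) ?_) ?_) ?_
          · exact dvd_pow h4 (by norm_num)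
          · exact Dvd.dvd.mul_left h8 _
          · exact Dvd.dvd.mul_left (dvd_pow h8 (by norm_num)) _
          · exact Dvd.dvd.mul_right h4 _
          · exact dvd_pow h8 (by norm_num)
        exact hp.not_isUnit (hc.isUnit_of_dvd' h6 h7)
    have h4 : x = Y ^ 2 := by
      apply d5_phi5_sq hx hY.pow hcxy (t := t)
      rw [← ht, ← hQ]
    have h6 : k * D = 0 := by linarith
    rcases mul_eq_zero.mp h6 with h7 | h7
    · rcases hk with rfl | rfl
      · exact absurd h7 one_ne_zero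
      · exact absurd h7 (by norm_num)
    · linarith
  · have h3 : IsCoprime D P := by
      apply isCoprime_of_prime_dvd
      · rintro ⟨h4, _⟩
        linarith
      · intro p hp h4 h6
        rw [hPD] at h6
        have h7 : p ∣ 5 * (Y ^ 2) ^ 4 := (dvd_add_right (Dvd.dvd.mul_right h4 _)).mp h6
        rcases hp.dvd_or_dvd h7 with h8 | h8
        · have h9 : Associated p 5 := (Prime.dvd_prime_iff_associated hp hp5).mp h8
          exact h5 (h9.symm.dvd.trans h4)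
        · exact hYD p hp h4 (hp.dvd_of_dvd_pow (hp.dvd_of_dvd_pow h8))
    obtain ⟨s, hs⟩ := d5_sq_of_pos h3 h hD0
    obtain ⟨t, ht⟩ := d5_sq_of_pos h3.symm (by rw [mul_comm]; exact h) hP0
    have hseven : Even s := by
      rw [hs, Int.even_pow' (by norm_num)] at hDeven
      exact hDeven
    obtain ⟨r, hr⟩ := hseven
    obtain ⟨c, hc0⟩ := d5_odd_sq_form hY
    have hs4 : D = 4 * r ^ 2 := by rw [hs, hr]; ring
    have hP8 : ∃ n : ℤ, P = 5 + 8 * n := by
      refine ⟨r ^ 2 * k * (5 * (Y ^ 2) ^ 3 + 20 * (Y ^ 2) ^ 2 * (k * r ^ 2) +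
        40 * Y ^ 2 * (k * r ^ 2) ^ 2 + 32 * (k * r ^ 2) ^ 3) +
        5 * (4 * c + 48 * c ^ 2 + 256 * c ^ 3 + 512 * c ^ 4), ?_⟩
      rw [hPD, hs4, hc0]
      ring
    obtain ⟨n, hn⟩ := hP8
    rw [ht] at hn
    rcases Int.even_or_odd t with ⟨k', hk'⟩ | ht'
    · rw [hk'] at hn
      have h7 : (k' + k') ^ 2 = 4 * k' ^ 2 := by ring
      rw [h7] at hn
      omega
    · obtain ⟨k', hk'⟩ := d5_odd_sq_form ht'
      rw [hk'] at hn
      omega

/-- the parity of `Z` -/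
theorem d5_fifth_odd {Y Z C : ℤ} (hY : Odd Y) (hC : Even C) (h : Z ^ 5 = Y ^ 10 + C) : Odd Z := by
  have h1 : Odd (Z ^ 5) := by
    rw [h]
    exact hY.pow.add_even hC
  rwa [Int.odd_pow' (by norm_num)] at h1

/-- `Z ^ 5 = Y ^ 10 + B ^ 2`, `Y` odd, `B` even, coprime -/
theorem fifth_a {Y Z B : ℤ} (hc : IsCoprime Y B) (hY : Odd Y) (hB : Even B)
    (h : Z ^ 5 = Y ^ 10 + B ^ 2) : B = 0 := by
  have hZ : Odd Z := d5_fifth_odd hY ((Int.even_pow' (by norm_num)).mpr hB) h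
  apply d5_fifth_core (k := 1) (D := Z - Y ^ 2) (Or.inl rfl) hY ?_ hc ?_
  · have : Y ^ 2 + 1 * (Z - Y ^ 2) = Z := by ring
    rw [this]; exact hZ
  · have h1 : B ^ 2 = Z ^ 5 - Y ^ 10 := by linarith
    rw [h1]
    ring

/-- `Z ^ 5 = Y ^ 10 + 3 B ^ 2`, `Y` odd, `B` even, `Y` prime to `3 B` -/
theorem fifth_b {Y Z B : ℤ} (hc : IsCoprime Y (3 * B)) (hY : Odd Y) (hB : Even B)
    (h : Z ^ 5 = Y ^ 10 + 3 * B ^ 2) : B = 0 := by
  have hB2 : Even (B ^ 2) := (Int.even_pow' (by norm_num)).mpr hB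
  have hZ : Odd Z := d5_fifth_odd hY (hB2.mul_left 3) h
  have h3 : (3 : ℤ) ∣ Z - Y ^ 2 := by
    have h1 : ∀ z y b : ZMod 3, z ^ 5 = y ^ 10 + 3 * b ^ 2 → z - y ^ 2 = 0 := by decide
    have h2 := h1 (Z : ZMod 3) Y B (by exact_mod_cast congrArg (Int.cast : ℤ → ZMod 3) h)
    have h4 : ((Z - Y ^ 2 : ℤ) : ZMod 3) = 0 := by
      push_cast
      exact h2
    exact (ZMod.intCast_zmod_eq_zero_iff_dvd _ 3).mp h4
  obtain ⟨D, hD⟩ := h3
  have hZD : Z = Y ^ 2 + 3 * D := by linarith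
  apply d5_fifth_core (k := 3) (D := D) (Or.inr rfl) hY ?_ hc.of_mul_right_right ?_
  · rw [← hZD]; exact hZ
  · have h1 : 3 * B ^ 2 = (Y ^ 2 + 3 * D) ^ 5 - Y ^ 10 := by rw [← hZD]; linarith
    have h2 : 3 * (D * ((Y ^ 2 + 3 * D) ^ 4 + (Y ^ 2 + 3 * D) ^ 3 * Y ^ 2 +
      (Y ^ 2 + 3 * D) ^ 2 * (Y ^ 2) ^ 2 + (Y ^ 2 + 3 * D) * (Y ^ 2) ^ 3 + (Y ^ 2) ^ 4)) =
        3 * B ^ 2 := by
      rw [h1]; ring
    linarith

end PowCyc
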