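import Pool.Agent.PowCyc.Local

/-!
# For each `c` there are finitely many preperiodic points
-/

namespace PowCyc

namespace NorthcottPreAux

/-- the orbit of a point outside the disc of radius `1 + ‖c‖` has strictly increasing norm -/
lemma norm_grow {d : ℕ} (hd : 2 ≤ d) {c x : ℂ} (hx : 1 + ‖c‖ < ‖x‖) :
    ‖x‖ < ‖f d c x‖ := by
  have h0 : 0 ≤ ‖c‖ := norm_nonneg c
  have h1 : 1 ≤ ‖x‖ := by linarith
  have h2 : ‖x‖ ^ 2 ≤ ‖x‖ ^ d := pow_le_pow_right₀ h1 hd
  have h3 : ‖x ^ d‖ - ‖c‖ ≤ ‖x ^ d + c‖ := by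
    have := norm_sub_norm_le (x ^ d) (-c)
    simpa [sub_neg_eq_add, norm_neg] using this
  rw [norm_pow] at h3
  unfold f
  nlinarith

lemma norm_iter {d : ℕ} (hd : 2 ≤ d) {c x : ℂ} (hx : 1 + ‖c‖ < ‖x‖) (k : ℕ) :
    1 + ‖c‖ < ‖(f d c)^[k] x‖ ∧ ‖(f d c)^[k] x‖ < ‖(f d c)^[k + 1] x‖ := by
  induction k with
  | zero =>
    refine ⟨by simpa using hx, ?_⟩
    simpa using norm_grow hd hx
  | succ k ih =>
    have h1 : 1 + ‖c‖ < ‖(f d c)^[k + 1] x‖ := lt_trans ih.1 ih.2
    refine ⟨h1, ?_⟩
    rw [Function.iterate_succ_apply' (f d c) (k + 1)]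
    exact norm_grow hd h1

lemma norm_le_of_pre {d : ℕ} (hd : 2 ≤ d) {c x : ℂ} (hx : Pre d c x) : ‖x‖ ≤ 1 + ‖c‖ := by
  by_contra hcon
  push Not at hcon
  have hmono : StrictMono fun k : ℕ => ‖(f d c)^[k] x‖ :=
    strictMono_nat_of_lt_succ fun k => (norm_iter hd hcon k).2
  have hinj : Function.Injective fun k : ℕ => (f d c)^[k] x := by
    intro a b hab
    exact hmono.injective (by simpa using congrArg norm hab)
  exact Set.infinite_range_of_injective hinj hx

lemma map_iter {K : Type*} [Field K] (φ : K →+* ℂ) (d : ℕ) (c x : K) (k : ℕ) :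
    (f d (φ c))^[k] (φ x) = φ ((f d c)^[k] x) := by
  induction k with
  | zero => simp
  | succ k ih =>
    rw [Function.iterate_succ_apply', Function.iterate_succ_apply', ih]
    simp [f]

lemma pre_map {K : Type*} [Field K] (φ : K →+* ℂ) {d : ℕ} {c x : K} (hx : Pre d c x) :
    Pre d (φ c) (φ x) := by
  unfold Pre at hx ⊢
  have : (Set.range fun k : ℕ => (f d (φ c))^[k] (φ x)) =
      φ '' (Set.range fun k : ℕ => (f d c)^[k] x) := by
    rw [← Set.range_comp]
    congr 1
    funext k
    exact map_iter φ d c x k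
  rw [this]
  exact hx.image _

end NorthcottPreAux

variable {K : Type*} [Field K] [NumberField K]

open NorthcottPreAux in
/-- (choose a nonzero integer `N` with `N * c` integral; then `N * x` is integral for every
preperiodic `x` by `Pre.val_le_one`/`Pre.val_pow` at every finite place, and at every embedding
`‖x‖ ≤ 1 + ‖c‖`; conclude by `NumberField.Embeddings.finite_of_norm_le`) -/
theorem finite_pre {d : ℕ} (hd : 2 ≤ d) (c : K) : {x : K | Pre d c x}.Finite := by
  classical
  have halg : IsAlgebraic ℤ c :=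
    (IsFractionRing.isAlgebraic_iff ℤ ℚ K).2 (Algebra.IsAlgebraic.isAlgebraic c)
  obtain ⟨N, hN0, hN⟩ := halg.exists_integral_multiple
  have hNK : (N : K) ≠ 0 := by exact_mod_cast hN0
  have hNc : IsIntegral ℤ ((N : K) * c) := by simpa [zsmul_eq_mul] using hN
  -- integrality
  have hint : ∀ x : K, Pre d c x → IsIntegral ℤ ((N : K) * x) := by
    intro x hx
    have key : ∀ v : IsDedekindDomain.HeightOneSpectrum (NumberField.RingOfIntegers K),
        v.valuation K ((N : K) * x) ≤ 1 := by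
      intro v
      have hvN : v.valuation K (N : K) ≤ 1 := by
        have := v.valuation_le_one (K := K) ((N : ℤ) : NumberField.RingOfIntegers K)
        simpa using this
      have hvNc : v.valuation K ((N : K) * c) ≤ 1 := by
        have := v.valuation_le_one (K := K) (⟨(N : K) * c, hNc⟩ : NumberField.RingOfIntegers K)
        simpa using this
      rcases le_or_gt (v.valuation K c) 1 with h | h
      · rw [map_mul]
        exact mul_le_one' hvN (Pre.val_le_one _ hd hx h)
      · have h1 := Pre.val_pow (v.valuation K) hd hx h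
        have h2 : (v.valuation K ((N : K) * x)) ^ d ≤ 1 := by
          rw [map_mul, mul_pow, h1]
          obtain ⟨e, rfl⟩ : ∃ e, d = e + 1 := ⟨d - 1, by omega⟩
          rw [pow_succ, mul_assoc]
          rw [map_mul] at hvNc
          exact mul_le_one' (pow_le_one' hvN e) hvNc
        exact (pow_le_one_iff_of_nonneg zero_le (by omega)).1 h2
    obtain ⟨y, hy⟩ := IsDedekindDomain.HeightOneSpectrum.mem_integers_of_valuation_le_one
      (R := NumberField.RingOfIntegers K) (K := K) ((N : K) * x) key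
    rw [← hy]
    exact y.2
  -- bound at the embeddings
  set B : ℝ := ∑ φ : K →+* ℂ, ‖φ (N : K)‖ * (1 + ‖φ c‖) with hB
  have hbd : ∀ x : K, Pre d c x → ∀ φ : K →+* ℂ, ‖φ ((N : K) * x)‖ ≤ B := by
    intro x hx φ
    have h1 : ‖φ ((N : K) * x)‖ ≤ ‖φ (N : K)‖ * (1 + ‖φ c‖) := by
      rw [map_mul, norm_mul]
      exact mul_le_mul_of_nonneg_left (norm_le_of_pre hd (pre_map φ hx)) (norm_nonneg _)
    refine h1.trans ?_
    exact Finset.single_le_sum (f := fun φ : K →+* ℂ => ‖φ (N : K)‖ * (1 + ‖φ c‖))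
      (fun φ _ => by positivity) (Finset.mem_univ φ)
  have hfin := NumberField.Embeddings.finite_of_norm_le K ℂ B
  refine Set.Finite.of_finite_image (f := fun x : K => (N : K) * x) (hfin.subset ?_) ?_
  · rintro _ ⟨x, hx, rfl⟩
    exact ⟨hint x hx, hbd x hx⟩
  · intro x _ y _ hxy
    exact mul_left_cancel₀ hNK hxy

end PowCyc
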