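import Pool.Agent.PowCyc.Selmer
import Pool.Agent.PowCyc.Curves
import Pool.Agent.PowCyc.NorthcottPre
import Pool.Agent.PowCyc.Book

/-!
# All periods and all parameters: finitely many smooth plane curves
-/

namespace PowCyc

open NumberField MvPolynomial IsDedekindDomain

section

variable (K : Type*) [Field K] [NumberField K]

/-- (A1) -/
theorem power_values {d : ℕ} (hd : 3 ≤ d) :
    ∃ T : Finset K, (∀ κ ∈ T, κ ≠ 0) ∧ ∀ c x y : K, Per d c x → Per d c y → x ≠ y →
      ∃ κ ∈ T, ∃ z : K, z ≠ 0 ∧ G d x y = κ * z ^ (d - 1) := by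
  obtain ⟨T, hT0, hT⟩ := selmer_finite K (d - 1) (by omega)
    {v : HeightOneSpectrum (𝓞 K) | v.valuation K (d : K) ≠ 1} (finite_bad K d (by omega))
  refine ⟨T, hT0, fun c x y hx hy hxy => ?_⟩
  apply hT
  · intro h0
    have h1 := G_mul d x y
    rw [h0, zero_mul] at h1
    have h2 : f d c x = f d c y := by
      show x ^ d + c = y ^ d + c
      rw [sub_eq_zero.mp h1.symm]
    exact hxy (hx.inj hy h2)
  · intro v hv
    have hv1 : v.valuation K (d : K) = 1 := by simpa using hv
    obtain ⟨γ, _, hγ⟩ := val_G (v.valuation K) (by omega) hv1 hx hy hxy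
    exact ⟨γ, hγ⟩

/-- (A2) -/
theorem curves {d : ℕ} (hd : 3 ≤ d) :
    ∃ CC : Finset (MvPolynomial (Fin 3) K),
      (∀ F ∈ CC, (F.IsHomogeneous (d - 1) ∨ F.IsHomogeneous d) ∧ Smooth F) ∧
      (∀ c x y : K, Per d c x → Per d c y → x ≠ y →
        ∃ F ∈ CC, F.IsHomogeneous (d - 1) ∧ ∃ z : K, z ≠ 0 ∧ eval ![x, y, z] F = 0) ∧
      ((∀ F ∈ CC, FinPts F) →
        {c : K | ¬ ∀ S : Finset K, (∀ x ∈ S, Pre d c x) →
          S.card ≤ (Polynomial.nthRootsFinset d (1 : K)).card}.Finite ∧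
        ∃ B : ℕ, ∀ c : K, ∀ S : Finset K, (∀ x ∈ S, Pre d c x) → S.card ≤ B) := by
  classical
  obtain ⟨T, hT0, hT⟩ := power_values K hd
  have hd1 : 1 ≤ d := by omega
  refine ⟨T.image (Fk d) ∪ ((Polynomial.nthRootsFinset d (1 : K)).filter (· ≠ 1)).image (Fz d),
    ?_, ?_, ?_⟩
  · intro F hF
    rcases Finset.mem_union.mp hF with h | h
    · obtain ⟨κ, hκ, rfl⟩ := Finset.mem_image.mp h
      exact ⟨Or.inl (homogeneous_Fk d κ), smooth_Fk d hd κ (hT0 κ hκ)⟩
    · obtain ⟨ζ, hζ, rfl⟩ := Finset.mem_image.mp h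
      rw [Finset.mem_filter] at hζ
      exact ⟨Or.inr (homogeneous_Fz d hd1 ζ), smooth_Fz d hd ζ hζ.2⟩
  · intro c x y hx hy hxy
    obtain ⟨κ, hκ, z, hz, hG⟩ := hT c x y hx hy hxy
    refine ⟨Fk d κ, Finset.mem_union_left _ (Finset.mem_image_of_mem _ hκ),
      homogeneous_Fk d κ, z, hz, ?_⟩
    rw [eval_Fk]
    simp only [Matrix.cons_val_zero, Matrix.cons_val_one, Matrix.cons_val]
    rw [hG, sub_self]
  · intro hfin
    -- the ratio sets
    have hR1 : (⋃ κ ∈ T, {t : K | ∃ v : Fin 3 → K, eval v (Fk d κ) = 0 ∧ v 1 ≠ 0 ∧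
        t = v 0 / v 1}).Finite := by
      apply Set.Finite.biUnion (Finset.finite_toSet T)
      intro κ hκ
      exact FinPts.ratio (homogeneous_Fk d κ)
        (hfin _ (Finset.mem_union_left _ (Finset.mem_image_of_mem _ hκ))) 0 1
    have hR2 : (⋃ ζ ∈ (Polynomial.nthRootsFinset d (1 : K)).filter (· ≠ 1),
        {t : K | ∃ v : Fin 3 → K, eval v (Fz d ζ) = 0 ∧ v 2 ≠ 0 ∧ t = v 0 / v 2}).Finite := by
      apply Set.Finite.biUnion (Finset.finite_toSet _)
      intro ζ hζ
      exact FinPts.ratio (homogeneous_Fz d hd1 ζ)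
        (hfin _ (Finset.mem_union_right _ (Finset.mem_image_of_mem _ hζ))) 0 2
    have hE1 := finite_two_periodic (d := d) (by omega) _ hR1 (by
      intro c x y hx hy hxy hy0
      obtain ⟨κ, hκ, z, hz, hG⟩ := hT c x y hx hy hxy
      rw [Set.mem_iUnion₂]
      refine ⟨κ, hκ, ![x, y, z], ?_, ?_, ?_⟩
      · rw [eval_Fk]
        simp only [Matrix.cons_val_zero, Matrix.cons_val_one, Matrix.cons_val]
        rw [hG, sub_self]
      · simpa using hy0
      · simp)
    have hE2 := finite_second_level (d := d) _ hR2 (by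
      intro x ζ w hx hζ hζ1 hw
      rw [Set.mem_iUnion₂]
      refine ⟨ζ, ?_, ![x, w, 1], ?_, ?_, ?_⟩
      · rw [Finset.mem_filter, Polynomial.mem_nthRootsFinset (by omega)]
        exact ⟨hζ, hζ1⟩
      · rw [eval_Fz]
        simp only [Matrix.cons_val_zero, Matrix.cons_val_one, Matrix.cons_val]
        rw [hw, one_pow]; ring
      · simp
      · simp)
    have hexc : {c : K | ¬ ∀ S : Finset K, (∀ x ∈ S, Pre d c x) →
          S.card ≤ (Polynomial.nthRootsFinset d (1 : K)).card}.Finite := by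
      refine ((hE1.union hE2).union (Set.finite_singleton (0 : K))).subset ?_
      intro c hc
      rw [Set.mem_setOf_eq] at hc
      push Not at hc
      obtain ⟨S, hS, hcard⟩ := hc
      by_cases hc0 : c = 0
      · exact Or.inr hc0
      · rcases structure_pre (by omega) hc0 S hS hcard with h | h
        · exact Or.inl (Or.inl h)
        · exact Or.inl (Or.inr h)
    refine ⟨hexc, ?_⟩
    -- the uniform bound
    have hfinpre : ∀ c : K, {x : K | Pre d c x}.Finite := fun c => finite_pre (by omega) c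
    refine ⟨(Polynomial.nthRootsFinset d (1 : K)).card +
      ∑ c ∈ hexc.toFinset, (hfinpre c).toFinset.card, fun c S hS => ?_⟩
    by_cases hc : c ∈ {c : K | ¬ ∀ S : Finset K, (∀ x ∈ S, Pre d c x) →
          S.card ≤ (Polynomial.nthRootsFinset d (1 : K)).card}
    · have h1 : S ⊆ (hfinpre c).toFinset := by
        intro x hx
        rw [Set.Finite.mem_toFinset]
        exact hS x hx
      have h2 := Finset.card_le_card h1
      have h3 : (hfinpre c).toFinset.card ≤ ∑ c ∈ hexc.toFinset, (hfinpre c).toFinset.card :=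
        Finset.single_le_sum (f := fun c => (hfinpre c).toFinset.card)
          (fun _ _ => Nat.zero_le _) (by rw [Set.Finite.mem_toFinset]; exact hc)
      omega
    · rw [Set.mem_setOf_eq, not_not] at hc
      have := hc S hS
      omega

end

end PowCyc
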