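import Pool.Agent.PowCyc.Tails

/-!
# Uniform boundedness for `x ^ d + c` over `ℚ`, `d ≡ 4 mod 12`
-/

namespace PowCyc

/-- integers of large absolute value escape -/
lemma escape_int {d : ℕ} (hd : 3 ≤ d) {a n : ℤ} (hn : 2 ≤ |n|) (ha : |a| ≤ |n|) :
    ¬ Pre d (a : ℚ) (n : ℚ) := by
  intro h
  let V : ℕ → ℤ := fun i => (fun t : ℤ => t ^ d + a)^[i] n
  have hV0 : V 0 = n := rfl
  have hVs : ∀ i, V (i + 1) = V i ^ d + a := fun i => Function.iterate_succ_apply' _ _ _
  have hVf : ∀ i, (f d (a : ℚ))^[i] (n : ℚ) = (V i : ℚ) := by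
    intro i
    induction i with
    | zero => rfl
    | succ i ih => rw [Function.iterate_succ_apply', ih, hVs, f]; push_cast; rfl
  have hgrow : ∀ t : ℤ, 2 ≤ |t| → |a| ≤ |t| → |t| < |t ^ d + a| := by
    intro t h1 h2
    have h3 : |t| ^ 3 ≤ |t ^ d| := by
      rw [abs_pow]; exact pow_le_pow_right₀ (by omega) hd
    have h4 : |t ^ d| - |a| ≤ |t ^ d + a| := by
      have := abs_sub_abs_le_abs_sub (t ^ d) (-a)
      rw [abs_neg, sub_neg_eq_add] at this
      exact this
    have h5 : 4 * |t| ≤ |t| ^ 3 := by nlinarith [mul_self_nonneg (|t| - 2), abs_nonneg t]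
    omega
  have hinv : ∀ i, 2 ≤ |V i| ∧ |a| ≤ |V i| := by
    intro i
    induction i with
    | zero => exact ⟨hn, ha⟩
    | succ i ih =>
      have := hgrow (V i) ih.1 ih.2
      rw [hVs]
      omega
  have hmono : StrictMono fun i => |V i| := by
    apply strictMono_nat_of_lt_succ
    intro i
    show |V i| < |V (i + 1)|
    rw [hVs]
    exact hgrow (V i) (hinv i).1 (hinv i).2
  apply Set.infinite_range_of_injective (f := fun i => (f d (a : ℚ))^[i] (n : ℚ)) _ h
  intro i j hij
  apply hmono.injective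
  have hij' : (V i : ℚ) = V j := by rw [← hVf, ← hVf]; exact hij
  have h6 : V i = V j := by exact_mod_cast hij'
  show |V i| = |V j|
  rw [h6]

/-- at most two preimages -/
lemma card_fibre {d : ℕ} (hd0 : d ≠ 0) (c : ℚ) (S : Finset ℚ) :
    S.card ≤ 2 * (S.image (f d c)).card := by
  apply Finset.card_le_mul_card_image
  intro w hw
  obtain ⟨r, hr, hrw⟩ := Finset.mem_image.mp hw
  have hsub : (S.filter fun x => f d c x = w) ⊆ {r, -r} := by
    intro x hx
    rw [Finset.mem_filter] at hx
    have h1 : x ^ d = r ^ d := by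
      have h2 : x ^ d + c = w := hx.2
      have h3 : r ^ d + c = w := hrw
      linarith
    rcases (pow_eq_pow_iff_of_ne_zero hd0).mp h1 with h2 | ⟨h2, _⟩
    · rw [h2]; simp
    · rw [h2]; simp
  exact (Finset.card_le_card hsub).trans Finset.card_le_two

namespace Coord

variable {d : ℕ} {c : ℚ} {b : ℕ} {a : ℤ} {u : ℚ → ℤ} (H : Coord d c b a u)

include H

/-- if `0` is preperiodic there are at most three preperiodic points -/
lemma card_of_zero (hd : 3 ≤ d) (h0 : Pre d c 0) (S : Finset ℚ) (hS : ∀ x ∈ S, Pre d c x) :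
    S.card ≤ 3 := by
  have hu0 : u 0 = 0 := by
    have := H.cast h0
    rw [zero_mul] at this
    exact_mod_cast this
  have hb1 : b = 1 := by
    have := H.hcop 0 h0
    rw [hu0, isCoprime_zero_left, Int.isUnit_iff] at this
    omega
  subst hb1
  have hca : c = a := by rw [H.hc]; simp
  have hux : ∀ x, Pre d c x → x = (u x : ℚ) := fun x hx => by
    have h7 := H.hu x hx
    rw [Nat.cast_one, div_one] at h7
    exact h7
  -- a = 0 or a = -1
  have ha : |a| ≤ 1 := by
    by_contra hcon
    push Not at hcon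
    refine escape_int (d := d) (a := a) (n := a) hd (by omega) le_rfl ?_
    have := h0.map
    rw [f, zero_pow (by omega), zero_add, hca] at this
    exact this
  have hsub : S ⊆ {0, 1, -1} := by
    intro x hx
    have h1 : |u x| ≤ 1 := by
      by_contra hcon
      push Not at hcon
      refine escape_int (d := d) (a := a) (n := u x) hd (by omega) (by omega) ?_
      rw [← hux x (hS x hx), ← hca]
      exact hS x hx
    have h2 : u x = 0 ∨ u x = 1 ∨ u x = -1 := by
      rw [abs_le] at h1; omega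
    rw [hux x (hS x hx)]
    rcases h2 with h2 | h2 | h2 <;> rw [h2] <;> simp
  exact (Finset.card_le_card hsub).trans Finset.card_le_three

lemma den_eq : c.den = b ^ d := by
  have h1 : (0 : ℤ) < (b : ℤ) ^ d := by
    have := H.bpos
    positivity
  have h2 : Nat.Coprime a.natAbs ((b : ℤ) ^ d).natAbs := by
    have := (H.cop.pow_right (n := d))
    exact Int.isCoprime_iff_gcd_eq_one.mp this
  have h3 := Rat.den_div_eq_of_coprime h1 h2
  have h4 : c = (a : ℚ) / (((b : ℤ) ^ d : ℤ) : ℚ) := by rw [H.hc]; push_cast; rfl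
  rw [← h4] at h3
  exact_mod_cast h3

lemma dvd_den {q : ℕ} (hd0 : d ≠ 0) (hq : q.Prime) : q ∣ c.den ↔ q ∣ b := by
  rw [H.den_eq]
  exact ⟨fun h => hq.dvd_of_dvd_pow h, fun h => dvd_pow h hd0⟩

/-- the level bound -/
theorem level (hd : d % 12 = 4) (h0 : ¬ Pre d c 0) {z : ℚ} (hz : Pre d c z) (k : ℕ)
    (hk : (Qset d b = ∅ ∧ k = 1) ∨ ((Qset d b).card ≤ 1 ∧ k = 3)) :
    Per d c ((f d c)^[k] z) := by
  classical
  by_contra hcon
  have hex := pre_exists_per hz
  have hmin : ∀ i < Nat.find hex, ¬ Per d c ((f d c)^[i] z) := fun i hi => Nat.find_min hex hi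
  have hm := Nat.find_spec hex
  have hkm : k < Nat.find hex := by
    by_contra hle
    push Not at hle
    apply hcon
    obtain ⟨j, hj⟩ := Nat.exists_eq_add_of_le hle
    rw [hj, add_comm, Function.iterate_add_apply]
    exact per_iter hm j
  refine H.no_tail hd h0 hz (m := Nat.find hex) (by omega) hm hmin ?_
  rcases hk with ⟨h1, _⟩ | ⟨h1, h2⟩
  · exact Or.inl h1
  · exact Or.inr ⟨by omega, h1⟩

end Coord

theorem main (d : ℕ) (hd : d % 12 = 4) (c : ℚ) :
    (∀ S : Finset ℚ, (∀ x ∈ S, Per d c x) →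
      S.card ≤ 2 * ∏ q ∈ d.primeFactors.erase 2, (q - 1)) ∧
    ((∀ q : ℕ, q.Prime → q ≠ 2 → q ∣ d → ¬ q ∣ c.den) →
      ∀ S : Finset ℚ, (∀ x ∈ S, Pre d c x) → S.card ≤ 4) ∧
    (((d.primeFactors.erase 2).filter fun q => q ∣ c.den).card ≤ 1 →
      ∀ S : Finset ℚ, (∀ x ∈ S, Pre d c x) → S.card ≤ 16 * d) := by
  classical
  have hd0 : d ≠ 0 := by omega
  by_cases hne : ∃ x, Pre d c x
  swap
  · push Not at hne
    have hemp : ∀ S : Finset ℚ, (∀ x ∈ S, Pre d c x) → S.card = 0 := by
      intro S hS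
      rw [Finset.card_eq_zero, Finset.eq_empty_iff_forall_notMem]
      exact fun x hx => hne x (hS x hx)
    refine ⟨fun S hS => ?_, fun _ S hS => ?_, fun _ S hS => ?_⟩
    · rw [hemp S (fun x hx => (hS x hx).pre)]; exact Nat.zero_le _
    · rw [hemp S hS]; exact Nat.zero_le _
    · rw [hemp S hS]; exact Nat.zero_le _
  obtain ⟨b, a, u, H⟩ := exists_coord d (by omega) c hne
  have hQsub : Qset d b = (d.primeFactors.erase 2).filter fun q => q ∣ c.den := by
    ext q
    rw [mem_Qset hd0, Finset.mem_filter, Finset.mem_erase, Nat.mem_primeFactors]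
    constructor
    · rintro ⟨h1, h2, h3, h4⟩
      exact ⟨⟨h3, h1, h2, hd0⟩, (H.dvd_den hd0 h1).mpr h4⟩
    · rintro ⟨⟨h3, h1, h2, _⟩, h4⟩
      exact ⟨h1, h2, h3, (H.dvd_den hd0 h1).mp h4⟩
  have hone : ∀ q ∈ d.primeFactors.erase 2, 1 ≤ q - 1 := by
    intro q hq
    have := (Nat.prime_of_mem_primeFactors (Finset.mem_of_mem_erase hq)).two_le
    omega
  refine ⟨fun S hS => ?_, fun hq S hS => ?_, fun hq S hS => ?_⟩
  · refine (H.per_card hd S hS).trans (Nat.mul_le_mul_left 2 ?_)
    rw [hQsub]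
    exact Finset.prod_le_prod_of_subset_of_one_le' (Finset.filter_subset _ _)
      (fun q hq _ => hone q hq)
  · by_cases h0 : Pre d c 0
    · exact (H.card_of_zero (by omega) h0 S hS).trans (by norm_num)
    · have hemp : Qset d b = ∅ := by
        rw [Finset.eq_empty_iff_forall_notMem]
        intro q hqm
        have := (mem_Qset hd0).mp hqm
        exact hq q this.1 this.2.2.1 this.2.1 ((H.dvd_den hd0 this.1).mpr this.2.2.2)
      have h1 := card_fibre hd0 c S
      have h2 : (S.image (f d c)).card ≤ 2 := by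
        have := H.per_card hd (S.image (f d c)) (by
          intro w hw
          obtain ⟨z, hz, rfl⟩ := Finset.mem_image.mp hw
          exact H.level hd h0 (hS z hz) 1 (Or.inl ⟨hemp, rfl⟩))
        rw [hemp] at this
        simpa using this
      omega
  · by_cases h0 : Pre d c 0
    · exact (H.card_of_zero (by omega) h0 S hS).trans (by omega)
    · have hc1 : (Qset d b).card ≤ 1 := by rw [hQsub]; exact hq
      have h1 := card_fibre hd0 c S
      have h2 := card_fibre hd0 c (S.image (f d c))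
      have h3 := card_fibre hd0 c ((S.image (f d c)).image (f d c))
      have h4 : (((S.image (f d c)).image (f d c)).image (f d c)).card ≤
          2 * ∏ q ∈ Qset d b, (q - 1) := by
        apply H.per_card hd
        intro w hw
        obtain ⟨z2, hz2, rfl⟩ := Finset.mem_image.mp hw
        obtain ⟨z1, hz1, rfl⟩ := Finset.mem_image.mp hz2
        obtain ⟨z, hz, rfl⟩ := Finset.mem_image.mp hz1
        exact H.level hd h0 (hS z hz) 3 (Or.inr ⟨hc1, rfl⟩)
      have h5 : ∏ q ∈ Qset d b, (q - 1) ≤ d := by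
        rcases Nat.le_one_iff_eq_zero_or_eq_one.mp hc1 with h6 | h6
        · rw [Finset.card_eq_zero] at h6
          rw [h6, Finset.prod_empty]; omega
        · obtain ⟨q, hq'⟩ := Finset.card_eq_one.mp h6
          rw [hq', Finset.prod_singleton]
          have := (mem_Qset hd0).mp (by rw [hq']; exact Finset.mem_singleton_self q :
            q ∈ Qset d b)
          have := Nat.le_of_dvd (by omega) this.2.1
          omega
      calc S.card ≤ 16 * ∏ q ∈ Qset d b, (q - 1) := by omega
        _ ≤ 16 * d := Nat.mul_le_mul_left _ h5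

end PowCyc
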