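import Pool.Agent.PowCyc.GenMain
import Pool.Agent.PowCyc.Dioph5

/-!
# Periodic points of `H(z ^ r) + c` and `P(z ^ r) / B ^ l`: unconditional form
-/

set_option autoImplicit false

open Polynomial

namespace PowCyc.Gen

lemma keyProp5 : KeyProp5 := fun _ _ _ hc hx hy h => d5_phi5_sq hx hy hc h

/-- `H` monic with integer coefficients, `c` rational -/
theorem periodic_H (r l : ℕ)
    (hrl : (r = 4 ∧ l = 3) ∨ (r = 4 ∧ l = 5) ∨ (r = 5 ∧ l = 2) ∨ (r = 6 ∧ l = 5))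
    (H : ℤ[X]) (hH : H.Monic) (hm : 0 < H.natDegree)
    (hl : l ∣ r * H.natDegree - 1) (c : ℚ) (S : Finset ℚ)
    (hS : ∀ x ∈ S, ∃ k : ℕ, 0 < k ∧ (fun z : ℚ => aeval (z ^ r) H + c)^[k] x = x) :
    S.card ≤ 2 * ∏ q ∈ (r * H.natDegree).primeFactors.erase 2, (q - 1) :=
  main_H (fun _ _ _ h1 h2 h3 h4 => fifth_a h1 h2 h3 h4)
    (fun _ _ _ h1 h2 h3 h4 => fifth_b h1 h2 h3 h4) keyProp5 r l hrl H hH hm hl c S hS

/-- the twisted families -/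
theorem periodic_P (r l : ℕ)
    (hrl : (r = 4 ∧ l = 3) ∨ (r = 4 ∧ l = 5) ∨ (r = 5 ∧ l = 2) ∨ (r = 6 ∧ l = 5) ∨
      (r = 6 ∧ l = 3))
    (P : ℤ[X]) (hP : P.Monic)
    (hm : 0 < P.natDegree) (B : ℕ) (hB : B ≠ 0)
    (hbad : ∀ p : ℕ, p.Prime → p ∣ B → ¬ (p : ℤ) ∣ P.coeff 0 ∧
      ∀ i, 0 < i → i < P.natDegree → (p : ℤ) ∣ P.coeff i) (S : Finset ℚ)
    (hS : ∀ x ∈ S, ∃ k : ℕ, 0 < k ∧ (fun z : ℚ => aeval (z ^ r) P / (B : ℚ) ^ l)^[k] x = x) :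
    S.card ≤ 2 * ∏ q ∈ (r * P.natDegree).primeFactors.erase 2, (q - 1) := by
  refine main_P (fun _ _ _ h1 h2 h3 h4 => fifth_a h1 h2 h3 h4)
    (fun _ _ _ h1 h2 h3 h4 => fifth_b h1 h2 h3 h4) keyProp5 r l ?_ P hP hm B hB hbad S hS
  rcases hrl with h | h | h | h | h
  · exact Or.inl (Or.inl h)
  · exact Or.inl (Or.inr (Or.inl h))
  · exact Or.inl (Or.inr (Or.inr (Or.inl h)))
  · exact Or.inl (Or.inr (Or.inr (Or.inr h)))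
  · exact Or.inr h

end PowCyc.Gen
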