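import Pool.Agent.PowCyc.Cubes

/-!
# No point of level two above a unique fixed point (L6.1)
-/

set_option autoImplicit false

namespace PowCyc

namespace FixedAux

/-- coprime factors of an even power -/
lemma split_pow {a b c : ℤ} (hab : IsCoprime a b) {d : ℕ} (hd : Even d) (hc : c ≠ 0)
    (h : a * b = c ^ d) : ∃ ε α β : ℤ, (ε = 1 ∨ ε = -1) ∧ a = ε * α ^ d ∧ b = ε * β ^ d := by
  obtain ⟨α, hα⟩ := exists_associated_pow_of_mul_eq_pow' hab h
  obtain ⟨β, hβ⟩ := exists_associated_pow_of_mul_eq_pow' hab.symm (by rw [mul_comm]; exact h)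
  have hpos : 0 < a * b := by
    rw [h]
    exact hd.pow_pos hc
  have hαn : 0 ≤ α ^ d := hd.pow_nonneg α
  have hβn : 0 ≤ β ^ d := hd.pow_nonneg β
  rcases Int.associated_iff.1 hα with h1 | h1 <;> rcases Int.associated_iff.1 hβ with h2 | h2
  · exact ⟨1, α, β, Or.inl rfl, by rw [one_mul, h1], by rw [one_mul, h2]⟩
  · exfalso; rw [h1] at hαn; rw [h2] at hβn; nlinarith
  · exfalso; rw [h1] at hαn; rw [h2] at hβn; nlinarith
  · exact ⟨-1, α, β, Or.inr rfl, by rw [h1]; ring, by rw [h2]; ring⟩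

lemma eps_pow {ε : ℤ} (hε : ε = 1 ∨ ε = -1) {n : ℕ} (hn : Odd n) : ε ^ n = ε := by
  rcases hε with rfl | rfl
  · simp
  · exact hn.neg_one_pow

lemma eps_mul {ε : ℤ} (hε : ε = 1 ∨ ε = -1) : ε * ε = 1 := by
  rcases hε with rfl | rfl <;> norm_num

/-- L3.2 in the form with a perfect cube times a power of two -/
lemma fourth_sub_fourth_two_pow {X Y : ℤ} (hc : IsCoprime X Y) (hX : Odd X) (hY : Odd Y)
    (E : ℕ) (C : ℤ) (h : X ^ 4 - Y ^ 4 = 2 ^ E * C ^ 3) : C = 0 := by
  by_contra hC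
  have h1 : X ^ 4 = Y ^ 4 := by
    refine fourth_sub_fourth_odd hc hX hY fun p hp hp2 => ?_
    have h2 : padicValInt p ((2 : ℤ) ^ E) = 0 := by
      apply padicValInt.eq_zero_of_not_dvd
      intro h3
      have h4 : (p : ℤ) ∣ 2 := Int.Prime.dvd_pow' hp h3 |> fun h => h
      have h5 : p ∣ 2 := by exact_mod_cast h4
      exact hp2 ((Nat.prime_dvd_prime_iff_eq hp Nat.prime_two).1 h5)
    have hf : Fact p.Prime := ⟨hp⟩
    rw [h, padicValInt_mul hp (pow_ne_zero _ (by norm_num)) (pow_ne_zero _ hC), h2, zero_add,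
      pow_succ, pow_two, padicValInt_mul hp (mul_ne_zero hC hC) hC, padicValInt_mul hp hC hC]
    exact ⟨padicValInt p C, by ring⟩
  rw [h1, sub_self] at h
  exact mul_ne_zero (pow_ne_zero _ (by norm_num)) (pow_ne_zero _ hC) h.symm

end FixedAux

open FixedAux in
theorem FixedAux.no_level_two_aux
    (L32 : ∀ X Y : ℤ, IsCoprime X Y → Odd X → Odd Y → ∀ (E : ℕ) (C : ℤ),
      X ^ 4 - Y ^ 4 = 2 ^ E * C ^ 3 → C = 0)
    (L35 : ∀ X Y C : ℤ, IsCoprime X Y → Odd C → X ^ 4 - Y ^ 4 = C ^ 3 → X = 0 ∨ Y = 0)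
    (d b : ℕ) (hd : d % 12 = 4) (hb : b ≠ 0) (u v : ℤ) (hc : IsCoprime u (b : ℤ)) (hu : u ≠ 0)
    (h : v ^ d = u ^ d - 2 * (b : ℤ) ^ (d - 1) * u) : False := by
  obtain ⟨k, hk⟩ : ∃ k, d = 4 * (3 * k + 1) := ⟨d / 12, by omega⟩
  set m := 3 * k + 1 with hm
  have hn : d - 1 = 3 * (4 * k + 1) := by omega
  set r := 4 * k + 1 with hr
  have hdn : d = (d - 1) + 1 := by omega
  set n := d - 1 with hndef
  have hnodd : Odd n := by rw [hn, hr]; exact ⟨6 * k + 1, by ring⟩
  have hdeven : Even d := by rw [hk]; exact ⟨2 * m, by ring⟩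
  have hd0 : d ≠ 0 := by omega
  have hn0 : n ≠ 0 := by omega
  have hbZ : (b : ℤ) ≠ 0 := by exact_mod_cast hb
  have hfac : v ^ d = u * (u ^ n - 2 * (b : ℤ) ^ n) := by
    rw [h]
    conv_lhs => rw [hdn, pow_succ]
    ring
  rcases Int.even_or_odd u with hue | huo
  · -- `u` even
    have hbo : Odd (b : ℤ) := by
      rcases Int.even_or_odd (b : ℤ) with hbe | hbo
      · exfalso
        have h2 : IsUnit (2 : ℤ) := hc.isUnit_of_dvd' hue.two_dvd hbe.two_dvd
        rw [Int.isUnit_iff] at h2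
        omega
      · exact hbo
    obtain ⟨g, u', hu'o, hug⟩ : ∃ (g : ℕ) (u' : ℤ), Odd u' ∧ u = 2 ^ g * u' := by
      have hfm : FiniteMultiplicity (2 : ℤ) u :=
        Int.finiteMultiplicity_iff.2 ⟨by norm_num, hu⟩
      obtain ⟨u', hu', hug⟩ := hfm.exists_eq_pow_mul_and_not_dvd
      refine ⟨multiplicity 2 u, u', ?_, hu'⟩
      rw [← Int.not_even_iff_odd, even_iff_two_dvd]
      exact hug
    have hg1 : 1 ≤ g := by
      by_contra hg
      have : g = 0 := by omega
      rw [this, pow_zero, one_mul] at hug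
      rw [hug] at hue
      exact (Int.not_even_iff_odd.2 hu'o) hue
    have hu'0 : u' ≠ 0 := by rintro rfl; simp at hug; exact hu hug
    obtain ⟨e, he⟩ : ∃ e, g * n = e + 1 := ⟨g * n - 1, by
      have : 1 ≤ g * n := Nat.one_le_iff_ne_zero.2 (Nat.mul_ne_zero (by omega) hn0)
      omega⟩
    have he1 : 1 ≤ e := by
      have : 3 ≤ g * n := by
        have h3 : 3 ≤ n := by omega
        nlinarith
      omega
    set w' : ℤ := 2 ^ e * u' ^ n - (b : ℤ) ^ n with hw'
    have hw'o : Odd w' := by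
      have h1 : Even ((2 : ℤ) ^ e * u' ^ n) :=
        Even.mul_right ((Int.even_pow' (by omega)).2 even_two) _
      have h2 : Odd ((b : ℤ) ^ n) := hbo.pow
      exact h1.sub_odd h2
    have hcu' : IsCoprime u' (b : ℤ) := by
      rw [hug] at hc
      exact hc.of_mul_left_right
    have hcw : IsCoprime u' w' := by
      have h1 : IsCoprime u' ((b : ℤ) ^ n) := hcu'.pow_right
      have h2 : w' = -((b : ℤ) ^ n) + u' * (2 ^ e * u' ^ (n - 1)) := by
        have h3 : u' ^ n = u' * u' ^ (n - 1) := by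
          rw [← pow_succ']; congr 1; omega
        rw [hw', h3]; ring
      rw [h2]
      exact (IsCoprime.add_mul_left_right_iff).2 h1.neg_right
    have h2c : ∀ z : ℤ, Odd z → IsCoprime ((2 : ℤ) ^ (g + 1)) z := by
      intro z hz
      refine IsCoprime.pow_left ?_
      obtain ⟨y, hy⟩ := hz
      exact ⟨-y, 1, by rw [hy]; ring⟩
    have hfac2 : (2 : ℤ) ^ (g + 1) * (u' * w') = v ^ d := by
      rw [hfac]
      have h4 : u ^ n - 2 * (b : ℤ) ^ n = 2 * w' := by
        rw [hug, mul_pow, ← pow_mul, he, hw']; ring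
      rw [h4, hug]; ring
    have hv0 : v ≠ 0 := by
      rintro rfl
      rw [zero_pow hd0] at hfac2
      have hw'0 : w' ≠ 0 := by rintro h0; rw [h0] at hw'o; exact absurd hw'o (by decide)
      exact mul_ne_zero (pow_ne_zero _ (by norm_num)) (mul_ne_zero hu'0 hw'0) hfac2
    obtain ⟨ε₁, γ, δ, hε₁, h1, h2⟩ := split_pow (h2c _ (hu'o.mul hw'o)) hdeven hv0 hfac2
    -- `ε₁ = 1`
    have hε1 : ε₁ = 1 := by
      rcases hε₁ with h5 | h5
      · exact h5
      · exfalso
        rw [h5] at h1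
        have h6 : 0 ≤ γ ^ d := hdeven.pow_nonneg γ
        have h7 : (0 : ℤ) < 2 ^ (g + 1) := by positivity
        linarith
    rw [hε1, one_mul] at h1 h2
    obtain ⟨hh, hhd⟩ : ∃ hh : ℕ, g + 1 = d * hh := by
      have h8 : γ.natAbs ^ d = 2 ^ (g + 1) := by
        have h9 := congrArg Int.natAbs h1
        rw [Int.natAbs_pow, Int.natAbs_pow] at h9
        exact h9.symm
      have h10 : γ.natAbs ∣ 2 ^ (g + 1) := by
        rw [← h8]; exact dvd_pow_self _ hd0
      obtain ⟨hh, -, hhe⟩ := (Nat.dvd_prime_pow Nat.prime_two).1 h10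
      refine ⟨hh, ?_⟩
      rw [hhe, ← pow_mul] at h8
      have := Nat.pow_right_injective (le_refl 2) h8
      rw [← this, mul_comm]
    have hδ0 : δ ≠ 0 := by
      rintro rfl
      rw [zero_pow hd0] at h2
      have hw'0 : w' ≠ 0 := by rintro h0; rw [h0] at hw'o; exact absurd hw'o (by decide)
      exact mul_ne_zero hu'0 hw'0 h2
    obtain ⟨ε, α, β, hε, h3, h4⟩ := split_pow hcw hdeven hδ0 h2
    have hh1 : 1 ≤ hh := by
      by_contra hcon
      have : hh = 0 := by omega
      rw [this] at hhd; omega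
    obtain ⟨q, hq⟩ : ∃ q, hh * n = q + 1 := ⟨hh * n - 1, by
      have : 1 ≤ hh * n := Nat.one_le_iff_ne_zero.2 (Nat.mul_ne_zero (by omega) hn0)
      omega⟩
    have heq : e = q * d := by
      have h11 : e + 1 + n = d * (q + 1) := by
        rw [← he, ← hq]
        calc g * n + n = (g + 1) * n := by ring
          _ = d * (hh * n) := by rw [hhd]; ring
      have h12 : e + 1 + n = e + d := by omega
      rw [h12] at h11
      have h13 : e + d = q * d + d := by rw [h11]; ring
      omega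
    -- the equation
    have hmain : ((2 ^ q * α ^ n) ^ m) ^ 4 - (β ^ m) ^ 4 = ((ε * b) ^ r) ^ 3 := by
      have h14 : ((2 ^ q * α ^ n) ^ m) ^ 4 = 2 ^ e * α ^ (d * n) := by
        rw [← pow_mul, mul_comm m 4, ← hk, mul_pow, ← pow_mul, ← heq, ← pow_mul, mul_comm n d]
      have h15 : (β ^ m) ^ 4 = β ^ d := by rw [← pow_mul, mul_comm m 4, ← hk]
      have h16 : ((ε * b) ^ r) ^ 3 = ε * (b : ℤ) ^ n := by
        rw [← pow_mul, mul_comm r 3, ← hn, mul_pow, eps_pow hε hnodd]
      rw [h14, h15, h16]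
      have h17 : w' = 2 ^ e * u' ^ n - (b : ℤ) ^ n := hw'
      rw [h3, h4, mul_pow, eps_pow hε hnodd, ← pow_mul] at h17
      have h18 := eps_mul hε
      -- `ε β^d = 2^e ε α^{dn} - b^n`
      have h19 : ε * (ε * β ^ d) = ε * (2 ^ e * (ε * α ^ (d * n)) - (b : ℤ) ^ n) := by rw [h17]
      have h20 : (ε * ε) * β ^ d = (ε * ε) * (2 ^ e * α ^ (d * n)) - ε * (b : ℤ) ^ n := by
        linear_combination h19
      rw [h18] at h20
      linarith
    have hβo : Odd β := by
      rw [← Int.not_even_iff_odd]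
      intro hβ
      rw [h4] at hw'o
      exact (Int.not_even_iff_odd.2 hw'o) (Even.mul_left ((Int.even_pow' hd0).2 hβ) _)
    have hαβ : IsCoprime α β := by
      rw [h3, h4] at hcw
      have h21 := hcw.of_mul_left_right.of_mul_right_right
      exact (IsCoprime.pow_iff (by omega) (by omega)).1 h21
    have hcop : IsCoprime ((2 ^ q * α ^ n) ^ m) (β ^ m) := by
      refine IsCoprime.pow (IsCoprime.mul_left (IsCoprime.pow_left ?_) (IsCoprime.pow_left hαβ))
      obtain ⟨y, hy⟩ := hβo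
      exact ⟨-y, 1, by rw [hy]; ring⟩
    have hCo : Odd ((ε * b) ^ r) := by
      refine Odd.pow (Odd.mul ?_ hbo)
      rcases hε with rfl | rfl
      · exact odd_one
      · exact odd_neg_one
    have hm0 : m ≠ 0 := by omega
    rcases L35 _ _ _ hcop hCo hmain with h22 | h22
    · have h23 := pow_eq_zero_iff hm0 |>.1 h22
      rcases mul_eq_zero.1 h23 with h24 | h24
      · exact absurd h24 (pow_ne_zero _ (by norm_num))
      · have h25 : α = 0 := (pow_eq_zero_iff hn0).1 h24
        rw [h25, zero_pow hd0, mul_zero] at h3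
        exact hu'0 h3
    · have h23 := pow_eq_zero_iff hm0 |>.1 h22
      rw [h23] at hβo
      exact absurd hβo (by decide)
  · -- `u` odd
    set w : ℤ := u ^ n - 2 * (b : ℤ) ^ n with hw
    have hwo : Odd w := (huo.pow).sub_even (even_two_mul _)
    have hcw : IsCoprime u w := by
      have h1 : IsCoprime u (2 * (b : ℤ) ^ n) := by
        refine IsCoprime.mul_right ?_ hc.pow_right
        obtain ⟨y, hy⟩ := huo
        exact ⟨1, -y, by rw [hy]; ring⟩
      have h2 : w = -(2 * (b : ℤ) ^ n) + u * u ^ (n - 1) := by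
        have h3 : u ^ n = u * u ^ (n - 1) := by
          rw [← pow_succ']; congr 1; omega
        rw [hw, ← h3]; ring
      rw [h2]
      exact (IsCoprime.add_mul_left_right_iff).2 h1.neg_right
    have hv0 : v ≠ 0 := by
      rintro rfl
      rw [zero_pow hd0] at hfac
      have hw0 : w ≠ 0 := by rintro h0; rw [h0] at hwo; exact absurd hwo (by decide)
      exact mul_ne_zero hu hw0 hfac.symm
    obtain ⟨ε, α, β, hε, h3, h4⟩ := split_pow hcw hdeven hv0 hfac.symm
    have hmain : ((α ^ n) ^ m) ^ 4 - (β ^ m) ^ 4 = 2 ^ 1 * ((ε * b) ^ r) ^ 3 := by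
      have h14 : ((α ^ n) ^ m) ^ 4 = α ^ (d * n) := by
        rw [← pow_mul, mul_comm m 4, ← hk, ← pow_mul, mul_comm n d]
      have h15 : (β ^ m) ^ 4 = β ^ d := by rw [← pow_mul, mul_comm m 4, ← hk]
      have h16 : ((ε * b) ^ r) ^ 3 = ε * (b : ℤ) ^ n := by
        rw [← pow_mul, mul_comm r 3, ← hn, mul_pow, eps_pow hε hnodd]
      rw [h14, h15, h16]
      have h17 : w = u ^ n - 2 * (b : ℤ) ^ n := hw
      rw [h4, h3, mul_pow, eps_pow hε hnodd, ← pow_mul] at h17
      have h18 := eps_mul hε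
      have h19 : ε * (ε * β ^ d) = ε * (ε * α ^ (d * n) - 2 * (b : ℤ) ^ n) := by rw [h17]
      have h20 : (ε * ε) * β ^ d = (ε * ε) * (α ^ (d * n)) - 2 * (ε * (b : ℤ) ^ n) := by
        linear_combination h19
      rw [h18] at h20
      linarith
    have hαo : Odd α := by
      rw [← Int.not_even_iff_odd]
      intro hα
      rw [h3] at huo
      exact (Int.not_even_iff_odd.2 huo) (Even.mul_left ((Int.even_pow' hd0).2 hα) _)
    have hβo : Odd β := by
      rw [← Int.not_even_iff_odd]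
      intro hβ
      rw [h4] at hwo
      exact (Int.not_even_iff_odd.2 hwo) (Even.mul_left ((Int.even_pow' hd0).2 hβ) _)
    have hαβ : IsCoprime α β := by
      rw [h3, h4] at hcw
      have h21 := hcw.of_mul_left_right.of_mul_right_right
      exact (IsCoprime.pow_iff (by omega) (by omega)).1 h21
    have hcop : IsCoprime ((α ^ n) ^ m) (β ^ m) := IsCoprime.pow (IsCoprime.pow_left hαβ)
    have hr0 : r ≠ 0 := by omega
    have h22 := L32 _ _ hcop hαo.pow.pow hβo.pow 1 _ hmain
    have h23 := (pow_eq_zero_iff hr0).1 h22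
    rcases mul_eq_zero.1 h23 with h24 | h24
    · rcases hε with h25 | h25 <;> rw [h25] at h24 <;> exact absurd h24 (by norm_num)
    · exact hbZ h24

/-- L6.1: above a unique fixed point there is no point of level two -/
theorem no_level_two (d b : ℕ) (hd : d % 12 = 4) (hb : b ≠ 0) (u v : ℤ)
    (hc : IsCoprime u (b : ℤ)) (hu : u ≠ 0)
    (h : v ^ d = u ^ d - 2 * (b : ℤ) ^ (d - 1) * u) : False :=
  FixedAux.no_level_two_aux
    (fun _ _ hc hX hY E C h => FixedAux.fourth_sub_fourth_two_pow hc hX hY E C h)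
    (fun _ _ _ hc hC h => fourth_sub_fourth_cube hc hC h) d b hd hb u v hc hu h

end PowCyc
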