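import Mathlib

/-!
# Polynomials `H(x ^ r)` over `ℚ` dominated by their constant term: denominators of
rational preperiodic points
-/

set_option autoImplicit false

open Polynomial

namespace PowCyc.Gen

/-- `H` (monic of degree `m`, constant term `c`) is dominated by its constant term at every prime:
if `c` is `p`-integral then all coefficients are, and otherwise `|h_i| < |c| ^ ((m - i) / m)` for
`0 < i < m`. This holds for all rational `c` if the other coefficients are integers. -/
def Dominated (H : ℚ[X]) : Prop := ∀ p : ℕ, p.Prime →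
  (padicNorm p (H.coeff 0) ≤ 1 → ∀ i, padicNorm p (H.coeff i) ≤ 1) ∧
  (1 < padicNorm p (H.coeff 0) → ∀ i, 0 < i → i < H.natDegree →
    padicNorm p (H.coeff i) ^ H.natDegree < padicNorm p (H.coeff 0) ^ (H.natDegree - i))

/-- the map `z ↦ H(z ^ r)` -/
noncomputable def fmap (H : ℚ[X]) (r : ℕ) (z : ℚ) : ℚ := H.eval (z ^ r)

section Local

variable {p : ℕ} [hp : Fact p.Prime]

lemma norm_pow (x : ℚ) (d : ℕ) : padicNorm p (x ^ d) = padicNorm p x ^ d := by
  induction d with
  | zero => rw [pow_zero, pow_zero, padicNorm.one]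
  | succ n ih => rw [pow_succ, pow_succ, padicNorm.mul, ih]

/-- the local denominator -/
lemma max_norm (q : ℚ) : max 1 (padicNorm p q) = (p : ℚ) ^ (padicValNat p q.den) := by
  have hp1 : (1 : ℚ) < p := by exact_mod_cast hp.out.one_lt
  have hq : padicNorm p q = padicNorm p (q.num : ℚ) / padicNorm p (q.den : ℚ) := by
    rw [← padicNorm.div, Rat.num_div_den]
  have hden : padicNorm p (q.den : ℚ) = ((p : ℚ) ^ (padicValNat p q.den))⁻¹ := by
    rw [padicNorm.eq_zpow_of_nonzero (by exact_mod_cast q.den_ne_zero), padicValRat.of_nat,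
      zpow_neg, zpow_natCast]
  by_cases h : p ∣ q.den
  · have hnum : padicNorm p (q.num : ℚ) = 1 := by
      rw [padicNorm.int_eq_one_iff]
      intro h2
      have h3 : p ∣ q.num.natAbs := Int.natCast_dvd.1 h2
      have h4 := Nat.dvd_gcd h3 h
      rw [q.reduced] at h4
      exact hp.out.one_lt.ne' (Nat.dvd_one.1 h4)
    rw [hq, hnum, hden, one_div, inv_inv]
    exact max_eq_right (one_le_pow₀ hp1.le)
  · rw [hq, (padicNorm.nat_eq_one_iff _).2 h, div_one, padicValNat.eq_zero_of_not_dvd h, pow_zero]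
    exact max_eq_left (padicNorm.of_int _)

variable {H : ℚ[X]} {r : ℕ}

lemma coeff_le (hH : Dominated H) (i : ℕ) (hi : 0 < i) (him : i < H.natDegree) :
    padicNorm p (H.coeff i) ^ H.natDegree ≤
      (max 1 (padicNorm p (H.coeff 0))) ^ (H.natDegree - i) := by
  obtain ⟨h1, h2⟩ := hH p hp.out
  by_cases hc : padicNorm p (H.coeff 0) ≤ 1
  · refine (pow_le_one₀ (padicNorm.nonneg _) (h1 hc i)).trans ?_
    exact one_le_pow₀ (le_max_left _ _)
  · push Not at hc
    rw [max_eq_right hc.le]
    exact (h2 hc i hi him).le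

lemma eval_eq_sum (hHm : H.Monic) (y : ℚ) :
    H.eval y = y ^ H.natDegree + ∑ i ∈ Finset.range H.natDegree, H.coeff i * y ^ i := by
  conv_lhs => rw [hHm.as_sum]
  simp [eval_finsetSum]

/-- large values -/
lemma norm_eval_gt (hHm : H.Monic) (hH : Dominated H) (hm : 0 < H.natDegree) (hr : 0 < r) (y : ℚ)
    (hy : max 1 (padicNorm p (H.coeff 0)) < padicNorm p y ^ (r * H.natDegree)) :
    padicNorm p (fmap H r y) = padicNorm p y ^ (r * H.natDegree) := by
  set m := H.natDegree with hmdef
  set C := max 1 (padicNorm p (H.coeff 0)) with hC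
  have hC1 : 1 ≤ C := le_max_left _ _
  have hC0 : 0 ≤ C := zero_le_one.trans hC1
  have hy0 : 0 ≤ padicNorm p y := padicNorm.nonneg y
  have hpos : 0 < padicNorm p y ^ (r * m) := lt_of_lt_of_le zero_lt_one (hC1.trans hy.le)
  have h1 : padicNorm p (∑ i ∈ Finset.range m, H.coeff i * (y ^ r) ^ i) <
      padicNorm p y ^ (r * m) := by
    refine padicNorm.sum_lt' (fun i hi => ?_) hpos
    have him : i < m := Finset.mem_range.1 hi
    rw [padicNorm.mul, ← pow_mul, norm_pow]
    rcases Nat.eq_zero_or_pos i with rfl | hi0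
    · rw [mul_zero, pow_zero, mul_one]
      exact (le_max_right _ _).trans_lt hy
    · have h2 := coeff_le (p := p) hH i hi0 him
      rw [← hmdef, ← hC] at h2
      have h3 : (padicNorm p (H.coeff i) * padicNorm p y ^ (r * i)) ^ m <
          (padicNorm p y ^ (r * m)) ^ m := by
        calc (padicNorm p (H.coeff i) * padicNorm p y ^ (r * i)) ^ m
            = padicNorm p (H.coeff i) ^ m * (padicNorm p y ^ (r * m)) ^ i := by
              rw [mul_pow, ← pow_mul, ← pow_mul]; congr 2; ring
          _ ≤ C ^ (m - i) * (padicNorm p y ^ (r * m)) ^ i :=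
              mul_le_mul_of_nonneg_right h2 (pow_nonneg hpos.le _)
          _ < (padicNorm p y ^ (r * m)) ^ (m - i) * (padicNorm p y ^ (r * m)) ^ i :=
              mul_lt_mul_of_pos_right (pow_lt_pow_left₀ hy hC0 (by omega)) (pow_pos hpos _)
          _ = (padicNorm p y ^ (r * m)) ^ m := by rw [← pow_add]; congr 1; omega
      exact lt_of_pow_lt_pow_left₀ m hpos.le h3
  rw [fmap, eval_eq_sum hHm, ← hmdef, padicNorm.add_eq_max_of_ne, ← pow_mul, norm_pow,
    max_eq_left h1.le]
  rw [← pow_mul, norm_pow]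
  exact h1.ne'

/-- small values -/
lemma norm_eval_lt (hHm : H.Monic) (hH : Dominated H) (hm : 0 < H.natDegree) (hr : 0 < r) (y : ℚ)
    (hc : 1 < padicNorm p (H.coeff 0))
    (hy : padicNorm p y ^ (r * H.natDegree) < padicNorm p (H.coeff 0)) :
    padicNorm p (fmap H r y) = padicNorm p (H.coeff 0) := by
  obtain ⟨-, hdom⟩ := hH p hp.out
  replace hdom := hdom hc
  set m := H.natDegree with hmdef
  set c := padicNorm p (H.coeff 0) with hcdef
  have hc0 : 0 < c := zero_lt_one.trans hc
  have hy0 : 0 ≤ padicNorm p y := padicNorm.nonneg y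
  have h1 : padicNorm p (∑ i ∈ (Finset.range (m + 1)).erase 0, H.coeff i * (y ^ r) ^ i) < c := by
    refine padicNorm.sum_lt' (fun i hi => ?_) hc0
    rw [Finset.mem_erase, Finset.mem_range] at hi
    obtain ⟨hi0, him⟩ := hi
    rw [padicNorm.mul, ← pow_mul, norm_pow]
    rcases Nat.lt_or_ge i m with him' | him'
    · have h2 := hdom i (by omega) him'
      have h3 : (padicNorm p (H.coeff i) * padicNorm p y ^ (r * i)) ^ m < c ^ m := by
        calc (padicNorm p (H.coeff i) * padicNorm p y ^ (r * i)) ^ m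
            = padicNorm p (H.coeff i) ^ m * (padicNorm p y ^ (r * m)) ^ i := by
              rw [mul_pow, ← pow_mul, ← pow_mul]; congr 2; ring
          _ ≤ padicNorm p (H.coeff i) ^ m * c ^ i :=
              mul_le_mul_of_nonneg_left (pow_le_pow_left₀ (pow_nonneg hy0 _) hy.le _)
                (pow_nonneg (padicNorm.nonneg _) _)
          _ < c ^ (m - i) * c ^ i := mul_lt_mul_of_pos_right h2 (pow_pos hc0 _)
          _ = c ^ m := by rw [← pow_add]; congr 1; omega
      exact lt_of_pow_lt_pow_left₀ m hc0.le h3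
    · have h4 : i = m := by omega
      have h5 : H.coeff i = 1 := by rw [h4, hmdef]; exact hHm.coeff_natDegree
      rw [h5, padicNorm.one, one_mul, h4]
      exact hy
  have h2 : fmap H r y =
      H.coeff 0 + ∑ i ∈ (Finset.range (m + 1)).erase 0, H.coeff i * (y ^ r) ^ i := by
    rw [fmap, eval_eq_sum_range, ← hmdef,
      ← Finset.add_sum_erase _ _ (Finset.mem_range.2 (Nat.succ_pos m))]
    simp
  rw [h2, padicNorm.add_eq_max_of_ne h1.ne', max_eq_left h1.le]

/-- the escape region -/
lemma escape (hHm : H.Monic) (hH : Dominated H) (hm : 0 < H.natDegree) (hr : 2 ≤ r) (x : ℚ)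
    (hx : max 1 (padicNorm p (H.coeff 0)) < padicNorm p x ^ (r * H.natDegree)) :
    ¬ (Set.range (fun k : ℕ => (fmap H r)^[k] x)).Finite := by
  set d := r * H.natDegree with hddef
  have hd2 : 2 ≤ d := by rw [hddef]; nlinarith
  set C := max 1 (padicNorm p (H.coeff 0)) with hC
  have hC1 : 1 ≤ C := le_max_left _ _
  have gt1 : ∀ y : ℚ, C < padicNorm p y ^ d → 1 < padicNorm p y := by
    intro y hy
    by_contra h
    push Not at h
    exact absurd (pow_le_one₀ (n := d) (padicNorm.nonneg y) h) (not_le.2 (hC1.trans_lt hy))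
  have inv : ∀ k : ℕ, C < padicNorm p ((fmap H r)^[k] x) ^ d := by
    intro k
    induction k with
    | zero => exact hx
    | succ k ih =>
      rw [Function.iterate_succ_apply', norm_eval_gt hHm hH hm (by omega) _ ih]
      exact ih.trans_le (le_self_pow₀ (hC1.trans ih.le) (by omega))
  have mono : StrictMono (fun k : ℕ => padicNorm p ((fmap H r)^[k] x)) := by
    refine strictMono_nat_of_lt_succ fun k => ?_
    rw [Function.iterate_succ_apply', norm_eval_gt hHm hH hm (by omega) _ (inv k)]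
    exact lt_self_pow₀ (gt1 _ (inv k)) (by omega)
  have hinj : Function.Injective (fun k : ℕ => (fmap H r)^[k] x) := by
    intro i j hij
    apply mono.injective
    exact congrArg (padicNorm p) hij
  exact Set.infinite_range_of_injective hinj

lemma pre_image (x : ℚ) (h : (Set.range (fun k : ℕ => (fmap H r)^[k] x)).Finite) :
    (Set.range (fun k : ℕ => (fmap H r)^[k] (fmap H r x))).Finite := by
  refine h.subset ?_
  rintro _ ⟨k, rfl⟩
  exact ⟨k + 1, Function.iterate_succ_apply _ _ _⟩

/-- the local statement -/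
lemma norm_eq (hHm : H.Monic) (hH : Dominated H) (hm : 0 < H.natDegree) (hr : 2 ≤ r) (x : ℚ)
    (h : (Set.range (fun k : ℕ => (fmap H r)^[k] x)).Finite) :
    max 1 (padicNorm p (x ^ (r * H.natDegree))) = max 1 (padicNorm p (H.coeff 0)) := by
  set d := r * H.natDegree with hddef
  have hd2 : 2 ≤ d := by rw [hddef]; nlinarith
  have hle : padicNorm p x ^ d ≤ max 1 (padicNorm p (H.coeff 0)) := by
    by_contra hcon
    push Not at hcon
    exact escape hHm hH hm hr x hcon h
  rw [norm_pow (p := p)]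
  by_cases hc : padicNorm p (H.coeff 0) ≤ 1
  · rw [max_eq_left hc] at hle ⊢
    rw [max_eq_left hle]
  · push Not at hc
    rw [max_eq_right hc.le] at hle ⊢
    rcases hle.lt_or_eq with h6 | h6
    · exfalso
      have h7 := norm_eval_lt hHm hH hm (by omega) x hc h6
      refine escape (p := p) hHm hH hm hr (fmap H r x) ?_ (pre_image x h)
      rw [h7, max_eq_right hc.le]
      exact lt_self_pow₀ hc (by omega)
    · rw [h6, max_eq_right hc.le]

end Local

lemma den_eq {H : ℚ[X]} {r : ℕ} (hHm : H.Monic) (hH : Dominated H) (hm : 0 < H.natDegree)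
    (hr : 2 ≤ r) (x : ℚ) (h : (Set.range (fun k : ℕ => (fmap H r)^[k] x)).Finite) :
    x.den ^ (r * H.natDegree) = (H.coeff 0).den := by
  have h1 : ∀ p : ℕ, p.Prime →
      padicValNat p (x ^ (r * H.natDegree)).den = padicValNat p (H.coeff 0).den := by
    intro p hp
    have : Fact p.Prime := ⟨hp⟩
    have h2 := norm_eq (p := p) hHm hH hm hr x h
    rw [max_norm, max_norm] at h2
    have hp1 : (1 : ℚ) < p := by exact_mod_cast hp.one_lt
    exact pow_right_injective₀ (by positivity) hp1.ne' h2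
  rw [← Rat.den_pow]
  refine Nat.eq_of_factorization_eq (Rat.den_ne_zero _) (Rat.den_ne_zero _) fun p => ?_
  by_cases hp : p.Prime
  · rw [Nat.factorization_def _ hp, Nat.factorization_def _ hp, h1 p hp]
  · rw [Nat.factorization_eq_zero_of_not_prime _ hp, Nat.factorization_eq_zero_of_not_prime _ hp]

/-- a rational number which is integral at all primes is an integer -/
lemma den_one_of_norm (q : ℚ) (h : ∀ p : ℕ, p.Prime → padicNorm p q ≤ 1) : q.den = 1 := by
  by_contra hne
  obtain ⟨p, hp, hpd⟩ := Nat.exists_prime_and_dvd hne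
  have : Fact p.Prime := ⟨hp⟩
  have h1 := max_norm (p := p) q
  rw [max_eq_left (h p hp)] at h1
  have h2 : 0 < padicValNat p q.den := one_le_padicValNat_of_dvd q.den_ne_zero hpd
  have hp1 : (1 : ℚ) < p := by exact_mod_cast hp.one_lt
  exact absurd h1 (one_lt_pow₀ hp1 (by omega)).ne

/-- **The integral model.** If `x ↦ H(x ^ r)` has a rational preperiodic point then there are
`b ≥ 1` and a monic integral polynomial `P` with `P ≡ T ^ m + P(0)` modulo every prime divisor of
`b`, such that in the coordinate `u = b x` the map is `u ↦ P(u ^ r) / b ^ (r m - 1)`, and all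
rational preperiodic points have `u` integral and prime to `b`. -/
theorem exists_model {H : ℚ[X]} {r : ℕ} (hHm : H.Monic) (hH : Dominated H) (hm : 0 < H.natDegree)
    (hr : 2 ≤ r) (hne : ∃ x : ℚ, (Set.range (fun k : ℕ => (fmap H r)^[k] x)).Finite) :
    ∃ b : ℕ, 0 < b ∧ ∃ P : ℤ[X], P.Monic ∧ P.natDegree = H.natDegree ∧
      (∀ p : ℕ, p.Prime → p ∣ b → ¬ (p : ℤ) ∣ P.coeff 0 ∧
        ∀ i, 0 < i → i < H.natDegree → (p : ℤ) ∣ P.coeff i) ∧
      (∀ x : ℚ, (b : ℚ) ^ (r * H.natDegree) * fmap H r x =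
        aeval (((b : ℚ) * x) ^ r) P) ∧
      ∀ x : ℚ, (Set.range (fun k : ℕ => (fmap H r)^[k] x)).Finite →
        ∃ u : ℤ, IsCoprime u (b : ℤ) ∧ x = u / (b : ℚ) := by
  obtain ⟨x₀, hx₀⟩ := hne
  have h0 := den_eq hHm hH hm hr x₀ hx₀
  set b := x₀.den with hbdef
  have hb : 0 < b := x₀.den_pos
  have hbQ : (b : ℚ) ≠ 0 := by exact_mod_cast hb.ne'
  set m := H.natDegree with hmdef
  -- the local size of `b`
  have hbnorm : ∀ p : ℕ, p.Prime →
      padicNorm p (b : ℚ) ^ (r * m) * max 1 (padicNorm p (H.coeff 0)) = 1 := by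
    intro p hp
    have : Fact p.Prime := ⟨hp⟩
    have hp0 : (p : ℚ) ≠ 0 := by exact_mod_cast hp.ne_zero
    rw [max_norm, ← h0, padicNorm.eq_zpow_of_nonzero hbQ, padicValRat.of_nat, zpow_neg,
      zpow_natCast, padicValNat.pow, inv_pow, ← pow_mul, mul_comm (r * m)]
    exact inv_mul_cancel₀ (pow_ne_zero _ hp0)
  have hg : ∀ p : ℕ, p.Prime → ∀ i, 0 < i → i < m →
      (padicNorm p (H.coeff i * (b : ℚ) ^ (r * (m - i)))) ^ m =
        padicNorm p (H.coeff i) ^ m * (padicNorm p (b : ℚ) ^ (r * m)) ^ (m - i) := by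
    intro p hp i _ _
    have : Fact p.Prime := ⟨hp⟩
    rw [padicNorm.mul, norm_pow, mul_pow, ← pow_mul, ← pow_mul]
    congr 2; ring
  have hint : ∀ p : ℕ, p.Prime → ∀ i, padicNorm p (H.coeff i * (b : ℚ) ^ (r * (m - i))) ≤ 1 := by
    intro p hp i
    have : Fact p.Prime := ⟨hp⟩
    have hB0 : 0 ≤ padicNorm p (b : ℚ) := padicNorm.nonneg _
    have hC0 : 0 < max 1 (padicNorm p (H.coeff 0)) := lt_of_lt_of_le one_pos (le_max_left _ _)
    rcases Nat.eq_zero_or_pos i with rfl | hi0
    · rw [padicNorm.mul, norm_pow, Nat.sub_zero, mul_comm]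
      have h1 := hbnorm p hp
      calc padicNorm p (b : ℚ) ^ (r * m) * padicNorm p (H.coeff 0)
          ≤ padicNorm p (b : ℚ) ^ (r * m) * max 1 (padicNorm p (H.coeff 0)) :=
            mul_le_mul_of_nonneg_left (le_max_right _ _) (pow_nonneg hB0 _)
        _ = 1 := h1
    rcases Nat.lt_or_ge i m with him | him
    · have h1 := hg p hp i hi0 him
      have h2 := coeff_le (p := p) hH i hi0 him
      have h3 : (padicNorm p (H.coeff i * (b : ℚ) ^ (r * (m - i)))) ^ m ≤ 1 ^ m := by
        rw [h1]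
        calc padicNorm p (H.coeff i) ^ m * (padicNorm p (b : ℚ) ^ (r * m)) ^ (m - i)
            ≤ (max 1 (padicNorm p (H.coeff 0))) ^ (m - i) *
              (padicNorm p (b : ℚ) ^ (r * m)) ^ (m - i) :=
              mul_le_mul_of_nonneg_right h2 (pow_nonneg (pow_nonneg hB0 _) _)
          _ = 1 ^ m := by rw [← mul_pow, mul_comm, hbnorm p hp, one_pow, one_pow]
      exact le_of_pow_le_pow_left₀ (by omega) zero_le_one h3
    · rcases him.lt_or_eq with him' | him'
      · rw [coeff_eq_zero_of_natDegree_lt him', zero_mul, padicNorm.zero]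
        exact zero_le_one
      · rw [← him', Nat.sub_self, mul_zero, pow_zero, mul_one, hmdef, hHm.coeff_natDegree,
          padicNorm.one]
  -- the integral polynomial
  have hlift : H.scaleRoots ((b : ℚ) ^ r) ∈ Polynomial.lifts (Int.castRingHom ℚ) := by
    rw [Polynomial.lifts_iff_coeff_lifts]
    intro i
    rw [coeff_scaleRoots, ← pow_mul]
    have h1 := den_one_of_norm (H.coeff i * (b : ℚ) ^ (r * (m - i))) (fun p hp => hint p hp i)
    exact ⟨(H.coeff i * (b : ℚ) ^ (r * (m - i))).num, Rat.coe_int_num_of_den_eq_one h1⟩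
  obtain ⟨P, hPmap, hPdeg, hPmon⟩ := lifts_and_natDegree_eq_and_monic hlift
    ((monic_scaleRoots_iff _).2 hHm)
  have hPcoeff : ∀ i, ((P.coeff i : ℤ) : ℚ) = H.coeff i * (b : ℚ) ^ (r * (m - i)) := by
    intro i
    have h1 := congrArg (fun q : ℚ[X] => q.coeff i) hPmap
    simp only [coeff_map, coeff_scaleRoots, ← pow_mul] at h1
    exact h1
  refine ⟨b, hb, P, hPmon, by rw [hPdeg, natDegree_scaleRoots], ?_, ?_, ?_⟩
  · intro p hp hpb
    have : Fact p.Prime := ⟨hp⟩
    have hbn : padicNorm p (b : ℚ) < 1 := (padicNorm.nat_lt_one_iff _).2 hpb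
    have hB0 : 0 < padicNorm p (b : ℚ) := by
      have := padicNorm.nonzero (p := p) hbQ
      exact lt_of_le_of_ne (padicNorm.nonneg _) (Ne.symm this)
    have hc : 1 < padicNorm p (H.coeff 0) := by
      by_contra hcon
      push Not at hcon
      have h1 := hbnorm p hp
      rw [max_eq_left hcon, mul_one] at h1
      exact absurd h1 (pow_lt_one₀ hB0.le hbn (by positivity)).ne
    refine ⟨?_, fun i hi0 him => ?_⟩
    · rw [← padicNorm.int_eq_one_iff, hPcoeff, padicNorm.mul, norm_pow, Nat.sub_zero]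
      have h1 := hbnorm p hp
      rwa [max_eq_right hc.le, mul_comm] at h1
    rw [← padicNorm.int_lt_one_iff, hPcoeff]
    have h2 := (hH p hp).2 hc i hi0 him
    have h3 : (padicNorm p (H.coeff i * (b : ℚ) ^ (r * (m - i)))) ^ m < 1 ^ m := by
      rw [hg p hp i hi0 him]
      calc padicNorm p (H.coeff i) ^ m * (padicNorm p (b : ℚ) ^ (r * m)) ^ (m - i)
          < padicNorm p (H.coeff 0) ^ (m - i) *
            (padicNorm p (b : ℚ) ^ (r * m)) ^ (m - i) :=
            mul_lt_mul_of_pos_right h2 (pow_pos (pow_pos hB0 _) _)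
        _ = 1 ^ m := by
          have h4 := hbnorm p hp
          rw [max_eq_right hc.le] at h4
          rw [← mul_pow, mul_comm, h4, one_pow, one_pow]
    exact lt_of_pow_lt_pow_left₀ m zero_le_one h3
  · intro x
    have h1 : aeval (((b : ℚ) * x) ^ r) P = (H.scaleRoots ((b : ℚ) ^ r)).eval (((b : ℚ) * x) ^ r) := by
      rw [← hPmap, eval_map, aeval_def]; rfl
    rw [h1, mul_pow]
    have h2 := scaleRoots_eval₂_mul (p := H) (RingHom.id ℚ) (x ^ r) ((b : ℚ) ^ r)
    simp only [RingHom.id_apply, eval₂_id] at h2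
    rw [h2, ← pow_mul, fmap]
  · intro x hx
    have h3 := den_eq hHm hH hm hr x hx
    have h4 : x.den = b :=
      Nat.pow_left_injective (n := r * m) (by positivity) (h3.trans h0.symm)
    refine ⟨x.num, ?_, ?_⟩
    · rw [← h4]; exact Rat.isCoprime_num_den x
    · rw [← h4, Rat.num_div_den]

end PowCyc.Gen
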