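import Pool.Agent.PowCyc.GenPair
import Pool.Agent.PowCyc.GenDenom

/-!
# Counting rational periodic points
-/

set_option autoImplicit false

open Polynomial

namespace PowCyc.Gen

/-- the map `u ↦ P(u ^ r) / B ^ n` -/
noncomputable def gmap (P : ℤ[X]) (r B n : ℕ) (u : ℚ) : ℚ := aeval (u ^ r) P / (B : ℚ) ^ n

/-! ### Counting lemmas -/

lemma card_le_two {T : Set ℤ} (φ : ℤ → Bool) (h : ∀ u ∈ T, ∀ w ∈ T, u ≠ w → φ u ≠ φ w) :
    T.Finite ∧ T.ncard ≤ 2 := by
  have hinj : Function.Injective (fun x : T => φ x.1) := by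
    intro x y hxy
    by_contra hne
    exact h x.1 x.2 y.1 y.2 (fun h1 => hne (Subtype.ext h1)) hxy
  have hfin : Finite T := Finite.of_injective _ hinj
  refine ⟨hfin, ?_⟩
  have h1 := Nat.card_le_card_of_injective _ hinj
  rw [Nat.card_coe_set_eq] at h1
  simpa using h1

lemma isUnit_zmod {u : ℤ} {B q : ℕ} (h : IsCoprime u (B : ℤ)) (hq : q ∣ B) :
    IsUnit (u : ZMod q) := by
  rw [ZMod.coe_int_isUnit_iff_isCoprime]
  exact (h.of_isCoprime_of_dvd_right (Int.natCast_dvd_natCast.2 hq)).symm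

open Classical in
lemma card_le (S : Finset ℕ) (hS : ∀ q ∈ S, q.Prime) {B : ℕ} (hB : 4 ∣ 2 * B) (T : Set ℤ)
    (hT : ∀ u ∈ T, IsCoprime u (B : ℤ))
    (h : ∀ u ∈ T, ∀ w ∈ T, (4 : ℤ) ∣ u - w → (∀ q ∈ S, q ∣ B → (q : ℤ) ∣ u - w) → u = w) :
    T.Finite ∧ T.ncard ≤ 2 * ∏ q ∈ S, (q - 1) := by
  have hF : ∀ q : S, Fact (q : ℕ).Prime := fun q => ⟨hS q.1 q.2⟩
  have h2B : 2 ∣ B := by omega
  have hodd : ∀ u ∈ T, IsUnit (u : ZMod 4) := by
    intro u hu
    rw [ZMod.coe_int_isUnit_iff_isCoprime]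
    have h1 : IsCoprime u (2 : ℤ) :=
      (hT u hu).of_isCoprime_of_dvd_right (by exact_mod_cast Int.natCast_dvd_natCast.2 h2B)
    have h2 : IsCoprime u ((2 : ℤ) ^ 2) := h1.pow_right
    have h3 : ((4 : ℕ) : ℤ) = 2 ^ 2 := by norm_num
    rw [h3]; exact h2.symm
  let Φ : T → (ZMod 4)ˣ × ((q : S) → (ZMod (q : ℕ))ˣ) := fun x =>
    ((hodd x.1 x.2).unit, fun q =>
      if hq : (q : ℕ) ∣ B then (isUnit_zmod (hT x.1 x.2) hq).unit else 1)
  have hinj : Function.Injective Φ := by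
    intro x y hxy
    apply Subtype.ext
    refine h x.1 x.2 y.1 y.2 ?_ ?_
    · have h1 : (Φ x).1 = (Φ y).1 := by rw [hxy]
      have h2 := congrArg Units.val h1
      have h3 : ((x.1 : ℤ) : ZMod 4) = ((y.1 : ℤ) : ZMod 4) := h2
      have h4 := (ZMod.intCast_eq_intCast_iff_dvd_sub _ _ _).1 h3.symm
      exact_mod_cast h4
    · intro q hq hqB
      have h1 : (Φ x).2 ⟨q, hq⟩ = (Φ y).2 ⟨q, hq⟩ := by rw [hxy]
      simp only [Φ] at h1
      rw [dif_pos hqB, dif_pos hqB] at h1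
      have h2 := congrArg Units.val h1
      have h3 : ((x.1 : ℤ) : ZMod q) = ((y.1 : ℤ) : ZMod q) := h2
      exact (ZMod.intCast_eq_intCast_iff_dvd_sub _ _ _).1 h3.symm
  have hfin : Finite T := Finite.of_injective _ hinj
  refine ⟨hfin, ?_⟩
  have h1 := Nat.card_le_card_of_injective _ hinj
  rw [Nat.card_coe_set_eq] at h1
  refine h1.trans (le_of_eq ?_)
  rw [Nat.card_prod, Nat.card_pi]
  congr 1
  · rw [Nat.card_eq_fintype_card, ZMod.card_units_eq_totient]; rfl
  · rw [← Finset.prod_coe_sort S (fun q => q - 1)]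
    refine Finset.prod_congr rfl fun q _ => ?_
    rw [Nat.card_eq_fintype_card, ZMod.card_units]

/-! ### Rational preperiodic points of `gmap` are integers prime to `B` -/

section Integral

variable {P : ℤ[X]} {r B n : ℕ}

lemma norm_aeval_gt {p : ℕ} [hp : Fact p.Prime] (hP : P.Monic) (hm : 0 < P.natDegree) (y : ℚ)
    (hy : 1 < padicNorm p y) : padicNorm p (aeval y P) = padicNorm p y ^ P.natDegree := by
  have h0 : aeval y P = y ^ P.natDegree +
      ∑ i ∈ Finset.range P.natDegree, ((P.coeff i : ℤ) : ℚ) * y ^ i := by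
    conv_lhs => rw [hP.as_sum]
    simp [map_sum]
  have h1 : padicNorm p (∑ i ∈ Finset.range P.natDegree, ((P.coeff i : ℤ) : ℚ) * y ^ i) ≤
      padicNorm p y ^ (P.natDegree - 1) := by
    refine padicNorm.sum_le' (fun i hi => ?_) (pow_nonneg (padicNorm.nonneg y) _)
    rw [padicNorm.mul, norm_pow]
    have h1 : padicNorm p ((P.coeff i : ℤ) : ℚ) ≤ 1 := padicNorm.of_int _
    have h2 : padicNorm p y ^ i ≤ padicNorm p y ^ (P.natDegree - 1) :=
      pow_le_pow_right₀ hy.le (by have := Finset.mem_range.1 hi; omega)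
    calc padicNorm p ((P.coeff i : ℤ) : ℚ) * padicNorm p y ^ i ≤ 1 * padicNorm p y ^ i :=
          mul_le_mul_of_nonneg_right h1 (pow_nonneg (padicNorm.nonneg y) _)
      _ = padicNorm p y ^ i := one_mul _
      _ ≤ _ := h2
  have h3 := h1.trans_lt (pow_lt_pow_right₀ hy (show P.natDegree - 1 < P.natDegree by omega))
  rw [h0, padicNorm.add_eq_max_of_ne (by rw [norm_pow]; exact h3.ne'), norm_pow,
    max_eq_left h3.le]

lemma norm_Bn {p : ℕ} [hp : Fact p.Prime] (hB : B ≠ 0) :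
    0 < padicNorm p ((B : ℚ) ^ n) ∧ padicNorm p ((B : ℚ) ^ n) ≤ 1 := by
  have hBQ : (B : ℚ) ^ n ≠ 0 := pow_ne_zero _ (by exact_mod_cast hB)
  refine ⟨lt_of_le_of_ne (padicNorm.nonneg _) (Ne.symm (padicNorm.nonzero hBQ)), ?_⟩
  have h1 := padicNorm.of_int (p := p) ((B : ℤ) ^ n)
  push_cast at h1
  exact h1

/-- points of absolute value `> 1` escape -/
lemma gescape {p : ℕ} [hp : Fact p.Prime] (hP : P.Monic) (hm : 0 < P.natDegree) (hr : 2 ≤ r)
    (hB : B ≠ 0) (x : ℚ) (hx : 1 < padicNorm p x) :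
    ¬ (Set.range (fun k : ℕ => (gmap P r B n)^[k] x)).Finite := by
  have step : ∀ y : ℚ, 1 < padicNorm p y → padicNorm p y < padicNorm p (gmap P r B n y) := by
    intro y hy
    obtain ⟨h1, h2⟩ := norm_Bn (p := p) (n := n) hB
    have h3 : 1 < padicNorm p (y ^ r) := by
      rw [norm_pow]; exact one_lt_pow₀ hy (by omega)
    rw [gmap, padicNorm.div, norm_aeval_gt hP hm _ h3, norm_pow, ← pow_mul]
    have h4 : padicNorm p y < padicNorm p y ^ (r * P.natDegree) :=
      lt_self_pow₀ hy (by nlinarith)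
    refine h4.trans_le ?_
    rw [le_div_iff₀ h1]
    exact mul_le_of_le_one_right (pow_nonneg (padicNorm.nonneg y) _) h2
  have inv : ∀ k : ℕ, 1 < padicNorm p ((gmap P r B n)^[k] x) := by
    intro k
    induction k with
    | zero => exact hx
    | succ k ih =>
      rw [Function.iterate_succ_apply']
      exact ih.trans (step _ ih)
  have mono : StrictMono (fun k : ℕ => padicNorm p ((gmap P r B n)^[k] x)) := by
    refine strictMono_nat_of_lt_succ fun k => ?_
    rw [Function.iterate_succ_apply']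
    exact step _ (inv k)
  have hinj : Function.Injective (fun k : ℕ => (gmap P r B n)^[k] x) := by
    intro i j hij
    apply mono.injective
    exact congrArg (padicNorm p) hij
  exact Set.infinite_range_of_injective hinj

lemma gpre_image (x : ℚ) (h : (Set.range (fun k : ℕ => (gmap P r B n)^[k] x)).Finite) :
    (Set.range (fun k : ℕ => (gmap P r B n)^[k] (gmap P r B n x))).Finite := by
  refine h.subset ?_
  rintro _ ⟨k, rfl⟩
  exact ⟨k + 1, Function.iterate_succ_apply _ _ _⟩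

lemma integral_of_pre (hP : P.Monic) (hm : 0 < P.natDegree) (hr : 2 ≤ r) (hB : B ≠ 0)
    (hn : 0 < n)
    (hbad : ∀ p : ℕ, p.Prime → p ∣ B → ¬ (p : ℤ) ∣ P.coeff 0 ∧
      ∀ i, 0 < i → i < P.natDegree → (p : ℤ) ∣ P.coeff i)
    (x : ℚ) (hx : (Set.range (fun k : ℕ => (gmap P r B n)^[k] x)).Finite) :
    ∃ u : ℤ, x = u ∧ IsCoprime u (B : ℤ) := by
  have h1 : ∀ p : ℕ, p.Prime → padicNorm p x ≤ 1 := by
    intro p hp
    have := Fact.mk hp
    by_contra hcon
    push Not at hcon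
    exact gescape hP hm hr hB x hcon hx
  have h2 := den_one_of_norm x h1
  refine ⟨x.num, (Rat.coe_int_num_of_den_eq_one h2).symm, ?_⟩
  set u := x.num with hu
  have hxu : x = u := (Rat.coe_int_num_of_den_eq_one h2).symm
  rw [Int.isCoprime_iff_gcd_eq_one]
  by_contra hg
  obtain ⟨p, hp, hpg⟩ := Nat.exists_prime_and_dvd hg
  have := Fact.mk hp
  have hpu : (p : ℤ) ∣ u := (Int.natCast_dvd_natCast.2 hpg).trans (Int.gcd_dvd_left ..)
  have hpB : p ∣ B :=
    Int.natCast_dvd_natCast.1 ((Int.natCast_dvd_natCast.2 hpg).trans (Int.gcd_dvd_right ..))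
  obtain ⟨h3, -⟩ := hbad p hp hpB
  -- the value is a unit
  have h4 : ¬ (p : ℤ) ∣ P.eval (u ^ r) := by
    intro h5
    apply h3
    have h6 : u ^ r - 0 ∣ P.eval (u ^ r) - P.eval 0 := Polynomial.sub_dvd_eval_sub _ _ _
    rw [sub_zero] at h6
    have h7 : (p : ℤ) ∣ P.eval (u ^ r) - P.eval 0 :=
      (Dvd.dvd.trans (dvd_pow hpu (by omega)) h6)
    have h8 := (dvd_sub_right h5).1 h7
    rwa [← coeff_zero_eq_eval_zero] at h8
  have h5 : aeval (x ^ r) P = ((P.eval (u ^ r) : ℤ) : ℚ) := by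
    rw [hxu, aeval_def]
    have := eval₂_at_apply (p := P) (Int.castRingHom ℚ) (u ^ r)
    simpa using this
  have h6 : padicNorm p (gmap P r B n x) = (padicNorm p ((B : ℚ) ^ n))⁻¹ := by
    rw [gmap, padicNorm.div, h5, (padicNorm.int_eq_one_iff _).2 h4, one_div]
  have h7 : 1 < padicNorm p (gmap P r B n x) := by
    rw [h6, norm_pow]
    have h8 : padicNorm p (B : ℚ) < 1 := (padicNorm.nat_lt_one_iff _).2 hpB
    have h9 : 0 < padicNorm p (B : ℚ) ^ n := by
      have := (norm_Bn (p := p) (n := n) hB).1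
      rwa [norm_pow] at this
    exact (one_lt_inv₀ h9).2 (pow_lt_one₀ (padicNorm.nonneg _) h8 hn.ne')
  exact gescape hP hm hr hB _ h7 (gpre_image x hx)

end Integral

/-! ### Periodic points -/

lemma finite_of_periodic {α : Type*} {f : α → α} {x : α} (hx : x ∈ Function.periodicPts f) :
    (Set.range (fun k : ℕ => f^[k] x)).Finite := by
  obtain ⟨L, hL, hLx⟩ := hx
  refine ((Finset.range L).finite_toSet.image (fun k => f^[k] x)).subset ?_
  rintro _ ⟨k, rfl⟩
  refine ⟨k % L, by simpa using Nat.mod_lt k hL, ?_⟩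
  show f^[k % L] x = f^[k] x
  exact hLx.iterate_mod_apply k

/-- iterates of distinct periodic points stay distinct -/
lemma iterate_ne {α : Type*} {f : α → α} {x y : α} {L : ℕ} (hL : 0 < L)
    (hx : Function.IsPeriodicPt f L x) (hy : Function.IsPeriodicPt f L y) (hxy : x ≠ y) (i : ℕ) :
    f^[i] x ≠ f^[i] y := by
  intro h
  apply hxy
  have h1 : L * (i + 1) = (L * (i + 1) - i) + i := by
    have : i + 1 ≤ L * (i + 1) := Nat.le_mul_of_pos_left _ hL
    omega
  have h2 : f^[L * (i + 1)] x = x := (hx.mul_const (i + 1))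
  have h3 : f^[L * (i + 1)] y = y := (hy.mul_const (i + 1))
  rw [← h2, ← h3, h1, Function.iterate_add_apply, Function.iterate_add_apply, h]

section Main

variable {P : ℤ[X]} {r B n : ℕ}

/-- the pair of integral orbits of two distinct periodic points -/
lemma exists_pair (hP : P.Monic) (hm : 0 < P.natDegree) (hr : 2 ≤ r) (hB : B ≠ 0) (hn : 0 < n)
    (hbad : ∀ p : ℕ, p.Prime → p ∣ B → ¬ (p : ℤ) ∣ P.coeff 0 ∧
      ∀ i, 0 < i → i < P.natDegree → (p : ℤ) ∣ P.coeff i)
    {u w : ℤ} (hu : (u : ℚ) ∈ Function.periodicPts (gmap P r B n))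
    (hw : (w : ℚ) ∈ Function.periodicPts (gmap P r B n)) (hne : u ≠ w) :
    ∃ (L : ℕ) (U W : ℕ → ℤ), Pair P r B n L U W ∧ U 0 = u ∧ W 0 = w := by
  have hBQ : (B : ℚ) ^ n ≠ 0 := pow_ne_zero _ (by exact_mod_cast hB)
  obtain ⟨L₁, hL₁, hu'⟩ := hu
  obtain ⟨L₂, hL₂, hw'⟩ := hw
  have key : ∀ z : ℤ, (z : ℚ) ∈ Function.periodicPts (gmap P r B n) →
      ∃ U : ℕ → ℤ, ∀ i, (gmap P r B n)^[i] z = U i ∧ IsCoprime (U i) (B : ℤ) := by
    intro z hz
    have h1 : ∀ i, ∃ v : ℤ, (gmap P r B n)^[i] z = v ∧ IsCoprime v (B : ℤ) := by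
      intro i
      refine integral_of_pre hP hm hr hB hn hbad _ (finite_of_periodic ?_)
      obtain ⟨L, hL, hLz⟩ := hz
      exact ⟨L, hL, hLz.apply_iterate i⟩
    choose U hU using h1
    exact ⟨U, hU⟩
  obtain ⟨U, hU⟩ := key u ⟨L₁, hL₁, hu'⟩
  obtain ⟨W, hW⟩ := key w ⟨L₂, hL₂, hw'⟩
  have hrec : ∀ (V : ℕ → ℤ) (v : ℤ), (∀ i, (gmap P r B n)^[i] v = V i) →
      ∀ i, (B : ℤ) ^ n * V (i + 1) = P.eval (V i ^ r) := by
    intro V v hV i
    have h1 := hV (i + 1)
    rw [Function.iterate_succ_apply', hV i, gmap, div_eq_iff hBQ] at h1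
    have h5 : aeval ((V i : ℚ) ^ r) P = ((P.eval (V i ^ r) : ℤ) : ℚ) := by
      rw [aeval_def]
      have := eval₂_at_apply (p := P) (Int.castRingHom ℚ) (V i ^ r)
      simpa using this
    rw [h5] at h1
    have h6 : ((P.eval (V i ^ r) : ℤ) : ℚ) = (((B : ℤ) ^ n * V (i + 1) : ℤ) : ℚ) := by
      rw [h1]; push_cast; ring
    exact (by exact_mod_cast h6.symm)
  have per : ∀ (V : ℕ → ℤ) (v : ℤ), (∀ i, (gmap P r B n)^[i] v = V i) →
      Function.IsPeriodicPt (gmap P r B n) (L₁ * L₂) v → ∀ i, V (i + L₁ * L₂) = V i := by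
    intro V v hV hv i
    have h1 : ((V (i + L₁ * L₂) : ℤ) : ℚ) = V i := by
      rw [← hV, ← hV, Function.iterate_add_apply, hv]
    exact_mod_cast h1
  have hu2 : Function.IsPeriodicPt (gmap P r B n) (L₁ * L₂) (u : ℚ) := hu'.mul_const L₂
  have hw2 : Function.IsPeriodicPt (gmap P r B n) (L₁ * L₂) (w : ℚ) := by
    rw [mul_comm]; exact hw'.mul_const L₁
  refine ⟨L₁ * L₂, U, W, ?_, ?_, ?_⟩
  · refine
      { hb := hB
        hn := hn
        hL := Nat.mul_pos hL₁ hL₂
        hmon := hP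
        hbad := fun p hp hpB => (hbad p hp hpB).2
        hU := hrec U u fun i => (hU i).1
        hW := hrec W w fun i => (hW i).1
        hUc := fun i => (hU i).2
        hWc := fun i => (hW i).2
        hne := ?_
        hUL := per U u (fun i => (hU i).1) hu2
        hWL := per W w (fun i => (hW i).1) hw2 }
    intro i h
    refine iterate_ne (Nat.mul_pos hL₁ hL₂) hu2 hw2 ?_ i ?_
    · exact_mod_cast hne
    · rw [(hU i).1, (hW i).1, h]
  · have := (hU 0).1
    rw [Function.iterate_zero_apply] at this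
    exact_mod_cast this.symm
  · have := (hW 0).1
    rw [Function.iterate_zero_apply] at this
    exact_mod_cast this.symm

/-- the integral periodic points -/
def intPer (P : ℤ[X]) (r B n : ℕ) : Set ℤ := {u : ℤ | (u : ℚ) ∈ Function.periodicPts (gmap P r B n)}

lemma per_eq_image (hP : P.Monic) (hm : 0 < P.natDegree) (hr : 2 ≤ r) (hB : B ≠ 0) (hn : 0 < n)
    (hbad : ∀ p : ℕ, p.Prime → p ∣ B → ¬ (p : ℤ) ∣ P.coeff 0 ∧
      ∀ i, 0 < i → i < P.natDegree → (p : ℤ) ∣ P.coeff i) :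
    Function.periodicPts (gmap P r B n) = (fun u : ℤ => (u : ℚ)) '' intPer P r B n := by
  ext x
  constructor
  · intro hx
    obtain ⟨u, rfl, -⟩ := integral_of_pre hP hm hr hB hn hbad x (finite_of_periodic hx)
    exact ⟨u, hx, rfl⟩
  · rintro ⟨u, hu, rfl⟩
    exact hu

lemma coprime_of_intPer (hP : P.Monic) (hm : 0 < P.natDegree) (hr : 2 ≤ r) (hB : B ≠ 0)
    (hn : 0 < n)
    (hbad : ∀ p : ℕ, p.Prime → p ∣ B → ¬ (p : ℤ) ∣ P.coeff 0 ∧
      ∀ i, 0 < i → i < P.natDegree → (p : ℤ) ∣ P.coeff i)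
    (u : ℤ) (hu : u ∈ intPer P r B n) : IsCoprime u (B : ℤ) := by
  obtain ⟨v, hv, hvc⟩ := integral_of_pre hP hm hr hB hn hbad (u : ℚ) (finite_of_periodic hu)
  have : u = v := by exact_mod_cast hv
  rw [this]; exact hvc

lemma one_le_prod (S : Finset ℕ) (hS : ∀ q ∈ S, q.Prime) : 1 ≤ ∏ q ∈ S, (q - 1) := by
  apply Nat.one_le_iff_ne_zero.2
  rw [Finset.prod_ne_zero_iff]
  intro q hq
  have := (hS q hq).two_le
  omega

lemma three_dvd_cof_six {u w : ℤ} (h : (u % 3 = 0) ↔ (w % 3 = 0)) :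
    ((3 : ℕ) : ℤ) ∣ cof 6 u w := by
  have h1 : ((cof 6 u w : ℤ) : ZMod 3) = 0 := by
    rw [cof_six]
    push_cast
    have h2 : ((u : ZMod 3) = 0) ↔ ((w : ZMod 3) = 0) := by
      rw [ZMod.intCast_zmod_eq_zero_iff_dvd, ZMod.intCast_zmod_eq_zero_iff_dvd]
      constructor
      · intro h3
        have := h.1 (Int.emod_eq_zero_of_dvd h3)
        exact Int.dvd_of_emod_eq_zero this
      · intro h3
        have := h.2 (Int.emod_eq_zero_of_dvd h3)
        exact Int.dvd_of_emod_eq_zero this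
    generalize (u : ZMod 3) = a at h2 ⊢
    generalize (w : ZMod 3) = b at h2 ⊢
    revert a b
    decide
  exact (ZMod.intCast_zmod_eq_zero_iff_dvd _ _).1 h1

/-- **The count**, `r = 4` -/
theorem count_four {l : ℕ} (hkey : KeyProp l) (hln : l ∣ n) (hP : P.Monic)
    (hm : 0 < P.natDegree) (hB : B ≠ 0) (hn : 0 < n)
    (hbad : ∀ p : ℕ, p.Prime → p ∣ B → ¬ (p : ℤ) ∣ P.coeff 0 ∧
      ∀ i, 0 < i → i < P.natDegree → (p : ℤ) ∣ P.coeff i) :
    (Function.periodicPts (gmap P 4 B n)).Finite ∧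
      (Function.periodicPts (gmap P 4 B n)).ncard ≤
        2 * ∏ q ∈ (4 * P.natDegree).primeFactors.erase 2, (q - 1) := by
  set S := (4 * P.natDegree).primeFactors.erase 2 with hS
  have hSp : ∀ q ∈ S, q.Prime := fun q hq => Nat.prime_of_mem_primeFactors (Finset.mem_of_mem_erase hq)
  have hT : (intPer P 4 B n).Finite ∧ (intPer P 4 B n).ncard ≤ 2 * ∏ q ∈ S, (q - 1) := by
    by_cases hB2 : 2 ∣ B
    · refine card_le S hSp (by omega) _
        (coprime_of_intPer hP hm (by norm_num) hB hn hbad) ?_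
      intro u hu w hw h4 hq
      by_contra hne
      obtain ⟨L, U, W, A, rfl, rfl⟩ := exists_pair hP hm (by norm_num) hB hn hbad hu hw hne
      refine pair_lemma_four A hkey hln hB2 h4 fun q hqp hq2 hqm hqB => hq q ?_ hqB
      rw [hS, Finset.mem_erase, Nat.mem_primeFactors]
      exact ⟨hq2, hqp, Dvd.dvd.mul_left hqm 4, by positivity⟩
    · obtain ⟨h1, h2⟩ := card_le_two (T := intPer P 4 B n) (fun u => decide (u % 2 = 0)) (by
        intro u hu w hw hne h
        obtain ⟨L, U, W, A, rfl, rfl⟩ := exists_pair hP hm (by norm_num) hB hn hbad hu hw hne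
        apply A.good_prime Nat.prime_two hB2 0
        rw [cof_four]
        refine Dvd.dvd.mul_right ?_ _
        have h3 : (U 0 % 2 = 0) ↔ (W 0 % 2 = 0) := by simpa using h
        have h4 : (2 : ℤ) ∣ U 0 + W 0 := by omega
        exact_mod_cast h4)
      refine ⟨h1, h2.trans ?_⟩
      have := one_le_prod S hSp
      omega
  rw [per_eq_image hP hm (by norm_num) hB hn hbad]
  exact ⟨hT.1.image _, (Set.ncard_image_le hT.1).trans hT.2⟩

/-- **The count**, `r = 6` -/
theorem count_six {l : ℕ} (hkey : KeyProp6 l) (hln : l ∣ n) (hP : P.Monic)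
    (hm : 0 < P.natDegree) (hB : B ≠ 0) (hn : 0 < n)
    (hbad : ∀ p : ℕ, p.Prime → p ∣ B → ¬ (p : ℤ) ∣ P.coeff 0 ∧
      ∀ i, 0 < i → i < P.natDegree → (p : ℤ) ∣ P.coeff i) :
    (Function.periodicPts (gmap P 6 B n)).Finite ∧
      (Function.periodicPts (gmap P 6 B n)).ncard ≤
        2 * ∏ q ∈ (6 * P.natDegree).primeFactors.erase 2, (q - 1) := by
  set S := (6 * P.natDegree).primeFactors.erase 2 with hS
  have hSp : ∀ q ∈ S, q.Prime := fun q hq => Nat.prime_of_mem_primeFactors (Finset.mem_of_mem_erase hq)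
  have h3S : 3 ∈ S := by
    rw [hS, Finset.mem_erase, Nat.mem_primeFactors]
    exact ⟨by norm_num, Nat.prime_three, ⟨2 * P.natDegree, by ring⟩, by positivity⟩
  have h2le : 2 ≤ 2 * ∏ q ∈ S, (q - 1) := by
    have := one_le_prod S hSp
    omega
  have hT : (intPer P 6 B n).Finite ∧ (intPer P 6 B n).ncard ≤ 2 * ∏ q ∈ S, (q - 1) := by
    by_cases hB2 : 2 ∣ B
    · by_cases hB3 : 3 ∣ B
      · refine card_le S hSp (by omega) _
          (coprime_of_intPer hP hm (by norm_num) hB hn hbad) ?_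
        intro u hu w hw h4 hq
        by_contra hne
        obtain ⟨L, U, W, A, rfl, rfl⟩ := exists_pair hP hm (by norm_num) hB hn hbad hu hw hne
        refine pair_lemma_six A hkey hln hB2 hB3 h4 (hq 3 h3S hB3)
          fun q hqp hq2 _ hqm hqB => hq q ?_ hqB
        rw [hS, Finset.mem_erase, Nat.mem_primeFactors]
        exact ⟨hq2, hqp, Dvd.dvd.mul_left hqm 6, by positivity⟩
      · obtain ⟨h1, h2⟩ := card_le_two (T := intPer P 6 B n) (fun u => decide (u % 3 = 0)) (by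
          intro u hu w hw hne h
          obtain ⟨L, U, W, A, rfl, rfl⟩ := exists_pair hP hm (by norm_num) hB hn hbad hu hw hne
          apply A.good_prime Nat.prime_three hB3 0
          have h3 : (U 0 % 3 = 0) ↔ (W 0 % 3 = 0) := by simpa using h
          exact three_dvd_cof_six h3)
        exact ⟨h1, h2.trans h2le⟩
    · obtain ⟨h1, h2⟩ := card_le_two (T := intPer P 6 B n) (fun u => decide (u % 2 = 0)) (by
        intro u hu w hw hne h
        obtain ⟨L, U, W, A, rfl, rfl⟩ := exists_pair hP hm (by norm_num) hB hn hbad hu hw hne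
        apply A.good_prime Nat.prime_two hB2 0
        rw [cof_six]
        refine Dvd.dvd.mul_right ?_ _
        have h3 : (U 0 % 2 = 0) ↔ (W 0 % 2 = 0) := by simpa using h
        have h4 : (2 : ℤ) ∣ U 0 + W 0 := by omega
        exact_mod_cast h4)
      exact ⟨h1, h2.trans h2le⟩
  rw [per_eq_image hP hm (by norm_num) hB hn hbad]
  exact ⟨hT.1.image _, (Set.ncard_image_le hT.1).trans hT.2⟩

end Main

end PowCyc.Gen
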