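import Pool.Agent.PowCyc.GenCount

/-!
# The final count for `H(x ^ r)`
-/

set_option autoImplicit false

open Polynomial

namespace PowCyc.Gen

lemma dominated_of_int (H : ℚ[X]) (h : ∀ i, 0 < i → ∃ a : ℤ, H.coeff i = a) : Dominated H := by
  intro p hp
  have := Fact.mk hp
  have h1 : ∀ i, 0 < i → padicNorm p (H.coeff i) ≤ 1 := by
    intro i hi
    obtain ⟨a, ha⟩ := h i hi
    rw [ha]; exact padicNorm.of_int a
  refine ⟨fun hc i => ?_, fun hc i hi him => ?_⟩
  · rcases Nat.eq_zero_or_pos i with rfl | hi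
    · exact hc
    · exact h1 i hi
  · exact (pow_le_one₀ (padicNorm.nonneg _) (h1 i hi)).trans_lt (one_lt_pow₀ hc (by omega))

/-- transfer from the integral model -/
theorem transfer {H : ℚ[X]} {r N : ℕ} (hHm : H.Monic) (hH : Dominated H) (hm : 0 < H.natDegree)
    (hr : 2 ≤ r)
    (hcount : ∀ (P : ℤ[X]) (b : ℕ), P.Monic → P.natDegree = H.natDegree → b ≠ 0 →
      (∀ p : ℕ, p.Prime → p ∣ b → ¬ (p : ℤ) ∣ P.coeff 0 ∧
        ∀ i, 0 < i → i < P.natDegree → (p : ℤ) ∣ P.coeff i) →
      (Function.periodicPts (gmap P r b (r * H.natDegree - 1))).Finite ∧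
      (Function.periodicPts (gmap P r b (r * H.natDegree - 1))).ncard ≤ N) :
    (Function.periodicPts (fmap H r)).Finite ∧ (Function.periodicPts (fmap H r)).ncard ≤ N := by
  by_cases hne : ∃ x, x ∈ Function.periodicPts (fmap H r)
  · obtain ⟨x₀, hx₀⟩ := hne
    obtain ⟨b, hb, P, hPm, hPd, hbad, hconj, -⟩ :=
      exists_model hHm hH hm hr ⟨x₀, finite_of_periodic hx₀⟩
    have hbQ : (b : ℚ) ≠ 0 := by exact_mod_cast hb.ne'
    obtain ⟨h1, h2⟩ := hcount P b hPm hPd hb.ne' (fun p hp hpb => by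
      have := hbad p hp hpb
      rwa [← hPd] at this)
    have hsemi : Function.Semiconj (fun x : ℚ => (b : ℚ) * x) (fmap H r)
        (gmap P r b (r * H.natDegree - 1)) := by
      intro x
      show (b : ℚ) * fmap H r x = gmap P r b (r * H.natDegree - 1) ((b : ℚ) * x)
      rw [gmap, ← hconj x, eq_div_iff (pow_ne_zero _ hbQ)]
      have h3 : r * H.natDegree = (r * H.natDegree - 1) + 1 := by
        have : 0 < r * H.natDegree := by positivity
        omega
      conv_rhs => rw [h3, pow_succ]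
      ring
    have hmaps : ∀ x ∈ Function.periodicPts (fmap H r),
        (b : ℚ) * x ∈ Function.periodicPts (gmap P r b (r * H.natDegree - 1)) := by
      rintro x ⟨L, hL, hLx⟩
      exact ⟨L, hL, hLx.map hsemi⟩
    have hinj : Set.InjOn (fun x : ℚ => (b : ℚ) * x) (Function.periodicPts (fmap H r)) :=
      fun x _ y _ h => mul_left_cancel₀ hbQ h
    refine ⟨Set.Finite.of_injOn hmaps hinj h1, ?_⟩
    exact (Set.ncard_le_ncard_of_injOn _ hmaps hinj h1).trans h2
  · push Not at hne
    have h0 : Function.periodicPts (fmap H r) = ∅ := Set.eq_empty_of_forall_notMem hne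
    rw [h0]
    exact ⟨Set.finite_empty, by simp⟩

theorem final_four {l : ℕ} (hkey : KeyProp l) {H : ℚ[X]} (hHm : H.Monic) (hH : Dominated H)
    (hm : 0 < H.natDegree) (hl : l ∣ 4 * H.natDegree - 1) :
    (Function.periodicPts (fmap H 4)).Finite ∧ (Function.periodicPts (fmap H 4)).ncard ≤
      2 * ∏ q ∈ (4 * H.natDegree).primeFactors.erase 2, (q - 1) := by
  refine transfer hHm hH hm (by norm_num) fun P b hPm hPd hb hbad => ?_
  rw [← hPd] at hm hl ⊢
  exact count_four hkey hl hPm hm hb (by omega) hbad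

theorem final_six {l : ℕ} (hkey : KeyProp6 l) {H : ℚ[X]} (hHm : H.Monic) (hH : Dominated H)
    (hm : 0 < H.natDegree) (hl : l ∣ 6 * H.natDegree - 1) :
    (Function.periodicPts (fmap H 6)).Finite ∧ (Function.periodicPts (fmap H 6)).ncard ≤
      2 * ∏ q ∈ (6 * H.natDegree).primeFactors.erase 2, (q - 1) := by
  refine transfer hHm hH hm (by norm_num) fun P b hPm hPd hb hbad => ?_
  rw [← hPd] at hm hl ⊢
  exact count_six hkey hl hPm hm hb (by omega) hbad

end PowCyc.Gen
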