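import Pool.Agent.PowCyc.GenFinal

/-!
# `r = 5`, exponent `2`
-/

set_option autoImplicit false

open Polynomial

namespace PowCyc.Gen

/-- the Diophantine input for `r = 5` -/
def KeyProp5 : Prop := ∀ x y t : ℤ, IsCoprime x y → Odd x → Odd y →
  x ^ 4 + x ^ 3 * y + x ^ 2 * y ^ 2 + x * y ^ 3 + y ^ 4 = 5 * t ^ 2 → x = y

lemma cof_five (u w : ℤ) :
    cof 5 u w = u ^ 4 + u ^ 3 * w + u ^ 2 * w ^ 2 + u * w ^ 3 + w ^ 4 := by
  rw [cof]
  simp only [Finset.sum_range_succ, Finset.sum_range_zero]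
  ring

lemma cof_five_of_sub {u w s : ℤ} (h : u - w = 5 * s) :
    cof 5 u w = 5 * (w ^ 4 + 5 * (2 * s * w ^ 3 + 10 * s ^ 2 * w ^ 2 + 25 * s ^ 3 * w +
      25 * s ^ 4)) := by
  have hu : u = w + 5 * s := by linarith
  rw [cof_five, hu]; ring

lemma cof_five_nonneg (u w : ℤ) : 0 ≤ cof 5 u w := by
  rw [cof_five]
  nlinarith [sq_nonneg (2 * u ^ 2 + u * w - w ^ 2), sq_nonneg (u ^ 2 + w ^ 2), sq_nonneg (u * w),
    sq_nonneg (u + w), sq_nonneg (u ^ 2 - w ^ 2), sq_nonneg (u * (u + w)),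
    sq_nonneg (w * (u + w)), sq_nonneg (2 * u ^ 2 + u * w), sq_nonneg (2 * w ^ 2 + u * w)]

variable {P : ℤ[X]} {b B n L : ℕ} {U W : ℕ → ℤ}

lemma coprime_of_pair {r : ℕ} (A : Pair P r b n L U W) (hr : 2 ≤ r) :
    IsCoprime (U 0) (W 0) := by
  rw [Int.isCoprime_iff_gcd_eq_one]
  by_contra hg
  obtain ⟨p, hp, hpg⟩ := Nat.exists_prime_and_dvd hg
  have hpU : (p : ℤ) ∣ U 0 := (Int.natCast_dvd_natCast.2 hpg).trans (Int.gcd_dvd_left ..)
  have hpW : (p : ℤ) ∣ W 0 := (Int.natCast_dvd_natCast.2 hpg).trans (Int.gcd_dvd_right ..)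
  by_cases hpb : p ∣ b
  · exact not_dvd_of_coprime (A.hUc 0) hp hpb hpU
  · apply A.good_prime hp hpb 0
    rw [cof]
    refine Finset.dvd_sum fun i hi => ?_
    have := Finset.mem_range.1 hi
    rcases Nat.eq_zero_or_pos i with rfl | hi0
    · exact Dvd.dvd.mul_left (dvd_pow hpW (by omega)) _
    · exact Dvd.dvd.mul_right (dvd_pow hpU (by omega)) _

/-- **Pair lemma**, `r = 5` -/
theorem pair_lemma_five (A : Pair P 5 b n L U W) (hkey : KeyProp5) (hn2 : 2 ∣ n)
    (hb5 : 5 ∣ b) (hUo : Odd (U 0)) (hWo : Odd (W 0)) (h5 : (5 : ℤ) ∣ U 0 - W 0)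
    (hq : ∀ q : ℕ, q.Prime → q ≠ 5 → q ≠ 2 → q ∣ P.natDegree → q ∣ b → (q : ℤ) ∣ U 0 - W 0) :
    False := by
  obtain ⟨s, hs⟩ := h5
  have hcof := cof_five_of_sub hs
  set Q := W 0 ^ 4 + 5 * (2 * s * W 0 ^ 3 + 10 * s ^ 2 * W 0 ^ 2 + 25 * s ^ 3 * W 0 +
      25 * s ^ 4) with hQ
  have hW5 : ¬ (5 : ℤ) ∣ W 0 := by
    have := not_dvd_of_coprime (A.hWc 0) Nat.prime_five hb5
    exact_mod_cast this
  have hQ5 : ¬ ((5 : ℕ) : ℤ) ∣ Q := by
    intro h
    have h1 : (5 : ℤ) ∣ W 0 ^ 4 := by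
      have h2 : (5 : ℤ) ∣ Q := by exact_mod_cast h
      rw [hQ] at h2
      exact (dvd_add_left (dvd_mul_right _ _)).1 h2
    exact hW5 ((Nat.prime_iff_prime_int.1 Nat.prime_five).dvd_of_dvd_pow (by exact_mod_cast h1))
  have hQ0 : Q ≠ 0 := by
    intro h
    rw [h] at hQ5
    exact hQ5 (dvd_zero _)
  have hQnn : 0 ≤ Q := by
    have := cof_five_nonneg (U 0) (W 0)
    rw [hcof] at this
    linarith
  have hsq : ∀ p : ℕ, p.Prime → 2 ∣ padicValInt p Q := by
    intro p hp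
    by_cases hp5 : p = 5
    · subst hp5
      rw [pval_eq_zero hQ5]; exact dvd_zero _
    have hp5' : ¬ (p : ℤ) ∣ 5 := by
      intro h
      have h4 : p ∣ 5 := by exact_mod_cast h
      exact hp5 ((Nat.prime_dvd_prime_iff_eq hp Nat.prime_five).1 h4)
    have hpr : ¬ p ∣ 5 := fun h => hp5' (by exact_mod_cast h)
    have hval : padicValInt p (cof 5 (U 0) (W 0)) = padicValInt p Q := by
      rw [hcof, pval_mul hp (by norm_num) hQ0, pval_eq_zero hp5', zero_add]
    rw [← hval]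
    by_cases hpb : p ∣ b
    · by_cases hpm : p ∣ P.natDegree
      · have hdvd : (p : ℤ) ∣ U 0 - W 0 := by
          by_cases hp2 : p = 2
          · subst hp2
            exact_mod_cast (hUo.sub_odd hWo).two_dvd
          · exact hq p hp hp5 hp2 hpm hpb
        rw [pval_eq_zero (not_dvd_cof hp hpr (not_dvd_of_coprime (A.hWc 0) hp hpb) hdvd)]
        exact dvd_zero _
      · exact hn2.trans (A.bad_prime hp hpb hpm hpr 0)
    · rw [pval_eq_zero (A.good_prime hp hpb 0)]; exact dvd_zero _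
  obtain ⟨t, ht⟩ : ∃ t : ℕ, Q.natAbs = t ^ 2 :=
    nat_eq_pow (by simpa using hQ0) (by norm_num) (fun p hp => hsq p hp)
  have hQt : Q = (t : ℤ) ^ 2 := by
    have h1 : (Q.natAbs : ℤ) = Q := Int.natAbs_of_nonneg hQnn
    rw [← h1, ht]; push_cast; rfl
  apply A.hne 0
  refine hkey (U 0) (W 0) t (coprime_of_pair A (by norm_num)) hUo hWo ?_
  rw [← cof_five, hcof, hQt]

open Classical in
lemma card_le' (S : Finset ℕ) (hS : ∀ q ∈ S, q.Prime) {B : ℕ} (T : Set ℤ)
    (hT : ∀ u ∈ T, IsCoprime u (B : ℤ))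
    (h : ∀ u ∈ T, ∀ w ∈ T, (∀ q ∈ S, q ∣ B → (q : ℤ) ∣ u - w) → u = w) :
    T.Finite ∧ T.ncard ≤ ∏ q ∈ S, (q - 1) := by
  have hF : ∀ q : S, Fact (q : ℕ).Prime := fun q => ⟨hS q.1 q.2⟩
  let Φ : T → ((q : S) → (ZMod (q : ℕ))ˣ) := fun x => fun q =>
      if hq : (q : ℕ) ∣ B then (isUnit_zmod (hT x.1 x.2) hq).unit else 1
  have hinj : Function.Injective Φ := by
    intro x y hxy
    apply Subtype.ext
    refine h x.1 x.2 y.1 y.2 ?_
    intro q hq hqB
    have h1 : (Φ x) ⟨q, hq⟩ = (Φ y) ⟨q, hq⟩ := by rw [hxy]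
    simp only [Φ] at h1
    rw [dif_pos hqB, dif_pos hqB] at h1
    have h2 := congrArg Units.val h1
    have h3 : ((x.1 : ℤ) : ZMod q) = ((y.1 : ℤ) : ZMod q) := h2
    exact (ZMod.intCast_eq_intCast_iff_dvd_sub _ _ _).1 h3.symm
  have hfin : Finite T := Finite.of_injective _ hinj
  refine ⟨hfin, ?_⟩
  have h1 := Nat.card_le_card_of_injective _ hinj
  rw [Nat.card_coe_set_eq] at h1
  refine h1.trans (le_of_eq ?_)
  rw [Nat.card_pi, ← Finset.prod_coe_sort S (fun q => q - 1)]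
  refine Finset.prod_congr rfl fun q _ => ?_
  rw [Nat.card_eq_fintype_card, ZMod.card_units]

lemma card_le_five {T : Set ℤ} (h : ∀ u ∈ T, ∀ w ∈ T, (5 : ℤ) ∣ u - w → u = w) :
    T.Finite ∧ T.ncard ≤ 5 := by
  have hinj : Function.Injective (fun x : T => ((x.1 : ℤ) : ZMod 5)) := by
    intro x y hxy
    apply Subtype.ext
    refine h x.1 x.2 y.1 y.2 ?_
    have h3 : ((x.1 : ℤ) : ZMod 5) = ((y.1 : ℤ) : ZMod 5) := hxy
    exact_mod_cast (ZMod.intCast_eq_intCast_iff_dvd_sub _ _ _).1 h3.symm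
  have hfin : Finite T := Finite.of_injective _ hinj
  refine ⟨hfin, ?_⟩
  have h1 := Nat.card_le_card_of_injective _ hinj
  rw [Nat.card_coe_set_eq] at h1
  simpa using h1

/-- **The count**, `r = 5` -/
theorem count_five (hkey : KeyProp5) (hn2 : 2 ∣ n) (hP : P.Monic)
    (hm : 0 < P.natDegree) (hB : B ≠ 0) (hn : 0 < n)
    (hbad : ∀ p : ℕ, p.Prime → p ∣ B → ¬ (p : ℤ) ∣ P.coeff 0 ∧
      ∀ i, 0 < i → i < P.natDegree → (p : ℤ) ∣ P.coeff i) :
    (Function.periodicPts (gmap P 5 B n)).Finite ∧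
      (Function.periodicPts (gmap P 5 B n)).ncard ≤
        2 * ∏ q ∈ (5 * P.natDegree).primeFactors.erase 2, (q - 1) := by
  set S := (5 * P.natDegree).primeFactors.erase 2 with hS
  have hSp : ∀ q ∈ S, q.Prime := fun q hq => Nat.prime_of_mem_primeFactors (Finset.mem_of_mem_erase hq)
  have h5S : 5 ∈ S := by
    rw [hS, Finset.mem_erase, Nat.mem_primeFactors]
    exact ⟨by norm_num, Nat.prime_five, dvd_mul_right _ _, by positivity⟩
  have h4le : 4 ≤ ∏ q ∈ S, (q - 1) := by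
    have h1 := Finset.mul_prod_erase S (fun q => q - 1) h5S
    have h2 := one_le_prod (S.erase 5) (fun q hq => hSp q (Finset.mem_of_mem_erase hq))
    rw [← h1]
    omega
  have hcop := coprime_of_intPer (r := 5) hP hm (by norm_num) hB hn hbad
  have hT : (intPer P 5 B n).Finite ∧ (intPer P 5 B n).ncard ≤ 2 * ∏ q ∈ S, (q - 1) := by
    by_cases hB5 : 5 ∣ B
    · -- the odd periodic points
      have hodd : {u ∈ intPer P 5 B n | Odd u}.Finite ∧
          {u ∈ intPer P 5 B n | Odd u}.ncard ≤ ∏ q ∈ S, (q - 1) := by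
        refine card_le' S hSp (B := B) _ (fun u hu => hcop u hu.1) ?_
        intro u hu w hw hq
        by_contra hne
        obtain ⟨L, U, W, A, hU0, hW0⟩ :=
          exists_pair hP hm (by norm_num) hB hn hbad hu.1 hw.1 hne
        have hUo : Odd (U 0) := by rw [hU0]; exact hu.2
        have hWo : Odd (W 0) := by rw [hW0]; exact hw.2
        rw [← hU0, ← hW0] at hq
        refine pair_lemma_five A hkey hn2 hB5 hUo hWo (by exact_mod_cast hq 5 h5S hB5)
          fun q hqp _ hq2 hqm hqB => hq q ?_ hqB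
        rw [hS, Finset.mem_erase, Nat.mem_primeFactors]
        exact ⟨hq2, hqp, Dvd.dvd.mul_left hqm 5, by positivity⟩
      -- the even periodic points
      have heven : {u ∈ intPer P 5 B n | Even u}.Subsingleton := by
        intro u hu w hw
        by_contra hne
        obtain ⟨L, U, W, A, hU0, hW0⟩ :=
          exists_pair hP hm (by norm_num) hB hn hbad hu.1 hw.1 hne
        have h1 := coprime_of_pair A (by norm_num)
        rw [hU0, hW0] at h1
        have h2 : IsUnit (2 : ℤ) := h1.isUnit_of_dvd' hu.2.two_dvd hw.2.two_dvd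
        rw [Int.isUnit_iff] at h2
        omega
      have hun : intPer P 5 B n = {u ∈ intPer P 5 B n | Odd u} ∪ {u ∈ intPer P 5 B n | Even u} := by
        ext u
        constructor
        · intro hu
          rcases Int.even_or_odd u with h | h
          · exact Or.inr ⟨hu, h⟩
          · exact Or.inl ⟨hu, h⟩
        · rintro (h | h)
          · exact h.1
          · exact h.1
      refine ⟨?_, ?_⟩
      · rw [hun]; exact hodd.1.union heven.finite
      · rw [hun]
        refine (Set.ncard_union_le _ _).trans ?_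
        have h1 : {u ∈ intPer P 5 B n | Even u}.ncard ≤ 1 := by
          rw [Set.ncard_le_one heven.finite]
          exact fun a ha b hb => heven ha hb
        omega
    · obtain ⟨h1, h2⟩ := card_le_five (T := intPer P 5 B n) (by
        intro u hu w hw h5
        by_contra hne
        obtain ⟨L, U, W, A, rfl, rfl⟩ := exists_pair hP hm (by norm_num) hB hn hbad hu hw hne
        obtain ⟨s, hs⟩ := h5
        apply A.good_prime Nat.prime_five hB5 0
        rw [cof_five_of_sub hs]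
        exact dvd_mul_right _ _)
      exact ⟨h1, h2.trans (by omega)⟩
  rw [per_eq_image hP hm (by norm_num) hB hn hbad]
  exact ⟨hT.1.image _, (Set.ncard_image_le hT.1).trans hT.2⟩

theorem final_five (hkey : KeyProp5) {H : ℚ[X]} (hHm : H.Monic) (hH : Dominated H)
    (hm : 0 < H.natDegree) (hl : 2 ∣ 5 * H.natDegree - 1) :
    (Function.periodicPts (fmap H 5)).Finite ∧ (Function.periodicPts (fmap H 5)).ncard ≤
      2 * ∏ q ∈ (5 * H.natDegree).primeFactors.erase 2, (q - 1) := by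
  refine transfer hHm hH hm (by norm_num) fun P b hPm hPd hb hbad => ?_
  rw [← hPd] at hm hl ⊢
  exact count_five hkey hl hPm hm hb (by omega) hbad

end PowCyc.Gen
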