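import Pool.Agent.PowCyc.GenPair

/-!
# From the Diophantine equations to the key properties
-/

set_option autoImplicit false

namespace PowCyc.Gen

/-- `r = 4`: the equation `Z ^ l = Y ^ (2 l) + B ^ 2` -/
lemma keyProp_of_eq {l : ℕ} (hl : 0 < l)
    (h : ∀ Y Z B : ℤ, IsCoprime Y B → Odd Y → Even B → Z ^ l = Y ^ (2 * l) + B ^ 2 → B = 0) :
    KeyProp l := by
  intro P Q hc hP hQ h1 h2
  have hP0 : P ≠ 0 := by rintro rfl; exact absurd hP (by decide)
  have hne : P ^ 2 + Q ^ 2 ≠ 0 := by positivity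
  have hP2 : ¬ ((2 : ℕ) : ℤ) ∣ P := by
    intro h3
    exact (Int.not_even_iff_odd.2 hP) (even_iff_two_dvd.2 (by exact_mod_cast h3))
  have hS2 : ¬ ((2 : ℕ) : ℤ) ∣ P ^ 2 + Q ^ 2 := by
    have h7 : Odd (P ^ 2 + Q ^ 2) := hP.pow.add_even (hQ.pow_of_ne_zero (by norm_num))
    intro h8
    exact (Int.not_even_iff_odd.2 h7) (even_iff_two_dvd.2 (by exact_mod_cast h8))
  obtain ⟨y, hy⟩ : ∃ y : ℕ, P.natAbs = y ^ l := by
    refine nat_eq_pow (by simpa using hP0) hl fun p hp => ?_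
    by_cases hp2 : p = 2
    · subst hp2
      have := pval_eq_zero hP2
      rw [padicValInt] at this
      rw [this]; exact dvd_zero _
    · exact h1 p hp hp2
  obtain ⟨z, hz⟩ : ∃ z : ℕ, (P ^ 2 + Q ^ 2).natAbs = z ^ l := by
    refine nat_eq_pow (by simpa using hne) hl fun p hp => ?_
    by_cases hp2 : p = 2
    · subst hp2
      have := pval_eq_zero hS2
      rw [padicValInt] at this
      rw [this]; exact dvd_zero _
    · exact h2 p hp hp2
  have hyZ : ((y : ℤ)) ^ (2 * l) = P ^ 2 := by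
    have h3 : ((P.natAbs : ℤ)) ^ 2 = P ^ 2 := Int.natAbs_sq P
    rw [hy] at h3
    rw [← h3]; push_cast; ring
  have hzZ : ((z : ℤ)) ^ l = P ^ 2 + Q ^ 2 := by
    have h3 : ((P ^ 2 + Q ^ 2).natAbs : ℤ) = P ^ 2 + Q ^ 2 := Int.natAbs_of_nonneg (by positivity)
    rw [hz] at h3
    rw [← h3]; push_cast; ring
  have hydvd : (y : ℤ) ∣ P := by
    rw [← Int.dvd_natAbs, hy]
    exact_mod_cast dvd_pow_self y hl.ne'
  refine h y z Q (hc.of_isCoprime_of_dvd_left hydvd) ?_ hQ ?_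
  · by_contra hcon
    rw [Int.not_odd_iff_even] at hcon
    exact (Int.not_even_iff_odd.2 hP) (even_iff_two_dvd.2 (hcon.two_dvd.trans hydvd))
  · rw [hyZ, hzZ]

/-- `r = 6`: the equation `Z ^ l = Y ^ (2 l) + 3 B ^ 2` -/
lemma keyProp6_of_eq {l : ℕ} (hl : 0 < l)
    (h : ∀ Y Z B : ℤ, IsCoprime Y (3 * B) → Odd Y → Even B →
      Z ^ l = Y ^ (2 * l) + 3 * B ^ 2 → B = 0) :
    KeyProp6 l := by
  intro P Q hc hP hQ hQ3 h1 h2
  obtain ⟨B, rfl⟩ := hQ3
  have hP0 : P ≠ 0 := by rintro rfl; exact absurd hP (by decide)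
  have hB : Even B := by
    rcases Int.even_or_odd B with hB | hB
    · exact hB
    · exact absurd hQ (Int.not_even_iff_odd.2 (Odd.mul (by decide) hB))
  have hne : P ^ 2 + 3 * B ^ 2 ≠ 0 := by positivity
  have hP2 : ¬ ((2 : ℕ) : ℤ) ∣ P := by
    intro h3
    exact (Int.not_even_iff_odd.2 hP) (even_iff_two_dvd.2 (by exact_mod_cast h3))
  have hP3 : ¬ ((3 : ℕ) : ℤ) ∣ P := by
    intro h3
    have h5 : IsUnit (3 : ℤ) := hc.isUnit_of_dvd' (by exact_mod_cast h3) (dvd_mul_right 3 B)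
    rw [Int.isUnit_iff] at h5
    omega
  obtain ⟨y, hy⟩ : ∃ y : ℕ, P.natAbs = y ^ l := by
    refine nat_eq_pow (by simpa using hP0) hl fun p hp => ?_
    by_cases hp2 : p = 2
    · subst hp2
      have := pval_eq_zero hP2
      rw [padicValInt] at this
      rw [this]; exact dvd_zero _
    · exact h1 p hp hp2
  obtain ⟨z, hz⟩ : ∃ z : ℕ, (P ^ 2 + 3 * B ^ 2).natAbs = z ^ l := by
    refine nat_eq_pow (by simpa using hne) hl fun p hp => ?_
    by_cases hp3 : p = 3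
    · subst hp3
      have h3 : ¬ ((3 : ℕ) : ℤ) ∣ P ^ 2 + 3 * B ^ 2 := by
        intro h4
        apply hP3
        have h5 : ((3 : ℕ) : ℤ) ∣ P ^ 2 :=
          (dvd_add_left (Dvd.intro _ rfl : ((3 : ℕ) : ℤ) ∣ 3 * B ^ 2)).1 h4
        exact (Nat.prime_iff_prime_int.1 Nat.prime_three).dvd_of_dvd_pow h5
      have := pval_eq_zero h3
      rw [padicValInt] at this
      rw [this]; exact dvd_zero _
    · have h3 := h2 p hp hp3
      have h4 : 3 * P ^ 2 + (3 * B) ^ 2 = 3 * (P ^ 2 + 3 * B ^ 2) := by ring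
      rw [h4, pval_mul hp (by norm_num) hne, pval_eq_zero (not_dvd_three hp hp3), zero_add] at h3
      exact h3
  have hyZ : ((y : ℤ)) ^ (2 * l) = P ^ 2 := by
    have h3 : ((P.natAbs : ℤ)) ^ 2 = P ^ 2 := Int.natAbs_sq P
    rw [hy] at h3
    rw [← h3]; push_cast; ring
  have hzZ : ((z : ℤ)) ^ l = P ^ 2 + 3 * B ^ 2 := by
    have h3 : ((P ^ 2 + 3 * B ^ 2).natAbs : ℤ) = P ^ 2 + 3 * B ^ 2 :=
      Int.natAbs_of_nonneg (by positivity)
    rw [hz] at h3
    rw [← h3]; push_cast; ring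
  have hydvd : (y : ℤ) ∣ P := by
    rw [← Int.dvd_natAbs, hy]
    exact_mod_cast dvd_pow_self y hl.ne'
  have hB0 : B = 0 := by
    refine h y z B (hc.of_isCoprime_of_dvd_left hydvd) ?_ hB ?_
    · by_contra hcon
      rw [Int.not_odd_iff_even] at hcon
      exact (Int.not_even_iff_odd.2 hP) (even_iff_two_dvd.2 (hcon.two_dvd.trans hydvd))
    · rw [hyZ, hzZ]
  rw [hB0, mul_zero]

/-- exponent `3` for `r = 6` -/
lemma keyProp6_three : KeyProp6 3 := by
  refine keyProp6_of_eq (by norm_num) fun Y Z B hc hY hB h => ?_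
  have hZ : 0 ≤ Z := by
    by_contra hcon
    push Not at hcon
    have h1 : Z ^ 3 < 0 := Odd.pow_neg (by decide) hcon
    have h2 : 0 ≤ (Y ^ 3) ^ 2 + 3 * B ^ 2 := by positivity
    have h3 : Y ^ (2 * 3) = (Y ^ 3) ^ 2 := by ring
    rw [h, h3] at h1
    linarith
  have h1 : Nat.Coprime Y.natAbs B.natAbs := by
    have := Int.isCoprime_iff_gcd_eq_one.1 (hc.of_isCoprime_of_dvd_right (dvd_mul_left B 3))
    exact this
  have h2 : Z.natAbs ^ 3 = Y.natAbs ^ 6 + 3 * B.natAbs ^ 2 := by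
    have h3 : ((Z.natAbs : ℤ)) = Z := Int.natAbs_of_nonneg hZ
    zify
    rw [abs_of_nonneg hZ, sq_abs]
    have h4 : |Y| ^ 6 = Y ^ 6 := by rw [← abs_pow]; exact abs_of_nonneg (by positivity)
    rw [h4]
    have h5 : Y ^ (2 * 3) = Y ^ 6 := by norm_num
    rw [h5] at h
    exact h
  have h3 := cube_eq_sixth_add_three_sq h1 h2
  exact Int.natAbs_eq_zero.1 h3

end PowCyc.Gen
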