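import Pool.Agent.PowCyc.GenFive
import Pool.Agent.PowCyc.GenKey

/-!
# Assembly of the count of rational periodic points of `H(z ^ r) + c` and `P(z ^ r) / B ^ l`
-/

set_option autoImplicit false

open Polynomial

namespace PowCyc.Gen

/-- the admissible pairs `(r, l)` -/
def Adm (r l : ℕ) : Prop := (r = 4 ∧ l = 3) ∨ (r = 4 ∧ l = 5) ∨ (r = 5 ∧ l = 2) ∨ (r = 6 ∧ l = 5)

lemma card_of_finite {f : ℚ → ℚ} {N : ℕ}
    (h : (Function.periodicPts f).Finite ∧ (Function.periodicPts f).ncard ≤ N)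
    (S : Finset ℚ) (hS : ∀ x ∈ S, ∃ k : ℕ, 0 < k ∧ f^[k] x = x) : S.card ≤ N := by
  have h1 : (S : Set ℚ) ⊆ Function.periodicPts f := by
    intro x hx
    obtain ⟨k, hk, hkx⟩ := hS x hx
    exact ⟨k, hk, hkx⟩
  have h2 := Set.ncard_le_ncard h1 h.1
  rw [Set.ncard_coe_finset] at h2
  exact h2.trans h.2

/-- the polynomial `H + c` with rational coefficients -/
lemma addC_props (H : ℤ[X]) (hH : H.Monic) (hm : 0 < H.natDegree) (c : ℚ) :
    (H.map (Int.castRingHom ℚ) + C c).Monic ∧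
      (H.map (Int.castRingHom ℚ) + C c).natDegree = H.natDegree ∧
      Dominated (H.map (Int.castRingHom ℚ) + C c) ∧
      ∀ (r : ℕ) (z : ℚ), fmap (H.map (Int.castRingHom ℚ) + C c) r z = aeval (z ^ r) H + c := by
  have h1 : (H.map (Int.castRingHom ℚ)).Monic := hH.map _
  have h2 : (H.map (Int.castRingHom ℚ)).natDegree = H.natDegree := hH.natDegree_map _
  have h3 : (C c).degree < (H.map (Int.castRingHom ℚ)).degree := by
    rw [degree_eq_natDegree h1.ne_zero, h2]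
    exact degree_C_le.trans_lt (by exact_mod_cast hm)
  refine ⟨h1.add_of_left h3, ?_, ?_, ?_⟩
  · rw [natDegree_add_C, h2]
  · apply dominated_of_int
    intro i hi
    refine ⟨H.coeff i, ?_⟩
    rw [coeff_add, coeff_map, coeff_C, if_neg hi.ne', add_zero]
    rfl
  · intro r z
    rw [fmap, eval_add, eval_C, eval_map, aeval_def]
    rfl

section

variable (fifth_a : ∀ Y Z B : ℤ, IsCoprime Y B → Odd Y → Even B → Z ^ 5 = Y ^ 10 + B ^ 2 → B = 0)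
  (fifth_b : ∀ Y Z B : ℤ, IsCoprime Y (3 * B) → Odd Y → Even B → Z ^ 5 = Y ^ 10 + 3 * B ^ 2 →
    B = 0) (phi5 : KeyProp5)
include fifth_a fifth_b phi5

theorem main_H (r l : ℕ) (hrl : Adm r l) (H : ℤ[X]) (hH : H.Monic) (hm : 0 < H.natDegree)
    (hl : l ∣ r * H.natDegree - 1) (c : ℚ) (S : Finset ℚ)
    (hS : ∀ x ∈ S, ∃ k : ℕ, 0 < k ∧ (fun z : ℚ => aeval (z ^ r) H + c)^[k] x = x) :
    S.card ≤ 2 * ∏ q ∈ (r * H.natDegree).primeFactors.erase 2, (q - 1) := by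
  obtain ⟨h1, h2, h3, h4⟩ := addC_props H hH hm c
  have h5 : (fun z : ℚ => aeval (z ^ r) H + c) = fmap (H.map (Int.castRingHom ℚ) + C c) r := by
    funext z
    rw [h4]
  rw [h5] at hS
  refine card_of_finite ?_ S hS
  rw [← h2] at hm hl ⊢
  rcases hrl with ⟨rfl, rfl⟩ | ⟨rfl, rfl⟩ | ⟨rfl, rfl⟩ | ⟨rfl, rfl⟩
  · exact final_four keyProp_three h1 h3 hm hl
  · exact final_four (keyProp_of_eq (l := 5) (by norm_num) fun Y Z B h1 h2 h3 h4 =>
      fifth_a Y Z B h1 h2 h3 h4) h1 h3 hm hl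
  · exact final_five phi5 h1 h3 hm hl
  · exact final_six (keyProp6_of_eq (l := 5) (by norm_num) fun Y Z B h1 h2 h3 h4 =>
      fifth_b Y Z B h1 h2 h3 h4) h1 h3 hm hl

theorem main_P (r l : ℕ) (hrl : Adm r l ∨ (r = 6 ∧ l = 3)) (P : ℤ[X]) (hP : P.Monic)
    (hm : 0 < P.natDegree) (B : ℕ) (hB : B ≠ 0)
    (hbad : ∀ p : ℕ, p.Prime → p ∣ B → ¬ (p : ℤ) ∣ P.coeff 0 ∧
      ∀ i, 0 < i → i < P.natDegree → (p : ℤ) ∣ P.coeff i) (S : Finset ℚ)
    (hS : ∀ x ∈ S, ∃ k : ℕ, 0 < k ∧ (fun z : ℚ => aeval (z ^ r) P / (B : ℚ) ^ l)^[k] x = x) :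
    S.card ≤ 2 * ∏ q ∈ (r * P.natDegree).primeFactors.erase 2, (q - 1) := by
  refine card_of_finite (f := gmap P r B l) ?_ S hS
  rcases hrl with (⟨rfl, rfl⟩ | ⟨rfl, rfl⟩ | ⟨rfl, rfl⟩ | ⟨rfl, rfl⟩) | ⟨rfl, rfl⟩
  · exact count_four keyProp_three dvd_rfl hP hm hB (by norm_num) hbad
  · exact count_four (keyProp_of_eq (l := 5) (by norm_num) fun Y Z B h1 h2 h3 h4 =>
      fifth_a Y Z B h1 h2 h3 h4) dvd_rfl hP hm hB (by norm_num) hbad
  · exact count_five phi5 dvd_rfl hP hm hB (by norm_num) hbad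
  · exact count_six (keyProp6_of_eq (l := 5) (by norm_num) fun Y Z B h1 h2 h3 h4 =>
      fifth_b Y Z B h1 h2 h3 h4) dvd_rfl hP hm hB (by norm_num) hbad
  · exact count_six keyProp6_three dvd_rfl hP hm hB (by norm_num) hbad

end

end PowCyc.Gen
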