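import Pool.Agent.PowCyc.Cubes

/-!
# The pair lemma for `u ↦ P(u ^ r) / b ^ n`
-/

set_option autoImplicit false

open Polynomial

namespace PowCyc.Gen

/-- the Diophantine input with exponent `l` (for `r = 4`) -/
def KeyProp (l : ℕ) : Prop := ∀ P Q : ℤ, IsCoprime P Q → Odd P → Even Q →
  (∀ p : ℕ, p.Prime → p ≠ 2 → l ∣ padicValInt p P) →
  (∀ p : ℕ, p.Prime → p ≠ 2 → l ∣ padicValInt p (P ^ 2 + Q ^ 2)) → Q = 0

/-- the Diophantine input with exponent `l` (for `r = 6`) -/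
def KeyProp6 (l : ℕ) : Prop := ∀ P Q : ℤ, IsCoprime P Q → Odd P → Even Q → (3 : ℤ) ∣ Q →
  (∀ p : ℕ, p.Prime → p ≠ 2 → l ∣ padicValInt p P) →
  (∀ p : ℕ, p.Prime → p ≠ 3 → l ∣ padicValInt p (3 * P ^ 2 + Q ^ 2)) → Q = 0

lemma keyProp_three : KeyProp 3 := fun _ _ hc hP hQ h1 h2 => pair_key hc hP hQ h1 h2

lemma pval_eq_zero {p : ℕ} {z : ℤ} (h : ¬ (p : ℤ) ∣ z) : padicValInt p z = 0 :=
  padicValInt.eq_zero_of_not_dvd h

lemma pval_pos {p : ℕ} (hp : p.Prime) {z : ℤ} (hz : z ≠ 0) (h : (p : ℤ) ∣ z) :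
    0 < padicValInt p z := by
  have := Fact.mk hp
  rw [padicValInt]
  have h1 : p ∣ z.natAbs := Int.natCast_dvd.1 h
  exact one_le_padicValNat_of_dvd (by simpa using hz) h1

lemma not_dvd_of_pval {p : ℕ} (hp : p.Prime) {z : ℤ} (hz : z ≠ 0) (h : padicValInt p z = 0) :
    ¬ (p : ℤ) ∣ z := fun h1 => by
  have := pval_pos hp hz h1
  omega

lemma pval_mul {p : ℕ} (hp : p.Prime) {a b : ℤ} (ha : a ≠ 0) (hb : b ≠ 0) :
    padicValInt p (a * b) = padicValInt p a + padicValInt p b := padicValInt_mul hp ha hb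

lemma pval_pow {p : ℕ} (hp : p.Prime) {a : ℤ} (ha : a ≠ 0) (n : ℕ) :
    padicValInt p (a ^ n) = n * padicValInt p a := by
  induction n with
  | zero => simp
  | succ n ih => rw [pow_succ, pval_mul hp (pow_ne_zero _ ha) ha, ih]; ring

lemma pval_le_of_dvd {p : ℕ} (hp : p.Prime) {a b : ℤ} (hb : b ≠ 0) (h : a ∣ b) :
    padicValInt p a ≤ padicValInt p b := by
  obtain ⟨k, rfl⟩ := h
  have ha : a ≠ 0 := left_ne_zero_of_mul hb
  have hk : k ≠ 0 := right_ne_zero_of_mul hb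
  rw [pval_mul hp ha hk]; omega

/-- if `p` divides at most one of two factors and `k` divides the valuation of the product, then it
divides the valuations of both factors -/
lemma dvd_split {p : ℕ} (hp : p.Prime) {a b : ℤ} (ha : a ≠ 0) (hb : b ≠ 0)
    (hab : (p : ℤ) ∣ a → ¬ (p : ℤ) ∣ b) {k : ℕ} (h : k ∣ padicValInt p (a * b)) :
    k ∣ padicValInt p a ∧ k ∣ padicValInt p b := by
  rw [pval_mul hp ha hb] at h
  by_cases h1 : (p : ℤ) ∣ a
  · have h2 := pval_eq_zero (hab h1)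
    rw [h2] at h ⊢
    exact ⟨by simpa using h, dvd_zero _⟩
  · have h2 := pval_eq_zero h1
    rw [h2] at h ⊢
    exact ⟨dvd_zero _, by simpa using h⟩

/-- the cofactor of `u - w` in `u ^ r - w ^ r` -/
def cof (r : ℕ) (u w : ℤ) : ℤ := ∑ i ∈ Finset.range r, u ^ i * w ^ (r - 1 - i)

lemma pow_sub_eq (r : ℕ) (u w : ℤ) : u ^ r - w ^ r = (u - w) * cof r u w := by
  rw [cof, mul_comm, geom_sum₂_mul]

lemma not_dvd_of_coprime {b : ℕ} {u : ℤ} (hc : IsCoprime u (b : ℤ)) {p : ℕ} (hp : p.Prime)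
    (hpb : p ∣ b) : ¬ (p : ℤ) ∣ u := by
  intro h2
  exact (Nat.prime_iff_prime_int.1 hp).not_isUnit
    (hc.isUnit_of_dvd' h2 (Int.natCast_dvd_natCast.2 hpb))

/-- if `p ∤ r w` and `p ∣ u - w` then `p ∤ cof r u w` -/
lemma not_dvd_cof {r : ℕ} {u w : ℤ} {p : ℕ} (hp : p.Prime) (hpr : ¬ p ∣ r)
    (hw : ¬ (p : ℤ) ∣ w) (h : (p : ℤ) ∣ u - w) : ¬ (p : ℤ) ∣ cof r u w := by
  have := Fact.mk hp
  intro h3
  have h4 : ((cof r u w : ℤ) : ZMod p) = 0 := (ZMod.intCast_zmod_eq_zero_iff_dvd _ _).2 h3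
  have h5 : (u : ZMod p) = (w : ZMod p) := by
    have h6 := (ZMod.intCast_zmod_eq_zero_iff_dvd _ _).2 h
    push_cast at h6
    exact sub_eq_zero.1 h6
  rw [cof] at h4
  push_cast at h4
  rw [h5] at h4
  have h7 : ∀ i ∈ Finset.range r, (w : ZMod p) ^ i * (w : ZMod p) ^ (r - 1 - i) =
      (w : ZMod p) ^ (r - 1) := by
    intro i hi
    rw [← pow_add]; congr 1
    have := Finset.mem_range.1 hi
    omega
  rw [Finset.sum_congr rfl h7, Finset.sum_const, Finset.card_range, nsmul_eq_mul] at h4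
  rcases mul_eq_zero.1 h4 with h6 | h6
  · exact hpr ((ZMod.natCast_eq_zero_iff _ _).1 h6)
  · refine hw ((ZMod.intCast_zmod_eq_zero_iff_dvd _ _).1 ?_)
    by_contra hx
    exact pow_ne_zero _ hx h6

/-- A pair of non-merging periodic orbits of `u ↦ P(u ^ r) / b ^ n`. -/
structure Pair (P : ℤ[X]) (r b n L : ℕ) (U W : ℕ → ℤ) : Prop where
  hb : b ≠ 0
  hn : 0 < n
  hL : 0 < L
  hmon : P.Monic
  hbad : ∀ p : ℕ, p.Prime → p ∣ b → ∀ i, 0 < i → i < P.natDegree → (p : ℤ) ∣ P.coeff i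
  hU : ∀ i, (b : ℤ) ^ n * U (i + 1) = P.eval (U i ^ r)
  hW : ∀ i, (b : ℤ) ^ n * W (i + 1) = P.eval (W i ^ r)
  hUc : ∀ i, IsCoprime (U i) (b : ℤ)
  hWc : ∀ i, IsCoprime (W i) (b : ℤ)
  hne : ∀ i, U i ≠ W i
  hUL : ∀ i, U (i + L) = U i
  hWL : ∀ i, W (i + L) = W i

namespace Pair

variable {P : ℤ[X]} {r b n L : ℕ} {U W : ℕ → ℤ} (A : Pair P r b n L U W)
include A

lemma hbZ : (b : ℤ) ≠ 0 := by exact_mod_cast A.hb

lemma diff_eq (i : ℕ) :
    (b : ℤ) ^ n * (U (i + 1) - W (i + 1)) = P.eval (U i ^ r) - P.eval (W i ^ r) := by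
  rw [mul_sub, A.hU, A.hW]

lemma pow_ne (i : ℕ) : U i ^ r - W i ^ r ≠ 0 := by
  intro h
  have h1 := A.diff_eq i
  rw [sub_eq_zero.1 h, sub_self] at h1
  rcases mul_eq_zero.1 h1 with h2 | h2
  · exact pow_ne_zero _ A.hbZ h2
  · exact A.hne (i + 1) (sub_eq_zero.1 h2)

lemma sub_ne (i : ℕ) : U i - W i ≠ 0 := sub_ne_zero.2 (A.hne i)

lemma cof_ne (i : ℕ) : cof r (U i) (W i) ≠ 0 := by
  have h5 := A.pow_ne i
  rw [pow_sub_eq] at h5
  exact right_ne_zero_of_mul h5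

lemma val_pow {p : ℕ} (hp : p.Prime) (i : ℕ) :
    padicValInt p (U i ^ r - W i ^ r) =
      padicValInt p (U i - W i) + padicValInt p (cof r (U i) (W i)) := by
  rw [pow_sub_eq, pval_mul hp (A.sub_ne i) (A.cof_ne i)]

/-- good primes -/
lemma good_prime {p : ℕ} (hp : p.Prime) (hpb : ¬ p ∣ b) (i : ℕ) :
    ¬ (p : ℤ) ∣ cof r (U i) (W i) := by
  have hvb : padicValInt p ((b : ℤ) ^ n) = 0 := by
    rw [pval_pow hp A.hbZ, pval_eq_zero (by rwa [Int.natCast_dvd_natCast]), mul_zero]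
  have key : ∀ i, padicValInt p (U i - W i) + padicValInt p (cof r (U i) (W i)) ≤
      padicValInt p (U (i + 1) - W (i + 1)) := by
    intro i
    have h6 : (U i ^ r - W i ^ r) ∣ (b : ℤ) ^ n * (U (i + 1) - W (i + 1)) := by
      rw [A.diff_eq i]
      exact Polynomial.sub_dvd_eval_sub _ _ _
    have h7 := pval_le_of_dvd hp (mul_ne_zero (pow_ne_zero _ A.hbZ) (A.sub_ne (i + 1))) h6
    rw [pval_mul hp (pow_ne_zero _ A.hbZ) (A.sub_ne (i + 1)), hvb, zero_add, A.val_pow hp] at h7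
    exact h7
  have mono : Monotone (fun i => padicValInt p (U i - W i)) :=
    monotone_nat_of_le_succ fun i => by have := key i; omega
  have h8 : padicValInt p (U (i + 1) - W (i + 1)) ≤ padicValInt p (U i - W i) := by
    have h9 := mono (show i + 1 ≤ i + L by have := A.hL; omega)
    simp only at h9
    rwa [A.hUL, A.hWL] at h9
  have h10 := key i
  exact not_dvd_of_pval hp (A.cof_ne i) (by omega)

/-- the derivative modulo a bad prime -/
lemma deriv_mod {p : ℕ} (hp : p.Prime) (hpb : p ∣ b) (hpm : ¬ p ∣ P.natDegree) {t : ℤ}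
    (ht : ¬ (p : ℤ) ∣ t) : ¬ (p : ℤ) ∣ (derivative P).eval t := by
  have := Fact.mk hp
  intro h
  set φ := Int.castRingHom (ZMod p) with hφ
  have hm : 0 < P.natDegree := Nat.pos_of_ne_zero (fun h0 => hpm (h0 ▸ dvd_zero p))
  have h1 : P.map φ = X ^ P.natDegree + C (φ (P.coeff 0)) := by
    ext i
    rw [coeff_map, coeff_add, coeff_X_pow, coeff_C]
    rcases Nat.eq_zero_or_pos i with rfl | hi0
    · rw [if_neg hm.ne, if_pos rfl, zero_add]
    · rw [if_neg hi0.ne', add_zero]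
      rcases lt_trichotomy i P.natDegree with hi | hi | hi
      · rw [if_neg hi.ne]
        exact (ZMod.intCast_zmod_eq_zero_iff_dvd _ _).2 (A.hbad p hp hpb i hi0 hi)
      · rw [if_pos hi, hi, A.hmon.coeff_natDegree, map_one]
      · rw [if_neg hi.ne', coeff_eq_zero_of_natDegree_lt hi, map_zero]
  have h3 : φ ((derivative P).eval t) = (P.natDegree : ZMod p) * φ t ^ (P.natDegree - 1) := by
    have h4 : φ ((derivative P).eval t) = ((derivative P).map φ).eval (φ t) := by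
      rw [eval_map, eval₂_at_apply]
    rw [h4, ← derivative_map, h1, derivative_add, derivative_X_pow, derivative_C]
    simp
  have h5 : φ ((derivative P).eval t) = 0 := (ZMod.intCast_zmod_eq_zero_iff_dvd _ _).2 h
  rw [h3] at h5
  rcases mul_eq_zero.1 h5 with h6 | h6
  · exact hpm ((ZMod.natCast_eq_zero_iff _ _).1 h6)
  · refine ht ((ZMod.intCast_zmod_eq_zero_iff_dvd _ _).1 ?_)
    by_contra hx
    exact pow_ne_zero _ hx h6

/-- the valuation of a difference of values modulo a bad prime -/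
lemma val_eval_sub {p : ℕ} (hp : p.Prime) (hpb : p ∣ b)
    (hpm : ¬ p ∣ P.natDegree) {s t : ℤ} (ht : ¬ (p : ℤ) ∣ t) (hst : (p : ℤ) ∣ s - t)
    (hne : s - t ≠ 0) :
    padicValInt p (P.eval s - P.eval t) = padicValInt p (s - t) := by
  obtain ⟨k, hk⟩ := Polynomial.binomExpansion P t (s - t)
  have h1 : P.eval s - P.eval t = (s - t) * ((derivative P).eval t + k * (s - t)) := by
    have h2 : t + (s - t) = s := by ring
    rw [h2] at hk
    rw [hk]; ring
  have h3 : ¬ (p : ℤ) ∣ (derivative P).eval t + k * (s - t) := by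
    intro h
    apply A.deriv_mod hp hpb hpm ht
    exact (Int.dvd_add_left (Dvd.dvd.mul_left hst k)).1 h
  have h4 : (derivative P).eval t + k * (s - t) ≠ 0 := by
    intro h; rw [h] at h3; exact h3 (dvd_zero _)
  rw [h1, pval_mul hp hne h4, pval_eq_zero h3, add_zero]

/-- bad primes: the valuation of `U ^ r - W ^ r` -/
lemma bad_pow {p : ℕ} (hp : p.Prime) (hpb : p ∣ b)
    (hpm : ¬ p ∣ P.natDegree) (i : ℕ) (h : (p : ℤ) ∣ U i ^ r - W i ^ r) :
    padicValInt p (U i ^ r - W i ^ r) =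
      n * padicValInt p b + padicValInt p (U (i + 1) - W (i + 1)) := by
  have hpW : ¬ (p : ℤ) ∣ W i ^ r := by
    intro h1
    exact not_dvd_of_coprime (A.hWc i) hp hpb
      (Prime.dvd_of_dvd_pow (Nat.prime_iff_prime_int.1 hp) h1)
  rw [← A.val_eval_sub hp hpb hpm hpW h (A.pow_ne i), ← A.diff_eq i,
    pval_mul hp (pow_ne_zero _ A.hbZ) (A.sub_ne _), pval_pow hp A.hbZ]

/-- bad primes not dividing the degree -/
lemma bad_prime {p : ℕ} (hp : p.Prime) (hpb : p ∣ b) (hpm : ¬ p ∣ P.natDegree) (hpr : ¬ p ∣ r)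
    (i : ℕ) : n ∣ padicValInt p (cof r (U i) (W i)) := by
  have hw : ∀ i, ¬ (p : ℤ) ∣ W i := fun i => not_dvd_of_coprime (A.hWc i) hp hpb
  have hvb : 0 < padicValInt p b := pval_pos hp A.hbZ (Int.natCast_dvd_natCast.2 hpb)
  -- differences
  have hdiff : ∀ N : ℕ, ∀ i, padicValInt p (U i - W i) ≤ N → n ∣ padicValInt p (U i - W i) := by
    intro N
    induction N with
    | zero =>
      intro i h
      rw [Nat.le_zero.1 h]; exact dvd_zero _
    | succ N ih =>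
      intro i h
      by_cases h0 : (p : ℤ) ∣ U i - W i
      · have h5 := not_dvd_cof hp hpr (hw i) h0
        have h7 : (p : ℤ) ∣ U i ^ r - W i ^ r := by
          rw [pow_sub_eq]; exact Dvd.dvd.mul_right h0 _
        have h8 := A.bad_pow hp hpb hpm i h7
        rw [A.val_pow hp i, pval_eq_zero h5, add_zero] at h8
        have h9 : 0 < n * padicValInt p b := Nat.mul_pos A.hn hvb
        have h10 := ih (i + 1) (by omega)
        rw [h8]
        exact Nat.dvd_add (Nat.dvd_mul_right _ _) h10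
      · rw [pval_eq_zero h0]; exact dvd_zero _
  by_cases h0 : (p : ℤ) ∣ cof r (U i) (W i)
  · have h1 : (p : ℤ) ∣ U i ^ r - W i ^ r := by
      rw [pow_sub_eq]; exact Dvd.dvd.mul_left h0 _
    have h2 : n ∣ padicValInt p (U i ^ r - W i ^ r) := by
      rw [A.bad_pow hp hpb hpm i h1]
      exact Nat.dvd_add (Nat.dvd_mul_right _ _) (hdiff _ (i + 1) le_rfl)
    rw [A.val_pow hp i] at h2
    exact (Nat.dvd_add_right (hdiff _ i le_rfl)).1 h2
  · rw [pval_eq_zero h0]; exact dvd_zero _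

end Pair

lemma not_dvd_two {p : ℕ} (hp : p.Prime) (hp2 : p ≠ 2) : ¬ (p : ℤ) ∣ 2 := by
  intro h3
  have h4 : p ∣ 2 := by exact_mod_cast h3
  exact hp2 ((Nat.prime_dvd_prime_iff_eq hp Nat.prime_two).1 h4)

lemma not_dvd_three {p : ℕ} (hp : p.Prime) (hp2 : p ≠ 3) : ¬ (p : ℤ) ∣ 3 := by
  intro h3
  have h4 : p ∣ 3 := by exact_mod_cast h3
  exact hp2 ((Nat.prime_dvd_prime_iff_eq hp Nat.prime_three).1 h4)

lemma cof_four (u w : ℤ) : cof 4 u w = (u + w) * (u ^ 2 + w ^ 2) := by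
  rw [cof]
  simp only [Finset.sum_range_succ, Finset.sum_range_zero]
  ring

lemma cof_six (u w : ℤ) : cof 6 u w = (u + w) * ((u ^ 2 + u * w + w ^ 2) *
    (u ^ 2 - u * w + w ^ 2)) := by
  rw [cof]
  simp only [Finset.sum_range_succ, Finset.sum_range_zero]
  ring

section Four

variable {P : ℤ[X]} {b n L : ℕ} {U W : ℕ → ℤ}

/-- **Pair lemma**, `r = 4` -/
theorem pair_lemma_four (A : Pair P 4 b n L U W) {l : ℕ} (hkey : KeyProp l) (hln : l ∣ n)
    (hbe : 2 ∣ b) (h4 : (4 : ℤ) ∣ U 0 - W 0)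
    (hq : ∀ q : ℕ, q.Prime → q ≠ 2 → q ∣ P.natDegree → q ∣ b → (q : ℤ) ∣ U 0 - W 0) :
    False := by
  have hUo : Odd (U 0) := by
    rw [← Int.not_even_iff_odd, even_iff_two_dvd]
    exact not_dvd_of_coprime (p := 2) (A.hUc 0) Nat.prime_two hbe
  have hWo : Odd (W 0) := by
    rw [← Int.not_even_iff_odd, even_iff_two_dvd]
    exact not_dvd_of_coprime (p := 2) (A.hWc 0) Nat.prime_two hbe
  obtain ⟨Q', hQ'⟩ := h4
  obtain ⟨P', hP⟩ : ∃ P', U 0 + W 0 = 2 * P' := (hUo.add_odd hWo).two_dvd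
  have hUe : U 0 = P' + 2 * Q' := by linarith
  have hWe : W 0 = P' - 2 * Q' := by linarith
  set Q := 2 * Q' with hQdef
  have hPo : Odd P' := by
    have h1 : P' = W 0 + Q := by linarith
    rw [h1]; exact hWo.add_even (even_two_mul Q')
  have hcofne := A.cof_ne 0
  rw [cof_four] at hcofne
  have hne1 : U 0 + W 0 ≠ 0 := left_ne_zero_of_mul hcofne
  have hne2 : U 0 ^ 2 + W 0 ^ 2 ≠ 0 := right_ne_zero_of_mul hcofne
  -- conditions at odd primes
  have hodd : ∀ p : ℕ, p.Prime → p ≠ 2 →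
      l ∣ padicValInt p (U 0 + W 0) ∧ l ∣ padicValInt p (U 0 ^ 2 + W 0 ^ 2) := by
    intro p hp hp2
    have hpp := Nat.prime_iff_prime_int.1 hp
    have hp4 : ¬ p ∣ 4 := by
      intro h
      have : p ∣ 2 ^ 2 := by norm_num; exact h
      exact hp2 ((Nat.prime_dvd_prime_iff_eq hp Nat.prime_two).1 (hp.dvd_of_dvd_pow this))
    by_cases hpb : p ∣ b
    · have hw := not_dvd_of_coprime (A.hWc 0) hp hpb
      by_cases hpm : p ∣ P.natDegree
      · have h5 := not_dvd_cof hp hp4 hw (hq p hp hp2 hpm hpb)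
        rw [cof_four] at h5
        rw [pval_eq_zero (fun h => h5 (Dvd.dvd.mul_right h _)),
          pval_eq_zero (fun h => h5 (Dvd.dvd.mul_left h _))]
        exact ⟨dvd_zero _, dvd_zero _⟩
      · have h5 := hln.trans (A.bad_prime hp hpb hpm hp4 0)
        rw [cof_four] at h5
        refine dvd_split hp hne1 hne2 (fun h1 h2 => ?_) h5
        have h6 : (p : ℤ) ∣ 2 * W 0 ^ 2 := by
          have : 2 * W 0 ^ 2 = (U 0 ^ 2 + W 0 ^ 2) - (U 0 + W 0) * (U 0 - W 0) := by ring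
          rw [this]; exact dvd_sub h2 (Dvd.dvd.mul_right h1 _)
        rcases hpp.dvd_or_dvd h6 with h7 | h7
        · exact not_dvd_two hp hp2 h7
        · exact hw (hpp.dvd_of_dvd_pow h7)
    · have h5 := A.good_prime hp hpb 0
      rw [cof_four] at h5
      rw [pval_eq_zero (fun h => h5 (Dvd.dvd.mul_right h _)),
        pval_eq_zero (fun h => h5 (Dvd.dvd.mul_left h _))]
      exact ⟨dvd_zero _, dvd_zero _⟩
  -- coprimality
  have hcop : IsCoprime P' Q := by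
    rw [Int.isCoprime_iff_gcd_eq_one]
    by_contra hg
    obtain ⟨p, hp, hpg⟩ := Nat.exists_prime_and_dvd hg
    have hpP : (p : ℤ) ∣ P' := (Int.natCast_dvd_natCast.2 hpg).trans (Int.gcd_dvd_left ..)
    have hpQ : (p : ℤ) ∣ Q := (Int.natCast_dvd_natCast.2 hpg).trans (Int.gcd_dvd_right ..)
    have hpU : (p : ℤ) ∣ U 0 := by rw [hUe]; exact dvd_add hpP hpQ
    by_cases hpb : p ∣ b
    · exact not_dvd_of_coprime (A.hUc 0) hp hpb hpU
    · apply A.good_prime hp hpb 0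
      rw [cof_four, hP]
      exact Dvd.dvd.mul_right (Dvd.dvd.mul_left hpP 2) _
  have hP0 : P' ≠ 0 := by rintro rfl; exact absurd hPo (by decide)
  have hQ0 := hkey P' Q hcop hPo (even_two_mul Q') (fun p hp hp2 => by
      have h1 := (hodd p hp hp2).1
      rw [hP, pval_mul hp two_ne_zero hP0, pval_eq_zero (not_dvd_two hp hp2), zero_add] at h1
      exact h1) (fun p hp hp2 => by
      have h1 := (hodd p hp hp2).2
      have h2 : U 0 ^ 2 + W 0 ^ 2 = 2 * (P' ^ 2 + Q ^ 2) := by rw [hUe, hWe]; ring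
      have h3 : P' ^ 2 + Q ^ 2 ≠ 0 := by positivity
      rw [h2, pval_mul hp two_ne_zero h3, pval_eq_zero (not_dvd_two hp hp2), zero_add] at h1
      exact h1)
  apply A.hne 0
  rw [hUe, hWe, hQ0]; ring

end Four

section Six

variable {P : ℤ[X]} {b n L : ℕ} {U W : ℕ → ℤ}

/-- **Pair lemma**, `r = 6` -/
theorem pair_lemma_six (A : Pair P 6 b n L U W) {l : ℕ} (hkey : KeyProp6 l) (hln : l ∣ n)
    (hb2 : 2 ∣ b) (hb3 : 3 ∣ b) (h4 : (4 : ℤ) ∣ U 0 - W 0) (h3 : (3 : ℤ) ∣ U 0 - W 0)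
    (hq : ∀ q : ℕ, q.Prime → q ≠ 2 → q ≠ 3 → q ∣ P.natDegree → q ∣ b → (q : ℤ) ∣ U 0 - W 0) :
    False := by
  have hUo : Odd (U 0) := by
    rw [← Int.not_even_iff_odd, even_iff_two_dvd]
    exact not_dvd_of_coprime (p := 2) (A.hUc 0) Nat.prime_two hb2
  have hWo : Odd (W 0) := by
    rw [← Int.not_even_iff_odd, even_iff_two_dvd]
    exact not_dvd_of_coprime (p := 2) (A.hWc 0) Nat.prime_two hb2
  obtain ⟨Q', hQ'⟩ := h4
  obtain ⟨P', hP⟩ : ∃ P', U 0 + W 0 = 2 * P' := (hUo.add_odd hWo).two_dvd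
  have hUe : U 0 = P' + 2 * Q' := by linarith
  have hWe : W 0 = P' - 2 * Q' := by linarith
  set Q := 2 * Q' with hQdef
  have hPo : Odd P' := by
    have h1 : P' = W 0 + Q := by linarith
    rw [h1]; exact hWo.add_even (even_two_mul Q')
  have hQ3 : (3 : ℤ) ∣ Q := by
    have h5 : U 0 - W 0 = 2 * Q := by rw [hUe, hWe]; ring
    rw [h5] at h3
    exact (Int.isCoprime_iff_gcd_eq_one.2 (by norm_num : Int.gcd 3 2 = 1)).dvd_of_dvd_mul_left h3
  have hcofne := A.cof_ne 0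
  rw [cof_six] at hcofne
  have hne1 : U 0 + W 0 ≠ 0 := left_ne_zero_of_mul hcofne
  have hne2 : U 0 ^ 2 + U 0 * W 0 + W 0 ^ 2 ≠ 0 :=
    left_ne_zero_of_mul (right_ne_zero_of_mul hcofne)
  have hne3 : U 0 ^ 2 - U 0 * W 0 + W 0 ^ 2 ≠ 0 :=
    right_ne_zero_of_mul (right_ne_zero_of_mul hcofne)
  -- conditions at primes `≥ 5`
  have hodd : ∀ p : ℕ, p.Prime → p ≠ 2 → p ≠ 3 →
      l ∣ padicValInt p (U 0 + W 0) ∧ l ∣ padicValInt p (U 0 ^ 2 + U 0 * W 0 + W 0 ^ 2) := by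
    intro p hp hp2 hp3
    have hpp := Nat.prime_iff_prime_int.1 hp
    have hp6 : ¬ p ∣ 6 := by
      intro h
      have : p ∣ 2 * 3 := by norm_num; exact h
      rcases hp.dvd_mul.1 this with h1 | h1
      · exact hp2 ((Nat.prime_dvd_prime_iff_eq hp Nat.prime_two).1 h1)
      · exact hp3 ((Nat.prime_dvd_prime_iff_eq hp Nat.prime_three).1 h1)
    by_cases hpb : p ∣ b
    · have hw := not_dvd_of_coprime (A.hWc 0) hp hpb
      by_cases hpm : p ∣ P.natDegree
      · have h5 := not_dvd_cof hp hp6 hw (hq p hp hp2 hp3 hpm hpb)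
        rw [cof_six] at h5
        rw [pval_eq_zero (fun h => h5 (Dvd.dvd.mul_right h _)),
          pval_eq_zero (fun h => h5 (Dvd.dvd.mul_left (Dvd.dvd.mul_right h _) _))]
        exact ⟨dvd_zero _, dvd_zero _⟩
      · have h5 := hln.trans (A.bad_prime hp hpb hpm hp6 0)
        rw [cof_six] at h5
        have h8 := dvd_split hp hne1 (mul_ne_zero hne2 hne3) (fun h1 h2 => by
          -- `u = -w` mod `p`: `w²` and `3 w²`
          have e1 : ((U 0 ^ 2 + U 0 * W 0 + W 0 ^ 2) * (U 0 ^ 2 - U 0 * W 0 + W 0 ^ 2)) =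
              (U 0 + W 0) * (U 0 ^ 3 - U 0 ^ 2 * W 0 + 2 * U 0 * W 0 ^ 2 - 2 * W 0 ^ 3) +
                3 * W 0 ^ 4 := by ring
          rw [e1] at h2
          have h6 : (p : ℤ) ∣ 3 * W 0 ^ 4 := (dvd_add_right (Dvd.dvd.mul_right h1 _)).1 h2
          rcases hpp.dvd_or_dvd h6 with h7 | h7
          · exact not_dvd_three hp hp3 h7
          · exact hw (hpp.dvd_of_dvd_pow h7)) h5
        refine ⟨h8.1, (dvd_split hp hne2 hne3 (fun h1 h2 => ?_) h8.2).1⟩
        have h6 : (p : ℤ) ∣ 2 * (U 0 * W 0) := by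
          have : 2 * (U 0 * W 0) = (U 0 ^ 2 + U 0 * W 0 + W 0 ^ 2) -
              (U 0 ^ 2 - U 0 * W 0 + W 0 ^ 2) := by ring
          rw [this]; exact dvd_sub h1 h2
        rcases hpp.dvd_or_dvd h6 with h7 | h7
        · exact not_dvd_two hp hp2 h7
        · rcases hpp.dvd_or_dvd h7 with h9 | h9
          · exact not_dvd_of_coprime (A.hUc 0) hp hpb h9
          · exact hw h9
    · have h5 := A.good_prime hp hpb 0
      rw [cof_six] at h5
      rw [pval_eq_zero (fun h => h5 (Dvd.dvd.mul_right h _)),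
        pval_eq_zero (fun h => h5 (Dvd.dvd.mul_left (Dvd.dvd.mul_right h _) _))]
      exact ⟨dvd_zero _, dvd_zero _⟩
  -- coprimality
  have hcop : IsCoprime P' Q := by
    rw [Int.isCoprime_iff_gcd_eq_one]
    by_contra hg
    obtain ⟨p, hp, hpg⟩ := Nat.exists_prime_and_dvd hg
    have hpP : (p : ℤ) ∣ P' := (Int.natCast_dvd_natCast.2 hpg).trans (Int.gcd_dvd_left ..)
    have hpQ : (p : ℤ) ∣ Q := (Int.natCast_dvd_natCast.2 hpg).trans (Int.gcd_dvd_right ..)
    have hpU : (p : ℤ) ∣ U 0 := by rw [hUe]; exact dvd_add hpP hpQ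
    by_cases hpb : p ∣ b
    · exact not_dvd_of_coprime (A.hUc 0) hp hpb hpU
    · apply A.good_prime hp hpb 0
      rw [cof_six, hP]
      exact Dvd.dvd.mul_right (Dvd.dvd.mul_left hpP 2) _
  have hP0 : P' ≠ 0 := by rintro rfl; exact absurd hPo (by decide)
  have hP3 : ¬ (3 : ℤ) ∣ P' := by
    intro h
    have h5 : IsUnit (3 : ℤ) := hcop.isUnit_of_dvd' h hQ3
    rw [Int.isUnit_iff] at h5
    omega
  have hsum : U 0 ^ 2 + U 0 * W 0 + W 0 ^ 2 = 3 * P' ^ 2 + Q ^ 2 := by rw [hUe, hWe]; ring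
  have hQ0 := hkey P' Q hcop hPo (even_two_mul Q') hQ3 (fun p hp hp2 => by
      by_cases hp3 : p = 3
      · subst hp3
        rw [pval_eq_zero (by exact_mod_cast hP3)]; exact dvd_zero _
      have h1 := (hodd p hp hp2 hp3).1
      rw [hP, pval_mul hp two_ne_zero hP0, pval_eq_zero (not_dvd_two hp hp2), zero_add] at h1
      exact h1) (fun p hp hp3 => by
      by_cases hp2 : p = 2
      · subst hp2
        have h6 : ¬ ((2 : ℕ) : ℤ) ∣ 3 * P' ^ 2 + Q ^ 2 := by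
          have h7 : Odd (3 * P' ^ 2 + Q ^ 2) :=
            (Odd.mul (by decide) hPo.pow).add_even
              ((even_two_mul Q').pow_of_ne_zero (by norm_num))
          intro h8
          exact (Int.not_even_iff_odd.2 h7) (even_iff_two_dvd.2 (by exact_mod_cast h8))
        rw [pval_eq_zero h6]; exact dvd_zero _
      rw [← hsum]
      exact (hodd p hp hp2 hp3).2)
  apply A.hne 0
  rw [hUe, hWe, hQ0]; ring

end Six

end PowCyc.Gen
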