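import Mathlib

/-! Valuations of `u^d - w^d` at odd primes (lifting the exponent), and of differences and sums
along orbits of `u ↦ (u^d + a) / b^(d-1)`. -/

namespace PowCyc

theorem padicValInt_eq_of_emult {p : ℕ} (hp : p.Prime) {x y : ℤ} (hx : x ≠ 0) (hy : y ≠ 0) {m : ℕ}
    (hm : m ≠ 0) (h : emultiplicity (p : ℤ) x = emultiplicity (p : ℤ) y + emultiplicity p m) :
    padicValInt p x = padicValInt p y + padicValNat p m := by
  have hp1 : p ≠ 1 := hp.ne_one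
  have fx : FiniteMultiplicity (p : ℤ) x :=
    Int.finiteMultiplicity_iff.2 ⟨by simpa using hp1, hx⟩
  have fy : FiniteMultiplicity (p : ℤ) y :=
    Int.finiteMultiplicity_iff.2 ⟨by simpa using hp1, hy⟩
  have fm : FiniteMultiplicity p m := Nat.finiteMultiplicity_iff.2 ⟨hp1, Nat.pos_of_ne_zero hm⟩
  rw [padicValInt.of_ne_one_ne_zero hp1 hx, padicValInt.of_ne_one_ne_zero hp1 hy,
    padicValNat_def' hp1 hm]
  rw [fx.emultiplicity_eq_multiplicity, fy.emultiplicity_eq_multiplicity,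
    fm.emultiplicity_eq_multiplicity] at h
  exact_mod_cast h

theorem lte_sub {p : ℕ} (hp : p.Prime) (hp2 : p ≠ 2) {x y : ℤ} (hx : ¬ (p : ℤ) ∣ x)
    (h : (p : ℤ) ∣ x - y) {d : ℕ} (hd : d ≠ 0) (hne : x ^ d ≠ y ^ d) :
    padicValInt p (x ^ d - y ^ d) = padicValInt p (x - y) + padicValNat p d := by
  have hxy : x - y ≠ 0 := by
    intro h0
    exact hne (by rw [sub_eq_zero.1 h0])
  exact padicValInt_eq_of_emult hp (sub_ne_zero.2 hne) hxy hd
    (Int.emultiplicity_pow_sub_pow hp (hp.odd_of_ne_two hp2) h hx d)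

theorem not_dvd_of_coprime {p b : ℕ} (hp : p.Prime) (hpb : p ∣ b) {u : ℤ}
    (h : IsCoprime u (b : ℤ)) : ¬ (p : ℤ) ∣ u := by
  intro h1
  have h2 : (p : ℤ) ∣ (b : ℤ) := by exact_mod_cast hpb
  have h3 : IsUnit (p : ℤ) := h.isUnit_of_dvd' h1 h2
  exact (Nat.prime_iff_prime_int.1 hp).not_isUnit h3

theorem padicValInt_pow_mul {p b k : ℕ} (hp : p.Prime) (hb : b ≠ 0) {z : ℤ} (hz : z ≠ 0) :
    padicValInt p ((b : ℤ) ^ k * z) = k * padicValNat p b + padicValInt p z := by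
  have := Fact.mk hp
  have h1 : (b : ℤ) ^ k ≠ 0 := pow_ne_zero _ (by exact_mod_cast hb)
  rw [padicValInt.mul h1 hz]
  congr 1
  have h2 : ((b : ℤ) ^ k) = ((b ^ k : ℕ) : ℤ) := by push_cast; rfl
  rw [h2, padicValInt.of_nat, padicValNat.pow]

section step

variable {p d b : ℕ} {a u w u1 w1 : ℤ}

theorem pow_sub_eq (hu : (b : ℤ) ^ (d - 1) * u1 = u ^ d + a)
    (hw : (b : ℤ) ^ (d - 1) * w1 = w ^ d + a) :
    u ^ d - w ^ d = (b : ℤ) ^ (d - 1) * (u1 - w1) := by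
  rw [mul_sub, hu, hw]; ring

theorem pow_ne (hb : b ≠ 0) (hu : (b : ℤ) ^ (d - 1) * u1 = u ^ d + a)
    (hw : (b : ℤ) ^ (d - 1) * w1 = w ^ d + a) (hne : u1 ≠ w1) : u ^ d ≠ w ^ d := by
  have h := pow_sub_eq hu hw
  intro h0
  rw [h0, sub_self] at h
  rcases mul_eq_zero.1 h.symm with h1 | h1
  · exact pow_ne_zero _ (by exact_mod_cast hb) h1
  · exact hne (sub_eq_zero.1 h1)

theorem val_pow_sub (hp : p.Prime) (hb : b ≠ 0) (hu : (b : ℤ) ^ (d - 1) * u1 = u ^ d + a)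
    (hw : (b : ℤ) ^ (d - 1) * w1 = w ^ d + a) (hne : u1 ≠ w1) :
    padicValInt p (u ^ d - w ^ d) = (d - 1) * padicValNat p b + padicValInt p (u1 - w1) := by
  rw [pow_sub_eq hu hw, padicValInt_pow_mul hp hb (sub_ne_zero.2 hne)]

theorem step_sub (hp : p.Prime) (hp2 : p ≠ 2) (hpb : p ∣ b) (hb : b ≠ 0) (hd0 : d ≠ 0)
    (hu : (b : ℤ) ^ (d - 1) * u1 = u ^ d + a) (hw : (b : ℤ) ^ (d - 1) * w1 = w ^ d + a)
    (hcu : IsCoprime u (b : ℤ)) (hne : u1 ≠ w1) (h : (p : ℤ) ∣ u - w) :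
    padicValInt p (u - w) + padicValNat p d
      = (d - 1) * padicValNat p b + padicValInt p (u1 - w1) := by
  rw [← val_pow_sub hp hb hu hw hne]
  exact (lte_sub hp hp2 (not_dvd_of_coprime hp hpb hcu) h hd0 (pow_ne hb hu hw hne)).symm

theorem step_add (hp : p.Prime) (hp2 : p ≠ 2) (hpb : p ∣ b) (hb : b ≠ 0) (hd0 : d ≠ 0)
    (hd2 : Even d)
    (hu : (b : ℤ) ^ (d - 1) * u1 = u ^ d + a) (hw : (b : ℤ) ^ (d - 1) * w1 = w ^ d + a)
    (hcu : IsCoprime u (b : ℤ)) (hne : u1 ≠ w1) (h : (p : ℤ) ∣ u + w) :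
    padicValInt p (u + w) + padicValNat p d
      = (d - 1) * padicValNat p b + padicValInt p (u1 - w1) := by
  rw [← val_pow_sub hp hb hu hw hne]
  have h1 : (p : ℤ) ∣ u - (-w) := by rwa [sub_neg_eq_add]
  have h2 : u ^ d ≠ (-w) ^ d := by rw [hd2.neg_pow]; exact pow_ne hb hu hw hne
  have h3 := lte_sub hp hp2 (not_dvd_of_coprime hp hpb hcu) h1 hd0 h2
  rw [hd2.neg_pow, sub_neg_eq_add] at h3
  exact h3.symm

theorem padicValNat_half (hp : p.Prime) (hp2 : p ≠ 2) (hd : 2 ∣ d) (hd0 : d ≠ 0) :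
    padicValNat p (d / 2) = padicValNat p d := by
  have := Fact.mk hp
  obtain ⟨m, rfl⟩ := hd
  have hm : m ≠ 0 := by rintro rfl; exact hd0 rfl
  rw [Nat.mul_div_cancel_left _ (by norm_num), padicValNat.mul (by norm_num) hm]
  have : padicValNat p 2 = 0 := by
    apply padicValNat.eq_zero_of_not_dvd
    intro h
    exact hp2 ((Nat.prime_dvd_prime_iff_eq hp Nat.prime_two).1 h)
  omega

theorem step_sq (hp : p.Prime) (hp2 : p ≠ 2) (hpb : p ∣ b) (hb : b ≠ 0) (hd0 : d ≠ 0)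
    (hd4 : 4 ∣ d)
    (hu : (b : ℤ) ^ (d - 1) * u1 = u ^ d + a) (hw : (b : ℤ) ^ (d - 1) * w1 = w ^ d + a)
    (hcu : IsCoprime u (b : ℤ)) (hne : u1 ≠ w1) (h : (p : ℤ) ∣ u ^ 2 + w ^ 2) :
    padicValInt p (u ^ 2 + w ^ 2) + padicValNat p d
      = (d - 1) * padicValNat p b + padicValInt p (u1 - w1) := by
  rw [← val_pow_sub hp hb hu hw hne]
  have hd2 : 2 ∣ d := Dvd.dvd.trans (by norm_num) hd4
  have he : Even (d / 2) := by
    obtain ⟨m, rfl⟩ := hd4
    exact ⟨m, by omega⟩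
  have hk : 2 * (d / 2) = d := Nat.mul_div_cancel' hd2
  have h1 : (p : ℤ) ∣ u ^ 2 - (-(w ^ 2)) := by rwa [sub_neg_eq_add]
  have h0 : d / 2 ≠ 0 := by omega
  have e1 : (u ^ 2) ^ (d / 2) = u ^ d := by rw [← pow_mul, hk]
  have e2 : (-(w ^ 2)) ^ (d / 2) = w ^ d := by rw [he.neg_pow, ← pow_mul, hk]
  have h2 : (u ^ 2) ^ (d / 2) ≠ (-(w ^ 2)) ^ (d / 2) := by
    rw [e1, e2]; exact pow_ne hb hu hw hne
  have hpu : ¬ (p : ℤ) ∣ u ^ 2 := by
    intro hh
    exact not_dvd_of_coprime hp hpb hcu ((Nat.prime_iff_prime_int.1 hp).dvd_of_dvd_pow hh)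
  have h3 := lte_sub hp hp2 hpu h1 h0 h2
  rw [e1, e2, sub_neg_eq_add, padicValNat_half hp hp2 hd2 hd0] at h3
  exact h3.symm

end step

theorem padicValNat_lt_sub_one {p d : ℕ} (hp : p.Prime) (hp2 : p ≠ 2) (hd : 4 ∣ d) (hd0 : d ≠ 0) :
    padicValNat p d < d - 1 := by
  have := Fact.mk hp
  obtain ⟨m, rfl⟩ := hd
  have hm : m ≠ 0 := by rintro rfl; exact hd0 rfl
  have h4 : padicValNat p 4 = 0 := by
    apply padicValNat.eq_zero_of_not_dvd
    intro h
    have h' : p ∣ 2 ^ 2 := by norm_num; exact h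
    exact hp2 ((Nat.prime_dvd_prime_iff_eq hp Nat.prime_two).1 (hp.dvd_of_dvd_pow h'))
  rw [padicValNat.mul (by norm_num) hm, h4, zero_add]
  have h1 : p ^ padicValNat p m ≤ m := Nat.le_of_dvd (Nat.pos_of_ne_zero hm) pow_padicValNat_dvd
  have h2 : padicValNat p m < p ^ padicValNat p m := Nat.lt_pow_self hp.one_lt
  omega

theorem val_lt {p d b : ℕ} (hp : p.Prime) (hp2 : p ≠ 2) (hpb : p ∣ b) (hb : b ≠ 0) (hd : 4 ∣ d)
    (hd0 : d ≠ 0) : padicValNat p d < (d - 1) * padicValNat p b := by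
  have := Fact.mk hp
  have h1 := padicValNat_lt_sub_one hp hp2 hd hd0
  have h2 : 1 ≤ padicValNat p b := one_le_padicValNat_of_dvd hb hpb
  exact lt_of_lt_of_le h1 (Nat.le_mul_of_pos_right _ h2)

theorem padicValInt_eq_zero_of_not_dvd {p : ℕ} {z : ℤ} (h : ¬ (p : ℤ) ∣ z) :
    padicValInt p z = 0 := by
  unfold padicValInt
  apply padicValNat.eq_zero_of_not_dvd
  rwa [← Int.natCast_dvd]

theorem one_le_padicValInt {p : ℕ} (hp : p.Prime) {z : ℤ} (hz : z ≠ 0) (h : (p : ℤ) ∣ z) :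
    1 ≤ padicValInt p z := by
  have := Fact.mk hp
  unfold padicValInt
  exact one_le_padicValNat_of_dvd (Int.natAbs_ne_zero.2 hz) (Int.natCast_dvd.1 h)

section orbit

variable (d b : ℕ) (a : ℤ) (U W : ℕ → ℤ)
  (hU : ∀ i, (b : ℤ) ^ (d - 1) * U (i + 1) = U i ^ d + a)
  (hW : ∀ i, (b : ℤ) ^ (d - 1) * W (i + 1) = W i ^ d + a)
  (hcU : ∀ i, IsCoprime (U i) (b : ℤ)) (hcW : ∀ i, IsCoprime (W i) (b : ℤ))
  (hne : ∀ i, U i ≠ W i) (hb : b ≠ 0) (hd : 4 ∣ d) (hd0 : d ≠ 0)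
  {p : ℕ} (hp : p.Prime) (hp2 : p ≠ 2) (hpb : p ∣ b)

include hU hW hcU hne hb hd hd0 hp hp2 hpb

/-- (1) -/
theorem orbit_sub (i : ℕ) (h : (p : ℤ) ∣ U i - W i) :
    padicValInt p (U i - W i) + padicValNat p d
      = (d - 1) * padicValNat p b + padicValInt p (U (i + 1) - W (i + 1)) := by
  have _ := hd
  exact step_sub hp hp2 hpb hb hd0 (hU i) (hW i) (hcU i) (hne (i + 1)) h

/-- (2) -/
theorem orbit_add (i : ℕ) (h : (p : ℤ) ∣ U i + W i) :
    padicValInt p (U i + W i) + padicValNat p d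
      = (d - 1) * padicValNat p b + padicValInt p (U (i + 1) - W (i + 1)) :=
  step_add hp hp2 hpb hb hd0 (even_iff_two_dvd.2 (Dvd.dvd.trans (by norm_num) hd))
    (hU i) (hW i) (hcU i) (hne (i + 1)) h

/-- (3) -/
theorem orbit_sq (i : ℕ) (h : (p : ℤ) ∣ U i ^ 2 + W i ^ 2) :
    padicValInt p (U i ^ 2 + W i ^ 2) + padicValNat p d
      = (d - 1) * padicValNat p b + padicValInt p (U (i + 1) - W (i + 1)) :=
  step_sq hp hp2 hpb hb hd0 hd (hU i) (hW i) (hcU i) (hne (i + 1)) h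

/-- the valuation of `U i - W i` is a multiple of `(d - 1) * v(b) - v(d)` -/
theorem orbit_dvd_aux (N : ℕ) : ∀ i, padicValInt p (U i - W i) ≤ N →
    ((d - 1) * padicValNat p b - padicValNat p d) ∣ padicValInt p (U i - W i) := by
  have hlt := val_lt hp hp2 hpb hb hd hd0
  induction N with
  | zero =>
    intro i hi
    have : padicValInt p (U i - W i) = 0 := by omega
    rw [this]; exact dvd_zero _
  | succ N ih =>
    intro i hi
    by_cases h : (p : ℤ) ∣ U i - W i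
    · have h1 := orbit_sub d b a U W hU hW hcU hne hb hd hd0 hp hp2 hpb i h
      have h2 : padicValInt p (U i - W i) = ((d - 1) * padicValNat p b - padicValNat p d)
          + padicValInt p (U (i + 1) - W (i + 1)) := by omega
      rw [h2]
      exact (dvd_refl _).add (ih (i + 1) (by omega))
    · rw [padicValInt_eq_zero_of_not_dvd h]; exact dvd_zero _

theorem orbit_dvd (i : ℕ) :
    ((d - 1) * padicValNat p b - padicValNat p d) ∣ padicValInt p (U i - W i) :=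
  orbit_dvd_aux d b a U W hU hW hcU hne hb hd hd0 hp hp2 hpb _ i le_rfl

/-- (5) the number of consecutive coincidences modulo `p` -/
theorem orbit_count : ∃ A : ℕ → ℕ,
    (∀ i, padicValInt p (U i - W i) = A i * ((d - 1) * padicValNat p b - padicValNat p d)) ∧
    (∀ i, A i = 0 ↔ ¬ (p : ℤ) ∣ U i - W i) ∧
    (∀ i, 1 ≤ A i → A i = 1 + A (i + 1)) := by
  have hlt := val_lt hp hp2 hpb hb hd hd0
  set M := (d - 1) * padicValNat p b - padicValNat p d with hM
  have hMpos : 0 < M := by omega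
  refine ⟨fun i => padicValInt p (U i - W i) / M, fun i => ?_, fun i => ?_, fun i hi => ?_⟩
  · exact (Nat.div_mul_cancel (orbit_dvd d b a U W hU hW hcU hne hb hd hd0 hp hp2 hpb i)).symm
  · have h0 : padicValInt p (U i - W i) / M = 0 ↔ padicValInt p (U i - W i) = 0 := by
      constructor
      · intro h
        have := Nat.div_mul_cancel (orbit_dvd d b a U W hU hW hcU hne hb hd hd0 hp hp2 hpb i)
        rw [← hM, h, zero_mul] at this
        exact this.symm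
      · intro h; rw [h, Nat.zero_div]
    rw [h0]
    constructor
    · intro h h1
      have := one_le_padicValInt hp (sub_ne_zero.2 (hne i)) h1
      omega
    · exact padicValInt_eq_zero_of_not_dvd
  · have h : (p : ℤ) ∣ U i - W i := by
      by_contra h
      have h0 : padicValInt p (U i - W i) / M = 0 := by
        rw [padicValInt_eq_zero_of_not_dvd h, Nat.zero_div]
      have hi' : 1 ≤ padicValInt p (U i - W i) / M := hi
      omega
    have h1 := orbit_sub d b a U W hU hW hcU hne hb hd hd0 hp hp2 hpb i h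
    have h2 : padicValInt p (U i - W i) = M + padicValInt p (U (i + 1) - W (i + 1)) := by omega
    show padicValInt p (U i - W i) / M = 1 + padicValInt p (U (i + 1) - W (i + 1)) / M
    rw [h2, Nat.add_div_left _ hMpos]
    omega

variable (hpd : ¬ p ∣ d)
include hpd

/-- (4a) -/
theorem orbit_dvd_sub (i : ℕ) : (d - 1) ∣ padicValInt p (U i - W i) := by
  have h := orbit_dvd d b a U W hU hW hcU hne hb hd hd0 hp hp2 hpb i
  rw [padicValNat.eq_zero_of_not_dvd hpd, Nat.sub_zero] at h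
  exact (Dvd.intro _ rfl).trans h

/-- (4b) -/
theorem orbit_dvd_add (i : ℕ) : (d - 1) ∣ padicValInt p (U i + W i) := by
  by_cases h : (p : ℤ) ∣ U i + W i
  · have h1 := orbit_add d b a U W hU hW hcU hne hb hd hd0 hp hp2 hpb i h
    rw [padicValNat.eq_zero_of_not_dvd hpd, Nat.add_zero] at h1
    rw [h1]
    exact (Dvd.intro _ rfl).add
      (orbit_dvd_sub d b a U W hU hW hcU hne hb hd hd0 hp hp2 hpb hpd (i + 1))
  · rw [padicValInt_eq_zero_of_not_dvd h]; exact dvd_zero _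

/-- (4c) -/
theorem orbit_dvd_sq (i : ℕ) : (d - 1) ∣ padicValInt p (U i ^ 2 + W i ^ 2) := by
  by_cases h : (p : ℤ) ∣ U i ^ 2 + W i ^ 2
  · have h1 := orbit_sq d b a U W hU hW hcU hne hb hd hd0 hp hp2 hpb i h
    rw [padicValNat.eq_zero_of_not_dvd hpd, Nat.add_zero] at h1
    rw [h1]
    exact (Dvd.intro _ rfl).add
      (orbit_dvd_sub d b a U W hU hW hcU hne hb hd hd0 hp hp2 hpb hpd (i + 1))
  · rw [padicValInt_eq_zero_of_not_dvd h]; exact dvd_zero _

end orbit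

end PowCyc
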