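import Pool.Agent.PowCyc.Seq
import Pool.Agent.PowCyc.Lte
import Pool.Agent.PowCyc.Fixed

/-!
# The two key lemmas
-/

namespace PowCyc

lemma isCoprime_of_prime {s t : ℤ} (h : ∀ p : ℕ, p.Prime → (p : ℤ) ∣ s → (p : ℤ) ∣ t → False) :
    IsCoprime s t := by
  rw [Int.isCoprime_iff_gcd_eq_one]
  by_contra hg
  obtain ⟨p, hp, h1⟩ := Nat.exists_prime_and_dvd hg
  exact h p hp (dvd_trans (by exact_mod_cast h1) (Int.gcd_dvd_left _ _))
    (dvd_trans (by exact_mod_cast h1) (Int.gcd_dvd_right _ _))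

lemma dvd_two_mul {p : ℕ} (hp : p.Prime) (hp2 : p ≠ 2) {z : ℤ} (h : (p : ℤ) ∣ 2 * z) :
    (p : ℤ) ∣ z := by
  rcases (Nat.prime_iff_prime_int.mp hp).dvd_or_dvd h with h1 | h1
  · exfalso
    have : p ∣ 2 := by exact_mod_cast h1
    exact hp2 ((Nat.prime_dvd_prime_iff_eq hp Nat.prime_two).mp this)
  · exact h1

lemma padicValInt_two_mul {p : ℕ} (hp : p.Prime) (hp2 : p ≠ 2) {z : ℤ} :
    padicValInt p (2 * z) = padicValInt p z := by
  by_cases hz : z = 0
  · rw [hz, mul_zero]
  · rw [padicValInt_mul hp (by norm_num) hz]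
    have : padicValInt p 2 = 0 := by
      apply padicValInt_eq_zero_of_not_dvd
      intro h
      have : p ∣ 2 := by exact_mod_cast h
      exact hp2 ((Nat.prime_dvd_prime_iff_eq hp Nat.prime_two).mp this)
    rw [this, zero_add]

namespace Coord

variable {d : ℕ} {c : ℚ} {b : ℕ} {a : ℤ} {u : ℚ → ℤ} (H : Coord d c b a u)

include H

lemma zero_of_u {x : ℚ} (hx : Pre d c x) (h : u x = 0) : x = 0 := by
  rw [H.hu x hx, h]; simp

/-- the fourth power lemma -/
theorem pow_key (hd : d % 12 = 4) {x y : ℚ} (hx : Pre d c x) (hy : Pre d c y)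
    (hne : f d c x ≠ f d c y) (h0 : ¬ Pre d c 0)
    (hgood : ∀ p : ℕ, p.Prime → ¬ p ∣ b → ¬ (p : ℤ) ∣ u (f d c x) - u (f d c y))
    (hbad : ∀ p : ℕ, p.Prime → p ≠ 2 → p ∣ b →
      3 ∣ padicValInt p (u (f d c x) - u (f d c y))) : False := by
  obtain ⟨e, he⟩ : 4 ∣ d := by omega
  have hd1 : 1 ≤ d := by omega
  have hΔ : u (f d c x) - u (f d c y) ≠ 0 := by
    intro h
    exact hne (H.inj hx.map hy.map (sub_eq_zero.mp h))
  have hpow := H.sub_pow hd1 hx hy
  have h4 : (u x ^ e) ^ 4 - (u y ^ e) ^ 4 =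
      (b : ℤ) ^ (d - 1) * (u (f d c x) - u (f d c y)) := by
    rw [← hpow, he, ← pow_mul, ← pow_mul, mul_comm e 4]
  have hval : ∀ p : ℕ, p.Prime → (p ≠ 2 ∨ ¬ p ∣ b) →
      3 ∣ padicValInt p ((u x ^ e) ^ 4 - (u y ^ e) ^ 4) := by
    intro p hp hcase
    rw [h4, padicValInt_pow_mul hp H.bpos.ne' hΔ]
    apply Dvd.dvd.add
    · exact Dvd.dvd.mul_right (by omega) _
    · by_cases hb : p ∣ b
      · exact hbad p hp (hcase.resolve_right (by simpa using hb)) hb
      · rw [padicValInt_eq_zero_of_not_dvd (hgood p hp hb)]; exact dvd_zero _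
  have hcop : IsCoprime (u x) (u y) := by
    apply isCoprime_of_prime
    intro p hp h1 h2
    have hb : ¬ p ∣ b := by
      intro hb
      exact not_dvd_of_coprime hp hb (H.hcop x hx) h1
    apply hgood p hp hb
    have h3 : (p : ℤ) ∣ (b : ℤ) ^ (d - 1) * (u (f d c x) - u (f d c y)) := by
      rw [← hpow]
      exact dvd_sub (dvd_pow h1 (by omega)) (dvd_pow h2 (by omega))
    rcases (Nat.prime_iff_prime_int.mp hp).dvd_or_dvd h3 with h5 | h5
    · exact absurd (by exact_mod_cast (Nat.prime_iff_prime_int.mp hp).dvd_of_dvd_pow h5) hb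
    · exact h5
  have hcop' : IsCoprime (u x ^ e) (u y ^ e) := IsCoprime.pow hcop
  by_cases hb2 : 2 ∣ b
  · have hodd : ∀ z, Pre d c z → Odd (u z ^ e) := by
      intro z hz
      apply Odd.pow
      rw [← Int.not_even_iff_odd, even_iff_two_dvd]
      exact not_dvd_of_coprime Nat.prime_two hb2 (H.hcop z hz)
    have := fourth_sub_fourth_odd hcop' (hodd x hx) (hodd y hy)
      (fun p hp hp2 => hval p hp (Or.inl hp2))
    rw [this, sub_self] at h4
    rcases mul_eq_zero.mp h4.symm with h5 | h5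
    · exact pow_ne_zero _ H.bneZ h5
    · exact hΔ h5
  · have hodd : Odd ((u x ^ e) ^ 4 - (u y ^ e) ^ 4) := by
      rw [h4]
      apply Odd.mul
      · apply Odd.pow
        rw [← Int.not_even_iff_odd, even_iff_two_dvd]
        exact_mod_cast hb2
      · rw [← Int.not_even_iff_odd, even_iff_two_dvd]
        exact hgood 2 Nat.prime_two hb2
    have hne0 : (u x ^ e) ^ 4 - (u y ^ e) ^ 4 ≠ 0 := by
      rw [h4]; exact mul_ne_zero (pow_ne_zero _ H.bneZ) hΔ
    have hval2 : ∀ p : ℕ, p.Prime →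
        3 ∣ padicValNat p ((u x ^ e) ^ 4 - (u y ^ e) ^ 4).natAbs := by
      intro p hp
      by_cases hp2 : p = 2
      · exact hval p hp (Or.inr (by rw [hp2]; exact hb2))
      · exact hval p hp (Or.inl hp2)
    obtain ⟨m, hm⟩ := nat_eq_pow (Int.natAbs_ne_zero.mpr hne0) (by norm_num) hval2
    have hmodd : Odd (m : ℤ) := by
      have h1 := Int.natAbs_odd.mpr hodd
      rw [hm] at h1
      have h2 : Odd m := by
        by_contra h3
        rw [Nat.not_odd_iff_even] at h3
        exact (Nat.not_even_iff_odd.mpr h1) (h3.pow_of_ne_zero (by norm_num))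
      exact_mod_cast h2
    have hcube : ∃ C : ℤ, Odd C ∧ (u x ^ e) ^ 4 - (u y ^ e) ^ 4 = C ^ 3 := by
      rcases Int.natAbs_eq ((u x ^ e) ^ 4 - (u y ^ e) ^ 4) with h5 | h5
      · exact ⟨m, hmodd, by rw [h5, hm]; push_cast; ring⟩
      · exact ⟨-m, hmodd.neg, by rw [h5, hm]; push_cast; ring⟩
    obtain ⟨C, hC, hC3⟩ := hcube
    rcases fourth_sub_fourth_cube hcop' hC hC3 with h5 | h5
    · have h6 : u x = 0 := (pow_eq_zero_iff (by omega)).mp h5
      exact h0 (by rw [← H.zero_of_u hx h6]; exact hx)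
    · have h6 : u y = 0 := (pow_eq_zero_iff (by omega)).mp h5
      exact h0 (by rw [← H.zero_of_u hy h6]; exact hy)

/-- the recursion along an orbit -/
lemma orb (hd : 1 ≤ d) {x : ℚ} (hx : Pre d c x) (i : ℕ) :
    (b : ℤ) ^ (d - 1) * u ((f d c)^[i + 1] x) = u ((f d c)^[i] x) ^ d + a := by
  rw [Function.iterate_succ_apply']
  exact H.step_eq hd (hx.iter i)

/-- two periodic points in the same class -/
theorem per_pair (hd : d % 12 = 4) {x y : ℚ} (hx : Per d c x) (hy : Per d c y) (hxy : x ≠ y)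
    (hb2 : 2 ∣ b) (h4 : (4 : ℤ) ∣ u x - u y)
    (hq : ∀ q : ℕ, q.Prime → q ≠ 2 → q ∣ d → q ∣ b → (q : ℤ) ∣ u x - u y) : False := by
  have hd4 : 4 ∣ d := by omega
  have hd0 : d ≠ 0 := by omega
  have hd1 : 1 ≤ d := by omega
  have hodd : Odd (u y) := by
    rw [← Int.not_even_iff_odd, even_iff_two_dvd]
    exact not_dvd_of_coprime Nat.prime_two hb2 (H.hcop y hy.pre)
  obtain ⟨k, hk⟩ := h4
  set P : ℤ := u y + 2 * k with hP
  set Q : ℤ := 2 * k with hQ
  have hs : u x + u y = 2 * P := by rw [hP]; linarith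
  have ht : u x - u y = 2 * Q := by rw [hQ]; linarith
  have hsq : u x ^ 2 + u y ^ 2 = 2 * (P ^ 2 + Q ^ 2) := by
    have h1 : u x = P + Q := by linarith
    have h2 : u y = P - Q := by linarith
    rw [h1, h2]; ring
  have hPodd : Odd P := hodd.add_even (even_two_mul k)
  have hne : ∀ i, u ((f d c)^[i] x) ≠ u ((f d c)^[i] y) := fun i h =>
    hx.iter_ne hy hxy i (H.inj (hx.pre.iter i) (hy.pre.iter i) h)
  have hgood : ∀ p : ℕ, p.Prime → ¬ p ∣ b →
      ¬ (p : ℤ) ∣ u x + u y ∧ ¬ (p : ℤ) ∣ u x ^ 2 + u y ^ 2 := fun p hp hb =>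
    H.per_good hd4 hd0 hp hb hx hy hxy
  have hcop : IsCoprime P Q := by
    apply isCoprime_of_prime
    intro p hp h1 h2
    have h3 : (p : ℤ) ∣ u x := by
      have : u x = P + Q := by linarith
      rw [this]; exact dvd_add h1 h2
    by_cases hb : p ∣ b
    · exact not_dvd_of_coprime hp hb (H.hcop x hx.pre) h3
    · apply (hgood p hp hb).1
      rw [hs]; exact Dvd.dvd.mul_left h1 _
  have hval : ∀ p : ℕ, p.Prime → p ≠ 2 →
      3 ∣ padicValInt p (u x + u y) ∧ 3 ∣ padicValInt p (u x ^ 2 + u y ^ 2) := by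
    intro p hp hp2
    by_cases hb : p ∣ b
    · by_cases hpd : p ∣ d
      · have h5 := hq p hp hp2 hpd hb
        have hux : ¬ (p : ℤ) ∣ u x := not_dvd_of_coprime hp hb (H.hcop x hx.pre)
        constructor
        · rw [padicValInt_eq_zero_of_not_dvd]
          · exact dvd_zero _
          · intro h6
            apply hux
            apply dvd_two_mul hp hp2
            have : 2 * u x = (u x + u y) + (u x - u y) := by ring
            rw [this]; exact dvd_add h6 h5
        · rw [padicValInt_eq_zero_of_not_dvd]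
          · exact dvd_zero _
          · intro h6
            apply hux
            apply (Nat.prime_iff_prime_int.mp hp).dvd_of_dvd_pow (n := 2)
            apply dvd_two_mul hp hp2
            have : 2 * u x ^ 2 = (u x ^ 2 + u y ^ 2) + (u x - u y) * (u x + u y) := by ring
            rw [this]; exact dvd_add h6 (Dvd.dvd.mul_right h5 _)
      · have h3 : 3 ∣ d - 1 := by omega
        constructor
        · exact h3.trans (orbit_dvd_add d b a (fun i => u ((f d c)^[i] x))
            (fun i => u ((f d c)^[i] y)) (H.orb hd1 hx.pre) (H.orb hd1 hy.pre)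
            (fun i => H.hcop _ (hx.pre.iter i)) hne H.bpos.ne' hd4 hd0 hp hp2 hb hpd 0)
        · exact h3.trans (orbit_dvd_sq d b a (fun i => u ((f d c)^[i] x))
            (fun i => u ((f d c)^[i] y)) (H.orb hd1 hx.pre) (H.orb hd1 hy.pre)
            (fun i => H.hcop _ (hx.pre.iter i)) hne H.bpos.ne' hd4 hd0 hp hp2 hb hpd 0)
    · obtain ⟨h1, h2⟩ := hgood p hp hb
      rw [padicValInt_eq_zero_of_not_dvd h1, padicValInt_eq_zero_of_not_dvd h2]
      exact ⟨dvd_zero _, dvd_zero _⟩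
  have hQ0 : Q = 0 := by
    refine pair_key hcop hPodd (even_two_mul k) (fun p hp hp2 => ?_) (fun p hp hp2 => ?_)
    · rw [← padicValInt_two_mul hp hp2, ← hs]; exact (hval p hp hp2).1
    · rw [← padicValInt_two_mul hp hp2, ← hsq]; exact (hval p hp hp2).2
  rw [hQ0, mul_zero] at ht
  exact hxy (H.inj hx.pre hy.pre (sub_eq_zero.mp ht))

end Coord

end PowCyc
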