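import Pool.Agent.PowCyc.Defs

/-!
# Local analysis of periodic points of `x ^ d + c`
-/

namespace PowCyc

open WithZero

variable {K : Type*} [Field K]

/-- a finite orbit has no escaping point -/
lemma Loc_escape (v : Valuation K ℤᵐ⁰) {d : ℕ} {c x : K} (hx : Pre d c x) (P : K → Prop)
    (h0 : P x) (hP : ∀ z, P z → P (f d c z) ∧ v z < v (f d c z)) : False := by
  have h1 : ∀ k : ℕ, P ((f d c)^[k] x) := by
    intro k
    induction k with
    | zero => exact h0
    | succ k ih => rw [Function.iterate_succ_apply']; exact (hP _ ih).1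
  have h2 : StrictMono fun k : ℕ => v ((f d c)^[k] x) := by
    apply strictMono_nat_of_lt_succ
    intro k
    rw [Function.iterate_succ_apply']
    exact (hP _ (h1 k)).2
  have h3 : Function.Injective fun k : ℕ => (f d c)^[k] x := by
    intro i j hij
    apply h2.injective
    have hij' : (f d c)^[i] x = (f d c)^[j] x := hij
    change v ((f d c)^[i] x) = v ((f d c)^[j] x)
    rw [hij']
  exact Set.infinite_range_of_injective h3 hx

lemma Loc_Pre_f {d : ℕ} {c x : K} (hx : Pre d c x) : Pre d c (f d c x) := by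
  refine Set.Finite.subset hx ?_
  rintro _ ⟨k, rfl⟩
  exact ⟨k + 1, by simp [Function.iterate_succ_apply]⟩

lemma Loc_lt_pow {γ : ℤᵐ⁰} (hγ : 1 < γ) {d : ℕ} (hd : 2 ≤ d) : γ < γ ^ d := by
  calc γ = γ ^ 1 := (pow_one γ).symm
    _ < γ ^ d := pow_lt_pow_right₀ hγ (by omega)

/-- preperiodic points are integral where `c` is -/
theorem Pre.val_le_one (v : Valuation K ℤᵐ⁰) {d : ℕ} (hd : 2 ≤ d) {c x : K}
    (hx : Pre d c x) (hc : v c ≤ 1) : v x ≤ 1 := by
  by_contra h
  push Not at h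
  refine Loc_escape v hx (fun z => 1 < v z) h ?_
  intro z hz
  have hlt := Loc_lt_pow hz hd
  have h1 : v (f d c z) = v z ^ d := by
    unfold f
    rw [Valuation.map_add_eq_of_lt_left, map_pow]
    rw [map_pow]
    exact (hc.trans_lt hz).trans hlt
  rw [h1]
  exact ⟨hz.trans hlt, hlt⟩

lemma Loc_big (v : Valuation K ℤᵐ⁰) {d : ℕ} (hd : 2 ≤ d) {c x : K}
    (hx : Pre d c x) (hc : 1 < v c) : ¬ v c < v x ^ d := by
  intro h
  refine Loc_escape v hx (fun z => v c < v z ^ d) h ?_
  intro z hz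
  have hz1 : 1 < v z := by
    by_contra hh
    push Not at hh
    exact absurd ((hc.trans hz).trans_le (pow_le_one₀ zero_le hh)) (lt_irrefl _)
  have hlt := Loc_lt_pow hz1 hd
  have h1 : v (f d c z) = v z ^ d := by
    unfold f
    rw [Valuation.map_add_eq_of_lt_left, map_pow]
    rw [map_pow]
    exact hz
  rw [h1]
  exact ⟨hz.trans (Loc_lt_pow (hc.trans hz) hd), hlt⟩

/-- preperiodic points at a place where `c` is not integral -/
theorem Pre.val_pow (v : Valuation K ℤᵐ⁰) {d : ℕ} (hd : 2 ≤ d) {c x : K}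
    (hx : Pre d c x) (hc : 1 < v c) : v x ^ d = v c := by
  rcases lt_trichotomy (v x ^ d) (v c) with h | h | h
  · exfalso
    have h1 : v (f d c x) = v c := by
      unfold f
      rw [Valuation.map_add_eq_of_lt_right]
      rw [map_pow]; exact h
    refine Loc_big v hd (Loc_Pre_f hx) hc ?_
    rw [h1]
    exact Loc_lt_pow hc hd
  · exact h
  · exact absurd h (Loc_big v hd hx hc)

lemma Loc_Per_iter {d : ℕ} {c x : K} (hx : Per d c x) (i : ℕ) : Per d c ((f d c)^[i] x) := by
  obtain ⟨k, hk, h⟩ := hx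
  refine ⟨k, hk, ?_⟩
  rw [← Function.iterate_add_apply, add_comm, Function.iterate_add_apply, h]

/-- a common period -/
lemma Loc_common {d : ℕ} {c x y : K} (hx : Per d c x) (hy : Per d c y) :
    ∃ L : ℕ, 0 < L ∧ ∀ i, (f d c)^[i + L] x = (f d c)^[i] x ∧
      (f d c)^[i + L] y = (f d c)^[i] y := by
  obtain ⟨k, hk, h⟩ := hx
  obtain ⟨l, hl, h'⟩ := hy
  have hx' : Function.IsPeriodicPt (f d c) k x := h
  have hy' : Function.IsPeriodicPt (f d c) l y := h'
  refine ⟨k * l, Nat.mul_pos hk hl, fun i => ⟨?_, ?_⟩⟩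
  · rw [Function.iterate_add_apply]
    congr 1
    exact hx'.mul_const l
  · rw [Function.iterate_add_apply]
    congr 1
    exact hy'.const_mul k

lemma Loc_D_succ {d : ℕ} {c x y : K} (i : ℕ) :
    (f d c)^[i + 1] x - (f d c)^[i + 1] y =
      G d ((f d c)^[i] x) ((f d c)^[i] y) * ((f d c)^[i] x - (f d c)^[i] y) := by
  rw [Function.iterate_succ_apply', Function.iterate_succ_apply', f_sub]

lemma Loc_D_ne {d : ℕ} {c x y : K} (hx : Per d c x) (hy : Per d c y) (hxy : x ≠ y) (i : ℕ) :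
    (f d c)^[i] x - (f d c)^[i] y ≠ 0 := by
  intro h
  obtain ⟨L, hL, hper⟩ := Loc_common hx hy
  have h1 : ∀ m, (f d c)^[i + m] x = (f d c)^[i + m] y := by
    intro m
    rw [add_comm, Function.iterate_add_apply, Function.iterate_add_apply, sub_eq_zero.1 h]
  have h2 : ∀ m, (f d c)^[m * L] x = x ∧ (f d c)^[m * L] y = y := by
    intro m
    induction m with
    | zero => simp
    | succ m ih =>
      rw [Nat.succ_mul]
      exact ⟨(hper _).1.trans ih.1, (hper _).2.trans ih.2⟩
  apply hxy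
  have h3 := h2 i
  have h4 : i ≤ i * L := Nat.le_mul_of_pos_right i hL
  have h5 := h1 (i * L - i)
  rw [Nat.add_sub_cancel' h4] at h5
  rw [h3.1, h3.2] at h5
  exact h5

/-- `c` integral at `v`: `G d x y` is a unit -/
theorem val_G_good (v : Valuation K ℤᵐ⁰) {d : ℕ} (hd : 2 ≤ d) {c x y : K}
    (hx : Per d c x) (hy : Per d c y) (hxy : x ≠ y) (hc : v c ≤ 1) : v (G d x y) = 1 := by
  have hG : ∀ i, v (G d ((f d c)^[i] x) ((f d c)^[i] y)) ≤ 1 := by
    intro i
    unfold G
    refine Valuation.map_sum_le v fun j _ => ?_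
    rw [map_mul, map_pow, map_pow]
    have h1 := (Loc_Per_iter hx i).pre.val_le_one v hd hc
    have h2 := (Loc_Per_iter hy i).pre.val_le_one v hd hc
    exact mul_le_one' (pow_le_one₀ zero_le h1) (pow_le_one₀ zero_le h2)
  have hanti : Antitone fun i => v ((f d c)^[i] x - (f d c)^[i] y) := by
    apply antitone_nat_of_succ_le
    intro i
    rw [Loc_D_succ, map_mul]
    calc _ ≤ 1 * v ((f d c)^[i] x - (f d c)^[i] y) := mul_le_mul_left (hG i) _
      _ = _ := one_mul _
  obtain ⟨L, hL, hper⟩ := Loc_common hx hy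
  have h1 : v ((f d c)^[L] x - (f d c)^[L] y) = v (x - y) := by
    have := hper 0
    rw [Nat.zero_add] at this
    rw [this.1, this.2]
    rfl
  have h2 : v ((f d c)^[1] x - (f d c)^[1] y) = v (x - y) := by
    apply le_antisymm
    · exact hanti (Nat.zero_le 1)
    · rw [← h1]; exact hanti hL
  have h3 := Loc_D_succ (d := d) (c := c) (x := x) (y := y) 0
  rw [Nat.zero_add] at h3
  rw [h3, map_mul] at h2
  simp only [Function.iterate_zero, id_eq] at h2
  have h4 : v (x - y) ≠ 0 := (Valuation.ne_zero_iff v).2 (sub_ne_zero.2 hxy)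
  exact mul_right_cancel₀ h4 (by rw [h2, one_mul])

/-- close points: all terms of `G` are congruent -/
lemma Loc_close (v : Valuation K ℤᵐ⁰) {d : ℕ} (hd : 2 ≤ d) (hv : v (d : K) = 1) {x y : K}
    {γ : ℤᵐ⁰} (hx : v x = γ) (hγ : γ ≠ 0) (hxy : v (x - y) < γ) : v (G d x y) = γ ^ (d - 1) := by
  have hy : v y ≤ γ := by
    have : y = x - (x - y) := by ring
    rw [this]
    exact (Valuation.map_sub v _ _).trans (max_le hx.le hxy.le)
  have hpos : 0 < γ := zero_lt_iff.2 hγ
  -- powers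
  have hpow : ∀ m : ℕ, v (x ^ m - y ^ m) < γ ^ m ∨ m = 0 := by
    intro m
    induction m with
    | zero => right; rfl
    | succ m ih =>
      left
      have h1 : x ^ (m + 1) - y ^ (m + 1) = x ^ m * (x - y) + (x ^ m - y ^ m) * y := by ring
      rw [h1]
      refine Valuation.map_add_lt v ?_ ?_
      · rw [map_mul, map_pow, hx, pow_succ]
        exact mul_lt_mul_of_pos_left hxy (pow_pos hpos m)
      · rcases ih with ih | rfl
        · rw [map_mul, pow_succ]
          calc v (x ^ m - y ^ m) * v y ≤ v (x ^ m - y ^ m) * γ := mul_le_mul_right hy _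
            _ < γ ^ m * γ := mul_lt_mul_of_pos_right ih hpos
        · simp only [pow_zero, sub_self, zero_mul, map_zero]
          simpa using hpos
  have hsum : v (G d x y - (d : K) * x ^ (d - 1)) < γ ^ (d - 1) := by
    have h1 : G d x y - (d : K) * x ^ (d - 1) =
        ∑ i ∈ Finset.range d, (x ^ i * y ^ (d - 1 - i) - x ^ (d - 1)) := by
      unfold G
      rw [Finset.sum_sub_distrib, Finset.sum_const, Finset.card_range, nsmul_eq_mul]
    rw [h1]
    refine Valuation.map_sum_lt v (pow_ne_zero _ hγ) fun i hi => ?_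
    rw [Finset.mem_range] at hi
    have h2 : x ^ i * y ^ (d - 1 - i) - x ^ (d - 1) =
        -(x ^ i * (x ^ (d - 1 - i) - y ^ (d - 1 - i))) := by
      have : x ^ (d - 1) = x ^ i * x ^ (d - 1 - i) := by
        rw [← pow_add]; congr 1; omega
      rw [this]; ring
    rw [h2, Valuation.map_neg, map_mul, map_pow, hx]
    have h3 : γ ^ (d - 1) = γ ^ i * γ ^ (d - 1 - i) := by
      rw [← pow_add]; congr 1; omega
    rw [h3]
    rcases hpow (d - 1 - i) with h | h
    · exact mul_lt_mul_of_pos_left h (pow_pos hpos i)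
    · rw [h]
      simp only [pow_zero, sub_self, map_zero, mul_zero, mul_one]
      exact pow_pos hpos i
  have h4 : v ((d : K) * x ^ (d - 1)) = γ ^ (d - 1) := by
    rw [map_mul, hv, one_mul, map_pow, hx]
  have h5 : G d x y = (d : K) * x ^ (d - 1) + (G d x y - (d : K) * x ^ (d - 1)) := by ring
  rw [h5, Valuation.map_add_eq_of_lt_left, h4]
  rw [h4]; exact hsum

/-- `c` not integral at `v`, `v` not above `d`: the valuation of `G d x y` is divisible by `d - 1`.
(Proof: D_i = f^i x - f^i y; if v D_i < v x =: γ then v (G (f^i x) (f^i y)) = γ^(d-1), so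
v D_{i+1} = v D_i * γ^(d-1); since v D_i ≤ γ always, this cannot go on for ever, hence
v D_i = γ * (γ^(d-1))^(-a) and the quotient v D_1 / v D_0 is a (d-1)-th power.) -/
theorem val_G_bad (v : Valuation K ℤᵐ⁰) {d : ℕ} (hd : 2 ≤ d) (hv : v (d : K) = 1) {c x y : K}
    (hx : Per d c x) (hy : Per d c y) (hxy : x ≠ y) (hc : 1 < v c) :
    ∃ γ : ℤᵐ⁰, γ ≠ 0 ∧ v (G d x y) = γ ^ (d - 1) := by
  have hd0 : d ≠ 0 := by omega
  obtain ⟨γ, hγ⟩ : ∃ γ, v x = γ := ⟨_, rfl⟩
  have hγc : γ ^ d = v c := by rw [← hγ]; exact hx.pre.val_pow v hd hc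
  have hγ1 : 1 < γ := by
    by_contra hh
    push Not at hh
    exact absurd (hc.trans_le (hγc ▸ pow_le_one₀ zero_le hh)) (lt_irrefl _)
  have hγ0 : γ ≠ 0 := (zero_lt_one.trans hγ1).ne'
  have hval : ∀ z, Per d c z → v z = γ := by
    intro z hz
    have h1 := hz.pre.val_pow v hd hc
    rw [← hγc] at h1
    exact (pow_left_inj₀ zero_le zero_le hd0).1 h1
  have hle : ∀ i, v ((f d c)^[i] x - (f d c)^[i] y) ≤ γ := by
    intro i
    refine (Valuation.map_sub v _ _).trans (max_le ?_ ?_)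
    · exact (hval _ (Loc_Per_iter hx i)).le
    · exact (hval _ (Loc_Per_iter hy i)).le
  have hstep : ∀ i, v ((f d c)^[i] x - (f d c)^[i] y) < γ →
      v ((f d c)^[i + 1] x - (f d c)^[i + 1] y) =
        γ ^ (d - 1) * v ((f d c)^[i] x - (f d c)^[i] y) := by
    intro i hi
    rw [Loc_D_succ, map_mul, Loc_close v hd hv (hval _ (Loc_Per_iter hx i)) hγ0 hi]
  obtain ⟨L, hL, hper⟩ := Loc_common hx hy
  have hn : 1 < γ ^ (d - 1) := one_lt_pow₀ hγ1 (by omega)
  have hreach : ∀ i, ∃ a : ℕ, (γ ^ (d - 1)) ^ a * v ((f d c)^[i] x - (f d c)^[i] y) = γ := by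
    intro i
    have hex : ∃ k, ¬ v ((f d c)^[i + k] x - (f d c)^[i + k] y) < γ := by
      by_contra hno
      push Not at hno
      have h1 : ∀ k, v ((f d c)^[i + k] x - (f d c)^[i + k] y) =
          (γ ^ (d - 1)) ^ k * v ((f d c)^[i] x - (f d c)^[i] y) := by
        intro k
        induction k with
        | zero => simp
        | succ k ih =>
          rw [← add_assoc, hstep _ (hno k), ih, pow_succ', mul_assoc]
      have h2 := h1 L
      rw [(hper i).1, (hper i).2] at h2
      have h3 : v ((f d c)^[i] x - (f d c)^[i] y) ≠ 0 :=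
        (Valuation.ne_zero_iff v).2 (Loc_D_ne hx hy hxy i)
      have h4 : (γ ^ (d - 1)) ^ L = 1 :=
        mul_right_cancel₀ h3 (by rw [← h2, one_mul])
      exact absurd h4 (one_lt_pow₀ hn hL.ne').ne'
    classical
    refine ⟨Nat.find hex, ?_⟩
    have h1 : ∀ k, k ≤ Nat.find hex → v ((f d c)^[i + k] x - (f d c)^[i + k] y) =
          (γ ^ (d - 1)) ^ k * v ((f d c)^[i] x - (f d c)^[i] y) := by
      intro k
      induction k with
      | zero => intro _; simp
      | succ k ih =>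
        intro hk
        have h2 := Nat.find_min hex (m := k) (by omega)
        rw [not_not] at h2
        rw [← add_assoc, hstep _ h2, ih (by omega), pow_succ', mul_assoc]
    rw [← h1 _ le_rfl]
    exact le_antisymm (hle _) (not_lt.1 (Nat.find_spec hex))
  obtain ⟨a, ha⟩ := hreach 0
  obtain ⟨b, hb⟩ := hreach 1
  have h1 := Loc_D_succ (d := d) (c := c) (x := x) (y := y) 0
  rw [Nat.zero_add] at h1
  rw [h1, map_mul] at hb
  simp only [Function.iterate_zero, id_eq] at ha hb
  have hD0 : v (x - y) ≠ 0 := (Valuation.ne_zero_iff v).2 (sub_ne_zero.2 hxy)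
  refine ⟨γ ^ a * (γ ^ b)⁻¹, mul_ne_zero (pow_ne_zero _ hγ0) (inv_ne_zero (pow_ne_zero _ hγ0)), ?_⟩
  have hpb : (γ ^ b) ^ (d - 1) ≠ 0 := pow_ne_zero _ (pow_ne_zero _ hγ0)
  rw [mul_pow, inv_pow]
  apply mul_right_cancel₀ hpb
  rw [mul_assoc, inv_mul_cancel₀ hpb, mul_one]
  apply mul_right_cancel₀ hD0
  have e1 : (γ ^ a) ^ (d - 1) = (γ ^ (d - 1)) ^ a := by rw [← pow_mul, ← pow_mul, mul_comm]
  have e2 : (γ ^ b) ^ (d - 1) = (γ ^ (d - 1)) ^ b := by rw [← pow_mul, ← pow_mul, mul_comm]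
  rw [e1, e2, ha, mul_comm (v (G d x y)), mul_assoc, hb]

theorem val_G (v : Valuation K ℤᵐ⁰) {d : ℕ} (hd : 2 ≤ d) (hv : v (d : K) = 1) {c x y : K}
    (hx : Per d c x) (hy : Per d c y) (hxy : x ≠ y) :
    ∃ γ : ℤᵐ⁰, γ ≠ 0 ∧ v (G d x y) = γ ^ (d - 1) := by
  rcases le_or_gt (v c) 1 with h | h
  · exact ⟨1, one_ne_zero, by rw [one_pow]; exact val_G_good v hd hx hy hxy h⟩
  · exact val_G_bad v hd hv hx hy hxy h

end PowCyc
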