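import Pool.Agent.PowCyc.Key

/-!
# The bound for periodic points
-/

namespace PowCyc

/-- the odd primes dividing both `d` and `b` -/
def Qset (d b : ℕ) : Finset ℕ := d.primeFactors.filter fun q => q ≠ 2 ∧ q ∣ b

lemma mem_Qset {d b q : ℕ} (hd : d ≠ 0) : q ∈ Qset d b ↔ q.Prime ∧ q ∣ d ∧ q ≠ 2 ∧ q ∣ b := by
  unfold Qset
  rw [Finset.mem_filter, Nat.mem_primeFactors]
  tauto

namespace Coord

variable {d : ℕ} {c : ℚ} {b : ℕ} {a : ℤ} {u : ℚ → ℤ} (H : Coord d c b a u)

include H

theorem per_card (hd : d % 12 = 4) (S : Finset ℚ) (hS : ∀ x ∈ S, Per d c x) :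
    S.card ≤ 2 * ∏ q ∈ Qset d b, (q - 1) := by
  classical
  have hd4 : 4 ∣ d := by omega
  have hd0 : d ≠ 0 := by omega
  have hprod : 1 ≤ ∏ q ∈ Qset d b, (q - 1) := by
    apply Finset.one_le_prod'
    intro q hq
    have := ((mem_Qset hd0).mp hq).1.two_le
    omega
  by_cases hb2 : 2 ∣ b
  · -- the classes
    have hq0 : ∀ q : (Qset d b), NeZero (q : ℕ) := fun q =>
      ⟨((mem_Qset hd0).mp q.2).1.ne_zero⟩
    let g : ℚ → (ZMod 4)ˣ × (∀ q : (Qset d b), (ZMod (q : ℕ))ˣ) := fun x =>
      (if h : IsUnit ((u x : ℤ) : ZMod 4) then h.unit else 1,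
        fun q => if h : IsUnit ((u x : ℤ) : ZMod (q : ℕ)) then h.unit else 1)
    have hinj : Set.InjOn g S := by
      intro x hx y hy hxy
      by_contra hne
      have hxP := hS x hx
      have hyP := hS y hy
      have hunit : ∀ z, Per d c z → ∀ m : ℕ, (∀ p : ℕ, p.Prime → p ∣ m → p ∣ b) →
          IsUnit ((u z : ℤ) : ZMod m) := by
        intro z hz m hm
        rw [ZMod.coe_int_isUnit_iff_isCoprime]
        apply isCoprime_of_prime
        intro p hp h1 h2
        exact not_dvd_of_coprime hp (hm p hp (by exact_mod_cast h1)) (H.hcop z hz.pre) h2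
      have h4u : ∀ p : ℕ, p.Prime → p ∣ 4 → p ∣ b := by
        intro p hp h
        have : p ∣ 2 ^ 2 := by norm_num; exact h
        rw [(Nat.prime_dvd_prime_iff_eq hp Nat.prime_two).mp (hp.dvd_of_dvd_pow this)]
        exact hb2
      have h1 : ((u x : ℤ) : ZMod 4) = ((u y : ℤ) : ZMod 4) := by
        have h2 := congrArg (fun t => ((t.1 : (ZMod 4)ˣ) : ZMod 4)) hxy
        simp only [g, dif_pos (hunit x hxP 4 h4u), dif_pos (hunit y hyP 4 h4u),
          IsUnit.unit_spec] at h2
        exact h2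
      refine H.per_pair hd hxP hyP hne hb2 ?_ ?_
      · have h2 := (ZMod.intCast_eq_intCast_iff_dvd_sub (u y) (u x) 4).mp h1.symm
        exact_mod_cast h2
      · intro q hq hq2 hqd hqb
        have hmem : q ∈ Qset d b := (mem_Qset hd0).mpr ⟨hq, hqd, hq2, hqb⟩
        have hqu : ∀ p : ℕ, p.Prime → p ∣ q → p ∣ b := fun p hp h => by
          rw [(Nat.prime_dvd_prime_iff_eq hp hq).mp h]; exact hqb
        have h2 := congrArg (fun t => ((t.2 ⟨q, hmem⟩ : (ZMod q)ˣ) : ZMod q)) hxy
        simp only [g, dif_pos (hunit x hxP q hqu), dif_pos (hunit y hyP q hqu),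
          IsUnit.unit_spec] at h2
        exact (ZMod.intCast_eq_intCast_iff_dvd_sub (u y) (u x) q).mp h2.symm
    have hcard : S.card ≤ Fintype.card ((ZMod 4)ˣ × (∀ q : (Qset d b), (ZMod (q : ℕ))ˣ)) := by
      rw [← Finset.card_univ]
      exact Finset.card_le_card_of_injOn g (fun x _ => Finset.mem_univ _) hinj
    refine hcard.trans (le_of_eq ?_)
    rw [Fintype.card_prod, Fintype.card_pi]
    have h4 : Fintype.card (ZMod 4)ˣ = 2 := by
      rw [ZMod.card_units_eq_totient]; decide
    rw [h4]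
    congr 1
    rw [← Finset.prod_coe_sort (Qset d b) (fun q => q - 1)]
    apply Finset.prod_congr rfl
    intro q _
    rw [ZMod.card_units_eq_totient, Nat.totient_prime ((mem_Qset hd0).mp q.2).1]
  · have hinj : Set.InjOn (fun x => ((u x : ℤ) : ZMod 2)) S := by
      intro x hx y hy hxy
      by_contra hne
      have h1 := (H.per_good hd4 hd0 Nat.prime_two hb2 (hS x hx) (hS y hy) hne).1
      apply h1
      have h2 := (ZMod.intCast_eq_intCast_iff_dvd_sub (u y) (u x) 2).mp hxy.symm
      have h3 : u x + u y = (u x - u y) + 2 * u y := by ring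
      rw [h3]
      exact dvd_add (by exact_mod_cast h2) (by norm_num)
    have hcard : S.card ≤ Fintype.card (ZMod 2) := by
      rw [← Finset.card_univ]
      exact Finset.card_le_card_of_injOn _ (fun x _ => Finset.mem_univ _) hinj
    rw [ZMod.card] at hcard
    omega

end Coord

end PowCyc
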