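import Mathlib

/-!
# Finiteness of `K(S, n)`
-/

namespace PowCyc

open IsDedekindDomain NumberField WithZero

namespace SelmerAux

open FractionalIdeal nonZeroDivisors

variable {K : Type*} [Field K] [NumberField K]

/-- the valuation in terms of the factorisation of the principal fractional ideal -/
theorem count_val (v : HeightOneSpectrum (𝓞 K)) {x : K} (hx : x ≠ 0) :
    v.valuation K x = exp (-(count K v (spanSingleton (𝓞 K)⁰ x))) := by
  obtain ⟨r, s, rfl⟩ := IsLocalization.exists_mk'_eq (𝓞 K)⁰ x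
  have hs : (s : 𝓞 K) ≠ 0 := nonZeroDivisors.coe_ne_zero s
  have hr : r ≠ 0 := by
    rintro rfl
    exact hx (IsLocalization.mk'_zero s)
  have hI : spanSingleton (𝓞 K)⁰ (IsLocalization.mk' K r s) ≠ 0 :=
    spanSingleton_ne_zero_iff.mpr hx
  have h1 : spanSingleton (𝓞 K)⁰ (IsLocalization.mk' K r s) =
      spanSingleton (𝓞 K)⁰ ((algebraMap (𝓞 K) K) s)⁻¹ * ↑(Ideal.span {r} : Ideal (𝓞 K)) := by
    rw [coeIdeal_span_singleton, spanSingleton_mul_spanSingleton, IsFractionRing.mk'_eq_div,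
      div_eq_inv_mul]
  rw [count_well_defined K v hI h1, v.valuation_of_mk', v.intValuation_if_neg hr,
    v.intValuation_if_neg hs, ← exp_sub]
  congr 1
  ring

/-- an element all of whose valuations are `n`-th powers generates the `n`-th power of a
fractional ideal -/
theorem exists_root {n : ℕ} (hn : 0 < n) {x : K} (hx : x ≠ 0)
    (h : ∀ v : HeightOneSpectrum (𝓞 K), ∃ γ : ℤᵐ⁰, v.valuation K x = γ ^ n) :
    ∃ a : (FractionalIdeal (𝓞 K)⁰ K)ˣ,
      (a : FractionalIdeal (𝓞 K)⁰ K) ^ n = spanSingleton (𝓞 K)⁰ x := by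
  have hI : spanSingleton (𝓞 K)⁰ x ≠ 0 := spanSingleton_ne_zero_iff.mpr hx
  have hk : ∀ v : HeightOneSpectrum (𝓞 K), ∃ k : ℤ,
      count K v (spanSingleton (𝓞 K)⁰ x) = k * n := by
    intro v
    obtain ⟨γ, hγ⟩ := h v
    have h1 : v.valuation K x ≠ 0 := (Valuation.ne_zero_iff _).mpr hx
    have hγ0 : γ ≠ 0 := by
      rintro rfl
      rw [zero_pow hn.ne'] at hγ
      exact h1 hγ
    rw [count_val v hx, ← exp_log hγ0, ← exp_nsmul, exp_inj, nsmul_eq_mul] at hγ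
    exact ⟨-log γ, by linarith [hγ]⟩
  choose k hk using hk
  have hfin : (fun v : HeightOneSpectrum (𝓞 K) =>
      (v.asIdeal : FractionalIdeal (𝓞 K)⁰ K) ^ (k v)).HasFiniteMulSupport := by
    have h1 := finite_factors (K := K) (spanSingleton (𝓞 K)⁰ x)
    rw [Filter.eventually_cofinite] at h1
    refine h1.subset fun v hv h0 => hv ?_
    rw [hk v] at h0
    have h2 : k v = 0 := by
      rcases mul_eq_zero.mp h0 with h3 | h3
      · exact h3
      · exact absurd h3 (by exact_mod_cast hn.ne')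
    change (v.asIdeal : FractionalIdeal (𝓞 K)⁰ K) ^ (k v) = 1
    rw [h2, zpow_zero]
  have h3 : (∏ᶠ v : HeightOneSpectrum (𝓞 K), (v.asIdeal : FractionalIdeal (𝓞 K)⁰ K) ^ (k v)) ^ n =
      spanSingleton (𝓞 K)⁰ x := by
    rw [finprod_pow hfin]
    conv_rhs => rw [← finprod_heightOneSpectrum_factorization' K hI]
    refine finprod_congr fun v => ?_
    rw [hk v, zpow_mul, zpow_natCast]
  have h4 : (∏ᶠ v : HeightOneSpectrum (𝓞 K), (v.asIdeal : FractionalIdeal (𝓞 K)⁰ K) ^ (k v)) ≠ 0 := by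
    intro h0
    rw [h0, zero_pow hn.ne'] at h3
    exact hI h3.symm
  exact ⟨Units.mk0 _ h4, h3⟩

/-- finite modulo `n`-th powers -/
def FMP (n : ℕ) (X : Set K) : Prop :=
  ∃ T : Finset K, (∀ κ ∈ T, κ ≠ 0) ∧ ∀ E ∈ X, ∃ κ ∈ T, ∃ z : K, z ≠ 0 ∧ E = κ * z ^ n

theorem FMP.step {n : ℕ} {X Y : Set K} (hY : FMP n Y) {F : Type*} [Finite F] (φ : K → F)
    (hX0 : ∀ x ∈ X, x ≠ 0) (h : ∀ x ∈ X, ∀ x' ∈ X, φ x = φ x' → x / x' ∈ Y) : FMP n X := by
  classical
  have := Fintype.ofFinite F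
  obtain ⟨T, hT0, hT⟩ := hY
  have he : ∀ a : F, ∃ e : K, e ≠ 0 ∧ ((∃ x ∈ X, φ x = a) → e ∈ X ∧ φ e = a) := by
    intro a
    by_cases ha : ∃ x ∈ X, φ x = a
    · obtain ⟨x, hx, hxa⟩ := ha
      exact ⟨x, hX0 x hx, fun _ => ⟨hx, hxa⟩⟩
    · exact ⟨1, one_ne_zero, fun h => absurd h ha⟩
  choose e he0 he using he
  refine ⟨(Finset.univ ×ˢ T).image fun p : F × K => e p.1 * p.2, ?_, ?_⟩
  · intro κ hκ
    obtain ⟨p, hp, rfl⟩ := Finset.mem_image.mp hκ
    exact mul_ne_zero (he0 _) (hT0 _ (Finset.mem_product.mp hp).2)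
  · intro E hE
    obtain ⟨h1, h2⟩ := he (φ E) ⟨E, hE, rfl⟩
    obtain ⟨κ, hκ, z, hz, hEz⟩ := hT _ (h E hE _ h1 h2.symm)
    refine ⟨e (φ E) * κ, Finset.mem_image.mpr ⟨(φ E, κ), Finset.mem_product.mpr
      ⟨Finset.mem_univ _, hκ⟩, rfl⟩, z, hz, ?_⟩
    rw [div_eq_iff (hX0 _ h1)] at hEz
    exact hEz.trans (by ring)

theorem fmp_units {n : ℕ} (hn : 0 < n) :
    FMP n {x : K | ∃ (u : (𝓞 K)ˣ) (w : K), w ≠ 0 ∧ x = (u : K) * w ^ n} := by
  classical
  have h1 : Group.FG (𝓞 K)ˣ := Group.fg_iff_monoid_fg.mpr inferInstance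
  have h2 : (powMonoidHom (α := (𝓞 K)ˣ) n).range.FiniteIndex :=
    Subgroup.finiteIndex_range_powMonoidHom_of_fg (𝓞 K)ˣ hn.ne'
  have h3 : Finite ((𝓞 K)ˣ ⧸ (powMonoidHom (α := (𝓞 K)ˣ) n).range) :=
    Subgroup.finiteIndex_iff_finite_quotient.mp h2
  have := Fintype.ofFinite ((𝓞 K)ˣ ⧸ (powMonoidHom (α := (𝓞 K)ˣ) n).range)
  refine ⟨Finset.univ.image fun q : (𝓞 K)ˣ ⧸ (powMonoidHom (α := (𝓞 K)ˣ) n).range =>
    ((q.out : (𝓞 K)ˣ) : K), ?_, ?_⟩
  · intro κ hκ
    obtain ⟨q, -, rfl⟩ := Finset.mem_image.mp hκ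
    exact NumberField.Units.coe_ne_zero _
  · rintro E ⟨u, w, hw, rfl⟩
    set q : (𝓞 K)ˣ ⧸ (powMonoidHom (α := (𝓞 K)ˣ) n).range := QuotientGroup.mk u with hq
    refine ⟨((q.out : (𝓞 K)ˣ) : K), Finset.mem_image.mpr ⟨q, Finset.mem_univ _, rfl⟩, ?_⟩
    have h4 : (QuotientGroup.mk q.out : (𝓞 K)ˣ ⧸ (powMonoidHom (α := (𝓞 K)ˣ) n).range) =
        QuotientGroup.mk u := by rw [QuotientGroup.out_eq']
    rw [QuotientGroup.eq] at h4
    obtain ⟨ε, hε⟩ := h4
    have h5 : u = q.out * ε ^ n := by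
      have h6 : ε ^ n = q.out⁻¹ * u := hε
      rw [h6, mul_inv_cancel_left]
    refine ⟨(ε : K) * w, mul_ne_zero (NumberField.Units.coe_ne_zero _) hw, ?_⟩
    conv_lhs => rw [h5]
    push_cast
    ring

theorem fmp_all {n : ℕ} (hn : 0 < n) :
    FMP n {x : K | x ≠ 0 ∧ ∀ v : HeightOneSpectrum (𝓞 K), ∃ γ : ℤᵐ⁰, v.valuation K x = γ ^ n} := by
  classical
  refine (fmp_units hn).step (fun x : K =>
    if h : ∃ a : (FractionalIdeal (𝓞 K)⁰ K)ˣ,
      (a : FractionalIdeal (𝓞 K)⁰ K) ^ n = spanSingleton (𝓞 K)⁰ x then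
      ClassGroup.mk K (Classical.choose h) else 1) (fun x hx => hx.1) ?_
  rintro x ⟨hx0, hx⟩ x' ⟨hx0', hx'⟩ hxx
  have h1 := exists_root hn hx0 hx
  have h2 := exists_root hn hx0' hx'
  simp only [dif_pos h1, dif_pos h2] at hxx
  have h3 := Classical.choose_spec h1
  have h4 := Classical.choose_spec h2
  set a := Classical.choose h1
  set b := Classical.choose h2
  have h5 : ClassGroup.mk K (a * b⁻¹) = 1 := by
    rw [map_mul, map_inv, hxx, mul_inv_cancel]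
  rw [ClassGroup.mk_eq_one_iff, isPrincipal_iff] at h5
  obtain ⟨w, hw⟩ := h5
  have h6 : spanSingleton (𝓞 K)⁰ (w ^ n * x') = spanSingleton (𝓞 K)⁰ x := by
    rw [← spanSingleton_mul_spanSingleton, ← spanSingleton_pow, ← hw, ← h3, ← h4, ← mul_pow,
      ← Units.val_mul, inv_mul_cancel_right]
  rw [spanSingleton_eq_spanSingleton] at h6
  obtain ⟨u, hu⟩ := h6
  have hw0 : w ≠ 0 := by
    rintro rfl
    rw [spanSingleton_zero] at hw
    exact Units.ne_zero _ hw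
  refine ⟨u, w, hw0, ?_⟩
  rw [div_eq_iff hx0', ← hu, Units.smul_def, Algebra.smul_def]
  ring

end SelmerAux

open SelmerAux

variable (K : Type*) [Field K] [NumberField K]

/-- Elements of a number field whose valuations outside a finite set `S` are `n`-th powers fall into
finitely many classes modulo `n`-th powers.
(Proof: two elements with the same valuations mod `n` in `S` and the same ideal class of the
`n`-th root ideal differ by a unit times an `n`-th power; units mod `n`-th powers are finite by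
Dirichlet. A convenient route: pigeonhole / `Set.Finite` of the quotient by choosing
representatives: map E ↦ (the class group element of the n-th root ideal, valuations mod n on S) to a
finite type, and for each value of the map choose one E₀; then E/E₀ = unit * z^n.) -/
theorem selmer_finite (n : ℕ) (hn : 0 < n) (S : Set (HeightOneSpectrum (𝓞 K))) (hS : S.Finite) :
    ∃ T : Finset K, (∀ κ ∈ T, κ ≠ 0) ∧ ∀ E : K, E ≠ 0 →
      (∀ v : HeightOneSpectrum (𝓞 K), v ∉ S → ∃ γ : ℤᵐ⁰, v.valuation K E = γ ^ n) →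
      ∃ κ ∈ T, ∃ z : K, z ≠ 0 ∧ E = κ * z ^ n := by
  classical
  have hn' : NeZero n := ⟨hn.ne'⟩
  have hS' : Finite S := hS.to_subtype
  have key : FMP n {x : K | x ≠ 0 ∧ ∀ v : HeightOneSpectrum (𝓞 K), v ∉ S →
      ∃ γ : ℤᵐ⁰, v.valuation K x = γ ^ n} := by
    refine (fmp_all hn).step (fun x : K => fun v : S =>
      ((log (v.1.valuation K x) : ℤ) : ZMod n)) (fun x hx => hx.1) ?_
    rintro x ⟨hx0, hx⟩ x' ⟨hx0', hx'⟩ hxx
    refine ⟨div_ne_zero hx0 hx0', fun v => ?_⟩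
    by_cases hv : v ∈ S
    · have h1 := congrFun hxx ⟨v, hv⟩
      simp only at h1
      rw [ZMod.intCast_eq_intCast_iff_dvd_sub] at h1
      obtain ⟨k, hk⟩ := h1
      have h2 : v.valuation K x ≠ 0 := (Valuation.ne_zero_iff _).mpr hx0
      have h3 : v.valuation K x' ≠ 0 := (Valuation.ne_zero_iff _).mpr hx0'
      refine ⟨exp (-k), ?_⟩
      rw [map_div₀, ← exp_log h2, ← exp_log h3, ← exp_sub, ← exp_nsmul, exp_inj, nsmul_eq_mul]
      linarith [hk]
    · obtain ⟨γ, hγ⟩ := hx v hv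
      obtain ⟨γ', hγ'⟩ := hx' v hv
      exact ⟨γ / γ', by rw [map_div₀, hγ, hγ', div_pow]⟩
  obtain ⟨T, hT0, hT⟩ := key
  exact ⟨T, hT0, fun E hE h => hT E ⟨hE, h⟩⟩

/-- only finitely many places above a nonzero integer -/
theorem finite_bad (d : ℕ) (hd : d ≠ 0) :
    {v : HeightOneSpectrum (𝓞 K) | v.valuation K (d : K) ≠ 1}.Finite := by
  have hI : Ideal.span {(d : 𝓞 K)} ≠ 0 := by
    rw [Ne, Ideal.zero_eq_bot, Ideal.span_singleton_eq_bot]
    exact_mod_cast hd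
  refine (Ideal.finite_factors hI).subset fun v hv => ?_
  have h1 : v.valuation K (algebraMap (𝓞 K) K (d : 𝓞 K)) ≤ 1 := v.valuation_le_one _
  have h2 : v.valuation K (algebraMap (𝓞 K) K (d : 𝓞 K)) ≠ 1 := by
    rw [map_natCast]
    exact hv
  exact (v.valuation_lt_one_iff_dvd _).mp (lt_of_le_of_ne h1 h2)

end PowCyc
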