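import Pool.Agent.PowCyc.Defs
import Pool.Agent.PowCyc.Denom
import Pool.Agent.PowCyc.Cubes

/-!
# Integral coordinates of rational preperiodic points, and the good primes
-/

namespace PowCyc

/-- `u x = b * x` as an integer -/
structure Coord (d : ℕ) (c : ℚ) (b : ℕ) (a : ℤ) (u : ℚ → ℤ) : Prop where
  bpos : 0 < b
  cop : IsCoprime a (b : ℤ)
  hc : c = a / (b : ℚ) ^ d
  hu : ∀ x, Pre d c x → (x = u x / (b : ℚ))
  hcop : ∀ x, Pre d c x → IsCoprime (u x) (b : ℤ)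

lemma Pre.map {K : Type*} [Field K] {d : ℕ} {c x : K} (h : Pre d c x) : Pre d c (f d c x) := by
  refine h.subset ?_
  rintro _ ⟨k, rfl⟩
  exact ⟨k + 1, Function.iterate_succ_apply _ _ _⟩

lemma Pre.iter {K : Type*} [Field K] {d : ℕ} {c x : K} (h : Pre d c x) (i : ℕ) :
    Pre d c ((f d c)^[i] x) := by
  induction i with
  | zero => exact h
  | succ i ih => rw [Function.iterate_succ_apply']; exact ih.map

lemma Pre.of_map {K : Type*} [Field K] {d : ℕ} {c x : K} (h : Pre d c (f d c x)) : Pre d c x := by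
  have : (Set.range fun k : ℕ => (f d c)^[k] x) ⊆
      insert x (Set.range fun k : ℕ => (f d c)^[k] (f d c x)) := by
    rintro _ ⟨k, rfl⟩
    rcases k with _ | k
    · exact Set.mem_insert _ _
    · exact Set.mem_insert_of_mem _ ⟨k, (Function.iterate_succ_apply _ _ _).symm⟩
  exact (Set.Finite.insert x h).subset this

theorem exists_coord (d : ℕ) (hd : 2 ≤ d) (c : ℚ) (hne : ∃ x, Pre d c x) :
    ∃ b a u, Coord d c b a u := by
  obtain ⟨b, hb, a, hab, hc, h⟩ := exists_denom d hd c hne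
  refine ⟨b, a, fun x => (x * b).num, hb, hab, hc, ?_, ?_⟩
  · intro x hx
    obtain ⟨v, _, rfl⟩ := h x hx
    have hb' : (b : ℚ) ≠ 0 := by exact_mod_cast hb.ne'
    rw [div_mul_cancel₀ _ hb', Rat.num_intCast]
  · intro x hx
    obtain ⟨v, hv, rfl⟩ := h x hx
    have hb' : (b : ℚ) ≠ 0 := by exact_mod_cast hb.ne'
    simp only [div_mul_cancel₀ _ hb', Rat.num_intCast]
    exact hv

namespace Coord

variable {d : ℕ} {c : ℚ} {b : ℕ} {a : ℤ} {u : ℚ → ℤ} (H : Coord d c b a u)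

include H

lemma bne : (b : ℚ) ≠ 0 := by exact_mod_cast H.bpos.ne'

lemma bneZ : (b : ℤ) ≠ 0 := by exact_mod_cast H.bpos.ne'

lemma cast {x : ℚ} (hx : Pre d c x) : (u x : ℚ) = x * b := by
  rw [eq_comm, ← eq_div_iff H.bne]
  exact H.hu x hx

lemma inj {x y : ℚ} (hx : Pre d c x) (hy : Pre d c y) (h : u x = u y) : x = y := by
  rw [H.hu x hx, H.hu y hy, h]

lemma step_eq (hd : 1 ≤ d) {x : ℚ} (hx : Pre d c x) :
    (b : ℤ) ^ (d - 1) * u (f d c x) = u x ^ d + a := by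
  have h1 := H.cast hx.map
  have h2 := H.cast hx
  have h3 : ((b : ℚ)) ^ (d - 1) * u (f d c x) = (u x : ℚ) ^ d + a := by
    rw [h1, h2, f, H.hc]
    have h4 : (b : ℚ) ^ d = (b : ℚ) ^ (d - 1) * b := by
      rw [← pow_succ]; congr 1; omega
    have h5 : (b : ℚ) ^ (d - 1) ≠ 0 := pow_ne_zero _ H.bne
    rw [mul_pow]
    have hb := H.bne
    field_simp
    rw [h4]; ring
  exact_mod_cast h3

lemma sub_pow (hd : 1 ≤ d) {x y : ℚ} (hx : Pre d c x) (hy : Pre d c y) :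
    u x ^ d - u y ^ d = (b : ℤ) ^ (d - 1) * (u (f d c x) - u (f d c y)) := by
  have h1 := H.step_eq hd hx
  have h2 := H.step_eq hd hy
  linear_combination h2 - h1

lemma neg {x : ℚ} (hx : Pre d c x) (hx' : Pre d c (-x)) : u (-x) = - u x := by
  have h1 := H.cast hx'
  have h2 := H.cast hx
  have h3 : (u (-x) : ℚ) = - (u x : ℚ) := by rw [h1, h2]; ring
  exact_mod_cast h3

end Coord

lemma Per.iter_ne {K : Type*} [Field K] {d : ℕ} {c x y : K} (hx : Per d c x) (hy : Per d c y)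
    (hxy : x ≠ y) (i : ℕ) : (f d c)^[i] x ≠ (f d c)^[i] y := by
  intro h
  obtain ⟨k, hk, hkx⟩ := hx
  obtain ⟨l, hl, hly⟩ := hy
  have h1 : (f d c)^[k * l * (i + 1)] x = x :=
    (Function.IsPeriodicPt.mul_const (Function.IsPeriodicPt.mul_const
      (show Function.IsPeriodicPt (f d c) k x from hkx) l) (i + 1))
  have h2 : (f d c)^[k * l * (i + 1)] y = y := by
    rw [mul_comm k l]
    exact (Function.IsPeriodicPt.mul_const (Function.IsPeriodicPt.mul_const
      (show Function.IsPeriodicPt (f d c) l y from hly) k) (i + 1))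
  have hle : i ≤ k * l * (i + 1) := by
    have : 1 ≤ k * l := Nat.mul_pos hk hl
    nlinarith
  obtain ⟨j, hj⟩ := Nat.exists_eq_add_of_le hle
  rw [hj, add_comm, Function.iterate_add_apply] at h1 h2
  apply hxy
  rw [← h1, ← h2, h]

lemma Per.common {K : Type*} [Field K] {d : ℕ} {c x y : K} (hx : Per d c x) (hy : Per d c y) :
    ∃ L : ℕ, 0 < L ∧ (f d c)^[L] x = x ∧ (f d c)^[L] y = y := by
  obtain ⟨k, hk, hkx⟩ := hx
  obtain ⟨l, hl, hly⟩ := hy
  refine ⟨k * l, Nat.mul_pos hk hl, ?_, ?_⟩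
  · exact (Function.IsPeriodicPt.mul_const
      (show Function.IsPeriodicPt (f d c) k x from hkx) l)
  · rw [mul_comm]
    exact (Function.IsPeriodicPt.mul_const
      (show Function.IsPeriodicPt (f d c) l y from hly) k)

lemma four_dvd_factor {d : ℕ} (hd : 4 ∣ d) (x y : ℤ) :
    ∃ R : ℤ, x ^ d - y ^ d = (x - y) * ((x + y) * (x ^ 2 + y ^ 2)) * R := by
  obtain ⟨e, rfl⟩ := hd
  obtain ⟨R, hR⟩ := sub_dvd_pow_sub_pow (x ^ 4) (y ^ 4) e
  refine ⟨R, ?_⟩
  rw [pow_mul, pow_mul, hR]; ring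

/-- the arithmetic of one step at a prime not dividing `b` -/
lemma good_step {p : ℕ} (hp : p.Prime) {d b : ℕ} (hd : 4 ∣ d) (hb : ¬ p ∣ b)
    {s t s' t' : ℤ} (h : s ^ d - t ^ d = (b : ℤ) ^ (d - 1) * (s' - t')) (hne : s' ≠ t') :
    padicValInt p (s - t) ≤ padicValInt p (s' - t') ∧
    (padicValInt p (s' - t') ≤ padicValInt p (s - t) →
      ¬ (p : ℤ) ∣ s + t ∧ ¬ (p : ℤ) ∣ s ^ 2 + t ^ 2) := by
  have hpp := Nat.prime_iff_prime_int.mp hp
  have hb0 : (b : ℤ) ≠ 0 := by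
    rintro h0
    apply hb
    rw [Nat.cast_eq_zero.mp h0]
    exact dvd_zero p
  have hbn : (b : ℤ) ^ (d - 1) ≠ 0 := pow_ne_zero _ hb0
  have hst : s' - t' ≠ 0 := sub_ne_zero.mpr hne
  obtain ⟨R, hR⟩ := four_dvd_factor hd s t
  have hval : padicValInt p ((b : ℤ) ^ (d - 1) * (s' - t')) = padicValInt p (s' - t') := by
    rw [padicValInt_mul hp hbn hst]
    have : padicValInt p ((b : ℤ) ^ (d - 1)) = 0 := by
      apply padicValInt.eq_zero_of_not_dvd
      intro h1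
      exact hb (by exact_mod_cast hpp.dvd_of_dvd_pow h1)
    rw [this, zero_add]
  rw [← h, hR] at hval
  have hprod : (s - t) * ((s + t) * (s ^ 2 + t ^ 2)) * R ≠ 0 := by
    rw [← hR, h]; exact mul_ne_zero hbn hst
  have hR0 : R ≠ 0 := right_ne_zero_of_mul hprod
  have h1 : (s - t) * ((s + t) * (s ^ 2 + t ^ 2)) ≠ 0 := left_ne_zero_of_mul hprod
  have h2 : s - t ≠ 0 := left_ne_zero_of_mul h1
  have h3 : (s + t) * (s ^ 2 + t ^ 2) ≠ 0 := right_ne_zero_of_mul h1
  have h4 : s + t ≠ 0 := left_ne_zero_of_mul h3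
  have h5 : s ^ 2 + t ^ 2 ≠ 0 := right_ne_zero_of_mul h3
  rw [padicValInt_mul hp h1 hR0, padicValInt_mul hp h2 h3, padicValInt_mul hp h4 h5] at hval
  refine ⟨by omega, fun hle => ?_⟩
  have h6 : padicValInt p (s + t) = 0 := by omega
  have h7 : padicValInt p (s ^ 2 + t ^ 2) = 0 := by omega
  rw [padicValInt.eq_zero_iff] at h6 h7
  constructor
  · rcases h6 with h6 | h6 | h6
    · exact absurd h6 hp.ne_one
    · exact absurd h6 h4
    · exact h6
  · rcases h7 with h6 | h6 | h6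
    · exact absurd h6 hp.ne_one
    · exact absurd h6 h5
    · exact h6

namespace Coord

variable {d : ℕ} {c : ℚ} {b : ℕ} {a : ℤ} {u : ℚ → ℤ} (H : Coord d c b a u)

include H

/-- at a prime not dividing `b`, distinct periodic points `x, y` have
`p ∤ u x + u y`, `p ∤ u x ^ 2 + u y ^ 2` -/
theorem per_good (hd : 4 ∣ d) (hd0 : d ≠ 0) {p : ℕ} (hp : p.Prime) (hb : ¬ p ∣ b) {x y : ℚ}
    (hx : Per d c x) (hy : Per d c y) (hxy : x ≠ y) :
    ¬ (p : ℤ) ∣ u x + u y ∧ ¬ (p : ℤ) ∣ u x ^ 2 + u y ^ 2 := by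
  have hd1 : 1 ≤ d := Nat.one_le_iff_ne_zero.mpr hd0
  have hne : ∀ i, u ((f d c)^[i] x) ≠ u ((f d c)^[i] y) := fun i h =>
    hx.iter_ne hy hxy i (H.inj (hx.pre.iter i) (hy.pre.iter i) h)
  have hstep : ∀ i, padicValInt p (u ((f d c)^[i] x) - u ((f d c)^[i] y)) ≤
      padicValInt p (u ((f d c)^[i + 1] x) - u ((f d c)^[i + 1] y)) := by
    intro i
    have h1 := H.sub_pow hd1 (hx.pre.iter i) (hy.pre.iter i)
    simp only [← Function.iterate_succ_apply' (f d c)] at h1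
    exact (good_step hp hd hb h1 (hne (i + 1))).1
  have hmono : Monotone fun i => padicValInt p (u ((f d c)^[i] x) - u ((f d c)^[i] y)) :=
    monotone_nat_of_le_succ hstep
  obtain ⟨L, hL, hLx, hLy⟩ := hx.common hy
  have h1 := H.sub_pow hd1 hx.pre hy.pre
  refine (good_step hp hd hb h1 ?_).2 ?_
  · exact hne 1
  · have h2 := hmono (show 1 ≤ L from hL)
    simp only [hLx, hLy] at h2
    exact h2

end Coord

end PowCyc
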