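import Pool.Agent.PowCyc.Defs

/-!
# Dynamics of a map with few periodic points
-/

namespace PowCyc

variable {K : Type*} [Field K]

lemma Per.map {d : ℕ} {c x : K} (h : Per d c x) : Per d c (f d c x) := by
  obtain ⟨k, hk, hx⟩ := h
  refine ⟨k, hk, ?_⟩
  rw [← Function.iterate_succ_apply, Function.iterate_succ_apply', hx]

private lemma st_iter_mul {d : ℕ} {c x : K} {k : ℕ} (hx : (f d c)^[k] x = x) (l : ℕ) :
    (f d c)^[k * l] x = x := by
  rw [Function.iterate_mul]
  exact Function.iterate_fixed hx l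

lemma Per.inj {d : ℕ} {c x y : K} (hx : Per d c x) (hy : Per d c y)
    (h : f d c x = f d c y) : x = y := by
  obtain ⟨k, hk, hkx⟩ := hx
  obtain ⟨l, hl, hly⟩ := hy
  have h1 : (f d c)^[k * l] x = x := st_iter_mul hkx l
  have h2 : (f d c)^[k * l] y = y := by
    rw [mul_comm]
    exact st_iter_mul hly k
  obtain ⟨m, hm⟩ : ∃ m, k * l = m + 1 := ⟨k * l - 1, by
    have := Nat.mul_pos hk hl
    omega⟩
  rw [hm, Function.iterate_succ_apply] at h1 h2
  rw [← h1, ← h2, h]

lemma Per.exists_preimage {d : ℕ} {c x : K} (h : Per d c x) :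
    ∃ y, Per d c y ∧ f d c y = x := by
  obtain ⟨k, hk, hx⟩ := h
  obtain ⟨m, rfl⟩ : ∃ m, k = m + 1 := ⟨k - 1, by omega⟩
  refine ⟨(f d c)^[m] x, ⟨m + 1, Nat.succ_pos m, ?_⟩, ?_⟩
  · rw [← Function.iterate_add_apply, add_comm, Function.iterate_add_apply, hx]
  · rw [← Function.iterate_succ_apply' (f d c) m x]
    exact hx

/-- every preperiodic point reaches a periodic point -/
lemma Pre.exists_per {d : ℕ} {c x : K} (h : Pre d c x) : ∃ m : ℕ, Per d c ((f d c)^[m] x) := by
  have hni : ¬ Function.Injective (fun k : ℕ => (f d c)^[k] x) := fun hinj =>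
    Set.infinite_range_of_injective hinj h
  rw [Function.Injective] at hni
  push Not at hni
  obtain ⟨i, j, hij, hne⟩ := hni
  have key : ∀ i j : ℕ, i < j → (f d c)^[i] x = (f d c)^[j] x → Per d c ((f d c)^[i] x) := by
    intro i j hlt he
    refine ⟨j - i, by omega, ?_⟩
    rw [← Function.iterate_add_apply, show j - i + i = j by omega]
    exact he.symm
  rcases lt_or_gt_of_ne hne with hlt | hlt
  · exact ⟨i, key i j hlt hij⟩
  · exact ⟨j, key j i hlt hij.symm⟩

/-- more preperiodic points than `d`-th roots of unity: there are two periodic points, or a fixed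
point with a second level of preimages -/
theorem structure_pre {d : ℕ} (hd : 2 ≤ d) {c : K} (hc : c ≠ 0) (S : Finset K)
    (hS : ∀ x ∈ S, Pre d c x) (hcard : (Polynomial.nthRootsFinset d (1 : K)).card < S.card) :
    (∃ x y, Per d c x ∧ Per d c y ∧ x ≠ y) ∨
    (∃ x ζ w, x ≠ 0 ∧ f d c x = x ∧ ζ ^ d = 1 ∧ ζ ≠ 1 ∧ w ^ d + c = ζ * x) := by
  classical
  by_cases h2 : ∃ x y, Per d c x ∧ Per d c y ∧ x ≠ y
  · exact Or.inl h2
  right
  push Not at h2
  obtain ⟨s, hs⟩ : S.Nonempty := Finset.card_pos.1 (by omega)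
  obtain ⟨m0, hp⟩ := (hS s hs).exists_per
  obtain ⟨p, hpdef⟩ : ∃ p, p = (f d c)^[m0] s := ⟨_, rfl⟩
  rw [← hpdef] at hp
  have hfix : f d c p = p := h2 _ _ hp.map hp
  have hp0 : p ≠ 0 := by
    rintro rfl
    apply hc
    have : (0 : K) ^ d + c = 0 := hfix
    rwa [zero_pow (by omega), zero_add] at this
  -- some point of `S` needs two steps
  have hex : ∃ x ∈ S, f d c x ≠ p := by
    by_contra hcon
    push Not at hcon
    apply absurd hcard
    rw [not_lt]
    refine Finset.card_le_card_of_injOn (fun x => x / p) ?_ ?_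
    · intro x hx
      rw [Finset.mem_coe] at hx
      have h3 : f d c x = f d c p := (hcon x hx).trans hfix.symm
      have h4 : x ^ d = p ^ d := by
        unfold f at h3
        exact add_right_cancel h3
      rw [Finset.mem_coe, Polynomial.mem_nthRootsFinset (by omega), div_pow, h4,
        div_self (pow_ne_zero _ hp0)]
    · intro x _ y _ hxy
      exact (div_left_inj' hp0).1 hxy
  obtain ⟨x, hx, hxp⟩ := hex
  obtain ⟨m, hm⟩ := (hS x hx).exists_per
  have hreach : ∃ m, (f d c)^[m] x = p := ⟨m, h2 _ _ hm hp⟩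
  have hspec := Nat.find_spec hreach
  have hmin := fun k (hk : k < Nat.find hreach) => Nat.find_min hreach hk
  obtain ⟨n, hn⟩ : ∃ n, Nat.find hreach = n := ⟨_, rfl⟩
  rw [hn] at hspec hmin
  have hn2 : 2 ≤ n := by
    rcases Nat.lt_or_ge n 2 with h | h
    · exfalso
      interval_cases n
      · apply hxp
        have : x = p := hspec
        rw [this, hfix]
      · exact hxp hspec
    · exact h
  obtain ⟨k, rfl⟩ : ∃ k, n = k + 2 := ⟨n - 2, by omega⟩
  have hu : (f d c)^[k + 1] x ≠ p := hmin (k + 1) (by omega)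
  have hu1 : f d c ((f d c)^[k + 1] x) = p := by
    rw [← Function.iterate_succ_apply' (f d c) (k + 1) x]
    exact hspec
  have hu2 : ((f d c)^[k + 1] x) ^ d = p ^ d := by
    have h3 : f d c ((f d c)^[k + 1] x) = f d c p := hu1.trans hfix.symm
    unfold f at h3 ⊢
    exact add_right_cancel h3
  refine ⟨p, (f d c)^[k + 1] x / p, (f d c)^[k] x, hp0, hfix, ?_, ?_, ?_⟩
  · rw [div_pow, hu2, div_self (pow_ne_zero _ hp0)]
  · intro h
    exact hu ((div_eq_one_iff_eq hp0).1 h)
  · rw [div_mul_cancel₀ _ hp0, Function.iterate_succ_apply']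
    rfl

end PowCyc
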