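import Pool.Agent.PowCyc.PerBound

/-!
# Strictly preperiodic points
-/

namespace PowCyc

section dyn

variable {K : Type*} [Field K] {d : ℕ} {c : K}

lemma per_map {x : K} (h : Per d c x) : Per d c (f d c x) := by
  obtain ⟨k, hk, hx⟩ := h
  refine ⟨k, hk, ?_⟩
  rw [← Function.iterate_succ_apply, Function.iterate_succ_apply', hx]

lemma per_iter {x : K} (h : Per d c x) (i : ℕ) : Per d c ((f d c)^[i] x) := by
  induction i with
  | zero => exact h
  | succ i ih => rw [Function.iterate_succ_apply']; exact per_map ih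

lemma per_preimage {x : K} (h : Per d c x) : ∃ y, Per d c y ∧ f d c y = x := by
  have h' := h
  obtain ⟨k, hk, hx⟩ := h
  refine ⟨(f d c)^[k - 1] x, per_iter h' _, ?_⟩
  have h1 : f d c ((f d c)^[k - 1] x) = (f d c)^[k - 1 + 1] x :=
    (Function.iterate_succ_apply' _ _ _).symm
  have : k - 1 + 1 = k := by omega
  rw [h1, this, hx]

lemma per_preimage_iter {x : K} (h : Per d c x) (m : ℕ) :
    ∃ y, Per d c y ∧ (f d c)^[m] y = x := by
  induction m with
  | zero => exact ⟨x, h, rfl⟩
  | succ m ih =>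
    obtain ⟨y, hy, hyx⟩ := ih
    obtain ⟨z, hz, hzy⟩ := per_preimage hy
    exact ⟨z, hz, by rw [Function.iterate_succ_apply, hzy, hyx]⟩

lemma pre_exists_per {x : K} (h : Pre d c x) : ∃ m : ℕ, Per d c ((f d c)^[m] x) := by
  obtain ⟨i, j, hij, heq⟩ : ∃ i j : ℕ, i < j ∧ (f d c)^[i] x = (f d c)^[j] x := by
    by_contra hcon
    push Not at hcon
    apply Set.infinite_range_of_injective _ h
    intro i j hij
    rcases lt_trichotomy i j with h1 | h1 | h1
    · exact absurd hij (hcon i j h1)
    · exact h1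
    · exact absurd hij.symm (hcon j i h1)
  refine ⟨i, j - i, by omega, ?_⟩
  rw [← Function.iterate_add_apply, Nat.sub_add_cancel hij.le, heq]

end dyn

/-- the last non-periodic point of a tail is minus a periodic point -/
lemma neg_of_map {d : ℕ} (hd : Even d) (hd0 : d ≠ 0) {c z : ℚ} (hz : ¬ Per d c z)
    (hf : Per d c (f d c z)) :
    ∃ y, Per d c y ∧ f d c y = f d c z ∧ z = -y := by
  obtain ⟨y, hy, hyz⟩ := per_preimage hf
  refine ⟨y, hy, hyz, ?_⟩
  have h1 : y ^ d = z ^ d := by
    have : y ^ d + c = z ^ d + c := hyz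
    linarith
  rcases (pow_eq_pow_iff_of_ne_zero hd0).mp h1 with h2 | ⟨h2, _⟩
  · rw [h2] at hy; exact absurd hy hz
  · rw [h2, neg_neg]

namespace Coord

variable {d : ℕ} {c : ℚ} {b : ℕ} {a : ℤ} {u : ℚ → ℤ} (H : Coord d c b a u)

include H

/-- a point of level `m ≥ 2` and the data of Section 6 -/
theorem no_tail (hd : d % 12 = 4) (h0 : ¬ Pre d c 0) {z : ℚ} (hz : Pre d c z) {m : ℕ}
    (hm : 2 ≤ m) (hmper : Per d c ((f d c)^[m] z))
    (hmin : ∀ i < m, ¬ Per d c ((f d c)^[i] z))
    (hQ : Qset d b = ∅ ∨ (4 ≤ m ∧ (Qset d b).card ≤ 1)) : False := by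
  have hd4 : 4 ∣ d := by omega
  have hd0 : d ≠ 0 := by omega
  have hd1 : 1 ≤ d := by omega
  have heven : Even d := even_iff_two_dvd.mpr (by omega)
  have hsucc : ∀ i, (f d c)^[i + 1] z = f d c ((f d c)^[i] z) :=
    fun i => Function.iterate_succ_apply' _ _ _
  -- the last non-periodic point
  have hlast : ¬ Per d c ((f d c)^[m - 1] z) := hmin _ (by omega)
  have hm1 : (f d c)^[m] z = f d c ((f d c)^[m - 1] z) := by
    rw [← hsucc]; congr 1; omega
  obtain ⟨y, hy, hfy, hzy⟩ := neg_of_map heven hd0 hlast (by rw [← hm1]; exact hmper)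
  have hyne : y ≠ 0 := by
    rintro rfl
    exact h0 hy.pre
  have hnegpre : Pre d c (-y) := by rw [← hzy]; exact hz.iter _
  have huneg : u (-y) = - u y := H.neg hy.pre hnegpre
  have hnegper : ¬ Per d c (-y) := by rw [← hzy]; exact hlast
  by_cases hone : ∀ y', Per d c y' → y' = y
  · -- a unique periodic point
    have hfix : f d c y = y := hone _ (per_map hy)
    set z' := (f d c)^[m - 2] z with hz'
    have hfz' : f d c z' = -y := by
      rw [hz', ← hsucc, ← hzy]; congr 1; omega
    have hz'pre : Pre d c z' := hz.iter _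
    have h1 := H.step_eq hd1 hz'pre
    have h2 := H.step_eq hd1 hy.pre
    rw [hfz', huneg] at h1
    rw [hfix] at h2
    have h3 : u z' ^ d = u y ^ d - 2 * (b : ℤ) ^ (d - 1) * u y := by linear_combination h2 - h1
    exact no_level_two d b hd H.bpos.ne' (u y) (u z') (H.hcop y hy.pre)
      (fun h => hyne (H.zero_of_u hy.pre h)) h3
  · push Not at hone
    obtain ⟨y', hy', hyy'⟩ := hone
    obtain ⟨x, hx, hxy'⟩ := per_preimage_iter hy' (m - 1)
    have hxsucc : ∀ i, (f d c)^[i + 1] x = f d c ((f d c)^[i] x) :=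
      fun i => Function.iterate_succ_apply' _ _ _
    -- the two orbits never meet
    have hne : ∀ i, (f d c)^[i] z ≠ (f d c)^[i] x := by
      intro i
      by_cases hi : i < m
      · intro h
        exact hmin i hi (by rw [h]; exact per_iter hx i)
      · push Not at hi
        obtain ⟨j, rfl⟩ := Nat.exists_eq_add_of_le hi
        have h1 : (f d c)^[m + j] z = (f d c)^[j + 1] y := by
          rw [add_comm m j, Function.iterate_add_apply, Function.iterate_succ_apply, hfy, hm1]
        have h2 : (f d c)^[m + j] x = (f d c)^[j + 1] y' := by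
          have : m + j = (j + 1) + (m - 1) := by omega
          rw [this, Function.iterate_add_apply, hxy']
        rw [h1, h2]
        exact fun h => hy.iter_ne hy' (Ne.symm hyy') (j + 1) h
    have hneu : ∀ i, u ((f d c)^[i] z) ≠ u ((f d c)^[i] x) := fun i h =>
      hne i (H.inj (hz.iter i) (hx.pre.iter i) h)
    -- good primes
    have hgood : ∀ p : ℕ, p.Prime → ¬ p ∣ b → ∀ j, j ≤ m - 1 →
        ¬ (p : ℤ) ∣ u ((f d c)^[m - 1 - j] z) - u ((f d c)^[m - 1 - j] x) := by
      intro p hp hb j
      induction j with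
      | zero =>
        intro _ h
        rw [Nat.sub_zero, hzy, hxy', huneg] at h
        apply (H.per_good hd4 hd0 hp hb hy hy' (Ne.symm hyy')).1
        have : u y + u y' = -(- u y - u y') := by ring
        rw [this]; exact (dvd_neg).mpr h
      | succ j ih =>
        intro hj h
        apply ih (by omega)
        have h1 := H.sub_pow hd1 (hz.iter (m - 1 - (j + 1))) (hx.pre.iter (m - 1 - (j + 1)))
        rw [← hsucc, ← hxsucc] at h1
        have h2 : m - 1 - (j + 1) + 1 = m - 1 - j := by omega
        rw [h2] at h1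
        have h3 : (p : ℤ) ∣ (b : ℤ) ^ (d - 1) *
            (u ((f d c)^[m - 1 - j] z) - u ((f d c)^[m - 1 - j] x)) := by
          rw [← h1]
          exact h.trans (sub_dvd_pow_sub_pow _ _ _)
        rcases (Nat.prime_iff_prime_int.mp hp).dvd_or_dvd h3 with h5 | h5
        · exact absurd (by exact_mod_cast (Nat.prime_iff_prime_int.mp hp).dvd_of_dvd_pow h5) hb
        · exact h5
    have hgood' : ∀ p : ℕ, p.Prime → ¬ p ∣ b → ∀ i, i ≤ m - 1 →
        ¬ (p : ℤ) ∣ u ((f d c)^[i] z) - u ((f d c)^[i] x) := by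
      intro p hp hb i hi
      have := hgood p hp hb (m - 1 - i) (by omega)
      have h2 : m - 1 - (m - 1 - i) = i := by omega
      rwa [h2] at this
    -- odd primes dividing b but not d
    have hbad : ∀ p : ℕ, p.Prime → p ≠ 2 → p ∣ b → ¬ p ∣ d → ∀ i,
        3 ∣ padicValInt p (u ((f d c)^[i] z) - u ((f d c)^[i] x)) := by
      intro p hp hp2 hb hpd i
      have h3 : 3 ∣ d - 1 := by omega
      exact h3.trans (orbit_dvd_sub d b a (fun i => u ((f d c)^[i] z))
        (fun i => u ((f d c)^[i] x)) (H.orb hd1 hz) (H.orb hd1 hx.pre)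
        (fun i => H.hcop _ (hz.iter i)) hneu H.bpos.ne' hd4 hd0 hp hp2 hb hpd i)
    -- the conclusion from one good index
    have hconcl : ∀ i, i + 1 ≤ m - 1 → (∀ q ∈ Qset d b,
        3 ∣ padicValInt q (u ((f d c)^[i + 1] z) - u ((f d c)^[i + 1] x))) → False := by
      intro i hi hq
      refine H.pow_key hd (hz.iter i) (hx.pre.iter i) ?_ h0 ?_ ?_
      · rw [← hsucc, ← hxsucc]; exact hne (i + 1)
      · intro p hp hb
        rw [← hsucc, ← hxsucc]; exact hgood' p hp hb (i + 1) hi
      · intro p hp hp2 hb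
        rw [← hsucc, ← hxsucc]
        by_cases hpd : p ∣ d
        · exact hq p ((mem_Qset hd0).mpr ⟨hp, hpd, hp2, hb⟩)
        · exact hbad p hp hp2 hb hpd (i + 1)
    rcases hQ with hQ | ⟨hm4, hQ⟩
    · exact hconcl 0 (by omega) (by rw [hQ]; simp)
    · by_cases hemp : Qset d b = ∅
      · exact hconcl 0 (by omega) (by rw [hemp]; simp)
      · have hc1 : (Qset d b).card = 1 := by
          have := Finset.card_pos.mpr (Finset.nonempty_iff_ne_empty.mpr hemp)
          omega
        obtain ⟨q, hq⟩ := Finset.card_eq_one.mp hc1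
        have hqm := (mem_Qset hd0).mp (by rw [hq]; exact Finset.mem_singleton_self q :
          q ∈ Qset d b)
        obtain ⟨A, hA1, hA2, hA3⟩ := orbit_count d b a (fun i => u ((f d c)^[i] z))
          (fun i => u ((f d c)^[i] x)) (H.orb hd1 hz) (H.orb hd1 hx.pre)
          (fun i => H.hcop _ (hz.iter i)) hneu H.bpos.ne' hd4 hd0 hqm.1 hqm.2.2.1 hqm.2.2.2
        have hone : ∃ i, i + 1 ≤ 3 ∧ 3 ∣ A (i + 1) := by
          by_cases h1 : A 1 = 0
          · exact ⟨0, by omega, by rw [zero_add, h1]; exact dvd_zero _⟩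
          · by_cases h2 : A 2 = 0
            · exact ⟨1, by omega, by rw [h2]; exact dvd_zero _⟩
            · have h3 := hA3 1 (by omega)
              have h4 := hA3 2 (by omega)
              norm_num at h3 h4
              have : A 3 % 3 = 0 ∨ A 2 % 3 = 0 ∨ A 1 % 3 = 0 := by omega
              rcases this with h5 | h5 | h5
              · exact ⟨2, by omega, Nat.dvd_of_mod_eq_zero h5⟩
              · exact ⟨1, by omega, Nat.dvd_of_mod_eq_zero h5⟩
              · exact ⟨0, by omega, Nat.dvd_of_mod_eq_zero h5⟩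
        obtain ⟨i, hi3, hi⟩ := hone
        refine hconcl i (by omega) ?_
        intro q' hq'
        rw [hq, Finset.mem_singleton] at hq'
        subst hq'
        have := hA1 (i + 1)
        rw [this]
        exact Dvd.dvd.mul_right hi _

end Coord

end PowCyc
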